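import Pool.Agent.W_7d29a1_Z.KrB
import Pool.Agent.W_7d29a1_Z.Defs

/-!
STORM Z: the polymer measure of `Defs.lean` in terms of the kernels of pieces. (helper36)
-/

namespace Pool.Agent.W_7d29a1_Z

open Finset Pool.Agent.W_7d29a1_F Pool.Agent.W_7d29a1_X MeasureTheory
open scoped ENNReal

noncomputable section

variable {μ : Measure ℝ}

/-- The positions of a path from the origin. -/
theorem ps_pos (S : Finset ℕ) (t : ℕ) : ps 0 0 0 S t = pos S t := by
  unfold ps pos
  rw [range_eq_Ico]
  simp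

/-- The weight of a path from the origin. -/
theorem pw_pth {s : ℝ} (η : Env) (N : ℕ) (S : Finset ℕ) : pw μ s 0 η 0 0 N S = pth μ s η N S := by
  unfold pw pth
  have hc : (S ∩ Ico 0 N).card = (S ∩ range N).card := by rw [range_eq_Ico]
  have h : Ioc 0 N = (range N).image fun i => i + 1 := by
    ext i
    simp only [mem_Ioc, mem_image, mem_range]
    constructor
    · intro hi
      exact ⟨i - 1, by omega, by omega⟩
    · rintro ⟨j, hj, rfl⟩
      omega
  rw [h, prod_image fun a _ b _ hab => by simpa using hab]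
  have e1 : ∀ i ∈ range N, Real.exp (η (((i + 1 : ℕ) : ℤ), ps 0 0 0 S (i + 1))) = Real.exp (η ((i : ℤ) + 1, pos S (i + 1))) := by
    intro i _
    rw [ps_pos]
    push_cast
    rfl
  rw [prod_congr rfl e1, hc]
  congr 1

theorem pcs_pos (N : ℕ) (y : ℤ) : pcs 0 0 0 N y = (range N).powerset.filter fun S => pos S N = y := by
  classical
  ext S
  rw [mem_pcs, mem_filter, mem_powerset, ps_pos, range_eq_Ico]

/-- The point to point weight from the origin. -/
theorem W_eq_Kf0 {s : ℝ} (η : Env) (N : ℕ) (y : ℤ) : W μ s η 0 N y = Kf μ s 0 η 0 0 N y := by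
  have h := W_eq_Kf (μ := μ) (s := s) η 0 0 N y
  rw [Nat.zero_add, zero_add] at h
  rw [← h]
  rfl

/-- The Gibbs weight. -/
theorem gp_eq (η : Env) (N : ℕ) (y : ℤ) (S : Finset ℕ) :
    gp μ η N y S = if pos S N = y then pw μ 0 0 η 0 0 N S / Kf μ 0 0 η 0 0 N y else 0 := by
  unfold gp
  rw [pw_pth, W_eq_Kf0]

theorem gp_nonneg36 (η : Env) (N : ℕ) (y : ℤ) (S : Finset ℕ) : 0 ≤ gp μ η N y S := by
  rw [gp_eq]
  split_ifs
  · exact div_nonneg (pw_nonneg _ _ _ _ _ _) (Kf_nonneg _ _ _ _ _ _)
  · exact le_rfl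

theorem gp_meas36 (N : ℕ) (y : ℤ) (S : Finset ℕ) : Measurable fun η : Env => gp μ η N y S := by
  simp_rw [gp_eq]
  split_ifs
  · exact (pw_meas 0 0 0 N S).div (Kf_meas 0 0 0 N y)
  · exact measurable_const

/-- The mass of a family of weights. -/
theorem sum_gp_mul (η : Env) (N : ℕ) (y : ℤ) (a : Finset ℕ → ℝ) :
    ∑ S ∈ (range N).powerset, a S * gp μ η N y S =
      ∑ S ∈ pcs 0 0 0 N y, a S * (pw μ 0 0 η 0 0 N S / Kf μ 0 0 η 0 0 N y) := by
  classical
  rw [pcs_pos, sum_filter]
  refine sum_congr rfl fun S _ => ?_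
  rw [gp_eq]
  split_ifs
  · rfl
  · rw [mul_zero]

/-- The total mass is at most one. -/
theorem sum_gp_le_one (η : Env) (N : ℕ) (y : ℤ) : ∑ S ∈ (range N).powerset, gp μ η N y S ≤ 1 := by
  have h := sum_gp_mul (μ := μ) η N y fun _ => 1
  simp only [one_mul] at h
  rw [h, ← sum_div]
  exact div_self_le_one _

theorem gp_le_one36 (η : Env) (N : ℕ) (y : ℤ) {S : Finset ℕ} (hS : S ∈ (range N).powerset) : gp μ η N y S ≤ 1 :=
  (single_le_sum (f := fun S => gp μ η N y S) (fun _ _ => gp_nonneg36 _ _ _ _) hS).trans (sum_gp_le_one η N y)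

/-- Masses with weights in `[0, 1]` are in `[0, 1]`. -/
theorem sum_gp_mul_le_one (η : Env) (N : ℕ) (y : ℤ) {a : Finset ℕ → ℝ} (ha : ∀ S, a S ≤ 1) :
    ∑ S ∈ (range N).powerset, a S * gp μ η N y S ≤ 1 :=
  (sum_le_sum fun S _ => mul_le_of_le_one_left (gp_nonneg36 η N y S) (ha S)).trans (sum_gp_le_one η N y)

theorem P1_mono36 {N : ℕ} {y : ℤ} {A B : Env → Finset ℕ → Prop} (h : ∀ η S, S ⊆ range N → A η S → B η S) : P1 μ N y A ≤ P1 μ N y B := by
  unfold P1
  refine sum_le_sum fun S hS => measure_mono fun η hη => h η S (mem_powerset.1 hS) hη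

theorem P1_or36 {N : ℕ} {y : ℤ} (A B : Env → Finset ℕ → Prop) :
    P1 μ N y (fun η S => A η S ∨ B η S) ≤ P1 μ N y A + P1 μ N y B := by
  unfold P1
  rw [← sum_add_distrib]
  refine sum_le_sum fun S _ => ?_
  exact measure_union_le _ _

open scoped Classical in
/-- The annealed probability of a measurable event. -/
theorem P1_eq36 [IsProbabilityMeasure μ] {N : ℕ} {y : ℤ} {A : Env → Finset ℕ → Prop} (hA : Ms A) :
    P1 μ N y A = ENNReal.ofReal (∫ η, ∑ S ∈ (range N).powerset, (if A η S then (1 : ℝ) else 0) * gp μ η N y S ∂(law μ)) := by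
  have hm : ∀ S, Measurable fun η : Env => (if A η S then (1 : ℝ) else 0) * gp μ η N y S := fun S =>
    (Measurable.ite (hA S) measurable_const measurable_const).mul (gp_meas36 N y S)
  have h0 : ∀ S (η : Env), 0 ≤ (if A η S then (1 : ℝ) else 0) * gp μ η N y S := fun S η =>
    mul_nonneg (by split_ifs <;> norm_num) (gp_nonneg36 η N y S)
  rw [ofReal_integral_eq_lintegral_ofReal]
  · unfold P1
    rw [lintegral_congr fun η => ENNReal.ofReal_sum_of_nonneg fun S _ => h0 S η]
    rw [lintegral_finsetSum _ fun S _ => (hm S).ennreal_ofReal]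
    refine sum_congr rfl fun S _ => ?_
    rw [withDensity_apply _ (hA S), ← lintegral_indicator (hA S)]
    refine lintegral_congr fun η => ?_
    by_cases hη : A η S
    · rw [Set.indicator_of_mem (show η ∈ {η | A η S} from hη), if_pos hη, one_mul]
    · rw [Set.indicator_of_notMem (show η ∉ {η | A η S} from hη), if_neg hη, zero_mul, ENNReal.ofReal_zero]
  · refine Integrable.of_bound (Finset.measurable_sum _ fun S _ => hm S).aestronglyMeasurable 1 (Filter.Eventually.of_forall fun η => ?_)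
    rw [Real.norm_eq_abs, abs_of_nonneg (sum_nonneg fun S _ => h0 S η)]
    exact sum_gp_mul_le_one η N y fun S => by split_ifs <;> norm_num
  · exact Filter.Eventually.of_forall fun η => sum_nonneg fun S _ => h0 S η

open scoped Classical in
/-- The indicator of a proposition. -/
def ic (p : Prop) : ℝ := if p then 1 else 0

theorem ic_pos {p : Prop} (h : p) : ic p = 1 := by
  unfold ic
  exact if_pos h

theorem ic_neg {p : Prop} (h : ¬p) : ic p = 0 := by
  unfold ic
  exact if_neg h

theorem ic_nonneg (p : Prop) : 0 ≤ ic p := by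
  by_cases h : p
  · rw [ic_pos h]; exact zero_le_one
  · rw [ic_neg h]

theorem ic_le_one (p : Prop) : ic p ≤ 1 := by
  by_cases h : p
  · rw [ic_pos h]
  · rw [ic_neg h]; exact zero_le_one

theorem ic_meas {A : Env → Prop} (h : MeasurableSet {η | A η}) : Measurable fun η => ic (A η) := by
  classical
  have e : (fun η => ic (A η)) = fun η => if A η then (1 : ℝ) else 0 := by
    funext η
    by_cases hη : A η
    · rw [ic_pos hη, if_pos hη]
    · rw [ic_neg hη, if_neg hη]
  rw [e]
  exact Measurable.ite h measurable_const measurable_const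

/-- The annealed probability of a measurable event. -/
theorem P1_ic [IsProbabilityMeasure μ] {N : ℕ} {y : ℤ} {A : Env → Finset ℕ → Prop} (hA : Ms A) :
    P1 μ N y A = ENNReal.ofReal (∫ η, ∑ S ∈ (range N).powerset, ic (A η S) * gp μ η N y S ∂(law μ)) := P1_eq36 hA

end

end Pool.Agent.W_7d29a1_Z
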