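import Mathlib

/-!
# STORM Z, (R14): centred operators of a `ℤ`-action (one or two patterns), balanced signs, Hoeffding

One pattern: `f : ℤ → ℝ`, `a ↦ f_b (a)`.
* `D s f a = f (a + s) + f (a - s) - 2 f a`, `al s f a = f (a + s) - f (a - s)`.
Two patterns: `f : ℤ → ℤ → ℝ`.
* `D1, D2, al1, al2`; `aD = al1 D2` (odd in the first, even in the second pattern), `Da = D1 al2`.

Exact identities: `quarter` (law `{-1,0,0,1}`), `eighth` (law `{-1,1} × {-1,0,0,1}`), `split`
(`al` of the union of two patterns), `mean_*` (means of `f (V)`), `unit_eq` (`f 1 - f 0 = (al + D) / 2`).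

Finite averages: `avg F = (∑ v, F v) / card`; `V b` balanced over the pairs of blocks
(`V (2j+1) = - V (2j)`), `hoeff`, `hoeff_pairs`.
-/

set_option autoImplicit false

namespace W_7d29a1_Z.CtrOp77

open scoped BigOperators
open Finset

noncomputable section

/-! ## One pattern -/

/-- The centred second difference. -/
def D (s : ℤ) (f : ℤ → ℝ) (a : ℤ) : ℝ := f (a + s) + f (a - s) - 2 * f a

/-- The centred first difference. -/
def al (s : ℤ) (f : ℤ → ℝ) (a : ℤ) : ℝ := f (a + s) - f (a - s)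

lemma D_neg (s : ℤ) (f : ℤ → ℝ) (a : ℤ) : D (-s) f a = D s f a := by
  simp only [D, sub_neg_eq_add, ← sub_eq_add_neg]; ring

lemma al_neg (s : ℤ) (f : ℤ → ℝ) (a : ℤ) : al (-s) f a = -al s f a := by
  simp only [al, sub_neg_eq_add, ← sub_eq_add_neg]; ring

/-- `f (a + s) - f a = (al + D) / 2`. -/
lemma unit_eq (s : ℤ) (f : ℤ → ℝ) (a : ℤ) : f (a + s) - f a = (al s f a + D s f a) / 2 := by
  simp only [al, D]; ring

lemma unit_eq' (s : ℤ) (f : ℤ → ℝ) (a : ℤ) : f (a - s) - f a = (-al s f a + D s f a) / 2 := by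
  simp only [al, D]; ring

/-- The quarter identity. -/
lemma quarter (s : ℤ) (f : ℤ → ℝ) (a : ℤ) :
    (D s f (a - s) + D s f a + D s f a + D s f (a + s)) / 4 = D (2 * s) f a / 4 := by
  have h1 : a - s + s = a := by ring
  have h2 : a - s - s = a - 2 * s := by ring
  have h3 : a + s + s = a + 2 * s := by ring
  have h4 : a + s - s = a := by ring
  simp only [D, h1, h2, h3, h4]; ring

/-- The half identity. -/
lemma half (s : ℤ) (f : ℤ → ℝ) (a : ℤ) :
    (al s f (a - s) + al s f (a + s)) / 2 = al (2 * s) f a / 2 := by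
  have h1 : a - s + s = a := by ring
  have h2 : a - s - s = a - 2 * s := by ring
  have h3 : a + s + s = a + 2 * s := by ring
  have h4 : a + s - s = a := by ring
  simp only [al, h1, h2, h3, h4]; ring

/-- Mean of `f (V) - f 0` for the law `{-s, 0, 0, s}`. -/
lemma mean_quarter (s : ℤ) (f : ℤ → ℝ) (a : ℤ) :
    (f (a - s) + f a + f a + f (a + s)) / 4 - f a = D s f a / 4 := by
  simp only [D]; ring

lemma mean_half (s : ℤ) (f : ℤ → ℝ) (a : ℤ) :
    (f (a - s) + f (a + s)) / 2 - f a = D s f a / 2 := by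
  simp only [D]; ring

/-! ## Two patterns -/

/-- The second difference in the first pattern. -/
def D1 (s : ℤ) (f : ℤ → ℤ → ℝ) (a b : ℤ) : ℝ := f (a + s) b + f (a - s) b - 2 * f a b

/-- The second difference in the second pattern. -/
def D2 (s : ℤ) (f : ℤ → ℤ → ℝ) (a b : ℤ) : ℝ := f a (b + s) + f a (b - s) - 2 * f a b

/-- The first difference in the first pattern. -/
def al1 (s : ℤ) (f : ℤ → ℤ → ℝ) (a b : ℤ) : ℝ := f (a + s) b - f (a - s) b

/-- The first difference in the second pattern. -/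
def al2 (s : ℤ) (f : ℤ → ℤ → ℝ) (a b : ℤ) : ℝ := f a (b + s) - f a (b - s)

/-- The first difference of the union of the patterns. -/
def alU (s : ℤ) (f : ℤ → ℤ → ℝ) (a b : ℤ) : ℝ := f (a + s) (b + s) - f (a - s) (b - s)

/-- The second difference of the union of the patterns. -/
def DU (s : ℤ) (f : ℤ → ℤ → ℝ) (a b : ℤ) : ℝ := f (a + s) (b + s) + f (a - s) (b - s) - 2 * f a b

/-- The second difference in the direction `(1, -1)`. -/
def DA (s : ℤ) (f : ℤ → ℤ → ℝ) (a b : ℤ) : ℝ := f (a + s) (b - s) + f (a - s) (b + s) - 2 * f a b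

/-- Odd in the first, even in the second pattern. -/
def aD (s : ℤ) (f : ℤ → ℤ → ℝ) (a b : ℤ) : ℝ := al1 s (D2 s f) a b

/-- Even in the first, odd in the second pattern. -/
def Da (s : ℤ) (f : ℤ → ℤ → ℝ) (a b : ℤ) : ℝ := al2 s (D1 s f) a b

/-- Even in both patterns. -/
def DD (s : ℤ) (f : ℤ → ℤ → ℝ) (a b : ℤ) : ℝ := D1 s (D2 s f) a b

lemma aD_swap (s : ℤ) (f : ℤ → ℤ → ℝ) (a b : ℤ) :
    Da s f a b = aD s (fun x y => f y x) b a := by
  simp only [Da, aD, al1, al2, D1, D2]

lemma D1_eq (s : ℤ) (f : ℤ → ℤ → ℝ) (a b : ℤ) : D1 s f a b = D s (fun x => f x b) a := rfl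

lemma D2_eq (s : ℤ) (f : ℤ → ℤ → ℝ) (a b : ℤ) : D2 s f a b = D s (fun y => f a y) b := rfl

lemma al1_eq (s : ℤ) (f : ℤ → ℤ → ℝ) (a b : ℤ) : al1 s f a b = al s (fun x => f x b) a := rfl

lemma al2_eq (s : ℤ) (f : ℤ → ℤ → ℝ) (a b : ℤ) : al2 s f a b = al s (fun y => f a y) b := rfl

/-- The union of the patterns is the diagonal. -/
lemma DU_eq (s : ℤ) (f : ℤ → ℤ → ℝ) (a b : ℤ) :
    DU s f a b = D s (fun x => f (a + x) (b + x)) 0 := by
  simp only [DU, D, zero_add, zero_sub, add_zero, ← sub_eq_add_neg]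

lemma DA_eq (s : ℤ) (f : ℤ → ℤ → ℝ) (a b : ℤ) :
    DA s f a b = D s (fun x => f (a + x) (b - x)) 0 := by
  simp only [DA, D, zero_add, zero_sub, add_zero, sub_zero, ← sub_eq_add_neg, sub_neg_eq_add]

lemma alU_eq (s : ℤ) (f : ℤ → ℤ → ℝ) (a b : ℤ) :
    alU s f a b = al s (fun x => f (a + x) (b + x)) 0 := by
  simp only [alU, al, zero_add, zero_sub, ← sub_eq_add_neg]

/-- **(R14)** splitting of the odd difference. -/
lemma split (s : ℤ) (f : ℤ → ℤ → ℝ) (a b : ℤ) :
    alU s f a b = al1 s f a b + al2 s f a b + (aD s f a b + Da s f a b) / 2 := by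
  simp only [alU, al1, al2, aD, Da, D1, D2]; ring

/-- The even parts. -/
lemma DD_eq (s : ℤ) (f : ℤ → ℤ → ℝ) (a b : ℤ) :
    DD s f a b = DU s f a b + DA s f a b - 2 * D1 s f a b - 2 * D2 s f a b := by
  simp only [DD, DU, DA, D1, D2]; ring

/-- Splitting of the even difference. -/
lemma split_even (s : ℤ) (f : ℤ → ℤ → ℝ) (a b : ℤ) :
    DU s f a b = D1 s f a b + D2 s f a b + DD s f a b / 2 + al1 s (al2 s f) a b / 2 := by
  simp only [DD, DU, D1, D2, al1, al2]; ring

/-- **(R14)** the eighth identity: law `{-s, s}` in the first, `{-s, 0, 0, s}` in the second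
pattern. -/
lemma eighth (s : ℤ) (f : ℤ → ℤ → ℝ) (a b : ℤ) :
    ((aD s f (a - s) (b - s) + aD s f (a - s) b + aD s f (a - s) b + aD s f (a - s) (b + s))
      + (aD s f (a + s) (b - s) + aD s f (a + s) b + aD s f (a + s) b + aD s f (a + s) (b + s))) / 8
      = aD (2 * s) f a b / 8 := by
  have h1 : a - s + s = a := by ring
  have h2 : a - s - s = a - 2 * s := by ring
  have h3 : a + s + s = a + 2 * s := by ring
  have h4 : a + s - s = a := by ring
  have k1 : b - s + s = b := by ring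
  have k2 : b - s - s = b - 2 * s := by ring
  have k3 : b + s + s = b + 2 * s := by ring
  have k4 : b + s - s = b := by ring
  simp only [aD, al1, D2, h1, h2, h3, h4, k1, k2, k3, k4]; ring

/-- The mean of `f (V) - f 0` for the law of `eighth`. -/
lemma mean_eighth (s : ℤ) (f : ℤ → ℤ → ℝ) (a b : ℤ) :
    ((f (a - s) (b - s) + f (a - s) b + f (a - s) b + f (a - s) (b + s))
      + (f (a + s) (b - s) + f (a + s) b + f (a + s) b + f (a + s) (b + s))) / 8 - f a b
      = D1 s f a b / 4 + (DU s f a b + DA s f a b) / 8 := by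
  simp only [D1, DU, DA]; ring

/-! ## Finite averages and Hoeffding -/

/-- The average over a finite type. -/
def avg {α : Type*} [Fintype α] (F : α → ℝ) : ℝ := (∑ v, F v) / Fintype.card α

/-- The indicator. -/
def ind (p : Prop) : ℝ := @ite ℝ p (Classical.propDecidable p) 1 0

lemma ind_le_one (p : Prop) : ind p ≤ 1 := by
  unfold ind; split <;> norm_num

lemma ind_nonneg (p : Prop) : 0 ≤ ind p := by
  unfold ind; split <;> norm_num

section avg

variable {α : Type*} [Fintype α]

lemma avg_mono {F G : α → ℝ} (h : ∀ v, F v ≤ G v) : avg F ≤ avg G := by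
  unfold avg
  exact div_le_div_of_nonneg_right (sum_le_sum fun v _ => h v) (Nat.cast_nonneg _)

lemma avg_add (F G : α → ℝ) : avg (fun v => F v + G v) = avg F + avg G := by
  unfold avg; rw [sum_add_distrib, add_div]

lemma avg_mul_left (c : ℝ) (F : α → ℝ) : avg (fun v => c * F v) = c * avg F := by
  unfold avg; rw [← mul_sum, mul_div_assoc]

lemma avg_const [Nonempty α] (c : ℝ) : avg (fun _ : α => c) = c := by
  unfold avg
  rw [sum_const, card_univ, nsmul_eq_mul]
  have : (Fintype.card α : ℝ) ≠ 0 := by exact_mod_cast Fintype.card_ne_zero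
  field_simp

lemma avg_sub (F G : α → ℝ) : avg (fun v => F v - G v) = avg F - avg G := by
  unfold avg; rw [sum_sub_distrib, sub_div]

lemma avg_nonneg {F : α → ℝ} (h : ∀ v, 0 ≤ F v) : 0 ≤ avg F := by
  unfold avg
  exact div_nonneg (sum_nonneg fun v _ => h v) (Nat.cast_nonneg _)

lemma avg_sum {κ : Type*} (s : Finset κ) (F : κ → α → ℝ) :
    avg (fun v => ∑ i ∈ s, F i v) = ∑ i ∈ s, avg (F i) := by
  unfold avg
  rw [sum_comm, sum_div]

end avg

/-- The average of a product of functions of different coordinates. -/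
lemma avg_prod {ι W : Type*} [Fintype ι] [DecidableEq ι] [Fintype W] (g : ι → W → ℝ) :
    avg (fun v : ι → W => ∏ j, g j (v j)) = ∏ j, avg (g j) := by
  classical
  unfold avg
  rw [prod_div_distrib, Finset.prod_univ_sum, Fintype.piFinset_univ]
  congr 1
  simp

/-- The average over one coordinate. -/
lemma avg_coord {ι W : Type*} [Fintype ι] [DecidableEq ι] [Fintype W] [Nonempty W]
    (i : ι) (g : W → ℝ) : avg (fun v : ι → W => g (v i)) = avg g := by
  have h := avg_prod (fun j w => if j = i then g w else 1)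
  have h1 : ∀ v : ι → W, (∏ j, if j = i then g (v j) else 1) = g (v i) := by
    intro v
    rw [prod_ite_eq' univ i (fun j => g (v j))]
    simp
  simp only [h1] at h
  rw [h]
  have h2 : ∀ j, avg (fun w => if j = i then g w else 1) = if j = i then avg g else 1 := by
    intro j
    by_cases hj : j = i
    · simp [hj]
    · simp only [hj, if_false]
      exact avg_const 1
  simp only [h2]
  rw [prod_ite_eq' univ i (fun _ => avg g)]
  simp

/-- Hoeffding's lemma for finite averages. -/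
lemma mgf_le {W : Type*} [Fintype W] [Nonempty W] (x : W → ℝ) {c : ℝ} (hx : ∀ w, |x w| ≤ c)
    (h0 : avg x = 0) (t : ℝ) : avg (fun w => Real.exp (t * x w)) ≤ Real.exp (t ^ 2 * c ^ 2 / 2) := by
  have hc : 0 ≤ c := (abs_nonneg _).trans (hx (Classical.arbitrary W))
  rcases hc.eq_or_lt with h | h
  · have hx0 : ∀ w, x w = 0 := fun w => by
      have := hx w
      rw [← h] at this
      exact abs_nonpos_iff.1 this
    simp only [hx0, mul_zero, Real.exp_zero, avg_const, ← h]
    simp
  · have h1 : ∀ w, Real.exp (t * x w) ≤ Real.cosh (t * c) + Real.sinh (t * c) / c * x w := by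
      intro w
      have h2 : |x w / c| ≤ 1 := by
        rw [abs_div, abs_of_pos h, div_le_one h]
        exact hx w
      have h3 := Real.exp_mul_le_cosh_add_mul_sinh h2 (t * c)
      have h4 : x w / c * (t * c) = t * x w := by field_simp
      rw [h4] at h3
      calc _ ≤ _ := h3
        _ = _ := by ring
    calc avg (fun w => Real.exp (t * x w))
        ≤ avg (fun w => Real.cosh (t * c) + Real.sinh (t * c) / c * x w) := avg_mono h1
      _ = Real.cosh (t * c) := by
          rw [avg_add, avg_const, avg_mul_left, h0, mul_zero, add_zero]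
      _ ≤ Real.exp ((t * c) ^ 2 / 2) := Real.cosh_le_exp_half_sq _
      _ = _ := by rw [mul_pow]

/-- One sided Hoeffding for finite products. -/
lemma hoeff_one {ι W : Type*} [Fintype ι] [DecidableEq ι] [Fintype W] [Nonempty W]
    (x : ι → W → ℝ) (c : ι → ℝ) (hx : ∀ j w, |x j w| ≤ c j) (h0 : ∀ j, avg (x j) = 0)
    {u : ℝ} (hu : 0 ≤ u) :
    avg (fun v : ι → W => ind (u < ∑ j, x j (v j))) ≤ Real.exp (-(u ^ 2 / (2 * ∑ j, c j ^ 2))) := by
  classical
  set s := ∑ j, c j ^ 2 with hs
  have hs0 : 0 ≤ s := sum_nonneg fun j _ => sq_nonneg _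
  rcases hs0.eq_or_lt with h | h
  · rw [← h]
    simp only [mul_zero, div_zero, neg_zero, Real.exp_zero]
    calc _ ≤ avg (fun _ : ι → W => (1 : ℝ)) := avg_mono fun v => ind_le_one _
      _ = 1 := avg_const 1
  · set t := u / s with ht
    have ht0 : 0 ≤ t := div_nonneg hu hs0
    have h1 : ∀ v : ι → W, ind (u < ∑ j, x j (v j))
        ≤ Real.exp (-(t * u)) * ∏ j, Real.exp (t * x j (v j)) := by
      intro v
      rw [← Real.exp_sum, ← Real.exp_add, ← mul_sum]
      unfold ind
      split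
      · rename_i hh
        rw [← Real.exp_zero]
        apply Real.exp_le_exp.2
        nlinarith
      · exact (Real.exp_pos _).le
    calc avg (fun v : ι → W => ind (u < ∑ j, x j (v j)))
        ≤ avg (fun v : ι → W => Real.exp (-(t * u)) * ∏ j, Real.exp (t * x j (v j))) := avg_mono h1
      _ = Real.exp (-(t * u)) * ∏ j, avg (fun w => Real.exp (t * x j w)) := by
          rw [avg_mul_left, avg_prod (fun j w => Real.exp (t * x j w))]
      _ ≤ Real.exp (-(t * u)) * ∏ j, Real.exp (t ^ 2 * c j ^ 2 / 2) := by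
          refine mul_le_mul_of_nonneg_left ?_ (Real.exp_pos _).le
          exact prod_le_prod (fun j _ => avg_nonneg fun w => (Real.exp_pos _).le)
            fun j _ => mgf_le (x j) (hx j) (h0 j) t
      _ = Real.exp (-(u ^ 2 / (2 * s))) := by
          rw [← Real.exp_sum, ← Real.exp_add]
          congr 1
          have : ∑ j, t ^ 2 * c j ^ 2 / 2 = t ^ 2 * s / 2 := by
            rw [hs, mul_sum, sum_div]
          rw [this, ht]
          field_simp
          ring

/-- **Hoeffding** for finite products. -/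
theorem hoeff {ι W : Type*} [Fintype ι] [DecidableEq ι] [Fintype W] [Nonempty W]
    (ψ : ι → W → ℝ) (c : ι → ℝ) (hc : ∀ j w, |ψ j w - avg (ψ j)| ≤ c j) {u : ℝ} (hu : 0 ≤ u) :
    avg (fun v : ι → W => ind (u < |∑ j, (ψ j (v j) - avg (ψ j))|))
      ≤ 2 * Real.exp (-(u ^ 2 / (2 * ∑ j, c j ^ 2))) := by
  have h0 : ∀ j, avg (fun w => ψ j w - avg (ψ j)) = 0 := fun j => by
    rw [avg_sub, avg_const, sub_self]
  have h0' : ∀ j, avg (fun w => -(ψ j w - avg (ψ j))) = 0 := fun j => by
    have := avg_mul_left (-1) (fun w => ψ j w - avg (ψ j))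
    simp only [neg_one_mul] at this
    rw [this, h0 j, neg_zero]
  have h1 := hoeff_one (fun j w => ψ j w - avg (ψ j)) c hc h0 hu
  have h2 := hoeff_one (fun j w => -(ψ j w - avg (ψ j))) c
    (fun j w => by rw [abs_neg]; exact hc j w) h0' hu
  have h3 : ∀ v : ι → W, ind (u < |∑ j, (ψ j (v j) - avg (ψ j))|)
      ≤ ind (u < ∑ j, (ψ j (v j) - avg (ψ j))) + ind (u < ∑ j, -(ψ j (v j) - avg (ψ j))) := by
    intro v
    rw [sum_neg_distrib]
    set X := ∑ j, (ψ j (v j) - avg (ψ j))
    by_cases hX : u < |X|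
    · rcases lt_abs.1 hX with h | h
      · have e1 : ind (u < X) = 1 := by unfold ind; simp [h]
        rw [e1]
        linarith [ind_le_one (u < |X|), ind_nonneg (u < -X)]
      · have e1 : ind (u < -X) = 1 := by unfold ind; simp [h]
        rw [e1]
        linarith [ind_le_one (u < |X|), ind_nonneg (u < X)]
    · have e1 : ind (u < |X|) = 0 := by unfold ind; simp [hX]
      rw [e1]
      linarith [ind_nonneg (u < X), ind_nonneg (u < -X)]
  calc _ ≤ avg (fun v : ι → W => ind (u < ∑ j, (ψ j (v j) - avg (ψ j)))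
          + ind (u < ∑ j, -(ψ j (v j) - avg (ψ j)))) := avg_mono h3
    _ = _ := avg_add _ _
    _ ≤ _ := by linarith

/-! ## Pairs of blocks -/

/-- The symbol of the pair which contains the block `b` (a fixed symbol if there is no such pair). -/
def sy {W : Type*} [Nonempty W] {n : ℕ} (v : Fin n → W) (b : ℕ) : W :=
  if h : b / 2 < n then v ⟨b / 2, h⟩ else Classical.arbitrary W

/-- **Hoeffding over pairs**: `ψ b w` = the contribution of the block `b` if the symbol of its pair is
`w`; the blocks of `g` belong to the pairs `0, …, n - 1`. -/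
theorem hoeff_pairs {W : Type*} [Fintype W] [Nonempty W] (n : ℕ) (g : Finset ℕ)
    (hg : ∀ b ∈ g, b / 2 < n) (ψ : ℕ → W → ℝ) (c : ℝ)
    (hc : ∀ b ∈ g, ∀ w, |ψ b w - avg (ψ b)| ≤ c) {u : ℝ} (hu : 0 ≤ u) :
    avg (fun v : Fin n → W => ind (u < |∑ b ∈ g, (ψ b (sy v b) - avg (ψ b))|))
      ≤ 2 * Real.exp (-(u ^ 2 / (4 * (g.card * c ^ 2)))) := by
  classical
  -- the contribution of the pair `j`
  set P : ℕ → Finset ℕ := fun j => g.filter (fun b => b / 2 = j) with hP
  have hk2 : ∀ j, (P j).card ≤ 2 := by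
    intro j
    have hsub : P j ⊆ {2 * j, 2 * j + 1} := by
      intro b hb
      have := (mem_filter.1 hb).2
      simp only [mem_insert, mem_singleton]
      omega
    exact (card_le_card hsub).trans card_le_two
  have hfib : ∀ F : ℕ → ℝ, ∑ b ∈ g, F b = ∑ j : Fin n, ∑ b ∈ P j, F b := by
    intro F
    rw [← sum_fiberwise_of_maps_to (s := g) (t := range n) (g := fun b => b / 2)
      (fun b hb => mem_range.2 (hg b hb)), Finset.sum_range]
  have havg : ∀ j : Fin n, avg (fun w => ∑ b ∈ P j, ψ b w) = ∑ b ∈ P j, avg (ψ b) :=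
    fun j => avg_sum _ _
  have hsum : ∀ v : Fin n → W, ∑ b ∈ g, (ψ b (sy v b) - avg (ψ b))
      = ∑ j : Fin n, ((∑ b ∈ P j, ψ b (v j)) - avg (fun w => ∑ b ∈ P j, ψ b w)) := by
    intro v
    rw [hfib]
    refine sum_congr rfl fun j _ => ?_
    rw [havg, ← sum_sub_distrib]
    refine sum_congr rfl fun b hb => ?_
    have hbj : b / 2 = j := (mem_filter.1 hb).2
    have : sy v b = v j := by
      unfold sy
      have hlt : b / 2 < n := by rw [hbj]; exact j.2
      rw [dif_pos hlt]
      congr 1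
      exact Fin.ext hbj
    rw [this]
  have hcard : (g.card : ℝ) = ∑ j : Fin n, ((P j).card : ℝ) := by
    have := hfib (fun _ => 1)
    simpa using this
  have key := hoeff (fun (j : Fin n) w => ∑ b ∈ P j, ψ b w)
    (fun j => √(2 * ((P j).card : ℝ)) * |c|) (fun j w => by
      rw [havg, ← sum_sub_distrib]
      have h1 : |∑ b ∈ P j, (ψ b w - avg (ψ b))| ≤ ((P j).card : ℝ) * |c| := by
        refine (abs_sum_le_sum_abs _ _).trans ?_
        rw [← nsmul_eq_mul]
        refine sum_le_card_nsmul _ _ _ fun b hb => ?_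
        exact (hc b (mem_filter.1 hb).1 w).trans (le_abs_self c)
      refine h1.trans (mul_le_mul_of_nonneg_right ?_ (abs_nonneg c))
      apply Real.le_sqrt_of_sq_le
      have h2 : ((P j).card : ℝ) ≤ 2 := by exact_mod_cast hk2 j
      have h3 : (0 : ℝ) ≤ ((P j).card : ℝ) := Nat.cast_nonneg _
      nlinarith) hu
  have hS : ∑ j : Fin n, (√(2 * ((P j).card : ℝ)) * |c|) ^ 2 = 2 * (g.card * c ^ 2) := by
    have : ∀ j : Fin n, (√(2 * ((P j).card : ℝ)) * |c|) ^ 2 = 2 * ((P j).card : ℝ) * c ^ 2 := by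
      intro j
      rw [mul_pow, Real.sq_sqrt (by positivity), sq_abs]
    simp only [this]
    rw [hcard, ← sum_mul, ← mul_sum, mul_assoc]
  rw [hS] at key
  simp only [hsum]
  calc _ ≤ _ := key
    _ = _ := by
      congr 3
      ring

/-! ## Balanced signs -/

/-- The values of the symmetric law `{-1, 0, 0, 1}`. -/
def q4 (i : Fin 4) : ℤ := if i = 0 then -1 else if i = 3 then 1 else 0

/-- The values of the symmetric law `{-1, 1}`. -/
def q2 (i : Fin 2) : ℤ := if i = 0 then -1 else 1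

lemma abs_q4 (i : Fin 4) : |q4 i| ≤ 1 := by
  unfold q4; split
  · norm_num
  · split <;> norm_num

lemma abs_q2 (i : Fin 2) : |q2 i| ≤ 1 := by
  unfold q2; split <;> norm_num

/-- The sign of a block in its pair. -/
def sg (b : ℕ) : ℤ := if b % 2 = 0 then 1 else -1

lemma sg_pair (j : ℕ) : sg (2 * j + 1) = -sg (2 * j) := by
  unfold sg
  have h1 : (2 * j + 1) % 2 = 1 := by omega
  have h2 : (2 * j) % 2 = 0 := by omega
  rw [h1, h2]
  norm_num

lemma sg_cases (b : ℕ) : sg b = 1 ∨ sg b = -1 := by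
  unfold sg; split <;> simp

lemma sy_pair {W : Type*} [Nonempty W] {n : ℕ} (v : Fin n → W) (j : ℕ) :
    sy v (2 * j + 1) = sy v (2 * j) := by
  unfold sy
  have h : (2 * j + 1) / 2 = 2 * j / 2 := by omega
  simp only [h]

lemma avg_fin4 (F : Fin 4 → ℝ) : avg F = (F 0 + F 1 + F 2 + F 3) / 4 := by
  unfold avg; rw [Fin.sum_univ_four, Fintype.card_fin]; norm_num

lemma avg_fin2 (F : Fin 2 → ℝ) : avg F = (F 0 + F 1) / 2 := by
  unfold avg; rw [Fin.sum_univ_two, Fintype.card_fin]; norm_num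

lemma avg_pair {α β : Type*} [Fintype α] [Fintype β] (F : α × β → ℝ) :
    avg F = avg (fun a => avg (fun b => F (a, b))) := by
  unfold avg
  rw [Fintype.sum_prod_type, Fintype.card_prod, ← sum_div, div_div]
  push_cast
  rw [mul_comm (Fintype.card β : ℝ)]

/-- The quarter identity for the balanced signs (`e = sg b = ± 1`). -/
lemma avg_D {e : ℤ} (he : e = 1 ∨ e = -1) (s : ℤ) (f : ℤ → ℝ) (a : ℤ) :
    avg (fun i : Fin 4 => D s f (a + e * s * q4 i)) = D (2 * s) f a / 4 := by
  rw [avg_fin4, ← quarter]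
  have h0 : q4 0 = -1 := rfl
  have h1 : q4 1 = 0 := rfl
  have h2 : q4 2 = 0 := rfl
  have h3 : q4 3 = 1 := rfl
  rw [h0, h1, h2, h3]
  rcases he with rfl | rfl
  · simp only [mul_zero, add_zero, mul_one, one_mul, mul_neg, ← sub_eq_add_neg]
  · simp only [mul_zero, add_zero, mul_one, neg_mul, one_mul, mul_neg, neg_neg, ← sub_eq_add_neg]
    ring

/-- The mean of `f (V)`. -/
lemma avg_f {e : ℤ} (he : e = 1 ∨ e = -1) (s : ℤ) (f : ℤ → ℝ) (a : ℤ) :
    avg (fun i : Fin 4 => f (a + e * s * q4 i)) - f a = D s f a / 4 := by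
  rw [avg_fin4, ← mean_quarter]
  have h0 : q4 0 = -1 := rfl
  have h1 : q4 1 = 0 := rfl
  have h2 : q4 2 = 0 := rfl
  have h3 : q4 3 = 1 := rfl
  rw [h0, h1, h2, h3]
  rcases he with rfl | rfl
  · simp only [mul_zero, add_zero, mul_one, one_mul, mul_neg, ← sub_eq_add_neg]
  · simp only [mul_zero, add_zero, mul_one, neg_mul, one_mul, mul_neg, neg_neg, ← sub_eq_add_neg]
    ring

/-- The eighth identity for the balanced signs. -/
lemma avg_aD {e : ℤ} (he : e = 1 ∨ e = -1) (s : ℤ) (f : ℤ → ℤ → ℝ) (a b : ℤ) :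
    avg (fun i : Fin 2 × Fin 4 => aD s f (a + e * s * q2 i.1) (b + e * s * q4 i.2))
      = aD (2 * s) f a b / 8 := by
  rw [avg_pair, avg_fin2, avg_fin4, avg_fin4, ← eighth]
  have h0 : q4 0 = -1 := rfl
  have h1 : q4 1 = 0 := rfl
  have h2 : q4 2 = 0 := rfl
  have h3 : q4 3 = 1 := rfl
  have g0 : q2 0 = -1 := rfl
  have g1 : q2 1 = 1 := rfl
  rw [h0, h1, h2, h3, g0, g1]
  rcases he with rfl | rfl
  · simp only [mul_zero, add_zero, mul_one, one_mul, mul_neg, ← sub_eq_add_neg]
    ring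
  · simp only [mul_zero, add_zero, mul_one, neg_mul, one_mul, mul_neg, neg_neg, ← sub_eq_add_neg]
    ring

/-- The mean of `f (V)` for the law of the eighth identity. -/
lemma avg_f2 {e : ℤ} (he : e = 1 ∨ e = -1) (s : ℤ) (f : ℤ → ℤ → ℝ) (a b : ℤ) :
    avg (fun i : Fin 2 × Fin 4 => f (a + e * s * q2 i.1) (b + e * s * q4 i.2)) - f a b
      = D1 s f a b / 4 + (DU s f a b + DA s f a b) / 8 := by
  rw [avg_pair, avg_fin2, avg_fin4, avg_fin4, ← mean_eighth]
  have h0 : q4 0 = -1 := rfl
  have h1 : q4 1 = 0 := rfl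
  have h2 : q4 2 = 0 := rfl
  have h3 : q4 3 = 1 := rfl
  have g0 : q2 0 = -1 := rfl
  have g1 : q2 1 = 1 := rfl
  rw [h0, h1, h2, h3, g0, g1]
  rcases he with rfl | rfl
  · simp only [mul_zero, add_zero, mul_one, one_mul, mul_neg, ← sub_eq_add_neg]
    ring
  · simp only [mul_zero, add_zero, mul_one, neg_mul, one_mul, mul_neg, neg_neg, ← sub_eq_add_neg]
    ring

end

end W_7d29a1_Z.CtrOp77
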