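import Pool.Agent.W_7d29a1_Z.Defs

/-!
STORM Z, leaf ACT: the shears are an action of the sequences `v : ℕ → ℤ`, they preserve the law of the environment, and the laws of the
pair `(η, S)` and of `(shr 0 v η, S')` under `P2`.
-/

namespace Pool.Agent.W_7d29a1_Z

open MeasureTheory ProbabilityTheory Filter Topology Finset
open Pool.Agent.W_7d29a1_F Pool.Agent.W_7d29a1_X Pool.Agent.W_7d29a1_G
open Pool.Agent.W_7d29a1_SR (In wd)
open scoped ENNReal

variable {μ : Measure ℝ}

lemma sv_add (v v' : ℕ → ℤ) (a i : ℕ) : sv (v + v') a i = sv v a i + sv v' a i := sum_add_distrib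

lemma sv_split (v : ℕ → ℤ) {a b c : ℕ} (hab : a ≤ b) (hbc : b ≤ c) : sv v a c = sv v a b + sv v b c :=
  (sum_Ico_consecutive v hab hbc).symm

lemma sv_congr {v v' : ℕ → ℤ} {a b i : ℕ} (h : ∀ k, a ≤ k → k < b → v k = v' k) (hi : i ≤ b) : sv v a i = sv v' a i :=
  sum_congr rfl fun k hk => h k (mem_Ico.1 hk).1 ((mem_Ico.1 hk).2.trans_le hi)

lemma sv_self (v : ℕ → ℤ) (a : ℕ) : sv v a a = 0 := by simp [sv]

lemma W_shift_congr {s : ℝ} {η η' : Env} {a a' : Pt} {n : ℕ} {y : ℤ}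
    (h : ∀ q : Pt, 0 < q.1 → q.1 ≤ n → η (q + a) = η' (q + a')) : W μ s η a n y = W μ s η' a' n y := by
  have h1 : W μ s (sh a η) 0 n y = W μ s η a n y := by rw [W_sh, zero_add]
  have h2 : W μ s (sh a' η') 0 n y = W μ s η' a' n y := by rw [W_sh, zero_add]
  rw [← h1, ← h2]
  exact W_dep (μ := μ) (s := s) 0 n y fun p hp => h p hp.1 (by simpa using hp.2.1)

theorem shr_zero (a : ℕ) (η : Env) : shr a 0 η = η := by
  funext p
  simp [shr, sv]

theorem shr_shr (a : ℕ) (v v' : ℕ → ℤ) (η : Env) : shr a v (shr a v' η) = shr a (v + v') η := by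
  funext p
  simp only [shr, sv_add]
  congr 2
  ring

theorem shr_mp [IsProbabilityMeasure μ] (a : ℕ) (v : ℕ → ℤ) : MeasurePreserving (shr a v) (law μ) (law μ) := by
  refine mp_reindex (μ := μ) (fun p : Pt => ((p.1, p.2 - sv v a p.1.toNat) : Pt)) ?_
  rintro ⟨i, y⟩ ⟨j, z⟩ h
  simp only [Prod.mk.injEq] at h
  obtain ⟨h1, h2⟩ := h
  subst h1
  exact Prod.ext rfl (by simpa using h2)

/-- The kernel of the environment sheared from the time `0`, between the frame positions `x`, `y` of that environment. -/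
theorem fk_shr (v v' : ℕ → ℤ) (η : Env) {a b : ℕ} (hab : a ≤ b) (x y : ℤ) :
    fk μ v' (shr 0 v η) a b x y = fk μ (v + v') η a b (x - sv v 0 a) (y - sv v 0 b) := by
  unfold fk
  have e1 : y - sv v 0 b - (x - sv v 0 a) + sv (v + v') a b = y - x + sv v' a b := by
    rw [sv_add, sv_split v (Nat.zero_le a) hab]
    ring
  rw [e1]
  congr 1
  refine W_shift_congr fun q hq1 hq2 => ?_
  have e2 : (q.1 + (a : ℤ)).toNat = a + q.1.toNat := by omega
  have e3 : a ≤ a + q.1.toNat := Nat.le_add_right _ _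
  simp only [shr, Prod.fst_add, Prod.snd_add, e2, sv_add]
  rw [sv_split v (Nat.zero_le a) e3]
  congr 2
  ring

/-- The kernel depends only on the jumps between the times `a` and `b`. -/
theorem fk_congr {v v' : ℕ → ℤ} (η : Env) {a b : ℕ} (x y : ℤ) (h : ∀ k, a ≤ k → k < b → v k = v' k) :
    fk μ v η a b x y = fk μ v' η a b x y := by
  unfold fk
  rw [sv_congr h le_rfl]
  congr 1
  refine W_shift_congr fun q hq1 hq2 => ?_
  have e2 : (q.1 + (a : ℤ)).toNat ≤ b := by omega
  simp only [shr, Prod.fst_add, Prod.snd_add]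
  rw [sv_congr h e2]

/-- The kernel depends only on the rows `a + 1, .., b`. -/
theorem fk_rows (v : ℕ → ℤ) {η η' : Env} {a b : ℕ} (x y : ℤ) (h : ∀ q : Pt, (a : ℤ) < q.1 → q.1 ≤ b → η q = η' q) :
    fk μ v η a b x y = fk μ v η' a b x y := by
  unfold fk
  congr 1
  refine W_shift_congr fun q hq1 hq2 => ?_
  refine h _ ?_ ?_
  · show (a : ℤ) < q.1 + (a : ℤ)
    omega
  · show q.1 + (a : ℤ) ≤ b
    omega

/-- Translation in time and space. -/
theorem fk_translate (v : ℕ → ℤ) (η : Env) (τ a b : ℕ) (x y z : ℤ) :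
    fk μ (fun k => v (k - τ)) η (τ + a) (τ + b) (x + z) (y + z) = fk μ v (sh ((τ : ℤ), z) η) a b x y := by
  have hsv : ∀ i j : ℕ, sv (fun k => v (k - τ)) (τ + i) (τ + j) = sv v i j := by
    intro i j
    unfold sv
    rw [add_comm τ i, add_comm τ j, ← Finset.sum_Ico_add (fun k => v (k - τ)) i j τ]
    refine sum_congr rfl fun k _ => ?_
    show v (τ + k - τ) = v k
    rw [Nat.add_sub_cancel_left]
  unfold fk
  rw [hsv, show τ + b - (τ + a) = b - a by omega, show y + z - (x + z) + sv v a b = y - x + sv v a b by ring]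
  congr 1
  refine W_shift_congr fun q hq1 hq2 => ?_
  have e2 : (q.1 + ((τ + a : ℕ) : ℤ)).toNat = τ + (q.1 + (a : ℤ)).toNat := by omega
  simp only [shr, sh, Prod.fst_add, Prod.snd_add, e2, hsv, Prod.mk_add_mk]
  congr 1
  refine Prod.ext ?_ ?_
  · push_cast
    ring
  · show q.2 + (x + z) - _ = q.2 + x - _ + z
    ring

theorem measurable_fk (v : ℕ → ℤ) (a b : ℕ) (x y : ℤ) : Measurable fun η : Env => fk μ v η a b x y := by
  have h1 : Measurable (shr a v) := measurable_pi_iff.2 fun p => measurable_pi_apply _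
  exact Real.measurable_log.comp ((measurable_W (μ := μ) (s := 0) _ _ _).comp h1)

lemma pat_zone {t τ : ℕ} {I : Finset ℕ} {V V' : ℕ → ℤ} {b : ℕ} (h : V b = V' b) {k : ℕ} (h1 : za t τ b ≤ k) (h2 : k < zb t τ b) :
    pat t τ I V k = pat t τ I V' k := by
  have h3 : (k - τ) / (2 * t) = b := by
    unfold za at h1
    unfold zb at h2
    refine Nat.div_eq_of_lt_le ?_ ?_
    · have : b * (2 * t) = 2 * t * b := by ring
      omega
    · have : (b + 1) * (2 * t) = 2 * t * b + 2 * t := by ring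
      omega
  unfold pat
  rw [h3, h]

theorem fb_shr {t τ : ℕ} {I : Finset ℕ} (hI : I ⊆ Core t) (V : ℕ → ℤ) (η : Env) (b : ℕ) (a : ℤ) (S : Finset ℕ) :
    fb μ t τ I (shr 0 (pat t τ I V) η) b a (pos S) = fb μ t τ I η b (V b + a) (px (pat t τ I V) S) := by
  have _ := hI
  unfold fb
  rw [fk_shr _ _ _ (show za t τ b ≤ zb t τ b from Nat.le_add_right _ _)]
  refine fk_congr η _ _ fun k h1 h2 => ?_
  have h3 : pat t τ I (fun _ => V b + a) k = pat t τ I (fun c => V c + a) k := 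
    pat_zone (V := fun _ => V b + a) (V' := fun c => V c + a) (b := b) rfl h1 h2
  rw [h3]
  simp only [pat, Pi.add_apply]
  split_ifs
  · rfl
  · rfl

theorem Db_shr {t τ : ℕ} {I : Finset ℕ} (hI : I ⊆ Core t) (V : ℕ → ℤ) (s : ℤ) (η : Env) (b : ℕ) (a : ℤ) (S : Finset ℕ) :
    Db μ t τ I s (shr 0 (pat t τ I V) η) b a (pos S) = Db μ t τ I s η b (V b + a) (px (pat t τ I V) S) := by
  unfold Db
  rw [fb_shr hI, fb_shr hI, fb_shr hI, ← add_assoc, ← add_sub_assoc]

/-! ### The Gibbs weights -/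

theorem gp_nonneg (η : Env) (N : ℕ) (y : ℤ) (S : Finset ℕ) : 0 ≤ gp μ η N y S := by
  unfold gp
  split_ifs
  · exact div_nonneg (pth_nonneg _ _ _) (W_nonneg _ _ _ _)
  · exact le_rfl

theorem gp_of_ne (η : Env) {N : ℕ} {y : ℤ} {S : Finset ℕ} (h : pos S N ≠ y) : gp μ η N y S = 0 := by
  unfold gp
  rw [if_neg h]

theorem gp_sum (η : Env) {N : ℕ} {y : ℤ} (h0 : 0 ≤ y) (h1 : y ≤ N) : ∑ S ∈ (range N).powerset, gp μ η N y S = 1 := by
  have hW : 0 < W μ 0 η 0 N y := W_pos _ _ h0 h1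
  have h := Mt_one (μ := μ) (s := 0) η N y
  unfold Mt at h
  have e : ∀ S : Finset ℕ, gp μ η N y S = (if pos S N = y then pth μ 0 η N S * 1 else 0) / W μ 0 η 0 N y := by
    intro S
    unfold gp
    split_ifs
    · rw [mul_one]
    · rw [zero_div]
  simp only [e]
  rw [← sum_div, h, div_self hW.ne']

theorem measurable_gp (N : ℕ) (y : ℤ) (S : Finset ℕ) : Measurable fun η : Env => gp μ η N y S := by
  have hp : Measurable fun η : Env => pth μ 0 η N S := by
    unfold pth
    refine Measurable.const_mul ?_ _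
    exact Finset.measurable_prod _ fun i _ => Real.measurable_exp.comp (measurable_pi_apply _)
  unfold gp
  by_cases h : pos S N = y
  · simp only [if_pos h]
    exact hp.div (measurable_W _ _ _)
  · simp only [if_neg h]
    exact measurable_const

/-! ### The annealed probabilities -/

theorem P1_eq [IsProbabilityMeasure μ] {N : ℕ} {y : ℤ} (A : Env → Finset ℕ → Prop) :
    P1 μ N y A = ∑ S ∈ (range N).powerset, ∫⁻ η in {η | A η S}, ENNReal.ofReal (gp μ η N y S) ∂law μ := by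
  unfold P1
  refine sum_congr rfl fun S _ => ?_
  rw [withDensity_apply']

theorem P1_mono {N : ℕ} {y : ℤ} {A B : Env → Finset ℕ → Prop} (h : ∀ η, ∀ S ∈ (range N).powerset, A η S → B η S) :
    P1 μ N y A ≤ P1 μ N y B :=
  sum_le_sum fun S hS => measure_mono fun η hη => h η S hS hη

/-- Only paths with the right end point and environments outside a null set matter. -/
theorem P1_mono' {N : ℕ} {y : ℤ} {A B : Env → Finset ℕ → Prop}
    (h : ∀ η, ∀ S ∈ (range N).powerset, pos S N = y → A η S → B η S) : P1 μ N y A ≤ P1 μ N y B := by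
  refine sum_le_sum fun S hS => ?_
  by_cases hy : pos S N = y
  · exact measure_mono fun η hη => h η S hS hy hη
  · have e : (fun η : Env => ENNReal.ofReal (gp μ η N y S)) = 0 := by
      funext η
      rw [gp_of_ne η hy, ENNReal.ofReal_zero]
      rfl
    rw [e, withDensity_zero]
    exact le_rfl

theorem P1_or {N : ℕ} {y : ℤ} (A B : Env → Finset ℕ → Prop) :
    P1 μ N y (fun η S => A η S ∨ B η S) ≤ P1 μ N y A + P1 μ N y B := by
  unfold P1
  rw [← sum_add_distrib]
  exact sum_le_sum fun S _ => measure_union_le _ _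

theorem P1_exists {ι : Type*} (s : Finset ι) {N : ℕ} {y : ℤ} (A : ι → Env → Finset ℕ → Prop) :
    P1 μ N y (fun η S => ∃ i ∈ s, A i η S) ≤ ∑ i ∈ s, P1 μ N y (A i) := by
  unfold P1
  rw [sum_comm]
  refine sum_le_sum fun S _ => ?_
  have e : {η : Env | ∃ k ∈ s, A k η S} = ⋃ k ∈ s, {η | A k η S} := by
    ext η
    simp
  rw [e]
  exact measure_biUnion_finset_le _ _

/-- An event of the environment alone. -/
theorem P1_env [IsProbabilityMeasure μ] {N : ℕ} {y : ℤ} (h0 : 0 ≤ y) (h1 : y ≤ N) (A : Env → Prop) :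
    P1 μ N y (fun η _ => A η) = law μ {η | A η} := by
  rw [P1_eq]
  have e : ∀ η : Env, ∑ S ∈ (range N).powerset, ENNReal.ofReal (gp μ η N y S) = 1 := by
    intro η
    rw [← ENNReal.ofReal_sum_of_nonneg fun S _ => gp_nonneg η N y S, gp_sum η h0 h1, ENNReal.ofReal_one]
  rw [← lintegral_finsetSum _ fun S _ => (measurable_gp N y S).ennreal_ofReal]
  simp only [e]
  rw [setLIntegral_one]

theorem P1_univ [IsProbabilityMeasure μ] {N : ℕ} {y : ℤ} (h0 : 0 ≤ y) (h1 : y ≤ N) : P1 μ N y (fun _ _ => True) = 1 := by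
  rw [P1_env h0 h1 fun _ => True]
  exact measure_univ

theorem P1_le_one [IsProbabilityMeasure μ] {N : ℕ} {y : ℤ} (h0 : 0 ≤ y) (h1 : y ≤ N) (A : Env → Finset ℕ → Prop) : P1 μ N y A ≤ 1 := by
  rw [← P1_univ (μ := μ) h0 h1]
  exact P1_mono fun _ _ _ _ => trivial

theorem P1_split {N : ℕ} {y : ℤ} (A : Env → Finset ℕ → Prop) {B : Env → Finset ℕ → Prop} (hB : Ms B) :
    P1 μ N y (fun η S => A η S ∧ B η S) + P1 μ N y (fun η S => A η S ∧ ¬ B η S) = P1 μ N y A := by
  unfold P1
  rw [← sum_add_distrib]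
  refine sum_congr rfl fun S _ => ?_
  exact measure_inter_add_sdiff {η | A η S} (hB S)

theorem P1_add_not [IsProbabilityMeasure μ] {N : ℕ} {y : ℤ} (h0 : 0 ≤ y) (h1 : y ≤ N) {A : Env → Finset ℕ → Prop} (hA : Ms A) :
    P1 μ N y A + P1 μ N y (fun η S => ¬ A η S) = 1 := by
  rw [← P1_univ (μ := μ) h0 h1, ← P1_split (fun _ _ => True) hA]
  simp only [true_and]

/-- A quenched bound of the Gibbs probability. -/
theorem P1_quenched [IsProbabilityMeasure μ] {N : ℕ} {y : ℤ} {A : Env → Finset ℕ → Prop} (hA : Ms A) {e : ℝ} (he : 0 ≤ e)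
    (h : ∀ η, ∑ S ∈ (range N).powerset, (open Classical in if A η S then gp μ η N y S else 0) ≤ e) :
    P1 μ N y A ≤ ENNReal.ofReal e := by
  classical
  have _ := he
  rw [P1_eq]
  have e1 : ∀ S, ∫⁻ η in {η | A η S}, ENNReal.ofReal (gp μ η N y S) ∂law μ =
      ∫⁻ η, ENNReal.ofReal (if A η S then gp μ η N y S else 0) ∂law μ := by
    intro S
    rw [← lintegral_indicator (hA S)]
    refine lintegral_congr fun η => ?_
    by_cases hη : A η S
    · rw [Set.indicator_of_mem (show η ∈ {η | A η S} from hη), if_pos hη]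
    · rw [Set.indicator_of_notMem (show η ∉ {η | A η S} from hη), if_neg hη, ENNReal.ofReal_zero]
  simp only [e1]
  rw [← lintegral_finsetSum _ fun S _ => (Measurable.ite (hA S) (measurable_gp N y S) measurable_const).ennreal_ofReal]
  calc ∫⁻ η, ∑ S ∈ (range N).powerset, ENNReal.ofReal (if A η S then gp μ η N y S else 0) ∂law μ
      ≤ ∫⁻ _η, ENNReal.ofReal e ∂law μ := by
        refine lintegral_mono fun η => ?_
        rw [← ENNReal.ofReal_sum_of_nonneg fun S _ => ?_]
        · exact ENNReal.ofReal_le_ofReal (h η)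
        · split_ifs
          · exact gp_nonneg _ _ _ _
          · exact le_rfl
    _ = ENNReal.ofReal e := by simp

/-- Events outside a set of environments of small probability. -/
theorem P1_le_of_env [IsProbabilityMeasure μ] {N : ℕ} {y : ℤ} (h0 : 0 ≤ y) (h1 : y ≤ N) {A B : Env → Finset ℕ → Prop} (E : Env → Prop)
    (h : ∀ η, ∀ S ∈ (range N).powerset, pos S N = y → A η S → ¬ E η → B η S) :
    P1 μ N y A ≤ P1 μ N y B + law μ {η | E η} := by
  rw [← P1_env (μ := μ) h0 h1 E]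
  refine le_trans (P1_mono' fun η S hS hy hA => ?_) (P1_or B fun η _ => E η)
  by_cases hE : E η
  · exact Or.inr hE
  · exact Or.inl (h η S hS hy hA hE)

theorem P2_eq [IsProbabilityMeasure μ] {N : ℕ} {y : ℤ} (v : ℕ → ℤ) (A : Env → Finset ℕ → Finset ℕ → Prop) :
    P2 μ N y v A = ∑ S ∈ (range N).powerset, ∑ S' ∈ (range N).powerset,
      ∫⁻ η in {η | A η S S'}, ENNReal.ofReal (gp μ η N y S * gp μ (shr 0 v η) N y S') ∂law μ := by
  unfold P2
  refine sum_congr rfl fun S _ => sum_congr rfl fun S' _ => ?_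
  rw [withDensity_apply']

theorem P2_mono {N : ℕ} {y : ℤ} {v : ℕ → ℤ} {A B : Env → Finset ℕ → Finset ℕ → Prop}
    (h : ∀ η, ∀ S ∈ (range N).powerset, ∀ S' ∈ (range N).powerset, pos S N = y → pos S' N = y → A η S S' → B η S S') :
    P2 μ N y v A ≤ P2 μ N y v B := by
  refine sum_le_sum fun S hS => sum_le_sum fun S' hS' => ?_
  by_cases hy : pos S N = y ∧ pos S' N = y
  · exact measure_mono fun η hη => h η S hS S' hS' hy.1 hy.2 hη
  · have e : (fun η : Env => ENNReal.ofReal (gp μ η N y S * gp μ (shr 0 v η) N y S')) = 0 := by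
      funext η
      rcases not_and_or.1 hy with h1 | h1
      · rw [gp_of_ne η h1, zero_mul, ENNReal.ofReal_zero]
        rfl
      · rw [gp_of_ne _ h1, mul_zero, ENNReal.ofReal_zero]
        rfl
    rw [e, withDensity_zero]
    exact le_rfl

theorem P2_or {N : ℕ} {y : ℤ} {v : ℕ → ℤ} (A B : Env → Finset ℕ → Finset ℕ → Prop) :
    P2 μ N y v (fun η S S' => A η S S' ∨ B η S S') ≤ P2 μ N y v A + P2 μ N y v B := by
  unfold P2
  rw [← sum_add_distrib]
  refine sum_le_sum fun S _ => ?_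
  rw [← sum_add_distrib]
  exact sum_le_sum fun S' _ => measure_union_le _ _

theorem P2_exists {ι : Type*} (s : Finset ι) {N : ℕ} {y : ℤ} {v : ℕ → ℤ} (A : ι → Env → Finset ℕ → Finset ℕ → Prop) :
    P2 μ N y v (fun η S S' => ∃ i ∈ s, A i η S S') ≤ ∑ i ∈ s, P2 μ N y v (A i) := by
  have e1 : ∑ k ∈ s, P2 μ N y v (A k) = ∑ S ∈ (range N).powerset, ∑ S' ∈ (range N).powerset, ∑ k ∈ s,
      ((law μ).withDensity fun η => ENNReal.ofReal (gp μ η N y S * gp μ (shr 0 v η) N y S')) {η | A k η S S'} := by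
    unfold P2
    rw [sum_comm]
    exact sum_congr rfl fun S _ => sum_comm
  rw [e1]
  unfold P2
  refine sum_le_sum fun S _ => sum_le_sum fun S' _ => ?_
  have e : {η : Env | ∃ k ∈ s, A k η S S'} = ⋃ k ∈ s, {η | A k η S S'} := by
    ext η
    simp
  rw [e]
  exact measure_biUnion_finset_le _ _

theorem P2_split {N : ℕ} {y : ℤ} {v : ℕ → ℤ} (A : Env → Finset ℕ → Finset ℕ → Prop) {B : Env → Finset ℕ → Finset ℕ → Prop}
    (hB : ∀ S S', MeasurableSet {η | B η S S'}) :
    P2 μ N y v (fun η S S' => A η S S' ∧ B η S S') + P2 μ N y v (fun η S S' => A η S S' ∧ ¬ B η S S') = P2 μ N y v A := by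
  unfold P2
  rw [← sum_add_distrib]
  refine sum_congr rfl fun S _ => ?_
  rw [← sum_add_distrib]
  refine sum_congr rfl fun S' _ => ?_
  exact measure_inter_add_sdiff {η | A η S S'} (hB S S')

theorem measurable_shr (a : ℕ) (v : ℕ → ℤ) : Measurable (shr a v) :=
  measurable_pi_iff.2 fun _ => measurable_pi_apply _

/-- The shears are measurable equivalences. -/
theorem emb_shr (a : ℕ) (v : ℕ → ℤ) : MeasurableEmbedding (shr a v) :=
  MeasurableEquiv.measurableEmbedding
    { toFun := shr a v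
      invFun := shr a (-v)
      left_inv := fun η => by rw [shr_shr, neg_add_cancel, shr_zero]
      right_inv := fun η => by rw [shr_shr, add_neg_cancel, shr_zero]
      measurable_toFun := measurable_shr a v
      measurable_invFun := measurable_shr a (-v) }

theorem measurable_gp2 (v : ℕ → ℤ) (N : ℕ) (y : ℤ) (S S' : Finset ℕ) :
    Measurable fun η : Env => gp μ η N y S * gp μ (shr 0 v η) N y S' :=
  (measurable_gp N y S).mul ((measurable_gp N y S').comp (measurable_shr 0 v))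

/-- The law of `(η, S)`. -/
theorem P2_fst [IsProbabilityMeasure μ] {N : ℕ} {y : ℤ} (h0 : 0 ≤ y) (h1 : y ≤ N) (v : ℕ → ℤ) (A : Env → Finset ℕ → Prop) :
    P2 μ N y v (fun η S _ => A η S) = P1 μ N y A := by
  rw [P2_eq, P1_eq]
  refine sum_congr rfl fun S _ => ?_
  rw [← lintegral_finsetSum _ fun S' _ => (measurable_gp2 v N y S S').ennreal_ofReal]
  refine lintegral_congr fun η => ?_
  rw [← ENNReal.ofReal_sum_of_nonneg fun S' _ => mul_nonneg (gp_nonneg _ _ _ _) (gp_nonneg _ _ _ _), ← mul_sum,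
    gp_sum (shr 0 v η) h0 h1, mul_one]

/-- The law of `(shr 0 v η, S')`. -/
theorem P2_snd [IsProbabilityMeasure μ] {N : ℕ} {y : ℤ} (h0 : 0 ≤ y) (h1 : y ≤ N) (v : ℕ → ℤ) (A : Env → Finset ℕ → Prop) :
    P2 μ N y v (fun η _ S' => A (shr 0 v η) S') = P1 μ N y A := by
  rw [P2_eq, P1_eq, sum_comm]
  refine sum_congr rfl fun S' _ => ?_
  rw [← lintegral_finsetSum _ fun S _ => (measurable_gp2 v N y S S').ennreal_ofReal]
  have e : ∀ η : Env, ∑ S ∈ (range N).powerset, ENNReal.ofReal (gp μ η N y S * gp μ (shr 0 v η) N y S') =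
      ENNReal.ofReal (gp μ (shr 0 v η) N y S') := by
    intro η
    rw [← ENNReal.ofReal_sum_of_nonneg fun S _ => mul_nonneg (gp_nonneg _ _ _ _) (gp_nonneg _ _ _ _), ← sum_mul,
      gp_sum η h0 h1, one_mul]
  simp only [e]
  exact (shr_mp (μ := μ) 0 v).setLIntegral_comp_preimage_emb (emb_shr 0 v)
    (fun η => ENNReal.ofReal (gp μ η N y S')) {η | A η S'}

/-- Time reversal and the change of the roles are not needed: `shr 0 (-v)` undoes `shr 0 v`, so the pair `(shr 0 v η, S', S)` has the law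
`P2` of `-v`. -/
theorem P2_swap [IsProbabilityMeasure μ] {N : ℕ} {y : ℤ} (v : ℕ → ℤ) (A : Env → Finset ℕ → Finset ℕ → Prop) :
    P2 μ N y v (fun η S S' => A (shr 0 v η) S' S) = P2 μ N y (-v) A := by
  rw [P2_eq, P2_eq, sum_comm]
  refine sum_congr rfl fun S' _ => sum_congr rfl fun S _ => ?_
  have h := (shr_mp (μ := μ) 0 v).setLIntegral_comp_preimage_emb (emb_shr 0 v)
    (fun η => ENNReal.ofReal (gp μ η N y S' * gp μ (shr 0 (-v) η) N y S)) {η | A η S' S}
  rw [← h]
  refine lintegral_congr fun η => ?_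
  rw [shr_shr, neg_add_cancel, shr_zero, mul_comm]

theorem P2_univ [IsProbabilityMeasure μ] {N : ℕ} {y : ℤ} (h0 : 0 ≤ y) (h1 : y ≤ N) (v : ℕ → ℤ) : P2 μ N y v (fun _ _ _ => True) = 1 := by
  rw [← P1_univ (μ := μ) h0 h1]
  exact P2_fst h0 h1 v fun _ _ => True

theorem P2_le_one [IsProbabilityMeasure μ] {N : ℕ} {y : ℤ} (h0 : 0 ≤ y) (h1 : y ≤ N) (v : ℕ → ℤ)
    (A : Env → Finset ℕ → Finset ℕ → Prop) : P2 μ N y v A ≤ 1 := by
  rw [← P2_univ (μ := μ) h0 h1 v]
  exact P2_mono fun _ _ _ _ _ _ _ _ => trivial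

theorem P2_env [IsProbabilityMeasure μ] {N : ℕ} {y : ℤ} (h0 : 0 ≤ y) (h1 : y ≤ N) (v : ℕ → ℤ) (E : Env → Prop) :
    P2 μ N y v (fun η _ _ => E η) = law μ {η | E η} := by
  rw [← P1_env (μ := μ) h0 h1 E]
  exact P2_fst h0 h1 v fun η _ => E η

end Pool.Agent.W_7d29a1_Z
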