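import Mathlib

/-!
STORM Z, the numbers of the leaf INN: `x = L ^ β`, `c₀ = x ^ 2`, `lc = x ^ 13`, `s = x ^ 30`, `T = x ^ 60`, `J = ⌊x⌋ - 1`,
`G = 6 c₀ (J + 1)`, `h = x + 4`. (helper77)
-/

namespace Pool.Agent.W_7d29a1_Z.NumI77

open Filter Real

/-! ### Powers, logarithms, exponentials -/

/-- Powers beat constants and logarithms. -/
theorem large {β : ℝ} (hβ : 0 < β) (C : ℝ) : ∃ L₀ : ℕ, ∀ L : ℕ, L₀ ≤ L → 1 ≤ L ∧ C ≤ (L : ℝ) ^ β ∧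
    C * (Real.log L + 1) ≤ (L : ℝ) ^ β := by
  have h1 : Tendsto (fun L : ℕ => (L : ℝ) ^ β) atTop atTop := (tendsto_rpow_atTop hβ).comp tendsto_natCast_atTop_atTop
  have h2 : ∀ᶠ L : ℕ in atTop, |C| * Real.log L ≤ (L : ℝ) ^ β / 2 := by
    have h3 := (isLittleO_log_rpow_atTop hβ).bound (show (0 : ℝ) < 1 / (2 * (|C| + 1)) by positivity)
    have h4 := tendsto_natCast_atTop_atTop (R := ℝ) |>.eventually h3
    filter_upwards [h4, eventually_ge_atTop 1] with L hL h1L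
    have hlog : 0 ≤ Real.log L := Real.log_nonneg (by exact_mod_cast h1L)
    rw [Real.norm_of_nonneg hlog, Real.norm_of_nonneg (by positivity)] at hL
    have h5 : 0 ≤ (L : ℝ) ^ β := by positivity
    have h6 : |C| * Real.log L ≤ (|C| + 1) * Real.log L := by nlinarith
    refine h6.trans ((mul_le_mul_of_nonneg_left hL (by positivity)).trans (le_of_eq ?_))
    field_simp
  have h3 : ∀ᶠ L : ℕ in atTop, 2 * |C| ≤ (L : ℝ) ^ β := h1.eventually_ge_atTop _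
  obtain ⟨L₀, h⟩ := ((h2.and h3).and (eventually_ge_atTop 1)).exists_forall_of_atTop
  refine ⟨L₀, fun L hL => ?_⟩
  obtain ⟨⟨e1, e2⟩, e3⟩ := h L hL
  have hlog : 0 ≤ Real.log L := Real.log_nonneg (by exact_mod_cast e3)
  have hC := le_abs_self C
  refine ⟨e3, by linarith [abs_nonneg C], ?_⟩
  have h7 : C * (Real.log L + 1) ≤ |C| * (Real.log L + 1) := mul_le_mul_of_nonneg_right hC (by linarith)
  linarith

/-- A power times a stretched exponential is a stretched exponential. -/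
theorem pow_exp {c : ℝ} (hc : 0 < c) (a : ℝ) : ∃ c₁ : ℝ, 0 < c₁ ∧ c₁ < c ∧ ∃ L₀ : ℕ, ∀ L : ℕ, L₀ ≤ L →
    (L : ℝ) ^ a * Real.exp (-(L : ℝ) ^ c) ≤ Real.exp (-(L : ℝ) ^ c₁) := by
  obtain ⟨L₁, h1⟩ := large (show 0 < c / 2 by linarith) 2
  obtain ⟨L₂, h2⟩ := large hc (2 * |a|)
  refine ⟨c / 2, by linarith, by linarith, max L₁ L₂, fun L hL => ?_⟩
  obtain ⟨g1, g2, -⟩ := h1 L ((le_max_left _ _).trans hL)
  obtain ⟨-, -, g4⟩ := h2 L ((le_max_right _ _).trans hL)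
  have hL0 : (0 : ℝ) < L := by exact_mod_cast g1
  have hlog : 0 ≤ Real.log L := Real.log_nonneg (by exact_mod_cast g1)
  have e1 : (L : ℝ) ^ a = Real.exp (Real.log L * a) := Real.rpow_def_of_pos hL0 a
  rw [e1, ← Real.exp_add]
  refine Real.exp_le_exp.2 ?_
  have e2 : (L : ℝ) ^ c = (L : ℝ) ^ (c / 2) * (L : ℝ) ^ (c / 2) := by
    rw [← Real.rpow_add hL0]
    congr 1
    ring
  have e3 : Real.log L * a ≤ |a| * (Real.log L + 1) := by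
    have := le_abs_self a
    nlinarith [abs_nonneg a]
  have e4 : 2 * (|a| * (Real.log L + 1)) ≤ (L : ℝ) ^ c := by linarith
  have e5 : 2 * (L : ℝ) ^ (c / 2) ≤ (L : ℝ) ^ c := by
    rw [e2]
    nlinarith
  linarith

/-- Monotonicity in the exponent. -/
theorem exp_mono {c c' : ℝ} (h : c ≤ c') {L : ℕ} (hL : 1 ≤ L) :
    Real.exp (-(L : ℝ) ^ c') ≤ Real.exp (-(L : ℝ) ^ c) :=
  Real.exp_le_exp.2 (neg_le_neg (Real.rpow_le_rpow_of_exponent_le (by exact_mod_cast hL) h))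

/-- A half to the power `⌊L ^ β⌋ - 1`. -/
theorem half_pow {β : ℝ} {L J : ℕ} (hJ : (L : ℝ) ^ β ≤ J + 2) :
    (1 / 2 : ℝ) ^ J ≤ 4 * Real.exp (-((L : ℝ) ^ β / 2)) := by
  have h1 : (1 / 2 : ℝ) ^ J = Real.exp (-(J * Real.log 2)) := by
    rw [Real.exp_neg, Real.exp_nat_mul, Real.exp_log (by norm_num)]
    simp
  have h2 : (4 : ℝ) = Real.exp (2 * Real.log 2) := by
    rw [show (2 : ℝ) * Real.log 2 = (2 : ℕ) * Real.log 2 by norm_num, Real.exp_nat_mul, Real.exp_log (by norm_num)]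
    norm_num
  rw [h1, h2, ← Real.exp_add]
  refine Real.exp_le_exp.2 ?_
  have h3 : (1 / 2 : ℝ) ≤ Real.log 2 := by
    have := Real.log_two_gt_d9
    linarith
  have h4 : (0 : ℝ) ≤ (L : ℝ) ^ β := by positivity
  nlinarith

/-! ### The levels -/

theorem levels {T P : ℝ} (hT : 0 < T) (hP : 0 < P) : ∃ K : ℕ, 1 ≤ T * (2 ^ K * P) ∧ ∀ k < K, T * (2 ^ k * P) < 1 := by
  classical
  have hex : ∃ K : ℕ, 1 ≤ T * (2 ^ K * P) := by
    obtain ⟨K, hK⟩ := pow_unbounded_of_one_lt (1 / (T * P)) (show (1 : ℝ) < 2 by norm_num)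
    refine ⟨K, ?_⟩
    rw [div_lt_iff₀ (by positivity)] at hK
    nlinarith
  exact ⟨Nat.find hex, Nat.find_spec hex, fun k hk => not_le.1 (Nat.find_min hex hk)⟩

/-- The number of the levels is logarithmic. -/
theorem levels_le {T P : ℝ} {K L : ℕ} (hL : 1 ≤ L) (hTP : 1 ≤ T * P * L) (h : ∀ k < K, T * (2 ^ k * P) < 1) :
    (2 : ℝ) ^ K ≤ 2 * L ∧ (K : ℝ) + 1 ≤ 2 * (Real.log L + 1) := by
  have hL1 : (1 : ℝ) ≤ L := by exact_mod_cast hL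
  have hlog : 0 ≤ Real.log L := Real.log_nonneg hL1
  rcases K with _ | K
  · constructor
    · rw [pow_zero]
      linarith
    · push_cast
      linarith
  · have h1 := h K (Nat.lt_succ_self K)
    have h2 : (2 : ℝ) ^ K ≤ L := by
      by_contra hcon
      push Not at hcon
      have hTP0 : 0 < T * P := by
        by_contra h0
        push Not at h0
        nlinarith
      have h3 : T * P * L < T * P * 2 ^ K := mul_lt_mul_of_pos_left hcon hTP0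
      nlinarith
    constructor
    · rw [pow_succ]
      linarith
    · have h3 : (K : ℝ) * Real.log 2 ≤ Real.log L := by
        have h4 := Real.log_le_log (by positivity) h2
        rwa [Real.log_pow] at h4
      have h4 : (1 / 2 : ℝ) < Real.log 2 := by
        have := Real.log_two_gt_d9
        linarith
      have h5 : (0 : ℝ) ≤ K := Nat.cast_nonneg K
      push_cast
      nlinarith

/-! ### The algebra of the parameters -/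

section alg

variable {x : ℝ} {J : ℕ}

theorem sqrt_x30 (hx : 0 ≤ x) : √(x ^ 30) = x ^ 15 := by
  rw [show x ^ 30 = (x ^ 15) ^ 2 by ring]
  exact Real.sqrt_sq (by positivity)

theorem G_le (hx : 1 ≤ x) (hJ : (J : ℝ) + 1 ≤ x) : 6 * x ^ 2 * ((J : ℝ) + 1) ≤ 6 * x ^ 3 := by
  have : 0 ≤ 6 * x ^ 2 := by positivity
  calc 6 * x ^ 2 * ((J : ℝ) + 1) ≤ 6 * x ^ 2 * x := mul_le_mul_of_nonneg_left hJ this
    _ = 6 * x ^ 3 := by ring

/-- `g = 3 G / 2 + h ≤ 10 x ^ 3`. -/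
theorem g_le (hx : 10 ≤ x) (hJ : (J : ℝ) + 1 ≤ x) : 3 / 2 * (6 * x ^ 2 * ((J : ℝ) + 1)) + (x + 4) ≤ 10 * x ^ 3 := by
  have h1 := G_le (by linarith : 1 ≤ x) hJ
  have h2 : x + 4 ≤ x ^ 3 := by
    have h3 : 100 ≤ x ^ 2 := by nlinarith
    have h4 : x ^ 3 = x ^ 2 * x := by ring
    nlinarith
  linarith

/-- First hypothesis of `hnum72`. -/
theorem num1 (hx : 10 ≤ x) : x + 4 ≤ x ^ 2 / 2 := by nlinarith

/-- Second hypothesis of `hnum72`. -/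
theorem num2 (hx : 240 ≤ x) (hJ : (J : ℝ) + 1 ≤ x) :
    (3 / 2 * (6 * x ^ 2 * ((J : ℝ) + 1)) + (x + 4)) * (24 * x ^ 13) ≤ x ^ 2 * √(x ^ 30) := by
  rw [sqrt_x30 (by linarith)]
  have h1 := g_le (by linarith : 10 ≤ x) hJ
  have h2 : 0 ≤ x ^ 16 := by positivity
  calc (3 / 2 * (6 * x ^ 2 * ((J : ℝ) + 1)) + (x + 4)) * (24 * x ^ 13) ≤ 10 * x ^ 3 * (24 * x ^ 13) :=
        mul_le_mul_of_nonneg_right h1 (by positivity)
    _ = 240 * x ^ 16 := by ring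
    _ ≤ x * x ^ 16 := mul_le_mul_of_nonneg_right hx h2
    _ = x ^ 2 * x ^ 15 := by ring

/-- Third hypothesis of `hnum72`. -/
theorem num3 (hx : 80 ≤ x) (hJ : (J : ℝ) + 1 ≤ x) {m ϖ : ℝ} (hϖ : 0 ≤ ϖ) (hT : x ^ 60 * √m * ϖ ≤ 1) :
    (3 / 2 * (6 * x ^ 2 * ((J : ℝ) + 1)) + (x + 4)) * (8 * (x ^ 13) ^ 2) * (ϖ * √m) ≤ x ^ 2 := by
  have h1 := g_le (by linarith : 10 ≤ x) hJ
  have h2 : 0 ≤ ϖ * √m := by positivity
  have hx0 : 0 < x := by linarith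
  calc (3 / 2 * (6 * x ^ 2 * ((J : ℝ) + 1)) + (x + 4)) * (8 * (x ^ 13) ^ 2) * (ϖ * √m) ≤
      10 * x ^ 3 * (8 * (x ^ 13) ^ 2) * (ϖ * √m) := by gcongr
    _ = 80 * x ^ 29 * (ϖ * √m) := by ring
    _ ≤ x * x ^ 29 * (ϖ * √m) := by gcongr
    _ = x ^ 30 * (ϖ * √m) := by ring
    _ ≤ x ^ 60 * (ϖ * √m) := by
      refine mul_le_mul_of_nonneg_right ?_ h2
      exact pow_le_pow_right₀ (by linarith) (by norm_num)
    _ = x ^ 60 * √m * ϖ := by ring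
    _ ≤ 1 := hT
    _ ≤ x ^ 2 := by nlinarith

/-- Last hypothesis of `hcnt72` (`R = 10`, `Λ = 2`, `κ₀ = x ^ 8`). -/
theorem num4 (hx : 500 ≤ x) {lb N₀ cU e₀ : ℝ} (hN0 : 0 ≤ N₀) (hcU0 : 0 ≤ cU) (hlb : lb ≤ x) (hN : N₀ ≤ x)
    (hcU : cU ≤ x) (he : e₀ ≤ x) : lb * (4 * N₀ * (10 : ℕ) * (x ^ 8 * 2 * cU + 1)) + e₀ ≤ x ^ 13 := by
  have hx0 : 0 < x := by linarith
  have h1 : lb * (4 * N₀ * (10 : ℕ) * (x ^ 8 * 2 * cU + 1)) ≤ x * (4 * x * (10 : ℕ) * (x ^ 8 * 2 * x + 1)) := by gcongr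
  have h2 : x * (4 * x * (10 : ℕ) * (x ^ 8 * 2 * x + 1)) = 80 * x ^ 11 + 40 * x ^ 2 := by
    push_cast
    ring
  have h3 : x ^ 2 ≤ x ^ 11 := pow_le_pow_right₀ (by linarith) (by norm_num)
  have h4 : x ≤ x ^ 11 := by
    calc x = x ^ 1 := (pow_one x).symm
      _ ≤ x ^ 11 := pow_le_pow_right₀ (by linarith) (by norm_num)
  have h5 : 121 * x ^ 11 ≤ x ^ 13 := by
    have : x ^ 13 = x ^ 2 * x ^ 11 := by ring
    rw [this]
    refine mul_le_mul_of_nonneg_right ?_ (by positivity)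
    nlinarith
  linarith

/-- The conclusion of the induction at the level `0`. -/
theorem num_end (hx : 8 ≤ x) (hJ : (J : ℝ) + 1 ≤ x) {K : ℕ} (hK : (K : ℝ) + 1 ≤ x) {m A P y : ℝ} (hm : 0 ≤ m) (hA : 0 ≤ A)
    (hP : 0 ≤ P) (hy : x ^ 70 ≤ y) :
    (2 * x ^ 2 * ((J : ℝ) + 1) * √m + 8 * x ^ 2 * ((J : ℝ) + 1) * x ^ 60 * ((K : ℝ) + 1) * m * (2 ^ 0 * P)) *
      (2 ^ 0 * A) ≤ y * (√m + m * P) * A := by
  have hx0 : 0 < x := by linarith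
  have hJ0 : (0 : ℝ) ≤ J := Nat.cast_nonneg J
  have hK0 : (0 : ℝ) ≤ K := Nat.cast_nonneg K
  rw [pow_zero, one_mul, one_mul]
  refine mul_le_mul_of_nonneg_right ?_ hA
  have h1 : 2 * x ^ 2 * ((J : ℝ) + 1) * √m ≤ x ^ 70 * √m := by
    refine mul_le_mul_of_nonneg_right ?_ (Real.sqrt_nonneg _)
    calc 2 * x ^ 2 * ((J : ℝ) + 1) ≤ 2 * x ^ 2 * x := by gcongr
      _ ≤ x * x ^ 2 * x := by
        have : 2 ≤ x := by linarith
        gcongr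
      _ = x ^ 4 := by ring
      _ ≤ x ^ 70 := pow_le_pow_right₀ (by linarith) (by norm_num)
  have h2 : 8 * x ^ 2 * ((J : ℝ) + 1) * x ^ 60 * ((K : ℝ) + 1) * m * P ≤ x ^ 70 * (m * P) := by
    have h3 : 8 * x ^ 2 * ((J : ℝ) + 1) * x ^ 60 * ((K : ℝ) + 1) ≤ x ^ 70 := by
      calc 8 * x ^ 2 * ((J : ℝ) + 1) * x ^ 60 * ((K : ℝ) + 1) ≤ x * x ^ 2 * x * x ^ 60 * x := by gcongr
        _ = x ^ 65 := by ring
        _ ≤ x ^ 70 := pow_le_pow_right₀ (by linarith) (by norm_num)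
    calc 8 * x ^ 2 * ((J : ℝ) + 1) * x ^ 60 * ((K : ℝ) + 1) * m * P =
        8 * x ^ 2 * ((J : ℝ) + 1) * x ^ 60 * ((K : ℝ) + 1) * (m * P) := by ring
      _ ≤ x ^ 70 * (m * P) := mul_le_mul_of_nonneg_right h3 (by positivity)
  calc 2 * x ^ 2 * ((J : ℝ) + 1) * √m + 8 * x ^ 2 * ((J : ℝ) + 1) * x ^ 60 * ((K : ℝ) + 1) * m * P ≤
      x ^ 70 * √m + x ^ 70 * (m * P) := add_le_add h1 h2
    _ = x ^ 70 * (√m + m * P) := by ring
    _ ≤ y * (√m + m * P) := mul_le_mul_of_nonneg_right hy (by positivity)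

/-! ### Depths and tie rates -/

/-- The depth of a short cluster (class `j`): sums at most `(G / 4 + h) √(2 ^ (j + 1)) a`, at most three special pieces on each of the
two paths, three Markov lines of size `lm`. -/
theorem depth_short (hx : 100 ≤ x) {G h lm a : ℝ} (hG : G ≤ 6 * x ^ 3) (hh : h ≤ x + 4) (hlm : lm ≤ x)
    (ha : 1 ≤ a) (j : ℕ) : 2 * ((G / 4 + h) * √((2 : ℝ) ^ (j + 1)) * a + 6 * a) + 3 * lm ≤ x ^ 4 * √((2 : ℝ) ^ j) * a := by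
  have hx0 : 0 < x := by linarith
  have h1 : √((2 : ℝ) ^ (j + 1)) ≤ 3 / 2 * √((2 : ℝ) ^ j) := by
    rw [pow_succ, Real.sqrt_mul (by positivity), mul_comm]
    refine mul_le_mul_of_nonneg_right ?_ (Real.sqrt_nonneg _)
    rw [Real.sqrt_le_left (by norm_num)]
    norm_num
  have h2 : (1 : ℝ) ≤ √((2 : ℝ) ^ j) := Real.one_le_sqrt.2 (one_le_pow₀ (by norm_num))
  set r := √((2 : ℝ) ^ j) with hr
  have hra : 1 ≤ r * a := one_le_mul_of_one_le_of_one_le h2 ha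
  have h3 : G / 4 + h ≤ 2 * x ^ 3 := by
    have h4 : x + 4 ≤ x ^ 3 / 2 := by
      have h5 : 100 ≤ x ^ 2 := by nlinarith
      have h6 : x ^ 3 = x ^ 2 * x := by ring
      nlinarith
    linarith
  have h4 : (G / 4 + h) * √((2 : ℝ) ^ (j + 1)) * a ≤ 2 * x ^ 3 * (3 / 2 * r) * a := by
    refine mul_le_mul_of_nonneg_right (mul_le_mul h3 h1 (Real.sqrt_nonneg _) (by positivity)) (by linarith)
  have h5 : a ≤ r * a := by nlinarith
  have h6 : x ≤ x * (r * a) := by nlinarith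
  have h7 : 2 * (2 * x ^ 3 * (3 / 2 * r) * a + 6 * (r * a)) + 3 * (x * (r * a)) = (6 * x ^ 3 + 12 + 3 * x) * (r * a) := by
    ring
  have h8 : 6 * x ^ 3 + 12 + 3 * x ≤ x ^ 4 := by
    have h9 : x ^ 4 = x * x ^ 3 := by ring
    have h10 : x ≤ x ^ 3 := by
      calc x = x ^ 1 := (pow_one x).symm
        _ ≤ x ^ 3 := pow_le_pow_right₀ (by linarith) (by norm_num)
    have h11 : 100 * x ^ 3 ≤ x * x ^ 3 := mul_le_mul_of_nonneg_right hx (by positivity)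
    linarith
  have h9 : (6 * x ^ 3 + 12 + 3 * x) * (r * a) ≤ x ^ 4 * (r * a) := mul_le_mul_of_nonneg_right h8 (by linarith)
  have h10 : x ^ 4 * r * a = x ^ 4 * (r * a) := by ring
  linarith

/-- The tie rate of the class `j`: `X` windows, rate `r M`. -/
theorem rate_short (hx : 1 ≤ x) {X r M q A : ℝ} {j k : ℕ} (hXr0 : 0 ≤ X * r) (hXr : X * r ≤ x ^ 4 * q) (hA : 0 ≤ A)
    (hM : M ≤ x ^ 4 * √((2 : ℝ) ^ j) * (2 ^ k * A)) : X * (r * M) ≤ x ^ 8 * √((2 : ℝ) ^ j) * (2 ^ k * (A * q)) := by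
  have hx0 : 0 < x := by linarith
  calc X * (r * M) = X * r * M := by ring
    _ ≤ X * r * (x ^ 4 * √((2 : ℝ) ^ j) * (2 ^ k * A)) := mul_le_mul_of_nonneg_left hM hXr0
    _ ≤ x ^ 4 * q * (x ^ 4 * √((2 : ℝ) ^ j) * (2 ^ k * A)) := mul_le_mul_of_nonneg_right hXr (by positivity)
    _ = x ^ 8 * √((2 : ℝ) ^ j) * (2 ^ k * (A * q)) := by ring

/-- The depth of a long cluster, `d ≤ m` zones, `n = ⌊m / s⌋ ≥ 1`: `d / n + 1` pieces of at most `n` zones. -/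
theorem depth_long (hx : 100 ≤ x) {G h lm a m d : ℝ} {n : ℕ} (hG0 : 0 ≤ G) (hG : G ≤ 6 * x ^ 3) (hh0 : 0 ≤ h) (hh : h ≤ x + 4)
    (hlm : lm ≤ x) (ha : 1 ≤ a) (hm : x ^ 30 ≤ m) (hd : d ≤ m) (hn : n = ⌊m / x ^ 30⌋₊) :
    2 * ((d / n + 1) * ((G / 4 + h) * √(n : ℝ) * a) + 6 * a) + 3 * lm ≤ x ^ 20 * √m * a := by
  have hx0 : 0 < x := by linarith
  have hx30 : 0 < x ^ 30 := by positivity
  have hm0 : 0 < m := lt_of_lt_of_le hx30 hm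
  have h1m : 1 ≤ m / x ^ 30 := by rwa [one_le_div hx30]
  have hn1 : 1 ≤ n := by
    rw [hn]
    exact Nat.one_le_floor_iff _ |>.2 h1m
  have hn1' : (1 : ℝ) ≤ n := by exact_mod_cast hn1
  have hn0 : (0 : ℝ) < n := by linarith
  have hnle : (n : ℝ) ≤ m / x ^ 30 := by
    rw [hn]
    exact Nat.floor_le (by positivity)
  have hnge : m / x ^ 30 ≤ 2 * n := by
    have := Nat.lt_floor_add_one (m / x ^ 30)
    rw [← hn] at this
    linarith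
  -- √n ≤ √m / x ^ 15
  have hsn : √(n : ℝ) ≤ √m / x ^ 15 := by
    rw [← sqrt_x30 hx0.le, ← Real.sqrt_div' m hx30.le]
    exact Real.sqrt_le_sqrt hnle
  have hsm : 1 ≤ √m := Real.one_le_sqrt.2 ((one_le_pow₀ (by linarith)).trans hm)
  -- (d / n + 1) ≤ 3 x ^ 30
  have hdn : d / n + 1 ≤ 3 * x ^ 30 := by
    have e1 : d / n ≤ 2 * x ^ 30 := by
      rw [div_le_iff₀ hn0]
      rw [div_le_iff₀ hx30] at hnge
      linarith
    have e2 : 1 ≤ x ^ 30 := one_le_pow₀ (by linarith)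
    linarith
  have h3 : G / 4 + h ≤ 2 * x ^ 3 := by
    have h4 : x + 4 ≤ x ^ 3 / 2 := by
      have h5 : 100 ≤ x ^ 2 := by nlinarith
      have h6 : x ^ 3 = x ^ 2 * x := by ring
      nlinarith
    linarith
  have h4 : (G / 4 + h) * √(n : ℝ) * a ≤ 2 * x ^ 3 * (√m / x ^ 15) * a :=
    mul_le_mul_of_nonneg_right (mul_le_mul h3 hsn (Real.sqrt_nonneg _) (by positivity)) (by linarith)
  have h5 : (d / n + 1) * ((G / 4 + h) * √(n : ℝ) * a) ≤ 3 * x ^ 30 * (2 * x ^ 3 * (√m / x ^ 15) * a) :=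
    mul_le_mul hdn h4 (by positivity) (by positivity)
  have h6 : 3 * x ^ 30 * (2 * x ^ 3 * (√m / x ^ 15) * a) = 6 * x ^ 18 * (√m * a) := by
    field_simp
    ring
  have hma : 1 ≤ √m * a := one_le_mul_of_one_le_of_one_le hsm ha
  have h7 : a ≤ √m * a := by nlinarith
  have h8 : x ≤ x * (√m * a) := by nlinarith
  have h9 : 12 * x ^ 18 + 12 + 3 * x ≤ x ^ 20 := by
    have e1 : x ^ 20 = x ^ 2 * x ^ 18 := by ring
    have e2 : 1 ≤ x ^ 18 := one_le_pow₀ (by linarith)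
    have e3 : x ≤ x ^ 18 := by
      calc x = x ^ 1 := (pow_one x).symm
        _ ≤ x ^ 18 := pow_le_pow_right₀ (by linarith) (by norm_num)
    have e4 : 100 * x ^ 18 ≤ x ^ 2 * x ^ 18 := mul_le_mul_of_nonneg_right (by nlinarith) (by positivity)
    linarith
  have h10 : (12 * x ^ 18 + 12 + 3 * x) * (√m * a) ≤ x ^ 20 * (√m * a) := mul_le_mul_of_nonneg_right h9 (by linarith)
  have h11 : x ^ 20 * √m * a = x ^ 20 * (√m * a) := by ring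
  have h12 : (12 * x ^ 18 + 12 + 3 * x) * (√m * a) = 2 * (6 * x ^ 18 * (√m * a)) + 12 * (√m * a) + 3 * (x * (√m * a)) := by
    ring
  linarith

/-- The depth of a long cluster if `m < s`: the trivial bound `2 a` of each zone. -/
theorem depth_long' (hx : 100 ≤ x) {lm a m d : ℝ} (hlm : lm ≤ x) (ha : 1 ≤ a) (h1m : 1 ≤ m) (hm : m ≤ x ^ 30) (hd : d ≤ m) :
    2 * (d * (2 * a) + 6 * a) + 3 * lm ≤ x ^ 20 * √m * a := by
  have hx0 : 0 < x := by linarith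
  have hsm : 1 ≤ √m := Real.one_le_sqrt.2 h1m
  have hmm : √m * √m = m := Real.mul_self_sqrt (by linarith)
  have hm15 : √m ≤ x ^ 15 := by
    rw [← sqrt_x30 hx0.le]
    exact Real.sqrt_le_sqrt hm
  have h1 : d ≤ x ^ 15 * √m := by
    calc d ≤ m := hd
      _ = √m * √m := hmm.symm
      _ ≤ x ^ 15 * √m := mul_le_mul_of_nonneg_right hm15 (Real.sqrt_nonneg _)
  have h2 : d * (2 * a) ≤ x ^ 15 * √m * (2 * a) := mul_le_mul_of_nonneg_right h1 (by linarith)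
  have hma : 1 ≤ √m * a := one_le_mul_of_one_le_of_one_le hsm ha
  have h7 : a ≤ √m * a := by nlinarith
  have h8 : x ≤ x * (√m * a) := by nlinarith
  have h9 : 4 * x ^ 15 + 12 + 3 * x ≤ x ^ 20 := by
    have e1 : x ^ 20 = x ^ 5 * x ^ 15 := by ring
    have e2 : 1 ≤ x ^ 15 := one_le_pow₀ (by linarith)
    have e3 : x ≤ x ^ 15 := by
      calc x = x ^ 1 := (pow_one x).symm
        _ ≤ x ^ 15 := pow_le_pow_right₀ (by linarith) (by norm_num)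
    have e5 : 100 ≤ x ^ 5 := by
      calc (100 : ℝ) ≤ x := hx
        _ = x ^ 1 := (pow_one x).symm
        _ ≤ x ^ 5 := pow_le_pow_right₀ (by linarith) (by norm_num)
    have e4 : 100 * x ^ 15 ≤ x ^ 5 * x ^ 15 := mul_le_mul_of_nonneg_right e5 (by positivity)
    linarith
  have h10 : (4 * x ^ 15 + 12 + 3 * x) * (√m * a) ≤ x ^ 20 * (√m * a) := mul_le_mul_of_nonneg_right h9 (by linarith)
  have h11 : x ^ 20 * √m * a = x ^ 20 * (√m * a) := by ring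
  have h12 : (4 * x ^ 15 + 12 + 3 * x) * (√m * a) = 2 * (x ^ 15 * √m * (2 * a)) + 12 * (√m * a) + 3 * (x * (√m * a)) := by
    ring
  linarith

/-- The long ties: at most `x ^ 34` places, `X` windows, rate `r M`. -/
theorem long_sum (hx : 2 ≤ x) {X r M q A m pl : ℝ} {k : ℕ} (hpl0 : 0 ≤ pl) (hpl : pl ≤ x ^ 34) (hXr0 : 0 ≤ X * r)
    (hXr : X * r ≤ x ^ 4 * q) (hq : 0 ≤ q) (hA : 0 ≤ A) (hM : M ≤ x ^ 20 * √m * (2 ^ k * A))
    (hT : x ^ 60 * √m * (2 ^ k * (A * q)) ≤ 1) : pl * (X * (r * M)) ≤ 1 / 2 := by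
  have hx0 : 0 < x := by linarith
  have h1 : X * (r * M) ≤ x ^ 24 * √m * (2 ^ k * (A * q)) := by
    calc X * (r * M) = X * r * M := by ring
      _ ≤ X * r * (x ^ 20 * √m * (2 ^ k * A)) := mul_le_mul_of_nonneg_left hM hXr0
      _ ≤ x ^ 4 * q * (x ^ 20 * √m * (2 ^ k * A)) := mul_le_mul_of_nonneg_right hXr (by positivity)
      _ = x ^ 24 * √m * (2 ^ k * (A * q)) := by ring
  have h2 : 0 ≤ √m * (2 ^ k * (A * q)) := by positivity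
  calc pl * (X * (r * M)) ≤ pl * (x ^ 24 * √m * (2 ^ k * (A * q))) := mul_le_mul_of_nonneg_left h1 hpl0
    _ ≤ x ^ 34 * (x ^ 24 * √m * (2 ^ k * (A * q))) := mul_le_mul_of_nonneg_right hpl (by positivity)
    _ = x ^ 58 * (√m * (2 ^ k * (A * q))) := by ring
    _ ≤ x ^ 59 / 2 * (√m * (2 ^ k * (A * q))) := by
      refine mul_le_mul_of_nonneg_right ?_ h2
      have : x ^ 59 = x * x ^ 58 := by ring
      have h3 : 0 ≤ x ^ 58 := by positivity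
      nlinarith
    _ ≤ x ^ 60 / 2 * (√m * (2 ^ k * (A * q))) := by
      refine mul_le_mul_of_nonneg_right ?_ h2
      have : x ^ 59 ≤ x ^ 60 := pow_le_pow_right₀ (by linarith) (by norm_num)
      linarith
    _ = x ^ 60 * √m * (2 ^ k * (A * q)) / 2 := by ring
    _ ≤ 1 / 2 := by linarith

end alg

/-! ### The errors -/

/-- Monotonicity in both exponents. -/
theorem pe_mono {a a' c c' : ℝ} (ha : a ≤ a') (hc : c' ≤ c) {L : ℕ} (hL : 1 ≤ L) :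
    (L : ℝ) ^ a * Real.exp (-(L : ℝ) ^ c) ≤ (L : ℝ) ^ a' * Real.exp (-(L : ℝ) ^ c') :=
  mul_le_mul (Real.rpow_le_rpow_of_exponent_le (by exact_mod_cast hL) ha) (exp_mono hc hL) (Real.exp_pos _).le
    (by positivity)

/-- The sum of four errors with polynomial multiplicities. -/
theorem err_sum {c : ℝ} (hc : 0 < c) (a : ℝ) : ∃ c₂ : ℝ, 0 < c₂ ∧ ∃ L₀ : ℕ, ∀ L : ℕ, L₀ ≤ L → ∀ n₁ n₂ n₃ n₄ e₁ e₂ e₃ e₄ : ℝ,
    0 ≤ n₁ → 0 ≤ n₂ → 0 ≤ n₃ → 0 ≤ n₄ → n₁ ≤ (L : ℝ) ^ a → n₂ ≤ (L : ℝ) ^ a → n₃ ≤ (L : ℝ) ^ a → n₄ ≤ (L : ℝ) ^ a →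
    0 ≤ e₁ → 0 ≤ e₂ → 0 ≤ e₃ → 0 ≤ e₄ → e₁ ≤ (L : ℝ) ^ a * Real.exp (-(L : ℝ) ^ c) →
    e₂ ≤ (L : ℝ) ^ a * Real.exp (-(L : ℝ) ^ c) → e₃ ≤ (L : ℝ) ^ a * Real.exp (-(L : ℝ) ^ c) →
    e₄ ≤ (L : ℝ) ^ a * Real.exp (-(L : ℝ) ^ c) →
    n₁ * e₁ + n₂ * e₂ + n₃ * e₃ + n₄ * e₄ ≤ Real.exp (-(L : ℝ) ^ c₂) := by
  obtain ⟨c₂, hc₂, -, L₁, h1⟩ := pow_exp hc (1 + (a + a))
  obtain ⟨L₂, h2⟩ := large (show (0 : ℝ) < 1 by norm_num) 4
  refine ⟨c₂, hc₂, max L₁ L₂, fun L hL n₁ n₂ n₃ n₄ e₁ e₂ e₃ e₄ p1 p2 p3 p4 q1 q2 q3 q4 r1 r2 r3 r4 s1 s2 s3 s4 => ?_⟩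
  have g1 := h1 L ((le_max_left _ _).trans hL)
  obtain ⟨-, g4, -⟩ := h2 L ((le_max_right _ _).trans hL)
  rw [Real.rpow_one] at g4
  have hL0 : (0 : ℝ) < L := by linarith
  have key : ∀ n e : ℝ, 0 ≤ n → n ≤ (L : ℝ) ^ a → 0 ≤ e → e ≤ (L : ℝ) ^ a * Real.exp (-(L : ℝ) ^ c) →
      n * e ≤ (L : ℝ) ^ a * ((L : ℝ) ^ a * Real.exp (-(L : ℝ) ^ c)) := fun n e h1 h2 h3 h4 =>
    mul_le_mul h2 h4 h3 (by positivity)
  have k1 := key n₁ e₁ p1 q1 r1 s1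
  have k2 := key n₂ e₂ p2 q2 r2 s2
  have k3 := key n₃ e₃ p3 q3 r3 s3
  have k4 := key n₄ e₄ p4 q4 r4 s4
  have k5 : 4 * ((L : ℝ) ^ a * ((L : ℝ) ^ a * Real.exp (-(L : ℝ) ^ c))) ≤
      (L : ℝ) ^ (1 + (a + a)) * Real.exp (-(L : ℝ) ^ c) := by
    rw [Real.rpow_add hL0, Real.rpow_add hL0, Real.rpow_one]
    have : 0 ≤ (L : ℝ) ^ a * ((L : ℝ) ^ a * Real.exp (-(L : ℝ) ^ c)) := by positivity
    calc 4 * ((L : ℝ) ^ a * ((L : ℝ) ^ a * Real.exp (-(L : ℝ) ^ c))) ≤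
        L * ((L : ℝ) ^ a * ((L : ℝ) ^ a * Real.exp (-(L : ℝ) ^ c))) := mul_le_mul_of_nonneg_right g4 this
      _ = L * ((L : ℝ) ^ a * (L : ℝ) ^ a) * Real.exp (-(L : ℝ) ^ c) := by ring
  linarith

/-- The error of the induction. -/
theorem err_end {β c₂ : ℝ} (hβ : 0 < β) (hc₂ : 0 < c₂) (a : ℝ) (n : ℕ) : ∃ c₁ : ℝ, 0 < c₁ ∧ ∃ L₀ : ℕ, ∀ L : ℕ, L₀ ≤ L →
    ∀ (m Q dl : ℝ) (J : ℕ), 0 ≤ m → m ≤ L → 0 ≤ Q → Q ≤ (L : ℝ) ^ (4 : ℕ) → 0 ≤ dl →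
    dl ≤ (L : ℝ) ^ a * Real.exp (-(L : ℝ) ^ c₂) → (L : ℝ) ^ β ≤ J + 2 →
    m * (Q ^ (n + 1) * (3 * dl + (1 / 2) ^ J)) ≤ Real.exp (-(L : ℝ) ^ c₁) := by
  obtain ⟨c₁, hc₁, -, L₁, h1⟩ := pow_exp (c := min c₂ (β / 2)) (lt_min hc₂ (by linarith)) (|a| + 1 + (4 * (n + 1) + 1 : ℕ))
  obtain ⟨L₂, h2⟩ := large (show 0 < β / 2 by linarith) 2
  obtain ⟨L₃, h3⟩ := large (show (0 : ℝ) < 1 by norm_num) 7
  refine ⟨c₁, hc₁, max L₁ (max L₂ L₃), fun L hL m Q dl J hm0 hmL hQ0 hQ hdl0 hdl hJ => ?_⟩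
  have g1 := h1 L ((le_max_left _ _).trans hL)
  obtain ⟨g2, g3, -⟩ := h2 L (((le_max_left _ _).trans (le_max_right _ _)).trans hL)
  obtain ⟨-, g4, -⟩ := h3 L (((le_max_right _ _).trans (le_max_right _ _)).trans hL)
  rw [Real.rpow_one] at g4
  have hL0 : (0 : ℝ) < L := by linarith
  have hL1 : (1 : ℝ) ≤ L := by linarith
  set e := Real.exp (-(L : ℝ) ^ (min c₂ (β / 2))) with he
  have he0 : 0 < e := Real.exp_pos _
  have h4 : (1 / 2 : ℝ) ^ J ≤ 4 * e := by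
    refine (half_pow hJ).trans (mul_le_mul_of_nonneg_left (Real.exp_le_exp.2 ?_) (by norm_num))
    have e1 : (L : ℝ) ^ β = (L : ℝ) ^ (β / 2) * (L : ℝ) ^ (β / 2) := by
      rw [← Real.rpow_add hL0]
      congr 1
      ring
    have e2 : (L : ℝ) ^ (min c₂ (β / 2)) ≤ (L : ℝ) ^ (β / 2) := Real.rpow_le_rpow_of_exponent_le hL1 (min_le_right _ _)
    have e3 : 2 * (L : ℝ) ^ (β / 2) ≤ (L : ℝ) ^ β := by
      rw [e1]
      nlinarith
    linarith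
  have h5 : dl ≤ (L : ℝ) ^ |a| * e := by
    refine hdl.trans (mul_le_mul (Real.rpow_le_rpow_of_exponent_le hL1 (le_abs_self a)) ?_ (Real.exp_pos _).le (by positivity))
    exact exp_mono (min_le_left _ _) g2
  have hLa : 1 ≤ (L : ℝ) ^ |a| := Real.one_le_rpow hL1 (abs_nonneg a)
  have h6 : 3 * dl + (1 / 2) ^ J ≤ (L : ℝ) ^ (|a| + 1) * e := by
    have e1 : 3 * dl + (1 / 2) ^ J ≤ 7 * ((L : ℝ) ^ |a| * e) := by nlinarith
    have e2 : (L : ℝ) ^ (|a| + 1) * e = L * ((L : ℝ) ^ |a| * e) := by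
      rw [Real.rpow_add hL0, Real.rpow_one]
      ring
    rw [e2]
    exact e1.trans (mul_le_mul_of_nonneg_right g4 (by positivity))
  have h7 : Q ^ (n + 1) ≤ (L : ℝ) ^ (4 * (n + 1)) := by
    rw [pow_mul]
    exact pow_le_pow_left₀ hQ0 hQ _
  have h8 : 0 ≤ 3 * dl + (1 / 2 : ℝ) ^ J := by positivity
  calc m * (Q ^ (n + 1) * (3 * dl + (1 / 2) ^ J)) ≤ L * ((L : ℝ) ^ (4 * (n + 1)) * ((L : ℝ) ^ (|a| + 1) * e)) :=
        mul_le_mul hmL (mul_le_mul h7 h6 h8 (by positivity)) (by positivity) hL0.le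
    _ = (L : ℝ) ^ (|a| + 1 + (4 * (n + 1) + 1 : ℕ)) * e := by
      rw [Real.rpow_add hL0 (|a| + 1), Real.rpow_natCast, pow_succ]
      ring
    _ ≤ _ := g1

/-- The error of the count. -/
theorem err_count {β c' : ℝ} (hβ : 0 < β) (hβc : β < c') (R C : ℝ) (hR : 0 ≤ R) : ∃ c₂ : ℝ, 0 < c₂ ∧ ∃ L₀ : ℕ, ∀ L : ℕ,
    L₀ ≤ L → ∀ (N₀ : ℕ) (U X p : ℝ), (N₀ : ℝ) ≤ (L : ℝ) ^ β → (L : ℝ) ^ β ≤ N₀ + 2 → 0 ≤ U → U ≤ (L : ℝ) ^ C → 0 ≤ X →
    X ≤ (L : ℝ) ^ C → 0 ≤ p → p ≤ Real.exp (-(L : ℝ) ^ c') →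
    R * (2 * (U + 1) * ((1 / 2) ^ N₀ + U ^ N₀ * (N₀ * (X * p)))) ≤ Real.exp (-(L : ℝ) ^ c₂) := by
  have hc' : 0 < c' := hβ.trans hβc
  obtain ⟨c₂, hc₂, -, L₁, h1⟩ := pow_exp (c := min (c' / 2) (β / 2)) (lt_min (by linarith) (by linarith))
    (1 + (|C| + 1 + (1 + β + |C|)))
  obtain ⟨L₂, h2⟩ := large (show 0 < β / 2 by linarith) 2
  obtain ⟨L₃, h3⟩ := large (show (0 : ℝ) < 1 by norm_num) (20 * R + 20)
  obtain ⟨L₄, h4⟩ := large (show 0 < c' - β by linarith) (4 * |C|)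
  obtain ⟨L₅, h5⟩ := large (show 0 < c' / 2 by linarith) 4
  refine ⟨c₂, hc₂, max (max L₁ L₂) (max L₃ (max L₄ L₅)), fun L hL N₀ U X p hN1 hN2 hU0 hU hX0 hX hp0 hp => ?_⟩
  have g1 := h1 L (((le_max_left _ _).trans (le_max_left _ _)).trans hL)
  obtain ⟨g2, g3, -⟩ := h2 L (((le_max_right _ _).trans (le_max_left _ _)).trans hL)
  obtain ⟨-, g4, -⟩ := h3 L (((le_max_left _ _).trans (le_max_right _ _)).trans hL)
  obtain ⟨-, g5, g6⟩ := h4 L (((le_max_left _ _).trans ((le_max_right _ _).trans (le_max_right _ _))).trans hL)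
  obtain ⟨-, g7, -⟩ := h5 L (((le_max_right _ _).trans ((le_max_right _ _).trans (le_max_right _ _))).trans hL)
  rw [Real.rpow_one] at g4
  have hL1 : (1 : ℝ) ≤ L := by exact_mod_cast g2
  have hL0 : (0 : ℝ) < L := by linarith
  have hlog : 0 ≤ Real.log L := Real.log_nonneg hL1
  set e := Real.exp (-(L : ℝ) ^ (min (c' / 2) (β / 2))) with he
  have he0 : 0 < e := Real.exp_pos _
  have hLC : 1 ≤ (L : ℝ) ^ |C| := Real.one_le_rpow hL1 (abs_nonneg C)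
  have hCC : (L : ℝ) ^ C ≤ (L : ℝ) ^ |C| := Real.rpow_le_rpow_of_exponent_le hL1 (le_abs_self C)
  have k1 : (1 / 2 : ℝ) ^ N₀ ≤ 4 * e := by
    refine (half_pow hN2).trans (mul_le_mul_of_nonneg_left (Real.exp_le_exp.2 ?_) (by norm_num))
    have e1 : (L : ℝ) ^ β = (L : ℝ) ^ (β / 2) * (L : ℝ) ^ (β / 2) := by
      rw [← Real.rpow_add hL0]
      congr 1
      ring
    have e2 : (L : ℝ) ^ (min (c' / 2) (β / 2)) ≤ (L : ℝ) ^ (β / 2) :=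
      Real.rpow_le_rpow_of_exponent_le hL1 (min_le_right _ _)
    have e3 : 2 * (L : ℝ) ^ (β / 2) ≤ (L : ℝ) ^ β := by
      rw [e1]
      nlinarith
    linarith
  -- U ^ N₀ p ≤ exp (- L ^ c' / 2) ≤ e
  have k2 : U ^ N₀ ≤ Real.exp ((L : ℝ) ^ c' / 4) := by
    have e1 : U ^ N₀ ≤ ((L : ℝ) ^ |C|) ^ N₀ := pow_le_pow_left₀ hU0 (hU.trans hCC) _
    have e2 : ((L : ℝ) ^ |C|) ^ N₀ = Real.exp (N₀ * (Real.log L * |C|)) := by
      rw [Real.rpow_def_of_pos hL0, ← Real.exp_nat_mul]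
    rw [e2] at e1
    refine e1.trans (Real.exp_le_exp.2 ?_)
    have e3 : (N₀ : ℝ) * (Real.log L * |C|) ≤ (L : ℝ) ^ β * (Real.log L * |C|) :=
      mul_le_mul_of_nonneg_right hN1 (by positivity)
    have e4 : (L : ℝ) ^ c' = (L : ℝ) ^ β * (L : ℝ) ^ (c' - β) := by
      rw [← Real.rpow_add hL0]
      congr 1
      ring
    have e5 : (L : ℝ) ^ β * (4 * |C| * (Real.log L + 1)) ≤ (L : ℝ) ^ β * (L : ℝ) ^ (c' - β) :=
      mul_le_mul_of_nonneg_left g6 (by positivity)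
    have e6 : 0 ≤ (L : ℝ) ^ β * |C| := by positivity
    rw [e4]
    nlinarith
  have k3 : U ^ N₀ * p ≤ e := by
    have e1 : U ^ N₀ * p ≤ Real.exp ((L : ℝ) ^ c' / 4) * Real.exp (-(L : ℝ) ^ c') :=
      mul_le_mul k2 hp hp0 (Real.exp_pos _).le
    rw [← Real.exp_add] at e1
    refine e1.trans (Real.exp_le_exp.2 ?_)
    have e2 : (L : ℝ) ^ c' = (L : ℝ) ^ (c' / 2) * (L : ℝ) ^ (c' / 2) := by
      rw [← Real.rpow_add hL0]
      congr 1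
      ring
    have e3 : (L : ℝ) ^ (min (c' / 2) (β / 2)) ≤ (L : ℝ) ^ (c' / 2) :=
      Real.rpow_le_rpow_of_exponent_le hL1 (min_le_left _ _)
    have e4 : 4 * (L : ℝ) ^ (c' / 2) ≤ (L : ℝ) ^ c' := by
      rw [e2]
      nlinarith
    have e5 : 0 ≤ (L : ℝ) ^ (c' / 2) := by positivity
    linarith
  have k4 : U ^ N₀ * (N₀ * (X * p)) ≤ (L : ℝ) ^ β * (L : ℝ) ^ |C| * e := by
    have e1 : U ^ N₀ * (N₀ * (X * p)) = N₀ * X * (U ^ N₀ * p) := by ring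
    rw [e1]
    exact mul_le_mul (mul_le_mul hN1 (hX.trans hCC) hX0 (by positivity)) k3 (by positivity) (by positivity)
  have hLβ : 1 ≤ (L : ℝ) ^ β := Real.one_le_rpow hL1 hβ.le
  have k5 : (1 / 2) ^ N₀ + U ^ N₀ * (N₀ * (X * p)) ≤ 5 * ((L : ℝ) ^ β * (L : ℝ) ^ |C| * e) := by
    have e1 : 1 ≤ (L : ℝ) ^ β * (L : ℝ) ^ |C| := one_le_mul_of_one_le_of_one_le hLβ hLC
    have e2 : 1 * e ≤ (L : ℝ) ^ β * (L : ℝ) ^ |C| * e := mul_le_mul_of_nonneg_right e1 he0.le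
    linarith
  have k6 : U + 1 ≤ 2 * (L : ℝ) ^ |C| := by linarith [hU.trans hCC]
  have hL20 : 20 * R ≤ L := by linarith
  calc R * (2 * (U + 1) * ((1 / 2) ^ N₀ + U ^ N₀ * (N₀ * (X * p)))) ≤
      R * (2 * (2 * (L : ℝ) ^ |C|) * (5 * ((L : ℝ) ^ β * (L : ℝ) ^ |C| * e))) := by
        refine mul_le_mul_of_nonneg_left ?_ hR
        exact mul_le_mul (by linarith) k5 (by positivity) (by positivity)
    _ = 20 * R * ((L : ℝ) ^ |C| * ((L : ℝ) ^ β * (L : ℝ) ^ |C|) * e) := by ring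
    _ ≤ L * ((L : ℝ) ^ |C| * ((L : ℝ) ^ β * (L : ℝ) ^ |C|) * e) := mul_le_mul_of_nonneg_right hL20 (by positivity)
    _ = (L : ℝ) ^ (1 + (|C| + (β + |C|))) * e := by
      rw [Real.rpow_add hL0, Real.rpow_add hL0, Real.rpow_add hL0, Real.rpow_one]
      ring
    _ ≤ (L : ℝ) ^ (1 + (|C| + 1 + (1 + β + |C|))) * e := by
      refine mul_le_mul_of_nonneg_right (Real.rpow_le_rpow_of_exponent_le hL1 (by linarith)) he0.le
    _ ≤ _ := g1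

end Pool.Agent.W_7d29a1_Z.NumI77
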