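import Pool.Agent.W_7d29a1_Z.Exch12

/-!
STORM Z, leaf EXCH (R1): the exchange of the pieces of two paths at a list of junctions without shears.
-/

namespace Pool.Agent.W_7d29a1_Z

open MeasureTheory ProbabilityTheory Filter Topology Finset
open Pool.Agent.W_7d29a1_F Pool.Agent.W_7d29a1_X Pool.Agent.W_7d29a1_G
open scoped ENNReal

variable {μ : Measure ℝ}

/-- Junction `l`: no shears at the times of `[p l, s l)`; good if the paths meet in `[p l, q l]` and in `[r l, s l]`. The exchanged path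
`ex S S'` has the law of `S` and agrees with `S'` (frame positions) in `[q l, r l]` at every good junction. -/
theorem exchange {N : ℕ} (v : ℕ → ℤ) (K : ℕ) (p q r s : ℕ → ℕ)
    (h1 : ∀ l < K, p l ≤ q l ∧ q l ≤ r l ∧ r l ≤ s l ∧ s l ≤ N) (h2 : ∀ l, l + 1 < K → s l ≤ p (l + 1))
    (hv : ∀ l < K, ∀ k, p l ≤ k → k < s l → v k = 0) :
    ∃ ex : Finset ℕ → Finset ℕ → Finset ℕ,
      (∀ S S', S ⊆ range N → S' ⊆ range N → ex S S' ⊆ range N) ∧
      (∀ (η : Env) (y : ℤ) (F : Finset ℕ → ℝ), ∑ S ∈ (range N).powerset, ∑ S' ∈ (range N).powerset,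
        gp μ η N y S * gp μ (shr 0 v η) N y S' * F (ex S S') =
          (∑ S' ∈ (range N).powerset, gp μ (shr 0 v η) N y S') * ∑ S ∈ (range N).powerset, gp μ η N y S * F S) ∧
      ∀ S S', S ⊆ range N → S' ⊆ range N → ∀ l < K, (∃ i, p l ≤ i ∧ i ≤ q l ∧ pos S i = px v S' i) →
        (∃ i, r l ≤ i ∧ i ≤ s l ∧ pos S i = px v S' i) → ∀ i, q l ≤ i → i ≤ r l → pos (ex S S') i = px v S' i := by
  refine ⟨fun S S' => (swps v p q r s K (S, S')).1, ?_, ?_, ?_⟩
  · intro S S' hS hS'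
    exact (swps_sub K (P := (S, S')) hS hS').1
  · intro η y F
    have e := sum_swps (μ := μ) (N := N) (v := v) (p := p) (q := q) (r := r) (s := s) (K := K)
      (fun l hl => ⟨(h1 l hl).2.1, (h1 l hl).2.2.2⟩) hv η y le_rfl fun P => F P.1
    rw [sum_product, sum_product] at e
    refine e.trans ?_
    rw [sum_mul_sum, sum_comm]
    refine sum_congr rfl fun S' _ => sum_congr rfl fun S _ => ?_
    ring
  · rintro S S' - - l hl ⟨i₁, a1, a2, a3⟩ ⟨i₂, b1, b2, b3⟩ i hi1 hi2
    exact (swps_pos h1 h2 hv (S, S') le_rfl).2 l hl ⟨i₁, a1, a2, a3⟩ ⟨i₂, b1, b2, b3⟩ i hi1 hi2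

/-- The law of the exchanged path under `P2`. -/
theorem P2_exch [IsProbabilityMeasure μ] {N : ℕ} {y : ℤ} (h0 : 0 ≤ y) (h1 : y ≤ N) (v : ℕ → ℤ)
    {ex : Finset ℕ → Finset ℕ → Finset ℕ} (he : ∀ S S', S ⊆ range N → S' ⊆ range N → ex S S' ⊆ range N)
    (hs : ∀ (η : Env) (y : ℤ) (F : Finset ℕ → ℝ), ∑ S ∈ (range N).powerset, ∑ S' ∈ (range N).powerset,
        gp μ η N y S * gp μ (shr 0 v η) N y S' * F (ex S S') =
          (∑ S' ∈ (range N).powerset, gp μ (shr 0 v η) N y S') * ∑ S ∈ (range N).powerset, gp μ η N y S * F S)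
    (A : Env → Finset ℕ → Prop) : P2 μ N y v (fun η S S' => A η (ex S S')) = P1 μ N y A := by
  classical
  rw [P2_eq, P1_eq]
  -- the pairs with the exchanged path `T`
  have e1 : ∀ S ∈ (range N).powerset, ∀ S' ∈ (range N).powerset,
      ∫⁻ η in {η | A η (ex S S')}, ENNReal.ofReal (gp μ η N y S * gp μ (shr 0 v η) N y S') ∂law μ =
      ∑ T ∈ (range N).powerset, ∫⁻ η in {η | A η T},
        ENNReal.ofReal (gp μ η N y S * gp μ (shr 0 v η) N y S' * (if ex S S' = T then 1 else 0)) ∂law μ := by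
    intro S hS S' hS'
    rw [mem_powerset] at hS hS'
    rw [sum_eq_single_of_mem (ex S S') (mem_powerset.2 (he S S' hS hS'))]
    · simp only [if_true, mul_one]
    · intro T _ hT
      rw [if_neg (Ne.symm hT)]
      simp only [mul_zero, ENNReal.ofReal_zero, lintegral_zero]
  rw [sum_congr rfl fun S hS => sum_congr rfl fun S' hS' => e1 S hS S' hS']
  rw [sum_congr rfl fun S _ => sum_comm, sum_comm]
  refine sum_congr rfl fun T hT => ?_
  have hm : ∀ S S', Measurable fun η : Env =>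
      ENNReal.ofReal (gp μ η N y S * gp μ (shr 0 v η) N y S' * (if ex S S' = T then 1 else 0)) :=
    fun S S' => ((measurable_gp2 v N y S S').mul_const _).ennreal_ofReal
  have e2 : ∀ S, ∑ S' ∈ (range N).powerset, ∫⁻ η in {η | A η T},
      ENNReal.ofReal (gp μ η N y S * gp μ (shr 0 v η) N y S' * (if ex S S' = T then 1 else 0)) ∂law μ =
      ∫⁻ η in {η | A η T}, ∑ S' ∈ (range N).powerset,
        ENNReal.ofReal (gp μ η N y S * gp μ (shr 0 v η) N y S' * (if ex S S' = T then 1 else 0)) ∂law μ :=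
    fun S => (lintegral_finsetSum _ fun S' _ => hm S S').symm
  simp only [e2]
  rw [← lintegral_finsetSum _ fun S _ => Finset.measurable_sum _ fun S' _ => hm S S']
  refine lintegral_congr fun η => ?_
  have e3 : ∀ S S', 0 ≤ gp μ η N y S * gp μ (shr 0 v η) N y S' * (if ex S S' = T then (1 : ℝ) else 0) := by
    intro S S'
    refine mul_nonneg (mul_nonneg (gp_nonneg _ _ _ _) (gp_nonneg _ _ _ _)) ?_
    split_ifs
    · exact zero_le_one
    · exact le_rfl
  have e4 : ∀ S, ∑ S' ∈ (range N).powerset,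
      ENNReal.ofReal (gp μ η N y S * gp μ (shr 0 v η) N y S' * (if ex S S' = T then 1 else 0)) =
      ENNReal.ofReal (∑ S' ∈ (range N).powerset, gp μ η N y S * gp μ (shr 0 v η) N y S' * (if ex S S' = T then 1 else 0)) :=
    fun S => (ENNReal.ofReal_sum_of_nonneg fun S' _ => e3 S S').symm
  simp only [e4]
  rw [← ENNReal.ofReal_sum_of_nonneg fun S _ => sum_nonneg fun S' _ => e3 S S']
  congr 1
  have h := hs η y fun U => if U = T then 1 else 0
  rw [gp_sum (shr 0 v η) h0 h1, one_mul] at h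
  rw [h]
  simp only [mul_ite, mul_one, mul_zero]
  rw [sum_ite_eq_of_mem' _ _ _ hT]

end Pool.Agent.W_7d29a1_Z
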