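import Pool.Agent.W_7d29a1_Z.Asm72
import Pool.Agent.W_7d29a1_Z49.InRec

/-!
STORM Z (MP_7d29a1_pr), leaf Z8, bridge between the one step inequality for one point to point system (`Asm72.onestep_w`)
and the induction (`Z49.in_rec`): the failure probability is the supremum over a family of systems and over all intervals
of `m` admissible blocks. (helper72)
-/

namespace Pool.Agent.W_7d29a1_Z.Sup72

open Finset W_7d29a1_Z.CtrOp77 Pool.Agent.W_7d29a1_Z.In72 Pool.Agent.W_7d29a1_Z.Asm72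

noncomputable section

/-- A family of point to point systems: laws, functionals of the blocks, admissible blocks `[lo i, hi i)`. -/
structure Fam (I : Type*) (Y : I → Type*) where
  /-- the law of (environment, path) -/
  ν : ∀ i, SubProb (Y i)
  /-- the functional of the block `b` with the multiple `a` -/
  φ : ∀ i, Y i → ℕ → ℤ → ℝ
  /-- first admissible block -/
  lo : I → ℕ
  /-- end of the admissible blocks -/
  hi : I → ℕ

variable {I : Type*} {Y : I → Type*} (F : Fam I Y)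

/-- The failure probability of the system `i` and the blocks `[a, a + m)` for the step `2 ^ k`. -/
def Fam.val (k m : ℕ) (x : ℝ) (i : I) (a : ℕ) : ℝ :=
  (F.ν i).pr {y | x < |Xs (2 ^ k) (Ico a (a + m)) (F.φ i y)|}

/-- The values. -/
def Fam.vals (k m : ℕ) (x : ℝ) : Set ℝ := {r | ∃ i a, F.lo i ≤ a ∧ a + m ≤ F.hi i ∧ r = F.val k m x i a}

/-- The supremum of the failure probabilities. -/
def Fam.p (k m : ℕ) (x : ℝ) : ℝ := sSup (F.vals k m x)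

theorem Fam.bdd (k m : ℕ) (x : ℝ) : BddAbove (F.vals k m x) :=
  ⟨1, by rintro r ⟨i, a, -, -, rfl⟩; exact (F.ν i).le_one _⟩

theorem Fam.p_nonneg (k m : ℕ) (x : ℝ) : 0 ≤ F.p k m x :=
  Real.sSup_nonneg (by rintro r ⟨i, a, -, -, rfl⟩; exact (F.ν i).nonneg _)

theorem Fam.p_le {k m : ℕ} {x c : ℝ} (hc : 0 ≤ c)
    (h : ∀ i a, F.lo i ≤ a → a + m ≤ F.hi i → F.val k m x i a ≤ c) : F.p k m x ≤ c :=
  Real.sSup_le (by rintro r ⟨i, a, h1, h2, rfl⟩; exact h i a h1 h2) hc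

theorem Fam.p_le_one (k m : ℕ) (x : ℝ) : F.p k m x ≤ 1 :=
  F.p_le zero_le_one fun i _ _ _ => (F.ν i).le_one _

theorem Fam.val_le {k m : ℕ} {x : ℝ} {i : I} {a : ℕ} (h1 : F.lo i ≤ a) (h2 : a + m ≤ F.hi i) :
    F.val k m x i a ≤ F.p k m x :=
  le_csSup (F.bdd k m x) ⟨i, a, h1, h2, rfl⟩

theorem Fam.p_anti (k m : ℕ) {x y : ℝ} (h : x ≤ y) : F.p k m y ≤ F.p k m x :=
  F.p_le (F.p_nonneg k m x) fun i _ h1 h2 =>
    ((F.ν i).mono (fun _ hw => lt_of_le_of_lt h hw)).trans (F.val_le h1 h2)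

theorem Xs_split (s : ℤ) (f : ℕ → ℤ → ℝ) (a m m' : ℕ) :
    Xs s (Ico a (a + (m + m'))) f = Xs s (Ico a (a + m)) f + Xs s (Ico (a + m) (a + m + m')) f := by
  unfold Xs
  rw [← add_assoc, Finset.sum_Ico_consecutive _ (Nat.le_add_right a m) (Nat.le_add_right (a + m) m')]

theorem Fam.p_add (k m m' : ℕ) (x y : ℝ) : F.p k (m + m') (x + y) ≤ F.p k m x + F.p k m' y := by
  refine F.p_le (add_nonneg (F.p_nonneg k m x) (F.p_nonneg k m' y)) fun i a h1 h2 => ?_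
  have hsub : {w | x + y < |Xs (2 ^ k) (Ico a (a + (m + m'))) (F.φ i w)|} ⊆
      {w | x < |Xs (2 ^ k) (Ico a (a + m)) (F.φ i w)|} ∪
      {w | y < |Xs (2 ^ k) (Ico (a + m) (a + m + m')) (F.φ i w)|} := by
    intro w hw
    by_contra hcon
    simp only [Set.mem_union, Set.mem_ofPred_eq, not_or, not_lt] at hcon
    have h3 : x + y < |Xs (2 ^ k) (Ico a (a + (m + m'))) (F.φ i w)| := hw
    rw [Xs_split] at h3
    have h4 := abs_add_le (Xs (2 ^ k) (Ico a (a + m)) (F.φ i w)) (Xs (2 ^ k) (Ico (a + m) (a + m + m')) (F.φ i w))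
    linarith [hcon.1, hcon.2]
  refine (((F.ν i).mono hsub).trans ((F.ν i).union _ _)).trans ?_
  exact add_le_add (F.val_le (m := m) h1 (by omega)) (F.val_le (m := m') (by omega) (by omega))

/-- The base of the induction: a bound of single blocks. -/
theorem Fam.p_base {k : ℕ} {c dl : ℝ} (hdl : 0 ≤ dl)
    (h : ∀ i b, F.lo i ≤ b → b < F.hi i → (F.ν i).pr {y | c < |D (2 ^ k) (F.φ i y b) 0|} ≤ dl) (m : ℕ) (hm : 1 ≤ m) :
    F.p k m (m * c) ≤ m * dl := by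
  induction m, hm using Nat.le_induction with
  | base =>
    refine F.p_le (by positivity) fun i a h1 h2 => ?_
    have h3 := h i a h1 (by omega)
    unfold Fam.val Xs
    rw [Nat.Ico_succ_singleton]
    simpa using h3
  | succ m hm ih =>
    have h1 : F.p k 1 c ≤ dl := by
      refine F.p_le hdl fun i a h1 h2 => ?_
      have h3 := h i a h1 (by omega)
      unfold Fam.val Xs
      rw [Nat.Ico_succ_singleton]
      simpa using h3
    have h2 := F.p_add k m 1 (m * c) c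
    have e1 : ((m + 1 : ℕ) : ℝ) * c = m * c + c := by push_cast; ring
    have e2 : ((m + 1 : ℕ) : ℝ) * dl = m * dl + dl := by push_cast; ring
    rw [e1, e2]
    linarith

/-- **OneStep for the supremum.** `hstep` is the conclusion of `Asm72.onestep_w` for every system and interval (with the
total weight of the long ties `≤ 1 / 2` and the errors summed up in `m * dl`). -/
theorem Fam.oneStep {K B : ℕ} {s T A P c0 G L1 dl : ℝ} (hA : 0 ≤ A) (hc0 : 0 ≤ c0) (hdl : 0 ≤ dl)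
    (hL1 : 2 * ((B : ℝ) + 1) ≤ L1)
    (hstep : ∀ k < K, ∀ m : ℕ, 1 ≤ m → m ≤ B → T * √(m : ℝ) * (2 ^ k * P) ≤ 1 → ∀ i a, F.lo i ≤ a →
      a + m ≤ F.hi i → ∀ x : ℝ,
      (F.ν i).pr {y | x < |Xs (2 ^ k) (Ico a (a + m)) (F.φ i y)|} ≤
      (F.ν i).pr {y | 4 * (x - c0 * √(m : ℝ) * (2 ^ k * A)) < |Xs (2 * 2 ^ k) (Ico a (a + m)) (F.φ i y)|} +
      1 / 2 * (F.ν i).pr {y | x - c0 * (2 ^ k * A) < |Xs (2 ^ k) (Ico a (a + m)) (F.φ i y)|} +
      2 * ∑ q ∈ Iv a (a + m) ⌊(m : ℝ) / s⌋₊,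
        ((F.ν i).pr {y | G * √((q.2 - q.1 : ℕ) : ℝ) * (2 ^ k * A) < |Xs (2 ^ k) (Ico q.1 q.2) (F.φ i y)|} +
        (F.ν i).pr {y | 2 * G * √((q.2 - q.1 : ℕ) : ℝ) * (2 ^ k * A) < |Xs (2 * 2 ^ k) (Ico q.1 q.2) (F.φ i y)|}) +
      m * dl) :
    W_7d29a1_Z49.OneStep F.p K B s T A P c0 G L1 dl := by
  intro k hk m hm hmB hT x
  have hL0 : 0 ≤ L1 := le_trans (by positivity) hL1
  have hS1 : 0 ≤ ∑ d ∈ Icc 1 ⌊(m : ℝ) / s⌋₊, F.p k d (G * √(d : ℝ) * (2 ^ k * A)) :=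
    Finset.sum_nonneg fun d _ => F.p_nonneg _ _ _
  have hS2 : 0 ≤ ∑ d ∈ Icc 1 ⌊(m : ℝ) / s⌋₊, F.p (k + 1) d (G * √(d : ℝ) * (2 ^ (k + 1) * A)) :=
    Finset.sum_nonneg fun d _ => F.p_nonneg _ _ _
  have hmdl : 0 ≤ (m : ℝ) * dl := by positivity
  refine F.p_le ?_ fun i a h1 h2 => ?_
  · have := F.p_nonneg (k + 1) m (4 * (x - c0 * √(m : ℝ) * (2 ^ k * A)))
    have := F.p_nonneg k m (x - c0 * √(m : ℝ) * (2 ^ k * A))
    have := mul_nonneg hL0 hS1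
    have := mul_nonneg hL0 hS2
    linarith
  · have h3 := hstep k hk m hm hmB hT i a h1 h2 x
    have e2 : (2 : ℤ) * 2 ^ k = 2 ^ (k + 1) := by ring
    rw [e2] at h3
    have h4 : (F.ν i).pr {y | 4 * (x - c0 * √(m : ℝ) * (2 ^ k * A)) <
        |Xs (2 ^ (k + 1)) (Ico a (a + m)) (F.φ i y)|} ≤ F.p (k + 1) m (4 * (x - c0 * √(m : ℝ) * (2 ^ k * A))) :=
      F.val_le h1 h2
    have h5 : (F.ν i).pr {y | x - c0 * (2 ^ k * A) < |Xs (2 ^ k) (Ico a (a + m)) (F.φ i y)|} ≤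
        F.p k m (x - c0 * √(m : ℝ) * (2 ^ k * A)) := by
      refine (F.val_le (k := k) (m := m) (x := x - c0 * (2 ^ k * A)) h1 h2).trans (F.p_anti k m ?_)
      have h6 : (1 : ℝ) ≤ √(m : ℝ) := Real.one_le_sqrt.2 (by exact_mod_cast hm)
      have h7 : 0 ≤ c0 * (2 ^ k * A) := by positivity
      nlinarith
    have h6 := onestep_p (F.ν i) (F.φ i) (2 ^ k) (k₀ := a) (k₁ := a + m) (M := ⌊(m : ℝ) / s⌋₊) (by omega)
      (fun d z => F.p k d z) (fun d z => F.p (k + 1) d z)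
      (fun u v hu huv hv z => by
        have h7 := F.val_le (k := k) (m := v - u) (x := z) (i := i) (a := u) (by omega) (by omega)
        unfold Fam.val at h7
        rw [show u + (v - u) = v by omega] at h7
        exact h7)
      (fun u v hu huv hv z => by
        have h7 := F.val_le (k := k + 1) (m := v - u) (x := z) (i := i) (a := u) (by omega) (by omega)
        unfold Fam.val at h7
        rw [show u + (v - u) = v by omega] at h7
        rw [e2]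
        exact h7)
      (fun d z => F.p_nonneg _ _ _) (fun d z => F.p_nonneg _ _ _) (G := G) (a := 2 ^ k * A)
    rw [e2] at h6
    have e3 : ((a + m - a : ℕ) : ℝ) = m := by
      rw [show a + m - a = m by omega]
    rw [e3, Finset.sum_add_distrib (s := Icc 1 ⌊(m : ℝ) / s⌋₊)] at h6
    have e4 : ∑ d ∈ Icc 1 ⌊(m : ℝ) / s⌋₊, F.p (k + 1) d (2 * G * √(d : ℝ) * (2 ^ k * A)) =
        ∑ d ∈ Icc 1 ⌊(m : ℝ) / s⌋₊, F.p (k + 1) d (G * √(d : ℝ) * (2 ^ (k + 1) * A)) := by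
      refine Finset.sum_congr rfl fun d _ => ?_
      rw [show 2 * G * √(d : ℝ) * (2 ^ k * A) = G * √(d : ℝ) * (2 ^ (k + 1) * A) by rw [pow_succ]; ring]
    rw [e4] at h6
    have h8 : 2 * ((m : ℝ) + 1) ≤ L1 := by
      have : (m : ℝ) ≤ B := by exact_mod_cast hmB
      linarith
    have h9 := mul_le_mul_of_nonneg_right h8 (add_nonneg hS1 hS2)
    unfold Fam.val
    linarith

/-- **The induction (IN) for the family.** -/
theorem Fam.inRec {K B J N : ℕ} {s T A P c0 L1 dl : ℝ} (hT : 1 ≤ T) (hB : 1 ≤ B) (hA : 0 ≤ A) (hP : 0 < P)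
    (hs : 16 * ((K : ℝ) + 1) ^ 2 ≤ s) (hc0 : 1 ≤ c0) (hL1 : 2 * ((B : ℝ) + 1) ≤ L1) (hdl : 0 ≤ dl)
    (hbase : ∀ k ≤ K, ∀ i b, F.lo i ≤ b → b < F.hi i →
      (F.ν i).pr {y | 2 * (2 ^ k * A) < |D (2 ^ k) (F.φ i y b) 0|} ≤ dl)
    (hstep : ∀ k < K, ∀ m : ℕ, 1 ≤ m → m ≤ B → T * √(m : ℝ) * (2 ^ k * P) ≤ 1 → ∀ i a, F.lo i ≤ a →
      a + m ≤ F.hi i → ∀ x : ℝ,
      (F.ν i).pr {y | x < |Xs (2 ^ k) (Ico a (a + m)) (F.φ i y)|} ≤
      (F.ν i).pr {y | 4 * (x - c0 * √(m : ℝ) * (2 ^ k * A)) < |Xs (2 * 2 ^ k) (Ico a (a + m)) (F.φ i y)|} +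
      1 / 2 * (F.ν i).pr {y | x - c0 * (2 ^ k * A) < |Xs (2 ^ k) (Ico a (a + m)) (F.φ i y)|} +
      2 * ∑ q ∈ Iv a (a + m) ⌊(m : ℝ) / s⌋₊,
        ((F.ν i).pr {y | 6 * c0 * ((J : ℝ) + 1) * √((q.2 - q.1 : ℕ) : ℝ) * (2 ^ k * A) <
          |Xs (2 ^ k) (Ico q.1 q.2) (F.φ i y)|} +
        (F.ν i).pr {y | 2 * (6 * c0 * ((J : ℝ) + 1)) * √((q.2 - q.1 : ℕ) : ℝ) * (2 ^ k * A) <
          |Xs (2 * 2 ^ k) (Ico q.1 q.2) (F.φ i y)|}) + m * dl)
    (h5 : 1 ≤ T * (2 ^ K * P)) (hN : (B : ℝ) ≤ s ^ N) {k : ℕ} (hk : k ≤ K) {m : ℕ} (hm : 1 ≤ m) (hmB : m ≤ B)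
    {i : I} {a : ℕ} (h1 : F.lo i ≤ a) (h2 : a + m ≤ F.hi i) :
    (F.ν i).pr {y | (2 * c0 * ((J : ℝ) + 1) * √(m : ℝ)
        + 8 * c0 * ((J : ℝ) + 1) * T * ((K : ℝ) + 1) * m * (2 ^ k * P)) * (2 ^ k * A) <
        |Xs (2 ^ k) (Ico a (a + m)) (F.φ i y)|} ≤
      m * ((2 ^ (K + 3) * L1 * B) ^ (N + 1) * (3 * dl + (1 / 2) ^ J)) := by
  have h := W_7d29a1_Z49.in_rec F.p K B J N s T A P c0 L1 dl hT hB hA hP hs hc0
    (by have : (0 : ℝ) ≤ B := Nat.cast_nonneg B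
        linarith) hdl F.p_le_one (fun k m x y hxy => F.p_anti k m hxy)
    (fun k m m' x y _ _ _ => F.p_add k m m' x y)
    (fun k hk m hm _ => by
      have h3 := F.p_base hdl (hbase k hk) m hm
      rwa [show (2 : ℝ) * m * (2 ^ k * A) = m * (2 * (2 ^ k * A)) by ring])
    (F.oneStep hA (by linarith) hdl hL1 hstep) h5 hN k hk m hm hmB
  exact (F.val_le h1 h2).trans h

end

end Pool.Agent.W_7d29a1_Z.Sup72
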