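import Pool.Agent.W_7d29a1_Z.TieB
import Pool.Agent.W_7d29a1_Z17.TieW17

/-!
STORM Z, leaf TIE: the statement of `Tie.lean`. (helper36)
-/

namespace Pool.Agent.W_7d29a1_Z

open Finset Pool.Agent.W_7d29a1_F Pool.Agent.W_7d29a1_X Pool.Agent.W_7d29a1_Z17 MeasureTheory
open scoped ENNReal

noncomputable section

theorem num_exp3 {c : ℝ} (hc : 0 < c) : ∃ L₀ : ℕ, 1 ≤ L₀ ∧ ∀ L : ℕ, L₀ ≤ L →
    (10 * (L : ℝ)) ^ 3 * Real.exp (-(L : ℝ) ^ c) ≤ Real.exp (-(L : ℝ) ^ (c / 8)) := by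
  obtain ⟨L1, h1, H1⟩ := num_exp hc
  obtain ⟨L2, h2, H2⟩ := num_exp (show 0 < c / 2 by positivity)
  obtain ⟨L3, h3, H3⟩ := num_exp (show 0 < c / 2 / 2 by positivity)
  refine ⟨max L1 (max L2 L3), h1.trans (le_max_left _ _), fun L hL => ?_⟩
  have a1 := H1 L ((le_max_left _ _).trans hL)
  have a2 := H2 L (((le_max_left _ _).trans (le_max_right _ _)).trans hL)
  have a3 := H3 L (((le_max_right _ _).trans (le_max_right _ _)).trans hL)
  have e : c / 2 / 2 / 2 = c / 8 := by ring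
  rw [e] at a3
  have hL0 : (0 : ℝ) ≤ 10 * (L : ℝ) := by positivity
  calc (10 * (L : ℝ)) ^ 3 * Real.exp (-(L : ℝ) ^ c) = (10 * (L : ℝ)) * ((10 * (L : ℝ)) * (10 * (L : ℝ) * Real.exp (-(L : ℝ) ^ c))) := by ring
    _ ≤ (10 * (L : ℝ)) * ((10 * (L : ℝ)) * Real.exp (-(L : ℝ) ^ (c / 2))) :=
        mul_le_mul_of_nonneg_left (mul_le_mul_of_nonneg_left a1 hL0) hL0
    _ ≤ (10 * (L : ℝ)) * Real.exp (-(L : ℝ) ^ (c / 2 / 2)) := mul_le_mul_of_nonneg_left a2 hL0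
    _ ≤ Real.exp (-(L : ℝ) ^ (c / 8)) := a3

theorem num_exp6 {c : ℝ} (hc : 0 < c) : ∃ L₀ : ℕ, 1 ≤ L₀ ∧ ∀ L : ℕ, L₀ ≤ L →
    (10 * (L : ℝ)) ^ 6 * Real.exp (-(L : ℝ) ^ c) ≤ Real.exp (-(L : ℝ) ^ (c / 64)) := by
  obtain ⟨L1, h1, H1⟩ := num_exp3 hc
  obtain ⟨L2, h2, H2⟩ := num_exp3 (show 0 < c / 8 by positivity)
  refine ⟨max L1 L2, h1.trans (le_max_left _ _), fun L hL => ?_⟩
  have a1 := H1 L ((le_max_left _ _).trans hL)
  have a2 := H2 L ((le_max_right _ _).trans hL)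
  have e : c / 8 / 8 = c / 64 := by ring
  rw [e] at a2
  calc (10 * (L : ℝ)) ^ 6 * Real.exp (-(L : ℝ) ^ c) = (10 * (L : ℝ)) ^ 3 * ((10 * (L : ℝ)) ^ 3 * Real.exp (-(L : ℝ) ^ c)) := by ring
    _ ≤ (10 * (L : ℝ)) ^ 3 * Real.exp (-(L : ℝ) ^ (c / 8)) := mul_le_mul_of_nonneg_left a1 (by positivity)
    _ ≤ Real.exp (-(L : ℝ) ^ (c / 64)) := a2

theorem NT_mono {μ : Measure ℝ} {N H : ℕ} {sg : ℤ} {J : Finset ℕ} (hJ : J.Nonempty) {Y w : ℤ} {M M' : ℝ} (h : M ≤ M') {η : Env}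
    {S : Finset ℕ} (hn : NT μ N H sg J Y w M η S) : NT μ N H sg J Y w M' η S := by
  obtain ⟨h1, a, b, h2, h3, h4, h5⟩ := hn
  obtain ⟨i, hi⟩ := hJ
  have hab : a ≤ b := ((h4 i hi).1.trans (h4 i hi).2).le
  refine ⟨h1, a, b, h2, h3, h4, le_trans ?_ h5⟩
  exact mul_le_mul_of_nonneg_right (Real.exp_le_exp.2 (by linarith)) (kr_nonneg36 _ _ hab _)

/-- Near tie at the rows `J` behind the line `Y`, given any event `A` which does not depend on the environment at the rows `J`. -/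
theorem tie_all36 {μ : Measure ℝ} [IsProbabilityMeasure μ] (hnd : Pool.Agent.W_7d29a1_h47.Nondeg μ) :
    ∀ ε : ℝ, 0 < ε → ∃ c : ℝ, 0 < c ∧ ∃ L₀ : ℕ, ∀ L : ℕ, L₀ ≤ L → ∀ N : ℕ, N ≤ L → ∀ y : ℤ, 0 ≤ y → y ≤ N →
      ∀ (H : ℕ) (J : Finset ℕ), J.Nonempty → (∀ i ∈ J, 1 ≤ i ∧ i < N) → ∀ sg Y w : ℤ, (sg = 1 ∨ sg = -1) → 1 ≤ w → w ≤ L →
      ∀ M : ℝ, 1 ≤ M → ∀ A : Env → Finset ℕ → Prop, Ms A → OffRows J A →
      P1 μ N y (fun η S => A η S ∧ NT μ N H sg J Y w M η S) ≤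
        ENNReal.ofReal ((L : ℝ) ^ ε * M * Real.sqrt ((w : ℝ) / J.card)) * P1 μ N y (fun η S => A η S ∧ InL sg J Y S) +
          ENNReal.ofReal (Real.exp (-(L : ℝ) ^ c)) := by
  intro ε hε
  obtain ⟨x, x', hxx, hx, hx'⟩ := Pool.Agent.W_7d29a1_h47.exists_gap hnd
  have hk := kap_pos hxx hx hx'
  obtain ⟨e, he⟩ : ∃ e : ℝ, e = min ε 1 := ⟨_, rfl⟩
  have he0 : 0 < e := by rw [he]; exact lt_min hε one_pos
  have he1 : e ≤ 1 := by rw [he]; exact min_le_right _ _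
  have heε : e ≤ ε := by rw [he]; exact min_le_left _ _
  obtain ⟨K, hK⟩ : ∃ K : ℝ, K = 16 * (x' - x) / kap μ x x' := ⟨_, rfl⟩
  have hyx : 0 < x' - x := by linarith
  have hK0 : 0 < K := by rw [hK]; positivity
  obtain ⟨L1, h1, H1⟩ := num_exp6 (show 0 < e / 4 by positivity)
  have ht : Filter.Tendsto (fun L : ℕ => ((L : ℝ)) ^ (e / 2)) Filter.atTop Filter.atTop :=
    (tendsto_rpow_atTop (by positivity : 0 < e / 2)).comp tendsto_natCast_atTop_atTop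
  obtain ⟨L2, H2⟩ := Filter.eventually_atTop.1 (ht.eventually_ge_atTop K)
  refine ⟨e / 4 / 64, by positivity, max L1 L2, fun L hL N hN y hy0 hyN H J hJ hJN sg Y w hsg hw1 hwL M hM A hA hoff => ?_⟩
  have hL1 : 1 ≤ L := h1.trans ((le_max_left _ _).trans hL)
  have hLr : (1 : ℝ) ≤ L := by exact_mod_cast hL1
  have hL0 : (0 : ℝ) < L := by linarith
  have hJc : (0 : ℝ) < J.card := by exact_mod_cast card_pos.2 hJ
  have hJL : (J.card : ℝ) ≤ L := by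
    have h3 : J ⊆ range N := fun i hi => mem_range.2 (hJN i hi).2
    have h4 := card_le_card h3
    rw [card_range] at h4
    exact_mod_cast h4.trans hN
  have hw1' : (1 : ℝ) ≤ w := by exact_mod_cast hw1
  have hwL' : (w : ℝ) ≤ L := by exact_mod_cast hwL
  have hM0 : 0 < M := by linarith
  have hNTL : P1 μ N y (fun η S => A η S ∧ NT μ N H sg J Y w M η S) ≤ P1 μ N y (fun η S => A η S ∧ InL sg J Y S) :=
    P1_mono36 fun η S _ h => ⟨h.1, h.2.1⟩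
  rcases le_or_gt M L with hML | hML
  · -- moderate depth
    have hLe : (1 : ℝ) ≤ (L : ℝ) ^ (e / 4) := Real.one_le_rpow hLr (by positivity)
    obtain ⟨M', hM'⟩ : ∃ M' : ℝ, M' = M * (L : ℝ) ^ (e / 4) := ⟨_, rfl⟩
    have hMM' : M ≤ M' := by rw [hM']; exact le_mul_of_one_le_right hM0.le hLe
    have hM'1 : 1 ≤ M' := hM.trans hMM'
    have hM'L : (L : ℝ) ^ (e / 4) ≤ M' := by rw [hM']; exact le_mul_of_one_le_left (by positivity) hM
    have hu0 : 0 ≤ (L : ℝ) ^ (e / 4) := by positivity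
    refine (P1_mono36 (B := fun η S => A η S ∧ NT μ N H sg J Y w M' η S) fun η S _ h => ⟨h.1, NT_mono hJ hMM' h.2⟩).trans ?_
    refine (tie36 (M := M') (u := (L : ℝ) ^ (e / 4)) hxx hy0 hyN hJ hsg (by omega) hM'1 hu0 hk hA hoff).trans ?_
    rw [← hK]
    have hKL : K ≤ (L : ℝ) ^ (e / 2) := H2 L ((le_max_right _ _).trans hL)
    refine add_le_add (mul_le_mul_left ?_ _) (ENNReal.ofReal_le_ofReal ?_)
    · refine ENNReal.ofReal_le_ofReal ?_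
      have e1 : K * M' * ((L : ℝ) ^ (e / 4) * √((w : ℝ) / J.card)) =
          K * ((L : ℝ) ^ (e / 4) * (L : ℝ) ^ (e / 4)) * (M * √((w : ℝ) / J.card)) := by
        rw [hM']
        ring
      rw [e1, ← Real.rpow_add hL0, mul_assoc ((L : ℝ) ^ ε)]
      refine mul_le_mul_of_nonneg_right ?_ (by positivity)
      calc K * (L : ℝ) ^ (e / 4 + e / 4) ≤ (L : ℝ) ^ (e / 2) * (L : ℝ) ^ (e / 4 + e / 4) :=
            mul_le_mul_of_nonneg_right hKL (by positivity)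
        _ = (L : ℝ) ^ e := by rw [← Real.rpow_add hL0]; congr 1; ring
        _ ≤ (L : ℝ) ^ ε := Real.rpow_le_rpow_of_exponent_le hLr heε
    · have h5 := H1 L ((le_max_left _ _).trans hL)
      refine le_trans ?_ h5
      have hx1 : Real.exp (-2 * ((L : ℝ) ^ (e / 4)) ^ 2) ≤ Real.exp (-(L : ℝ) ^ (e / 4)) := by
        refine Real.exp_le_exp.2 ?_
        nlinarith
      have hx2 : Real.exp (-M') ≤ Real.exp (-(L : ℝ) ^ (e / 4)) := Real.exp_le_exp.2 (by linarith)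
      have hx3 : K * M' * w ≤ (L : ℝ) ^ 3 * L := by
        have a1 : M' ≤ L * (L : ℝ) ^ (e / 4) := by
          rw [hM']
          exact mul_le_mul_of_nonneg_right hML (by positivity)
        have a2 : K * M' ≤ (L : ℝ) ^ (e / 2) * (L * (L : ℝ) ^ (e / 4)) := mul_le_mul hKL a1 (by positivity) (by positivity)
        have a3 : (L : ℝ) ^ (e / 2) ≤ L := by
          calc (L : ℝ) ^ (e / 2) ≤ (L : ℝ) ^ (1 : ℝ) := Real.rpow_le_rpow_of_exponent_le hLr (by linarith)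
            _ = L := Real.rpow_one _
        have a4 : (L : ℝ) ^ (e / 4) ≤ L := by
          calc (L : ℝ) ^ (e / 4) ≤ (L : ℝ) ^ (1 : ℝ) := Real.rpow_le_rpow_of_exponent_le hLr (by linarith)
            _ = L := Real.rpow_one _
        have a5 : (L : ℝ) ^ (e / 2) * (L * (L : ℝ) ^ (e / 4)) ≤ L * (L * L) :=
          mul_le_mul a3 (mul_le_mul_of_nonneg_left a4 hL0.le) (by positivity) hL0.le
        calc K * M' * w ≤ (L * (L * L)) * L := mul_le_mul (a2.trans a5) hwL' (by positivity) (by positivity)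
          _ = (L : ℝ) ^ 3 * L := by ring
      have hx4 : ((N : ℝ) + 1) ^ 2 ≤ (2 * (L : ℝ)) ^ 2 := by
        have hNL : (N : ℝ) ≤ L := by exact_mod_cast hN
        have hN0 : (0 : ℝ) ≤ N := Nat.cast_nonneg N
        exact pow_le_pow_left₀ (by positivity) (by linarith) 2
      obtain ⟨E, hE⟩ : ∃ E : ℝ, E = Real.exp (-(L : ℝ) ^ (e / 4)) := ⟨_, rfl⟩
      rw [← hE] at hx1 hx2 ⊢
      have hE0 : 0 ≤ E := by rw [hE]; exact (Real.exp_pos _).le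
      have c1 : K * M' * (w * Real.exp (-2 * ((L : ℝ) ^ (e / 4)) ^ 2)) ≤ (L : ℝ) ^ 3 * L * E := by
        calc K * M' * (w * Real.exp (-2 * ((L : ℝ) ^ (e / 4)) ^ 2)) = K * M' * w * Real.exp (-2 * ((L : ℝ) ^ (e / 4)) ^ 2) := by ring
          _ ≤ (L : ℝ) ^ 3 * L * E := mul_le_mul hx3 hx1 (Real.exp_pos _).le (by positivity)
      have c2 : ((N : ℝ) + 1) ^ 2 * Real.exp (-M') ≤ (2 * (L : ℝ)) ^ 2 * E := mul_le_mul hx4 hx2 (Real.exp_pos _).le (by positivity)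
      have c3 : (L : ℝ) ^ 3 * L + (2 * (L : ℝ)) ^ 2 ≤ (10 * (L : ℝ)) ^ 6 := by
        have d1 : (L : ℝ) ^ 4 ≤ (L : ℝ) ^ 6 := pow_le_pow_right₀ hLr (by norm_num)
        have d2 : (L : ℝ) ^ 2 ≤ (L : ℝ) ^ 6 := pow_le_pow_right₀ hLr (by norm_num)
        have d3 : (0 : ℝ) ≤ (L : ℝ) ^ 6 := by positivity
        calc (L : ℝ) ^ 3 * L + (2 * (L : ℝ)) ^ 2 = (L : ℝ) ^ 4 + 4 * (L : ℝ) ^ 2 := by ring
          _ ≤ 1000000 * (L : ℝ) ^ 6 := by linarith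
          _ = (10 * (L : ℝ)) ^ 6 := by ring
      calc K * M' * (w * Real.exp (-2 * ((L : ℝ) ^ (e / 4)) ^ 2)) + ((N : ℝ) + 1) ^ 2 * Real.exp (-M')
          ≤ (L : ℝ) ^ 3 * L * E + (2 * (L : ℝ)) ^ 2 * E := add_le_add c1 c2
        _ = ((L : ℝ) ^ 3 * L + (2 * (L : ℝ)) ^ 2) * E := by ring
        _ ≤ (10 * (L : ℝ)) ^ 6 * E := mul_le_mul_of_nonneg_right c3 hE0
  · -- large depth
    refine le_trans ?_ le_self_add
    refine hNTL.trans ?_
    have hone : (1 : ℝ≥0∞) ≤ ENNReal.ofReal ((L : ℝ) ^ ε * M * Real.sqrt ((w : ℝ) / J.card)) := by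
      rw [← ENNReal.ofReal_one]
      refine ENNReal.ofReal_le_ofReal ?_
      have b1 : (1 : ℝ) ≤ (L : ℝ) ^ ε := Real.one_le_rpow hLr hε.le
      have b2 : 1 / (L : ℝ) ≤ √((w : ℝ) / J.card) := by
        refine Real.le_sqrt_of_sq_le ?_
        rw [div_pow, one_pow]
        refine (div_le_div_iff₀ (by positivity) hJc).2 ?_
        nlinarith
      have b3 : (1 : ℝ) ≤ M * √((w : ℝ) / J.card) := by
        calc (1 : ℝ) = L * (1 / L) := by field_simp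
          _ ≤ M * √((w : ℝ) / J.card) := mul_le_mul hML.le b2 (by positivity) (by positivity)
      calc (1 : ℝ) = 1 * 1 := by ring
        _ ≤ (L : ℝ) ^ ε * (M * √((w : ℝ) / J.card)) := mul_le_mul b1 b3 (by norm_num) (by positivity)
        _ = (L : ℝ) ^ ε * M * √((w : ℝ) / J.card) := by ring
    calc P1 μ N y (fun η S => A η S ∧ InL sg J Y S) = 1 * P1 μ N y (fun η S => A η S ∧ InL sg J Y S) := (one_mul _).symm
      _ ≤ _ := mul_le_mul_left hone _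

end

end Pool.Agent.W_7d29a1_Z
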