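import Pool.Agent.W_7d29a1_Z.In72
import Pool.Agent.W_7d29a1_Z.CtrOp77

/-!
STORM Z (MP_7d29a1_pr), leaf Z8, probabilistic part: the assembly of the one step inequality of the induction (IN), in
abstract form. (helper72)

`Y`: pairs (environment, path of one point to point system) with the set function `ν`; `V`: the symbols of the random
multiples; `Q v`: the law of (environment, `S`, `S'`) for the symbol `v`, `p0 v = (w, S)`, `p1 v = (w^V, S')` and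
`p2 v = (w, S~)`, all with the law `ν`. `φ y b a`: the functional of the block `b` with the multiple `a` of the pattern. `Bf v θ`: the brackets,
`[l p, r p)` the blocks which the bracket `p` touches. `N j u v`: near ties (class `j` of short brackets, window `u`),
`NL i v`: near ties at the scales of long brackets.
-/

namespace Pool.Agent.W_7d29a1_Z.Asm72

open Finset W_7d29a1_Z.CtrOp77 Pool.Agent.W_7d29a1_Z.In72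

noncomputable section

/-- A set function which is monotone and finitely subadditive (for example the real value of a probability measure on all
sets, measurable or not). -/
structure SubProb (Y : Type*) where
  /-- the value -/
  pr : Set Y → ℝ
  nonneg : ∀ E, 0 ≤ pr E
  le_one : ∀ E, pr E ≤ 1
  empty : pr ∅ ≤ 0
  mono : ∀ {E F}, E ⊆ F → pr E ≤ pr F
  union : ∀ E F, pr (E ∪ F) ≤ pr E + pr F

open MeasureTheory in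
/-- A probability measure, on all sets. -/
def SubProb.ofMeasure {Y : Type*} [MeasurableSpace Y] (μ : Measure Y) [IsProbabilityMeasure μ] : SubProb Y where
  pr E := μ.real E
  nonneg E := measureReal_nonneg
  le_one E := measureReal_le_one
  empty := by simp
  mono h := measureReal_mono h
  union E F := measureReal_union_le E F

theorem SubProb.biUnion {Y ι : Type*} (ν : SubProb Y) (s : Finset ι) (E : ι → Set Y) :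
    ν.pr (⋃ i ∈ s, E i) ≤ ∑ i ∈ s, ν.pr (E i) := by
  classical
  induction s using Finset.induction_on with
  | empty => simpa using ν.empty
  | insert i s hi ih =>
    rw [Finset.sum_insert hi, Finset.set_biUnion_insert]
    exact (ν.union _ _).trans (by linarith)

/-- The sum of the second differences of the step `s` over the blocks of `J`. -/
def Xs (s : ℤ) (J : Finset ℕ) (f : ℕ → ℤ → ℝ) : ℝ := ∑ b ∈ J, D s (f b) 0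

/-- The same with the offsets `V b`. -/
def XV (s : ℤ) (J : Finset ℕ) (f : ℕ → ℤ → ℝ) (V : ℕ → ℤ) : ℝ := ∑ b ∈ J, D s (f b) (V b)

/-- The intervals of at most `M` blocks in `[k₀, k₁)`. -/
def Iv (k₀ k₁ M : ℕ) : Finset (ℕ × ℕ) :=
  ((Icc k₀ k₁) ×ˢ (Icc k₀ k₁)).filter fun q => q.1 < q.2 ∧ q.2 - q.1 ≤ M

theorem mem_Iv {k₀ k₁ M : ℕ} {q : ℕ × ℕ} :
    q ∈ Iv k₀ k₁ M ↔ (k₀ ≤ q.1 ∧ q.1 < q.2 ∧ q.2 ≤ k₁) ∧ q.2 - q.1 ≤ M := by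
  unfold Iv
  simp only [mem_filter, mem_product, mem_Icc]
  constructor
  · rintro ⟨⟨⟨h1, _⟩, _, h4⟩, h5, h6⟩
    exact ⟨⟨h1, h5, h4⟩, h6⟩
  · rintro ⟨⟨h1, h2, h3⟩, h4⟩
    exact ⟨⟨⟨h1, by omega⟩, by omega, h3⟩, h2, h4⟩

/-- Sums over the intervals, arranged according to the length. -/
theorem sum_Iv {k₀ k₁ M : ℕ} (f : ℕ → ℝ) (hf : ∀ d, 0 ≤ f d) :
    ∑ q ∈ Iv k₀ k₁ M, f (q.2 - q.1) ≤ ((k₁ : ℝ) - k₀ + 1) * ∑ d ∈ Icc 1 M, f d ∨ k₁ < k₀ := by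
  classical
  rcases Nat.lt_or_ge k₁ k₀ with hlt | hge
  · exact Or.inr hlt
  left
  have hmaps : ∀ q ∈ Iv k₀ k₁ M, q.2 - q.1 ∈ Icc 1 M := by
    intro q hq
    rw [mem_Iv] at hq
    rw [mem_Icc]
    omega
  rw [← Finset.sum_fiberwise_of_maps_to hmaps, Finset.mul_sum]
  refine Finset.sum_le_sum fun d _ => ?_
  have h1 : ∑ q ∈ (Iv k₀ k₁ M).filter (fun q => q.2 - q.1 = d), f (q.2 - q.1) =
      (((Iv k₀ k₁ M).filter fun q => q.2 - q.1 = d).card : ℝ) * f d := by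
    rw [Finset.sum_congr rfl (g := fun _ => f d), Finset.sum_const, nsmul_eq_mul]
    intro q hq
    rw [(Finset.mem_filter.1 hq).2]
  rw [h1]
  refine mul_le_mul_of_nonneg_right ?_ (hf d)
  have h2 : ((Iv k₀ k₁ M).filter fun q => q.2 - q.1 = d).card ≤ (Icc k₀ k₁).card := by
    refine Finset.card_le_card_of_injOn (fun q => q.1) ?_ ?_
    · intro q hq
      have hq1 := (mem_Iv.1 (Finset.mem_filter.1 hq).1).1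
      simp only [coe_Icc, Set.mem_Icc]
      omega
    · intro q hq q' hq' h
      have e1 := Finset.mem_filter.1 hq
      have e2 := Finset.mem_filter.1 hq'
      have e3 := (mem_Iv.1 e1.1).1
      have e4 := (mem_Iv.1 e2.1).1
      have h3 : q.1 = q'.1 := h
      have h4 : q.2 = q'.2 := by omega
      exact Prod.ext h3 h4
  have h3 : ((Icc k₀ k₁).card : ℝ) = (k₁ : ℝ) - k₀ + 1 := by
    rw [Nat.card_Icc]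
    push_cast [Nat.cast_sub (show k₀ ≤ k₁ + 1 by omega)]
    ring
  rw [← h3]
  exact_mod_cast h2

/-- The sum of the square roots of the spans of the brackets. -/
theorem sqrt_cluster {ι : Type*} (s : Finset ι) (d : ι → ℕ) (hd : ∀ i ∈ s, 1 ≤ d i) {J : ℕ} (hJ : ∀ i ∈ s, d i < 2 ^ J)
    {m x l ϖ : ℝ} (hm : 0 ≤ m) (hl : 1 ≤ l) (hJl : (J : ℝ) ≤ l) (hϖ : 0 ≤ ϖ)
    (hx : ∀ i ∈ s, (d i : ℝ) ≤ x)
    (hN : ∀ j < J, (((s.filter fun i => 2 ^ j ≤ d i ∧ d i < 2 ^ (j + 1)).card : ℕ) : ℝ) ≤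
      l * (1 + m * ϖ / √((2 : ℝ) ^ j))) :
    ∑ i ∈ s, √(d i : ℝ) ≤ 6 * l * √x + 2 * l ^ 2 * (ϖ * m) := by
  have hs2 : √2 ≤ (3 / 2 : ℝ) := by
    rw [Real.sqrt_le_left (by norm_num)]
    norm_num
  have hpos : ∀ j : ℕ, 0 < √((2 : ℝ) ^ j) := fun j => Real.sqrt_pos.2 (by positivity)
  have hA := dyadic s d hd hJ hx (fun n => √(n : ℝ)) (fun j => √2 * √((2 : ℝ) ^ j))
    (fun j => l * (1 + m * ϖ / √((2 : ℝ) ^ j))) (fun j => by positivity)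
    (fun j n hn => by
      have h3 : (n : ℝ) ≤ 2 * 2 ^ j := by
        have : (n : ℝ) ≤ ((2 ^ (j + 1) : ℕ) : ℝ) := by exact_mod_cast hn.le
        push_cast at this
        rw [pow_succ] at this
        linarith
      calc √(n : ℝ) ≤ √(2 * 2 ^ j) := Real.sqrt_le_sqrt h3
        _ = √2 * √((2 : ℝ) ^ j) := Real.sqrt_mul (by norm_num) _) hN
  refine hA.trans ?_
  have h3 : ∀ j : ℕ, l * (1 + m * ϖ / √((2 : ℝ) ^ j)) * (√2 * √((2 : ℝ) ^ j)) =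
      l * √2 * √((2 : ℝ) ^ j) + l * √2 * (ϖ * m) := by
    intro j
    have := (hpos j).ne'
    field_simp
  rw [Finset.sum_congr rfl fun j _ => h3 j, Finset.sum_add_distrib, ← Finset.mul_sum, Finset.sum_const,
    nsmul_eq_mul]
  have h4 := geom_sqrt_le (J := J) (x := x)
  have h5 : (((range J).filter (fun j => (2 : ℝ) ^ j ≤ x)).card : ℝ) ≤ l := by
    refine le_trans ?_ hJl
    have := Finset.card_filter_le (range J) (fun j => (2 : ℝ) ^ j ≤ x)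
    rw [Finset.card_range] at this
    exact_mod_cast this
  have h6 : 0 ≤ √x := Real.sqrt_nonneg _
  have h7 : l * √2 * ∑ j ∈ (range J).filter (fun j => (2 : ℝ) ^ j ≤ x), √((2 : ℝ) ^ j) ≤
      l * (3 / 2) * (4 * √x) := by
    refine mul_le_mul (mul_le_mul_of_nonneg_left hs2 (by linarith)) h4
      (Finset.sum_nonneg fun _ _ => Real.sqrt_nonneg _) (by linarith)
  have h8 : (((range J).filter (fun j => (2 : ℝ) ^ j ≤ x)).card : ℝ) * (l * √2 * (ϖ * m)) ≤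
      l * (l * (3 / 2) * (ϖ * m)) := by
    have h9 : 0 ≤ ϖ * m := mul_nonneg hϖ hm
    refine mul_le_mul h5 ?_ (by positivity) (by linarith)
    exact mul_le_mul_of_nonneg_right (mul_le_mul_of_nonneg_left hs2 (by linarith)) h9
  have h9 : 0 ≤ l ^ 2 * (ϖ * m) := by positivity
  nlinarith

section main

variable {Y Θ V ι κ : Type*} [Fintype V]

/-- The pathwise inequality on the good event: no long bracket, counts, sub-interval bounds, Hoeffding. -/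
theorem pathwise (f f' : ℕ → ℤ → ℝ) (W : ℕ → ℤ) (s : ℤ) {k₀ k₁ M J : ℕ}
    (B : Finset ι) (l r : ι → ℕ) (hB : ∀ p ∈ B, k₀ ≤ l p ∧ l p < r p ∧ r p ≤ k₁)
    (hcs : ∀ G G' : ι → ℝ,
      (∀ p ∈ B, ∀ x y, l p ≤ x → x ≤ y → y ≤ r p → |∑ b ∈ Ico x y, D s (f b) (W b)| ≤ G p) →
      (∀ p ∈ B, ∀ x y, l p ≤ x → x ≤ y → y ≤ r p → |∑ b ∈ Ico x y, D s (f' b) 0| ≤ G' p) →
      |∑ b ∈ Ico k₀ k₁, D s (f' b) 0 - ∑ b ∈ Ico k₀ k₁, D s (f b) (W b)| ≤ ∑ p ∈ B, (G p + G' p))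
    {G h a c₀ lc ϖ : ℝ} (ha : 0 ≤ a) (hG : 0 ≤ G) (hh : 0 ≤ h) (hlc : 1 ≤ lc) (hJl : (J : ℝ) ≤ lc) (hϖ : 0 ≤ ϖ)
    (hMJ : M < 2 ^ J) (hshort : ∀ p ∈ B, r p - l p ≤ M)
    (hN : ∀ j < J, (((B.filter fun p => 2 ^ j ≤ r p - l p ∧ r p - l p < 2 ^ (j + 1)).card : ℕ) : ℝ) ≤
      lc * (1 + ((k₁ - k₀ : ℕ) : ℝ) * ϖ / √((2 : ℝ) ^ j)))
    (hE1 : ∀ q ∈ Iv k₀ k₁ M, |Xs s (Ico q.1 q.2) f'| ≤ G * √((q.2 - q.1 : ℕ) : ℝ) * a)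
    (hE2 : ∀ q ∈ Iv k₀ k₁ M, |Xs (2 * s) (Ico q.1 q.2) f| ≤ 2 * G * √((q.2 - q.1 : ℕ) : ℝ) * a)
    (hH : ∀ q ∈ insert (k₀, k₁) (Iv k₀ k₁ M),
      |XV s (Ico q.1 q.2) f W - Xs (2 * s) (Ico q.1 q.2) f / 4| ≤ h * √((q.2 - q.1 : ℕ) : ℝ) * a)
    (hnum : (3 / 2 * G + h) * (6 * lc * √(M : ℝ) + 2 * lc ^ 2 * (ϖ * ((k₁ - k₀ : ℕ) : ℝ))) +
      h * √((k₁ - k₀ : ℕ) : ℝ) ≤ c₀ * √((k₁ - k₀ : ℕ) : ℝ)) :
    |Xs s (Ico k₀ k₁) f'| ≤ |Xs (2 * s) (Ico k₀ k₁) f| / 4 + c₀ * √((k₁ - k₀ : ℕ) : ℝ) * a := by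
  set m : ℝ := ((k₁ - k₀ : ℕ) : ℝ) with hm
  have hlen : ∀ p ∈ B, (1 : ℕ) ≤ r p - l p := fun p hp => by have := hB p hp; omega
  -- the two families of bounds
  have hGb : ∀ p ∈ B, ∀ x y, l p ≤ x → x ≤ y → y ≤ r p →
      |∑ b ∈ Ico x y, D s (f b) (W b)| ≤ (1 / 2 * G + h) * √((r p - l p : ℕ) : ℝ) * a := by
    intro p hp x y hx hxy hy
    have hp1 := hB p hp
    have hp2 := hshort p hp
    rcases Nat.eq_or_lt_of_le hxy with heq | hlt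
    · rw [heq, Finset.Ico_self, Finset.sum_empty, abs_zero]
      positivity
    · have hq : (x, y) ∈ Iv k₀ k₁ M := by
        rw [mem_Iv]
        simp only
        omega
      have e1 := hE2 (x, y) hq
      have e2 := hH (x, y) (Finset.mem_insert_of_mem hq)
      simp only at e1 e2
      have e3 : √((y - x : ℕ) : ℝ) ≤ √((r p - l p : ℕ) : ℝ) := by
        refine Real.sqrt_le_sqrt ?_
        exact_mod_cast (by omega : y - x ≤ r p - l p)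
      have e4 : |XV s (Ico x y) f W| ≤ (1 / 2 * G + h) * √((y - x : ℕ) : ℝ) * a := by
        have e5 := abs_sub_abs_le_abs_sub (XV s (Ico x y) f W) (Xs (2 * s) (Ico x y) f / 4)
        rw [abs_div, abs_of_pos (by norm_num : (0 : ℝ) < 4)] at e5
        nlinarith
      have e6 : 0 ≤ (1 / 2 * G + h) * a := by positivity
      have e7 : (1 / 2 * G + h) * √((y - x : ℕ) : ℝ) * a ≤ (1 / 2 * G + h) * √((r p - l p : ℕ) : ℝ) * a := by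
        nlinarith
      exact e4.trans e7
  have hGb' : ∀ p ∈ B, ∀ x y, l p ≤ x → x ≤ y → y ≤ r p →
      |∑ b ∈ Ico x y, D s (f' b) 0| ≤ G * √((r p - l p : ℕ) : ℝ) * a := by
    intro p hp x y hx hxy hy
    have hp1 := hB p hp
    have hp2 := hshort p hp
    rcases Nat.eq_or_lt_of_le hxy with heq | hlt
    · rw [heq, Finset.Ico_self, Finset.sum_empty, abs_zero]
      positivity
    · have hq : (x, y) ∈ Iv k₀ k₁ M := by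
        rw [mem_Iv]
        simp only
        omega
      have e1 := hE1 (x, y) hq
      simp only at e1
      have e3 : √((y - x : ℕ) : ℝ) ≤ √((r p - l p : ℕ) : ℝ) := by
        refine Real.sqrt_le_sqrt ?_
        exact_mod_cast (by omega : y - x ≤ r p - l p)
      have e6 : 0 ≤ G * a := by positivity
      have e7 : G * √((y - x : ℕ) : ℝ) * a ≤ G * √((r p - l p : ℕ) : ℝ) * a := by nlinarith
      exact (show |∑ b ∈ Ico x y, D s (f' b) 0| ≤ G * √((y - x : ℕ) : ℝ) * a from e1).trans e7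
  have h1 := hcs _ _ hGb hGb'
  have h2 : ∑ p ∈ B, ((1 / 2 * G + h) * √((r p - l p : ℕ) : ℝ) * a + G * √((r p - l p : ℕ) : ℝ) * a) =
      (3 / 2 * G + h) * a * ∑ p ∈ B, √((r p - l p : ℕ) : ℝ) := by
    rw [Finset.mul_sum]
    exact Finset.sum_congr rfl fun p _ => by ring
  rw [h2] at h1
  have h3 := sqrt_cluster B (fun p => r p - l p) hlen (J := J) (fun p hp => (hshort p hp).trans_lt hMJ)
    (m := m) (x := (M : ℝ)) (l := lc) (ϖ := ϖ) (by positivity) hlc hJl hϖ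
    (fun p hp => by exact_mod_cast hshort p hp) hN
  have h4 : (3 / 2 * G + h) * a * ∑ p ∈ B, √((r p - l p : ℕ) : ℝ) ≤
      (3 / 2 * G + h) * a * (6 * lc * √(M : ℝ) + 2 * lc ^ 2 * (ϖ * m)) :=
    mul_le_mul_of_nonneg_left h3 (by positivity)
  have h5 := hH (k₀, k₁) (Finset.mem_insert_self _ _)
  simp only at h5
  have h6 : |XV s (Ico k₀ k₁) f W| ≤ |Xs (2 * s) (Ico k₀ k₁) f| / 4 + h * √m * a := by
    have e5 := abs_sub_abs_le_abs_sub (XV s (Ico k₀ k₁) f W) (Xs (2 * s) (Ico k₀ k₁) f / 4)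
    rw [abs_div, abs_of_pos (by norm_num : (0 : ℝ) < 4)] at e5
    linarith
  have h7 : |Xs s (Ico k₀ k₁) f'| ≤ |XV s (Ico k₀ k₁) f W| +
      |∑ b ∈ Ico k₀ k₁, D s (f' b) 0 - ∑ b ∈ Ico k₀ k₁, D s (f b) (W b)| := by
    have e5 := abs_sub_abs_le_abs_sub (Xs s (Ico k₀ k₁) f') (XV s (Ico k₀ k₁) f W)
    have e6 : Xs s (Ico k₀ k₁) f' - XV s (Ico k₀ k₁) f W =
      ∑ b ∈ Ico k₀ k₁, D s (f' b) 0 - ∑ b ∈ Ico k₀ k₁, D s (f b) (W b) := rfl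
    rw [e6] at e5
    linarith
  have h8 := mul_le_mul_of_nonneg_right hnum ha
  nlinarith

/-- **The one step inequality**, for one point to point system and one interval `[k₀, k₁)` of blocks; arbitrary weights
`wt v` of the symbols. -/
theorem onestep_w (wt : V → ℝ) (hw0 : ∀ v, 0 ≤ wt v) (hw1 : ∑ v, wt v = 1) (ν : SubProb Y) (Q : V → SubProb Θ) (p₀ p₁ p₂ : V → Θ → Y)
    (φ : Y → ℕ → ℤ → ℝ) (Vb : V → ℕ → ℤ) (s : ℤ) {k₀ k₁ M J : ℕ}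
    (hp1 : ∀ v x, ν.pr {y | x < |Xs s (Ico k₀ k₁) (φ y)|} ≤ (Q v).pr {θ | x < |Xs s (Ico k₀ k₁) (φ (p₁ v θ))|})
    (hp0 : ∀ v E, (Q v).pr {θ | p₀ v θ ∈ E} ≤ ν.pr E)
    (hp1' : ∀ v E, (Q v).pr {θ | p₁ v θ ∈ E} ≤ ν.pr E) (hp2 : ∀ v E, (Q v).pr {θ | p₂ v θ ∈ E} ≤ ν.pr E)
    (Bf : V → Θ → Finset ι) (l r : ι → ℕ) (hB : ∀ v θ, ∀ p ∈ Bf v θ, k₀ ≤ l p ∧ l p < r p ∧ r p ≤ k₁)
    (hcs : ∀ v θ, ∀ G G' : ι → ℝ,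
      (∀ p ∈ Bf v θ, ∀ x y, l p ≤ x → x ≤ y → y ≤ r p → |∑ b ∈ Ico x y, D s (φ (p₂ v θ) b) (Vb v b)| ≤ G p) →
      (∀ p ∈ Bf v θ, ∀ x y, l p ≤ x → x ≤ y → y ≤ r p → |∑ b ∈ Ico x y, D s (φ (p₁ v θ) b) 0| ≤ G' p) →
      |∑ b ∈ Ico k₀ k₁, D s (φ (p₁ v θ) b) 0 - ∑ b ∈ Ico k₀ k₁, D s (φ (p₂ v θ) b) (Vb v b)| ≤
        ∑ p ∈ Bf v θ, (G p + G' p))
    {G h a c₀ lc ϖ δH δc δ ecl lb e₀ : ℝ} (ha : 0 ≤ a) (hG : 0 ≤ G) (hh : 0 ≤ h) (hlc : 1 ≤ lc) (hJl : (J : ℝ) ≤ lc)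
    (hϖ : 0 ≤ ϖ) (hMJ : M < 2 ^ J) (hlb : 0 ≤ lb)
    -- Hoeffding in the symbols
    (hoef : ∀ q ∈ insert (k₀, k₁) (Iv k₀ k₁ M), ∑ v, wt v * ν.pr {y | h * √((q.2 - q.1 : ℕ) : ℝ) * a <
      |XV s (Ico q.1 q.2) (φ y) (Vb v) - Xs (2 * s) (Ico q.1 q.2) (φ y) / 4|} ≤ δH)
    -- brackets are near ties
    (bad : V → Set Θ) (hbad : ∑ v, wt v * (Q v).pr (bad v) ≤ ecl) (U : ℕ → ℕ) (N : ℕ → ℕ → V → Set Y)
    (hcl : ∀ v θ, θ ∉ bad v →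
      (∀ q ∈ Iv k₀ k₁ M, |Xs s (Ico q.1 q.2) (φ (p₀ v θ))| ≤ G * √((q.2 - q.1 : ℕ) : ℝ) * a) →
      (∀ q ∈ Iv k₀ k₁ M, |Xs s (Ico q.1 q.2) (φ (p₁ v θ))| ≤ G * √((q.2 - q.1 : ℕ) : ℝ) * a) →
      (∀ p ∈ Bf v θ, r p - l p ≤ M) → ∀ j < J, (((Bf v θ).filter fun p => 2 ^ j ≤ r p - l p ∧
      r p - l p < 2 ^ (j + 1)).card : ℝ) ≤ lb * (Set.ncard {u | u < U j ∧ p₁ v θ ∈ N j u v} : ℝ) + e₀)
    (cnt : ℕ → ℝ) (hcount : ∀ v, ∀ j < J, ν.pr {y | cnt j < (Set.ncard {u | u < U j ∧ y ∈ N j u v} : ℝ)} ≤ δc)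
    (hcnt : ∀ j < J, lb * cnt j + e₀ ≤ lc * (1 + ((k₁ - k₀ : ℕ) : ℝ) * ϖ / √((2 : ℝ) ^ j)))
    -- long brackets
    (Li : Finset κ) (NL : κ → V → Set Y)
    (hlong : ∀ v θ, θ ∉ bad v →
      (∀ q ∈ Iv k₀ k₁ M, |Xs s (Ico q.1 q.2) (φ (p₀ v θ))| ≤ G * √((q.2 - q.1 : ℕ) : ℝ) * a) →
      (∀ q ∈ Iv k₀ k₁ M, |Xs s (Ico q.1 q.2) (φ (p₁ v θ))| ≤ G * √((q.2 - q.1 : ℕ) : ℝ) * a) →
      (∃ p ∈ Bf v θ, M < r p - l p) → ∃ i ∈ Li, p₁ v θ ∈ NL i v) (ρ : κ → ℝ)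
    (hdlx : ∀ v x, ∀ i ∈ Li, ν.pr ({y | x < |Xs s (Ico k₀ k₁) (φ y)|} ∩ NL i v) ≤
      ρ i * ν.pr {y | x - c₀ * a < |Xs s (Ico k₀ k₁) (φ y)|} + δ)
    (hnum : (3 / 2 * G + h) * (6 * lc * √(M : ℝ) + 2 * lc ^ 2 * (ϖ * ((k₁ - k₀ : ℕ) : ℝ))) +
      h * √((k₁ - k₀ : ℕ) : ℝ) ≤ c₀ * √((k₁ - k₀ : ℕ) : ℝ)) (x : ℝ) :
    ν.pr {y | x < |Xs s (Ico k₀ k₁) (φ y)|} ≤
      ν.pr {y | 4 * (x - c₀ * √((k₁ - k₀ : ℕ) : ℝ) * a) < |Xs (2 * s) (Ico k₀ k₁) (φ y)|} +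
      (∑ i ∈ Li, ρ i) * ν.pr {y | x - c₀ * a < |Xs s (Ico k₀ k₁) (φ y)|} +
      2 * ∑ q ∈ Iv k₀ k₁ M, (ν.pr {y | G * √((q.2 - q.1 : ℕ) : ℝ) * a < |Xs s (Ico q.1 q.2) (φ y)|} +
        ν.pr {y | 2 * G * √((q.2 - q.1 : ℕ) : ℝ) * a < |Xs (2 * s) (Ico q.1 q.2) (φ y)|}) +
      (Li.card * δ + ecl + J * δc + ((Iv k₀ k₁ M).card + 1) * δH) := by
  classical
  -- for every symbol
  have key : ∀ v, ν.pr {y | x < |Xs s (Ico k₀ k₁) (φ y)|} ≤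
      ν.pr {y | 4 * (x - c₀ * √((k₁ - k₀ : ℕ) : ℝ) * a) < |Xs (2 * s) (Ico k₀ k₁) (φ y)|} +
      (∑ i ∈ Li, ρ i) * ν.pr {y | x - c₀ * a < |Xs s (Ico k₀ k₁) (φ y)|} +
      2 * ∑ q ∈ Iv k₀ k₁ M, (ν.pr {y | G * √((q.2 - q.1 : ℕ) : ℝ) * a < |Xs s (Ico q.1 q.2) (φ y)|} +
        ν.pr {y | 2 * G * √((q.2 - q.1 : ℕ) : ℝ) * a < |Xs (2 * s) (Ico q.1 q.2) (φ y)|}) +
      (Li.card * δ + J * δc) + ((Q v).pr (bad v) +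
      ∑ q ∈ insert (k₀, k₁) (Iv k₀ k₁ M), ν.pr {y | h * √((q.2 - q.1 : ℕ) : ℝ) * a <
        |XV s (Ico q.1 q.2) (φ y) (Vb v) - Xs (2 * s) (Ico q.1 q.2) (φ y) / 4|}) := by
    intro v
    set EX : Set Y := {y | x < |Xs s (Ico k₀ k₁) (φ y)|} with hEX
    set EA : Set Y := {y | 4 * (x - c₀ * √((k₁ - k₀ : ℕ) : ℝ) * a) < |Xs (2 * s) (Ico k₀ k₁) (φ y)|} with hEA
    set E1 : ℕ × ℕ → Set Y := fun q => {y | G * √((q.2 - q.1 : ℕ) : ℝ) * a < |Xs s (Ico q.1 q.2) (φ y)|} with hE1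
    set E2 : ℕ × ℕ → Set Y := fun q =>
      {y | 2 * G * √((q.2 - q.1 : ℕ) : ℝ) * a < |Xs (2 * s) (Ico q.1 q.2) (φ y)|} with hE2
    set EH : ℕ × ℕ → Set Y := fun q => {y | h * √((q.2 - q.1 : ℕ) : ℝ) * a <
        |XV s (Ico q.1 q.2) (φ y) (Vb v) - Xs (2 * s) (Ico q.1 q.2) (φ y) / 4|} with hEH
    set EC : ℕ → Set Y := fun j => {y | cnt j < (Set.ncard {u | u < U j ∧ y ∈ N j u v} : ℝ)} with hEC
    have hsub : {θ | p₁ v θ ∈ EX} ⊆ {θ | p₂ v θ ∈ EA} ∪ ((⋃ i ∈ Li, {θ | p₁ v θ ∈ EX ∩ NL i v}) ∪ (bad v ∪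
        ((⋃ j ∈ range J, {θ | p₁ v θ ∈ EC j}) ∪ ((⋃ q ∈ Iv k₀ k₁ M, {θ | p₁ v θ ∈ E1 q}) ∪
        ((⋃ q ∈ Iv k₀ k₁ M, {θ | p₂ v θ ∈ E2 q}) ∪ ((⋃ q ∈ Iv k₀ k₁ M, {θ | p₀ v θ ∈ E1 q}) ∪
        (⋃ q ∈ insert (k₀, k₁) (Iv k₀ k₁ M), {θ | p₂ v θ ∈ EH q}))))))) := by
      intro θ hθ
      by_contra hcon
      simp only [Set.mem_union, Set.mem_iUnion, Set.mem_ofPred_eq, not_or, not_exists] at hcon
      obtain ⟨c1, c2, c3, c4, c5, c6, c8, c7⟩ := hcon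
      have hno : ∀ p ∈ Bf v θ, r p - l p ≤ M := by
        by_contra hneg
        push Not at hneg
        obtain ⟨p, hp, hpM⟩ := hneg
        obtain ⟨i, hi, hiN⟩ := hlong v θ c3 (fun q hq => not_lt.1 (c8 q hq)) (fun q hq => not_lt.1 (c5 q hq))
          ⟨p, hp, hpM⟩
        exact c2 i hi ⟨hθ, hiN⟩
      have hNc : ∀ j < J, ((((Bf v θ).filter fun p => 2 ^ j ≤ r p - l p ∧ r p - l p < 2 ^ (j + 1)).card : ℕ) : ℝ) ≤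
          lc * (1 + ((k₁ - k₀ : ℕ) : ℝ) * ϖ / √((2 : ℝ) ^ j)) := by
        intro j hj
        have e1 := hcl v θ c3 (fun q hq => not_lt.1 (c8 q hq)) (fun q hq => not_lt.1 (c5 q hq)) hno j hj
        have e2 : (Set.ncard {u | u < U j ∧ p₁ v θ ∈ N j u v} : ℝ) ≤ cnt j := not_lt.1 (c4 j (Finset.mem_range.2 hj))
        have e3 := mul_le_mul_of_nonneg_left e2 hlb
        have e4 := hcnt j hj
        linarith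
      have hfin := pathwise (φ (p₂ v θ)) (φ (p₁ v θ)) (Vb v) s (Bf v θ) l r (hB v θ) (hcs v θ) ha hG hh hlc hJl hϖ
        hMJ hno hNc (fun q hq => not_lt.1 (c5 q hq)) (fun q hq => not_lt.1 (c6 q hq)) (fun q hq => not_lt.1 (c7 q hq))
        hnum
      have e1 : |Xs (2 * s) (Ico k₀ k₁) (φ (p₂ v θ))| ≤ 4 * (x - c₀ * √((k₁ - k₀ : ℕ) : ℝ) * a) := not_lt.1 c1
      have e2 : x < |Xs s (Ico k₀ k₁) (φ (p₁ v θ))| := hθ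
      linarith
    have hu := (Q v).mono hsub
    have u1 := (Q v).union {θ | p₂ v θ ∈ EA} ((⋃ i ∈ Li, {θ | p₁ v θ ∈ EX ∩ NL i v}) ∪ (bad v ∪
        ((⋃ j ∈ range J, {θ | p₁ v θ ∈ EC j}) ∪ ((⋃ q ∈ Iv k₀ k₁ M, {θ | p₁ v θ ∈ E1 q}) ∪
        ((⋃ q ∈ Iv k₀ k₁ M, {θ | p₂ v θ ∈ E2 q}) ∪ ((⋃ q ∈ Iv k₀ k₁ M, {θ | p₀ v θ ∈ E1 q}) ∪
        (⋃ q ∈ insert (k₀, k₁) (Iv k₀ k₁ M), {θ | p₂ v θ ∈ EH q})))))))
    have u2 := (Q v).union (⋃ i ∈ Li, {θ | p₁ v θ ∈ EX ∩ NL i v}) (bad v ∪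
        ((⋃ j ∈ range J, {θ | p₁ v θ ∈ EC j}) ∪ ((⋃ q ∈ Iv k₀ k₁ M, {θ | p₁ v θ ∈ E1 q}) ∪
        ((⋃ q ∈ Iv k₀ k₁ M, {θ | p₂ v θ ∈ E2 q}) ∪ ((⋃ q ∈ Iv k₀ k₁ M, {θ | p₀ v θ ∈ E1 q}) ∪
        (⋃ q ∈ insert (k₀, k₁) (Iv k₀ k₁ M), {θ | p₂ v θ ∈ EH q}))))))
    have u3 := (Q v).union (bad v) ((⋃ j ∈ range J, {θ | p₁ v θ ∈ EC j}) ∪ ((⋃ q ∈ Iv k₀ k₁ M, {θ | p₁ v θ ∈ E1 q}) ∪
        ((⋃ q ∈ Iv k₀ k₁ M, {θ | p₂ v θ ∈ E2 q}) ∪ ((⋃ q ∈ Iv k₀ k₁ M, {θ | p₀ v θ ∈ E1 q}) ∪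
        (⋃ q ∈ insert (k₀, k₁) (Iv k₀ k₁ M), {θ | p₂ v θ ∈ EH q})))))
    have u4 := (Q v).union (⋃ j ∈ range J, {θ | p₁ v θ ∈ EC j}) ((⋃ q ∈ Iv k₀ k₁ M, {θ | p₁ v θ ∈ E1 q}) ∪
        ((⋃ q ∈ Iv k₀ k₁ M, {θ | p₂ v θ ∈ E2 q}) ∪ ((⋃ q ∈ Iv k₀ k₁ M, {θ | p₀ v θ ∈ E1 q}) ∪
        (⋃ q ∈ insert (k₀, k₁) (Iv k₀ k₁ M), {θ | p₂ v θ ∈ EH q}))))
    have u5 := (Q v).union (⋃ q ∈ Iv k₀ k₁ M, {θ | p₁ v θ ∈ E1 q}) ((⋃ q ∈ Iv k₀ k₁ M, {θ | p₂ v θ ∈ E2 q}) ∪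
        ((⋃ q ∈ Iv k₀ k₁ M, {θ | p₀ v θ ∈ E1 q}) ∪ (⋃ q ∈ insert (k₀, k₁) (Iv k₀ k₁ M), {θ | p₂ v θ ∈ EH q})))
    have u6 := (Q v).union (⋃ q ∈ Iv k₀ k₁ M, {θ | p₂ v θ ∈ E2 q}) ((⋃ q ∈ Iv k₀ k₁ M, {θ | p₀ v θ ∈ E1 q}) ∪
        (⋃ q ∈ insert (k₀, k₁) (Iv k₀ k₁ M), {θ | p₂ v θ ∈ EH q}))
    have u7 := (Q v).union (⋃ q ∈ Iv k₀ k₁ M, {θ | p₀ v θ ∈ E1 q})
        (⋃ q ∈ insert (k₀, k₁) (Iv k₀ k₁ M), {θ | p₂ v θ ∈ EH q})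
    have w1 := hp2 v EA
    have w2 : (Q v).pr (⋃ i ∈ Li, {θ | p₁ v θ ∈ EX ∩ NL i v}) ≤
        (∑ i ∈ Li, ρ i) * ν.pr {y | x - c₀ * a < |Xs s (Ico k₀ k₁) (φ y)|} + Li.card * δ := by
      refine ((Q v).biUnion _ _).trans ?_
      calc ∑ i ∈ Li, (Q v).pr {θ | p₁ v θ ∈ EX ∩ NL i v}
          ≤ ∑ i ∈ Li, (ρ i * ν.pr {y | x - c₀ * a < |Xs s (Ico k₀ k₁) (φ y)|} + δ) :=
            Finset.sum_le_sum fun i hi => (hp1' v _).trans (hdlx v x i hi)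
        _ = _ := by rw [Finset.sum_add_distrib, ← Finset.sum_mul, Finset.sum_const, nsmul_eq_mul]
    have w3 : (Q v).pr (⋃ j ∈ range J, {θ | p₁ v θ ∈ EC j}) ≤ J * δc := by
      refine ((Q v).biUnion _ _).trans ?_
      calc ∑ j ∈ range J, (Q v).pr {θ | p₁ v θ ∈ EC j} ≤ ∑ _j ∈ range J, δc :=
            Finset.sum_le_sum fun j hj => (hp1' v _).trans (hcount v j (Finset.mem_range.1 hj))
        _ = _ := by rw [Finset.sum_const, Finset.card_range, nsmul_eq_mul]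
    have w4 : (Q v).pr (⋃ q ∈ Iv k₀ k₁ M, {θ | p₁ v θ ∈ E1 q}) ≤ ∑ q ∈ Iv k₀ k₁ M, ν.pr (E1 q) :=
      ((Q v).biUnion _ _).trans (Finset.sum_le_sum fun q _ => hp1' v _)
    have w5 : (Q v).pr (⋃ q ∈ Iv k₀ k₁ M, {θ | p₂ v θ ∈ E2 q}) ≤ ∑ q ∈ Iv k₀ k₁ M, ν.pr (E2 q) :=
      ((Q v).biUnion _ _).trans (Finset.sum_le_sum fun q _ => hp2 v _)
    have w7 : (Q v).pr (⋃ q ∈ Iv k₀ k₁ M, {θ | p₀ v θ ∈ E1 q}) ≤ ∑ q ∈ Iv k₀ k₁ M, ν.pr (E1 q) :=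
      ((Q v).biUnion _ _).trans (Finset.sum_le_sum fun q _ => hp0 v _)
    have w8 : 0 ≤ ∑ q ∈ Iv k₀ k₁ M, ν.pr (E2 q) := Finset.sum_nonneg fun q _ => ν.nonneg _
    have w6 : (Q v).pr (⋃ q ∈ insert (k₀, k₁) (Iv k₀ k₁ M), {θ | p₂ v θ ∈ EH q}) ≤
        ∑ q ∈ insert (k₀, k₁) (Iv k₀ k₁ M), ν.pr (EH q) :=
      ((Q v).biUnion _ _).trans (Finset.sum_le_sum fun q _ => hp2 v _)
    have w0 : ν.pr EX ≤ (Q v).pr {θ | p₁ v θ ∈ EX} := hp1 v x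
    rw [Finset.sum_add_distrib]
    linarith
  -- the average over the symbols
  set C := ν.pr {y | 4 * (x - c₀ * √((k₁ - k₀ : ℕ) : ℝ) * a) < |Xs (2 * s) (Ico k₀ k₁) (φ y)|} +
      (∑ i ∈ Li, ρ i) * ν.pr {y | x - c₀ * a < |Xs s (Ico k₀ k₁) (φ y)|} +
      2 * ∑ q ∈ Iv k₀ k₁ M, (ν.pr {y | G * √((q.2 - q.1 : ℕ) : ℝ) * a < |Xs s (Ico q.1 q.2) (φ y)|} +
        ν.pr {y | 2 * G * √((q.2 - q.1 : ℕ) : ℝ) * a < |Xs (2 * s) (Ico q.1 q.2) (φ y)|}) +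
      (Li.card * δ + J * δc) with hC
  set e : V → ℕ × ℕ → ℝ := fun v q => ν.pr {y | h * √((q.2 - q.1 : ℕ) : ℝ) * a <
        |XV s (Ico q.1 q.2) (φ y) (Vb v) - Xs (2 * s) (Ico q.1 q.2) (φ y) / 4|} with he
  have hav : ∑ v, wt v * ν.pr {y | x < |Xs s (Ico k₀ k₁) (φ y)|} ≤
      ∑ v, wt v * (C + ((Q v).pr (bad v) + ∑ q ∈ insert (k₀, k₁) (Iv k₀ k₁ M), e v q)) :=
    Finset.sum_le_sum fun v _ => mul_le_mul_of_nonneg_left (key v) (hw0 v)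
  rw [← Finset.sum_mul, hw1, one_mul] at hav
  have hav2 : ∑ v, wt v * (C + ((Q v).pr (bad v) + ∑ q ∈ insert (k₀, k₁) (Iv k₀ k₁ M), e v q)) =
      C + (∑ v, wt v * (Q v).pr (bad v) + ∑ q ∈ insert (k₀, k₁) (Iv k₀ k₁ M), ∑ v, wt v * e v q) := by
    have e1 : ∀ v, wt v * (C + ((Q v).pr (bad v) + ∑ q ∈ insert (k₀, k₁) (Iv k₀ k₁ M), e v q)) =
        wt v * C + (wt v * (Q v).pr (bad v) + ∑ q ∈ insert (k₀, k₁) (Iv k₀ k₁ M), wt v * e v q) := by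
      intro v
      rw [← Finset.mul_sum]
      ring
    rw [Finset.sum_congr rfl fun v _ => e1 v, Finset.sum_add_distrib, Finset.sum_add_distrib, ← Finset.sum_mul, hw1,
      one_mul, Finset.sum_comm]
  rw [hav2] at hav
  have hS : ∑ q ∈ insert (k₀, k₁) (Iv k₀ k₁ M), ∑ v, wt v * e v q ≤ ((Iv k₀ k₁ M).card + 1) * δH := by
    have hδ : 0 ≤ δH := (Finset.sum_nonneg fun v _ => mul_nonneg (hw0 v) (ν.nonneg _)).trans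
      (hoef (k₀, k₁) (Finset.mem_insert_self _ _))
    calc ∑ q ∈ insert (k₀, k₁) (Iv k₀ k₁ M), ∑ v, wt v * e v q ≤
          ∑ _q ∈ insert (k₀, k₁) (Iv k₀ k₁ M), δH := Finset.sum_le_sum hoef
      _ = ((insert (k₀, k₁) (Iv k₀ k₁ M)).card : ℝ) * δH := by rw [Finset.sum_const, nsmul_eq_mul]
      _ ≤ ((Iv k₀ k₁ M).card + 1) * δH := by
          refine mul_le_mul_of_nonneg_right ?_ hδ
          exact_mod_cast Finset.card_insert_le _ _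
  rw [hC] at hav
  linarith

/-- **The one step inequality** with the uniform average over the symbols. -/
theorem onestep [Nonempty V] (ν : SubProb Y) (Q : V → SubProb Θ) (p₀ p₁ p₂ : V → Θ → Y)
    (φ : Y → ℕ → ℤ → ℝ) (Vb : V → ℕ → ℤ) (s : ℤ) {k₀ k₁ M J : ℕ}
    (hp1 : ∀ v x, ν.pr {y | x < |Xs s (Ico k₀ k₁) (φ y)|} ≤ (Q v).pr {θ | x < |Xs s (Ico k₀ k₁) (φ (p₁ v θ))|})
    (hp0 : ∀ v E, (Q v).pr {θ | p₀ v θ ∈ E} ≤ ν.pr E)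
    (hp1' : ∀ v E, (Q v).pr {θ | p₁ v θ ∈ E} ≤ ν.pr E) (hp2 : ∀ v E, (Q v).pr {θ | p₂ v θ ∈ E} ≤ ν.pr E)
    (Bf : V → Θ → Finset ι) (l r : ι → ℕ) (hB : ∀ v θ, ∀ p ∈ Bf v θ, k₀ ≤ l p ∧ l p < r p ∧ r p ≤ k₁)
    (hcs : ∀ v θ, ∀ G G' : ι → ℝ,
      (∀ p ∈ Bf v θ, ∀ x y, l p ≤ x → x ≤ y → y ≤ r p → |∑ b ∈ Ico x y, D s (φ (p₂ v θ) b) (Vb v b)| ≤ G p) →
      (∀ p ∈ Bf v θ, ∀ x y, l p ≤ x → x ≤ y → y ≤ r p → |∑ b ∈ Ico x y, D s (φ (p₁ v θ) b) 0| ≤ G' p) →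
      |∑ b ∈ Ico k₀ k₁, D s (φ (p₁ v θ) b) 0 - ∑ b ∈ Ico k₀ k₁, D s (φ (p₂ v θ) b) (Vb v b)| ≤
        ∑ p ∈ Bf v θ, (G p + G' p))
    {G h a c₀ lc ϖ δH δc δ ecl lb e₀ : ℝ} (ha : 0 ≤ a) (hG : 0 ≤ G) (hh : 0 ≤ h) (hlc : 1 ≤ lc) (hJl : (J : ℝ) ≤ lc)
    (hϖ : 0 ≤ ϖ) (hMJ : M < 2 ^ J) (hlb : 0 ≤ lb)
    -- Hoeffding in the symbols
    (hoef : ∀ q ∈ insert (k₀, k₁) (Iv k₀ k₁ M), avg (fun v => ν.pr {y | h * √((q.2 - q.1 : ℕ) : ℝ) * a <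
      |XV s (Ico q.1 q.2) (φ y) (Vb v) - Xs (2 * s) (Ico q.1 q.2) (φ y) / 4|}) ≤ δH)
    -- brackets are near ties
    (bad : V → Set Θ) (hbad : avg (fun v => (Q v).pr (bad v)) ≤ ecl) (U : ℕ → ℕ) (N : ℕ → ℕ → V → Set Y)
    (hcl : ∀ v θ, θ ∉ bad v →
      (∀ q ∈ Iv k₀ k₁ M, |Xs s (Ico q.1 q.2) (φ (p₀ v θ))| ≤ G * √((q.2 - q.1 : ℕ) : ℝ) * a) →
      (∀ q ∈ Iv k₀ k₁ M, |Xs s (Ico q.1 q.2) (φ (p₁ v θ))| ≤ G * √((q.2 - q.1 : ℕ) : ℝ) * a) →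
      (∀ p ∈ Bf v θ, r p - l p ≤ M) → ∀ j < J, (((Bf v θ).filter fun p => 2 ^ j ≤ r p - l p ∧
      r p - l p < 2 ^ (j + 1)).card : ℝ) ≤ lb * (Set.ncard {u | u < U j ∧ p₁ v θ ∈ N j u v} : ℝ) + e₀)
    (cnt : ℕ → ℝ) (hcount : ∀ v, ∀ j < J, ν.pr {y | cnt j < (Set.ncard {u | u < U j ∧ y ∈ N j u v} : ℝ)} ≤ δc)
    (hcnt : ∀ j < J, lb * cnt j + e₀ ≤ lc * (1 + ((k₁ - k₀ : ℕ) : ℝ) * ϖ / √((2 : ℝ) ^ j)))
    -- long brackets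
    (Li : Finset κ) (NL : κ → V → Set Y)
    (hlong : ∀ v θ, θ ∉ bad v →
      (∀ q ∈ Iv k₀ k₁ M, |Xs s (Ico q.1 q.2) (φ (p₀ v θ))| ≤ G * √((q.2 - q.1 : ℕ) : ℝ) * a) →
      (∀ q ∈ Iv k₀ k₁ M, |Xs s (Ico q.1 q.2) (φ (p₁ v θ))| ≤ G * √((q.2 - q.1 : ℕ) : ℝ) * a) →
      (∃ p ∈ Bf v θ, M < r p - l p) → ∃ i ∈ Li, p₁ v θ ∈ NL i v) (ρ : κ → ℝ)
    (hdlx : ∀ v x, ∀ i ∈ Li, ν.pr ({y | x < |Xs s (Ico k₀ k₁) (φ y)|} ∩ NL i v) ≤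
      ρ i * ν.pr {y | x - c₀ * a < |Xs s (Ico k₀ k₁) (φ y)|} + δ)
    (hnum : (3 / 2 * G + h) * (6 * lc * √(M : ℝ) + 2 * lc ^ 2 * (ϖ * ((k₁ - k₀ : ℕ) : ℝ))) +
      h * √((k₁ - k₀ : ℕ) : ℝ) ≤ c₀ * √((k₁ - k₀ : ℕ) : ℝ)) (x : ℝ) :
    ν.pr {y | x < |Xs s (Ico k₀ k₁) (φ y)|} ≤
      ν.pr {y | 4 * (x - c₀ * √((k₁ - k₀ : ℕ) : ℝ) * a) < |Xs (2 * s) (Ico k₀ k₁) (φ y)|} +
      (∑ i ∈ Li, ρ i) * ν.pr {y | x - c₀ * a < |Xs s (Ico k₀ k₁) (φ y)|} +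
      2 * ∑ q ∈ Iv k₀ k₁ M, (ν.pr {y | G * √((q.2 - q.1 : ℕ) : ℝ) * a < |Xs s (Ico q.1 q.2) (φ y)|} +
        ν.pr {y | 2 * G * √((q.2 - q.1 : ℕ) : ℝ) * a < |Xs (2 * s) (Ico q.1 q.2) (φ y)|}) +
      (Li.card * δ + ecl + J * δc + ((Iv k₀ k₁ M).card + 1) * δH) := by
  have hcard : (0 : ℝ) < Fintype.card V := by exact_mod_cast Fintype.card_pos
  have hsum : ∀ F : V → ℝ, ∑ v, 1 / (Fintype.card V : ℝ) * F v = avg F := by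
    intro F
    unfold avg
    rw [← Finset.mul_sum]
    ring
  refine onestep_w (fun _ => 1 / (Fintype.card V : ℝ)) (fun _ => by positivity) ?_ ν Q p₀ p₁ p₂ φ Vb s hp1 hp0 hp1' hp2 Bf l r
    hB hcs ha hG hh hlc hJl hϖ hMJ hlb (fun q hq => ?_) bad ?_ U N hcl cnt hcount hcnt Li NL hlong ρ hdlx hnum x
  · rw [Finset.sum_const, Finset.card_univ, nsmul_eq_mul]
    field_simp
  · rw [hsum]
    exact hoef q hq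
  · rw [hsum]
    exact hbad

/-- The one step inequality in terms of bounds `p` (level `k`) and `p'` (level `k + 1`) of the failure probabilities. -/
theorem onestep_p (ν : SubProb Y) (φ : Y → ℕ → ℤ → ℝ) (s : ℤ) {k₀ k₁ M : ℕ} (hk : k₀ ≤ k₁) (p p' : ℕ → ℝ → ℝ)
    (hp : ∀ x y : ℕ, k₀ ≤ x → x < y → y ≤ k₁ → ∀ z, ν.pr {w | z < |Xs s (Ico x y) (φ w)|} ≤ p (y - x) z)
    (hp' : ∀ x y : ℕ, k₀ ≤ x → x < y → y ≤ k₁ → ∀ z, ν.pr {w | z < |Xs (2 * s) (Ico x y) (φ w)|} ≤ p' (y - x) z)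
    (hp0 : ∀ d z, 0 ≤ p d z) (hp0' : ∀ d z, 0 ≤ p' d z) {G a : ℝ} :
    ∑ q ∈ Iv k₀ k₁ M, (ν.pr {y | G * √((q.2 - q.1 : ℕ) : ℝ) * a < |Xs s (Ico q.1 q.2) (φ y)|} +
        ν.pr {y | 2 * G * √((q.2 - q.1 : ℕ) : ℝ) * a < |Xs (2 * s) (Ico q.1 q.2) (φ y)|}) ≤
      (((k₁ - k₀ : ℕ) : ℝ) + 1) * ∑ d ∈ Icc 1 M, (p d (G * √(d : ℝ) * a) + p' d (2 * G * √(d : ℝ) * a)) := by
  have h1 : ∑ q ∈ Iv k₀ k₁ M, (ν.pr {y | G * √((q.2 - q.1 : ℕ) : ℝ) * a < |Xs s (Ico q.1 q.2) (φ y)|} +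
        ν.pr {y | 2 * G * √((q.2 - q.1 : ℕ) : ℝ) * a < |Xs (2 * s) (Ico q.1 q.2) (φ y)|}) ≤
      ∑ q ∈ Iv k₀ k₁ M, (fun d : ℕ => p d (G * √(d : ℝ) * a) + p' d (2 * G * √(d : ℝ) * a)) (q.2 - q.1) := by
    refine Finset.sum_le_sum fun q hq => ?_
    have h2 := (mem_Iv.1 hq).1
    exact add_le_add (hp q.1 q.2 h2.1 h2.2.1 h2.2.2 _) (hp' q.1 q.2 h2.1 h2.2.1 h2.2.2 _)
  refine h1.trans ?_
  rcases sum_Iv (k₀ := k₀) (k₁ := k₁) (M := M) (fun d : ℕ => p d (G * √(d : ℝ) * a) + p' d (2 * G * √(d : ℝ) * a))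
    (fun d => add_nonneg (hp0 _ _) (hp0' _ _)) with h2 | h2
  · rw [Nat.cast_sub hk]
    exact h2
  · omega

end main

end

end Pool.Agent.W_7d29a1_Z.Asm72
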