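import Pool.Agent.W_7d29a1_Z.Asm72
import Pool.Agent.W_7d29a1_Z49.Count49

/-!
STORM Z (MP_7d29a1_pr), leaf Z8: the numerical fields of `Asm72.onestep_w`: `hnum` (from `T √m 2^k P ≤ 1`), the count of
the near ties for any tie rate and any separation (from `Z49.count49`), `hcnt`, and the field `hdlx` from a tie lemma
with left out blocks. (helper72)
-/

namespace Pool.Agent.W_7d29a1_Z.Num72

open Finset Pool.Agent.W_7d29a1_Z.Asm72

noncomputable section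

/-- The field `hnum`. -/
theorem hnum72 {G h lc c₀ ϖ s m : ℝ} (hG : 0 ≤ G) (hh : 0 ≤ h) (hlc : 0 ≤ lc) (hs : 0 < s) (hm : 0 ≤ m)
    (h1 : h ≤ c₀ / 2) (h2 : (3 / 2 * G + h) * (24 * lc) ≤ c₀ * √s)
    (h3 : (3 / 2 * G + h) * (8 * lc ^ 2) * (ϖ * √m) ≤ c₀) :
    (3 / 2 * G + h) * (6 * lc * √((⌊m / s⌋₊ : ℕ) : ℝ) + 2 * lc ^ 2 * (ϖ * m)) + h * √m ≤ c₀ * √m := by
  set g := 3 / 2 * G + h with hg
  have hg0 : 0 ≤ g := by positivity
  have hsm : 0 ≤ √m := Real.sqrt_nonneg m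
  have hss : 0 < √s := Real.sqrt_pos.2 hs
  have h4 : √((⌊m / s⌋₊ : ℕ) : ℝ) ≤ √m / √s := by
    rw [← Real.sqrt_div' m hs.le]
    exact Real.sqrt_le_sqrt (Nat.floor_le (by positivity))
  have h5 : g * (6 * lc) * (√m / √s) ≤ c₀ / 4 * √m := by
    have e1 : g * (6 * lc) * (√m / √s) = g * (24 * lc) * √m / (4 * √s) := by
      field_simp
      ring
    rw [e1, div_le_iff₀ (by positivity)]
    have := mul_le_mul_of_nonneg_right h2 hsm
    nlinarith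
  have h6 : g * (2 * lc ^ 2 * (ϖ * m)) ≤ c₀ / 4 * √m := by
    have e1 : ϖ * m = ϖ * √m * √m := by rw [mul_assoc, Real.mul_self_sqrt hm]
    rw [e1]
    have := mul_le_mul_of_nonneg_right h3 hsm
    nlinarith
  have h7 : g * (6 * lc * √((⌊m / s⌋₊ : ℕ) : ℝ)) ≤ g * (6 * lc) * (√m / √s) := by
    rw [← mul_assoc]
    exact mul_le_mul_of_nonneg_left h4 (by positivity)
  have h8 : h * √m ≤ c₀ / 2 * √m := mul_le_mul_of_nonneg_right h1 hsm
  rw [mul_add]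
  linarith

/-- The number of near ties, for any tie rate `κ` (no condition `κ < 1`) and separation `2`. -/
theorem count2 {Y : Type*} (ν : SubProb Y) (E : ℕ → Set Y) (U N₀ : ℕ) (hN₀ : 1 ≤ N₀) (Ad : ℕ → Set (Set Y))
    (hadu : ∀ u < U, Set.univ ∈ Ad u) (hadi : ∀ u < U, ∀ A B, A ∈ Ad u → B ∈ Ad u → A ∩ B ∈ Ad u)
    (hade : ∀ u < U, ∀ u' < U, (u + 2 ≤ u' ∨ u' + 2 ≤ u) → E u' ∈ Ad u) {κ δ Λ : ℝ} (hκ : 0 ≤ κ) (hδ : 0 ≤ δ)
    (hΛ : 1 ≤ Λ) (htie : ∀ u < U, ∀ A ∈ Ad u, ν.pr (A ∩ E u) ≤ κ * ν.pr A + δ) :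
    ν.pr {y | 4 * (N₀ : ℝ) * (κ * Λ * U + 1) < (Set.ncard {u | u < U ∧ y ∈ E u} : ℝ)} ≤
      2 * ((U : ℝ) + 1) * ((1 / Λ) ^ N₀ + (U : ℝ) ^ N₀ * (N₀ * δ)) := by
  classical
  have hN1 : (1 : ℝ) ≤ N₀ := by exact_mod_cast hN₀
  have hRHS : 0 ≤ 2 * ((U : ℝ) + 1) * ((1 / Λ) ^ N₀ + (U : ℝ) ^ N₀ * (N₀ * δ)) := by positivity
  have hset : ∀ y, {u | u < U ∧ y ∈ E u} = (((range U).filter fun u => y ∈ E u : Finset ℕ) : Set ℕ) := by
    intro y
    ext u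
    simp
  have hcardU : ∀ y, (Set.ncard {u | u < U ∧ y ∈ E u} : ℝ) ≤ U := by
    intro y
    rw [hset y, Set.ncard_coe_finset]
    have := Finset.card_filter_le (range U) (fun u => y ∈ E u)
    rw [card_range] at this
    exact_mod_cast this
  have hempty : (U : ℝ) ≤ 4 * (N₀ : ℝ) * (κ * Λ * U + 1) →
      ν.pr {y | 4 * (N₀ : ℝ) * (κ * Λ * U + 1) < (Set.ncard {u | u < U ∧ y ∈ E u} : ℝ)} ≤
      2 * ((U : ℝ) + 1) * ((1 / Λ) ^ N₀ + (U : ℝ) ^ N₀ * (N₀ * δ)) := by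
    intro hU
    have e1 : {y | 4 * (N₀ : ℝ) * (κ * Λ * U + 1) < (Set.ncard {u | u < U ∧ y ∈ E u} : ℝ)} = ∅ := by
      ext y
      simp only [Set.mem_ofPred_eq, Set.mem_empty_iff_false, iff_false, not_lt]
      exact (hcardU y).trans hU
    rw [e1]
    exact ν.empty.trans hRHS
  rcases Nat.eq_zero_or_pos U with h0 | hUpos
  · refine hempty ?_
    rw [h0]
    simp
  have hU1 : (1 : ℝ) ≤ U := by exact_mod_cast hUpos
  rcases le_or_gt 1 (2 * κ * Λ) with hbig | hsmall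
  · refine hempty ?_
    have e1 : (U : ℝ) ≤ 2 * κ * Λ * U := by nlinarith
    have e2 : 0 ≤ κ * Λ * U := by positivity
    nlinarith
  -- the group size
  obtain ⟨M, hM1, hMU, hMκ, hUM⟩ : ∃ M : ℕ, 1 ≤ M ∧ M ≤ U ∧ (M : ℝ) * κ ≤ 1 / Λ ∧
      (((U / M : ℕ) : ℝ) + 1) ≤ 2 * (κ * Λ * U + 1) := by
    have hΛ0 : 0 < Λ := by linarith
    rcases le_or_gt (κ * Λ * U) 1 with hc | hc
    · refine ⟨U, hUpos, le_rfl, ?_, ?_⟩
      · rw [le_div_iff₀ hΛ0]
        linarith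
      · rw [Nat.div_self hUpos]
        have : 0 ≤ κ * Λ * U := by positivity
        push_cast
        linarith
    · have hκ0 : 0 < κ := by
        by_contra hneg
        have : κ = 0 := le_antisymm (not_lt.1 hneg) hκ
        rw [this] at hc
        simp at hc
        linarith
      set r : ℝ := 1 / (κ * Λ) with hr
      have hκΛ : 0 < κ * Λ := by positivity
      have hr2 : 2 ≤ r := by
        rw [hr, le_div_iff₀ hκΛ]
        linarith
      have hfl : (⌊r⌋₊ : ℝ) ≤ r := Nat.floor_le (by linarith)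
      have hfl2 : r < ⌊r⌋₊ + 1 := Nat.lt_floor_add_one r
      have hM2 : r / 2 ≤ (⌊r⌋₊ : ℝ) := by linarith
      have hMpos : (0 : ℝ) < (⌊r⌋₊ : ℝ) := by linarith
      refine ⟨⌊r⌋₊, by exact_mod_cast hMpos, ?_, ?_, ?_⟩
      · have e1 : r ≤ U := by
          rw [hr, div_le_iff₀ hκΛ]
          linarith
        exact_mod_cast hfl.trans e1
      · calc (⌊r⌋₊ : ℝ) * κ ≤ r * κ := mul_le_mul_of_nonneg_right hfl hκ
          _ = 1 / Λ := by
            rw [hr]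
            field_simp
      · have e1 : ((U / ⌊r⌋₊ : ℕ) : ℝ) ≤ (U : ℝ) / ⌊r⌋₊ := Nat.cast_div_le
        have e2 : (U : ℝ) / ⌊r⌋₊ ≤ U / (r / 2) := by
          apply div_le_div_of_nonneg_left (by linarith) (by linarith) hM2
        have e3 : (U : ℝ) / (r / 2) = 2 * (κ * Λ * U) := by
          rw [hr]
          field_simp
        linarith
  have hc49 := W_7d29a1_Z49.count49 ν.pr (le_antisymm ν.empty (ν.nonneg _)) ν.nonneg ν.le_one
    (fun A B h => ν.mono h) ν.union E U M N₀ hM1 Ad hadu hadi hade κ δ hκ hδ htie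
  have hsub : {y | 4 * (N₀ : ℝ) * (κ * Λ * U + 1) < (Set.ncard {u | u < U ∧ y ∈ E u} : ℝ)} ⊆
      {y | 2 * N₀ * (U / M + 1) < ((range U).filter (fun u => y ∈ E u)).card} := by
    intro y hy
    have hy' : 4 * (N₀ : ℝ) * (κ * Λ * U + 1) < (Set.ncard {u | u < U ∧ y ∈ E u} : ℝ) := hy
    rw [hset y, Set.ncard_coe_finset] at hy'
    have e1 : ((2 * N₀ * (U / M + 1) : ℕ) : ℝ) ≤ 4 * (N₀ : ℝ) * (κ * Λ * U + 1) := by
      push_cast
      nlinarith
    have e2 : ((2 * N₀ * (U / M + 1) : ℕ) : ℝ) < (((range U).filter (fun u => y ∈ E u)).card : ℝ) := by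
      refine e1.trans_lt ?_
      convert hy' using 2
    exact_mod_cast e2
  refine (ν.mono hsub).trans (hc49.trans ?_)
  have e1 : ((U / M : ℕ) : ℝ) + 1 ≤ U + 1 := by
    have : ((U / M : ℕ) : ℝ) ≤ U := by exact_mod_cast Nat.div_le_self U M
    linarith
  have e2 : (M : ℝ) ^ N₀ * (κ ^ N₀ + N₀ * δ) ≤ (1 / Λ) ^ N₀ + (U : ℝ) ^ N₀ * (N₀ * δ) := by
    have e3 : (M : ℝ) ^ N₀ * κ ^ N₀ ≤ (1 / Λ) ^ N₀ := by
      rw [← mul_pow]
      exact pow_le_pow_left₀ (by positivity) hMκ N₀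
    have e4 : (M : ℝ) ^ N₀ ≤ (U : ℝ) ^ N₀ := pow_le_pow_left₀ (by positivity) (by exact_mod_cast hMU) N₀
    have e5 : 0 ≤ N₀ * δ := by positivity
    have e6 := mul_le_mul_of_nonneg_right e4 e5
    rw [mul_add]
    linarith
  have e3 : 0 ≤ (M : ℝ) ^ N₀ * (κ ^ N₀ + N₀ * δ) := by positivity
  calc 2 * (((U / M : ℕ) : ℝ) + 1) * (M : ℝ) ^ N₀ * (κ ^ N₀ + N₀ * δ)
      = 2 * (((U / M : ℕ) : ℝ) + 1) * ((M : ℝ) ^ N₀ * (κ ^ N₀ + N₀ * δ)) := by ring
    _ ≤ 2 * ((U : ℝ) + 1) * ((1 / Λ) ^ N₀ + (U : ℝ) ^ N₀ * (N₀ * δ)) := by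
        apply mul_le_mul (by linarith) e2 e3 (by positivity)

/-- The same for the separation `2 R`: the windows are split in `R` classes. -/
theorem countR {Y : Type*} (ν : SubProb Y) (E : ℕ → Set Y) (U N₀ R : ℕ) (hN₀ : 1 ≤ N₀) (hR : 1 ≤ R)
    (Ad : ℕ → Set (Set Y)) (hadu : ∀ u < U, Set.univ ∈ Ad u)
    (hadi : ∀ u < U, ∀ A B, A ∈ Ad u → B ∈ Ad u → A ∩ B ∈ Ad u)
    (hade : ∀ u < U, ∀ u' < U, (u + 2 * R ≤ u' ∨ u' + 2 * R ≤ u) → E u' ∈ Ad u) {κ δ Λ : ℝ} (hκ : 0 ≤ κ)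
    (hδ : 0 ≤ δ) (hΛ : 1 ≤ Λ) (htie : ∀ u < U, ∀ A ∈ Ad u, ν.pr (A ∩ E u) ≤ κ * ν.pr A + δ) :
    ν.pr {y | 4 * (N₀ : ℝ) * R * (κ * Λ * U + 1) < (Set.ncard {u | u < U ∧ y ∈ E u} : ℝ)} ≤
      R * (2 * ((U : ℝ) + 1) * ((1 / Λ) ^ N₀ + (U : ℝ) ^ N₀ * (N₀ * δ))) := by
  classical
  -- the number of windows of the class `c`
  set Uc : ℕ → ℕ := fun c => (U + (R - 1) - c) / R with hUc
  have hmem : ∀ c < R, ∀ i, i < Uc c ↔ c + R * i < U := by
    intro c hc i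
    rw [hUc]
    simp only
    rw [Nat.lt_iff_add_one_le, Nat.le_div_iff_mul_le (by omega)]
    have e1 : (i + 1) * R = R * i + R := by ring
    rw [e1]
    omega
  have hUcU : ∀ c < R, Uc c ≤ U := by
    intro c hc
    by_contra hcon
    have h1 := (hmem c hc U).1 (not_le.1 hcon)
    have h2 : U ≤ R * U := Nat.le_mul_of_pos_left U (by omega)
    omega
  have h1 : ∀ c < R, ν.pr {y | 4 * (N₀ : ℝ) * (κ * Λ * U + 1) <
      (Set.ncard {i | i < Uc c ∧ y ∈ E (c + R * i)} : ℝ)} ≤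
      2 * ((U : ℝ) + 1) * ((1 / Λ) ^ N₀ + (U : ℝ) ^ N₀ * (N₀ * δ)) := by
    intro c hc
    have h2 := count2 ν (fun i => E (c + R * i)) (Uc c) N₀ hN₀ (fun i => Ad (c + R * i))
      (fun i hi => hadu _ ((hmem c hc i).1 hi)) (fun i hi => hadi _ ((hmem c hc i).1 hi))
      (fun i hi i' hi' hsep => by
        refine hade _ ((hmem c hc i).1 hi) _ ((hmem c hc i').1 hi') ?_
        rcases hsep with h | h
        · left
          have : R * (i + 2) ≤ R * i' := Nat.mul_le_mul_left R h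
          rw [mul_add] at this
          omega
        · right
          have : R * (i' + 2) ≤ R * i := Nat.mul_le_mul_left R h
          rw [mul_add] at this
          omega) hκ hδ hΛ (fun i hi => htie _ ((hmem c hc i).1 hi))
    have e0 : (Uc c : ℝ) ≤ U := by exact_mod_cast hUcU c hc
    refine le_trans (ν.mono fun y hy => ?_) (h2.trans ?_)
    · have hy' : 4 * (N₀ : ℝ) * (κ * Λ * U + 1) < (Set.ncard {i | i < Uc c ∧ y ∈ E (c + R * i)} : ℝ) := hy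
      refine lt_of_le_of_lt ?_ hy'
      have e1 : κ * Λ * (Uc c : ℝ) ≤ κ * Λ * U := mul_le_mul_of_nonneg_left e0 (by positivity)
      exact mul_le_mul_of_nonneg_left (by linarith) (by positivity)
    · have e1 : (Uc c : ℝ) ^ N₀ ≤ (U : ℝ) ^ N₀ := pow_le_pow_left₀ (by positivity) e0 N₀
      have e2 : 0 ≤ (N₀ : ℝ) * δ := by positivity
      have e3 := mul_le_mul_of_nonneg_right e1 e2
      apply mul_le_mul (by linarith) (by linarith) (by positivity) (by positivity)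
  have hsub : {y | 4 * (N₀ : ℝ) * R * (κ * Λ * U + 1) < (Set.ncard {u | u < U ∧ y ∈ E u} : ℝ)} ⊆
      ⋃ c ∈ range R, {y | 4 * (N₀ : ℝ) * (κ * Λ * U + 1) <
      (Set.ncard {i | i < Uc c ∧ y ∈ E (c + R * i)} : ℝ)} := by
    intro y hy
    by_contra hcon
    simp only [Set.mem_iUnion, Set.mem_ofPred_eq, not_exists, not_lt, Finset.mem_range] at hcon
    have hy' : 4 * (N₀ : ℝ) * R * (κ * Λ * U + 1) < (Set.ncard {u | u < U ∧ y ∈ E u} : ℝ) := hy
    have e1 : {u | u < U ∧ y ∈ E u} ⊆ ⋃ c ∈ range R, (fun i => c + R * i) '' {i | i < Uc c ∧ y ∈ E (c + R * i)} := by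
      intro u hu
      simp only [Set.mem_iUnion, Set.mem_image, Finset.mem_range, Set.mem_ofPred_eq]
      have e2 : u % R + R * (u / R) = u := Nat.mod_add_div u R
      refine ⟨u % R, Nat.mod_lt u (by omega), u / R, ⟨?_, ?_⟩, e2⟩
      · rw [hmem _ (Nat.mod_lt u (by omega)), e2]
        exact hu.1
      · rw [e2]
        exact hu.2
    have hfin : ∀ c, ({i | i < Uc c ∧ y ∈ E (c + R * i)} : Set ℕ).Finite := fun c =>
      (Set.finite_lt_nat (Uc c)).subset fun i hi => hi.1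
    have e3 : (Set.ncard {u | u < U ∧ y ∈ E u} : ℝ) ≤
        ∑ c ∈ range R, (Set.ncard {i | i < Uc c ∧ y ∈ E (c + R * i)} : ℝ) := by
      have e4 : Set.ncard {u | u < U ∧ y ∈ E u} ≤
          ∑ c ∈ range R, Set.ncard ((fun i => c + R * i) '' {i | i < Uc c ∧ y ∈ E (c + R * i)}) := by
        refine (Set.ncard_le_ncard e1 ?_).trans (Finset.set_ncard_biUnion_le _ _)
        exact Set.Finite.biUnion (Finset.finite_toSet _) fun c _ => (hfin c).image _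
      have e5 : ∑ c ∈ range R, Set.ncard ((fun i => c + R * i) '' {i | i < Uc c ∧ y ∈ E (c + R * i)}) ≤
          ∑ c ∈ range R, Set.ncard {i | i < Uc c ∧ y ∈ E (c + R * i)} :=
        Finset.sum_le_sum fun c _ => Set.ncard_image_le (hfin c)
      exact_mod_cast e4.trans e5
    have e6 : ∑ c ∈ range R, (Set.ncard {i | i < Uc c ∧ y ∈ E (c + R * i)} : ℝ) ≤
        ∑ _c ∈ range R, 4 * (N₀ : ℝ) * (κ * Λ * U + 1) :=
      Finset.sum_le_sum fun c hc => hcon c (Finset.mem_range.1 hc)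
    rw [Finset.sum_const, card_range, nsmul_eq_mul] at e6
    linarith
  refine (ν.mono hsub).trans ((ν.biUnion _ _).trans ?_)
  calc ∑ c ∈ range R, ν.pr {y | 4 * (N₀ : ℝ) * (κ * Λ * U + 1) <
      (Set.ncard {i | i < Uc c ∧ y ∈ E (c + R * i)} : ℝ)} ≤
      ∑ _c ∈ range R, 2 * ((U : ℝ) + 1) * ((1 / Λ) ^ N₀ + (U : ℝ) ^ N₀ * (N₀ * δ)) :=
        Finset.sum_le_sum fun c hc => h1 c (Finset.mem_range.1 hc)
    _ = _ := by rw [Finset.sum_const, card_range, nsmul_eq_mul]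

/-- The field `hcnt`: `U` windows for the class `j`, tie rate `κ ≤ κ₀ √(2^j) ϖ`. -/
theorem hcnt72 {lb N₀ R κ κ₀ Λ U cU m ϖ lc e₀ : ℝ} {j : ℕ} (he₀ : 0 ≤ e₀) (hlb : 0 ≤ lb) (hN₀ : 0 ≤ N₀) (hR : 0 ≤ R)
    (hκ₀ : 0 ≤ κ₀) (hΛ : 0 ≤ Λ) (hU0 : 0 ≤ U) (hcU : 0 ≤ cU) (hm : 0 ≤ m) (hϖ : 0 ≤ ϖ)
    (hκj : κ ≤ κ₀ * √((2 : ℝ) ^ j) * ϖ) (hU : U ≤ cU * (m / 2 ^ j + 1)) (hj : √((2 : ℝ) ^ j) * ϖ ≤ 1)
    (hlc : lb * (4 * N₀ * R * (κ₀ * Λ * cU + 1)) + e₀ ≤ lc) :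
    lb * (4 * N₀ * R * (κ * Λ * U + 1)) + e₀ ≤ lc * (1 + m * ϖ / √((2 : ℝ) ^ j)) := by
  have hr : 0 < √((2 : ℝ) ^ j) := Real.sqrt_pos.2 (by positivity)
  set r := √((2 : ℝ) ^ j) with hrd
  have hrr : r * r = 2 ^ j := Real.mul_self_sqrt (by positivity)
  have h1 : κ * Λ * U ≤ κ₀ * r * ϖ * Λ * (cU * (m / 2 ^ j + 1)) := by
    have e1 : κ * Λ * U ≤ κ₀ * r * ϖ * Λ * U := by
      have := mul_le_mul_of_nonneg_right hκj (mul_nonneg hΛ hU0)
      linarith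
    exact e1.trans (mul_le_mul_of_nonneg_left hU (by positivity))
  have h2 : κ₀ * r * ϖ * Λ * (cU * (m / 2 ^ j + 1)) = κ₀ * Λ * cU * (m * ϖ / r + r * ϖ) := by
    rw [← hrr]
    field_simp
  have h3 : 0 ≤ κ₀ * Λ * cU := by positivity
  have h4 : 0 ≤ m * ϖ / r := by positivity
  have h5 : κ * Λ * U + 1 ≤ (κ₀ * Λ * cU + 1) * (1 + m * ϖ / r) := by
    have e1 : κ₀ * Λ * cU * (m * ϖ / r + r * ϖ) ≤ κ₀ * Λ * cU * (m * ϖ / r + 1) :=
      mul_le_mul_of_nonneg_left (by linarith) h3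
    nlinarith
  have h6 : e₀ ≤ e₀ * (1 + m * ϖ / r) := by nlinarith
  calc lb * (4 * N₀ * R * (κ * Λ * U + 1)) + e₀
      ≤ lb * (4 * N₀ * R * ((κ₀ * Λ * cU + 1) * (1 + m * ϖ / r))) + e₀ * (1 + m * ϖ / r) :=
        add_le_add (mul_le_mul_of_nonneg_left (mul_le_mul_of_nonneg_left h5 (by positivity)) hlb) h6
    _ = (lb * (4 * N₀ * R * (κ₀ * Λ * cU + 1)) + e₀) * (1 + m * ϖ / r) := by ring
    _ ≤ lc * (1 + m * ϖ / r) := mul_le_mul_of_nonneg_right hlc (by positivity)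

/-- The field `hdlx` from the tie lemma for the functional `X'` which does not see the window. -/
theorem dlx72 {Y : Type*} (ν : SubProb Y) (X X' : Y → ℝ) (N : Set Y) {ρ δ δ' c : ℝ} (hρ : 0 ≤ ρ)
    (tie : ∀ z, ν.pr ({y | z < |X' y|} ∩ N) ≤ ρ * ν.pr {y | z < |X' y|} + δ)
    (hX : ν.pr {y | c < |X y - X' y|} ≤ δ') (x : ℝ) :
    ν.pr ({y | x < |X y|} ∩ N) ≤ ρ * ν.pr {y | x - 2 * c < |X y|} + (ρ * δ' + δ' + δ) := by
  have h1 : {y | x < |X y|} ∩ N ⊆ ({y | x - c < |X' y|} ∩ N) ∪ {y | c < |X y - X' y|} := by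
    intro y hy
    by_contra hcon
    simp only [Set.mem_union, Set.mem_inter_iff, Set.mem_ofPred_eq, not_or, not_and, not_lt] at hcon
    obtain ⟨h1, h2⟩ := hcon
    have h3 : ¬ x - c < |X' y| := fun h => h1 h hy.2
    have h4 : x < |X y| := hy.1
    have h5 := abs_sub_abs_le_abs_sub (X y) (X' y)
    linarith [not_lt.1 h3]
  have h2 : {y | x - c < |X' y|} ⊆ {y | x - 2 * c < |X y|} ∪ {y | c < |X y - X' y|} := by
    intro y hy
    by_contra hcon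
    simp only [Set.mem_union, Set.mem_ofPred_eq, not_or, not_lt] at hcon
    obtain ⟨h1, h2⟩ := hcon
    have h4 : x - c < |X' y| := hy
    have h5 := abs_sub_abs_le_abs_sub (X' y) (X y)
    rw [abs_sub_comm] at h5
    linarith
  have h3 := (ν.mono h1).trans (ν.union _ _)
  have h4 := (ν.mono h2).trans (ν.union _ _)
  have h5 := tie (x - c)
  have h6 := mul_le_mul_of_nonneg_left h4 hρ
  have h7 := mul_le_mul_of_nonneg_left hX hρ
  rw [mul_add] at h6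
  linarith

/-- Long intervals from short ones: if all intervals of at most `n` blocks have a sum at most `g`, then those of length `d`
have a sum at most `(d / n + 1) g`. -/
theorem xs_long (F : ℕ → ℝ) {k₀ k₁ n : ℕ} (hn : 1 ≤ n) {g : ℝ} (hg : 0 ≤ g)
    (h : ∀ x y, k₀ ≤ x → x < y → y ≤ k₁ → y - x ≤ n → |∑ b ∈ Ico x y, F b| ≤ g) {x y : ℕ} (hx : k₀ ≤ x)
    (hxy : x ≤ y) (hy : y ≤ k₁) : |∑ b ∈ Ico x y, F b| ≤ (((y - x : ℕ) : ℝ) / n + 1) * g := by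
  have key : ∀ c x : ℕ, k₀ ≤ x → x ≤ y → y - x ≤ c * n → |∑ b ∈ Ico x y, F b| ≤ c * g := by
    intro c
    induction c with
    | zero =>
      intro x _ h2 h3
      have h4 : x = y := by omega
      rw [h4]
      simp
    | succ c ih =>
      intro x h1 h2 h3
      rcases Nat.eq_or_lt_of_le h2 with heq | hlt
      · rw [heq]
        simp
        positivity
      rcases Nat.lt_or_ge (x + n) y with h4 | h4
      · have h5 := ih (x + n) (by omega) (by omega) (by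
          rw [Nat.add_mul, Nat.one_mul] at h3
          omega)
        have h6 := h x (x + n) h1 (by omega) (by omega) (by omega)
        rw [← Finset.sum_Ico_consecutive F (show x ≤ x + n by omega) h4.le]
        have h7 := abs_add_le (∑ b ∈ Ico x (x + n), F b) (∑ b ∈ Ico (x + n) y, F b)
        push_cast
        linarith
      · have h6 := h x y h1 hlt hy (by omega)
        push_cast
        have : 0 ≤ (c : ℝ) * g := by positivity
        linarith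
  have hn0 : (0 : ℝ) < n := by exact_mod_cast hn
  refine (key ((y - x) / n + 1) x hx hxy ?_).trans (mul_le_mul_of_nonneg_right ?_ hg)
  · have h1 := Nat.lt_mul_div_succ (y - x) (show 0 < n by omega)
    rw [Nat.mul_comm] at h1
    exact h1.le
  · push_cast
    have : (((y - x) / n : ℕ) : ℝ) ≤ ((y - x : ℕ) : ℝ) / n := Nat.cast_div_le
    linarith

/-- Only the places from `u₀` on count. -/
theorem ncard_shift {P : ℕ → Prop} {U u₀ U' : ℕ} (h0 : ∀ u, P u → u₀ ≤ u) (hU : U ≤ u₀ + U') :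
    Set.ncard {u | u < U ∧ P u} ≤ Set.ncard {u | u < U' ∧ P (u₀ + u)} := by
  have h1 : {u | u < U ∧ P u} ⊆ (fun u => u₀ + u) '' {u | u < U' ∧ P (u₀ + u)} := by
    intro u hu
    have h2 := h0 u hu.2
    refine ⟨u - u₀, ⟨?_, ?_⟩, ?_⟩
    · have := hu.1
      omega
    · rw [show u₀ + (u - u₀) = u by omega]
      exact hu.2
    · simp only
      omega
  have hfin : {u | u < U' ∧ P (u₀ + u)}.Finite := (Set.finite_lt_nat U').subset fun u hu => hu.1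
  exact (Set.ncard_le_ncard h1 (hfin.image _)).trans (Set.ncard_image_le hfin)

end

end Pool.Agent.W_7d29a1_Z.Num72
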