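import Pool.Agent.W_7d29a1_Z15.NumA15
import Pool.Agent.W_7d29a1_Z15.NumE15

/-!
STORM Z, leaf INN: the numbers. (stubs: helper72)
-/

namespace Pool.Agent.W_7d29a1_Z.R72

open Finset

/-- The error of one step. -/
noncomputable def errZ (L X N₀ : ℕ) (p lm u : ℝ) : ℝ :=
  (10 * ((L : ℝ) + 1)) ^ 20 * X * (p + Real.exp (-lm) + Real.exp (-(u ^ 2 / 64)) + (1 / 2) ^ N₀ +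
    ((L : ℝ) + 2) ^ N₀ * (N₀ * (X * p)))

/-- **Owner helper77.** The algebraic conditions, with `c₀ = x ^ 2`, `G = 6 x ^ 2 (J + 1)`, `h = 2 (u + 4)`, `lc = x ^ 13`,
`s₀ = x ^ 30`, `T = x ^ 60`, `κ₀ = x ^ 8`. -/
theorem numA : ∃ x₀ : ℝ, 1 ≤ x₀ ∧ ∀ x : ℝ, x₀ ≤ x → ∀ (X N₀ J K : ℕ) (r q A lm u : ℝ), 1 ≤ X → (X : ℝ) ≤ x → 0 ≤ r →
    r ≤ x * q → 0 < q → 1 ≤ A → 1 ≤ N₀ → (N₀ : ℝ) ≤ x → (J : ℝ) + 1 ≤ x → (K : ℝ) + 1 ≤ x → 0 ≤ lm → lm ≤ x → 0 ≤ u →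
    u ≤ x →
    8 ≤ x ^ 2 ∧ 16 * ((K : ℝ) + 1) ^ 2 ≤ x ^ 30 ∧ 2 * (u + 4) ≤ x ^ 2 / 2 ∧
    (3 / 2 * (6 * x ^ 2 * ((J : ℝ) + 1)) + 2 * (u + 4)) * (24 * x ^ 13) ≤ x ^ 2 * √(x ^ 30) ∧
    (3 / 2 * (6 * x ^ 2 * ((J : ℝ) + 1)) + 2 * (u + 4)) * (8 * (x ^ 13) ^ 2) ≤ x ^ 2 * x ^ 60 ∧
    X * (r * ((6 * x ^ 2 * ((J : ℝ) + 1) + 3 * (2 * (u + 4)) + 12 + 3 * lm) * A)) ≤ x ^ 8 * (A * q) ∧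
    1 * (4 * (N₀ : ℝ) * (10 : ℕ) * (x ^ 8 * 2 * 2 + 1)) + 2 ≤ x ^ 13 ∧
    2 * (2 * x ^ 30 + 1) * (X * (r * ((2 * (6 * x ^ 2 * ((J : ℝ) + 1) + 2) * √(x ^ 30) + 2 * (2 * (u + 4)) + 12 +
      3 * lm) * A))) ≤ x ^ 60 * (A * q) ∧
    ∀ m : ℕ, (2 * x ^ 2 * ((J : ℝ) + 1) * √(m : ℝ) + 8 * x ^ 2 * ((J : ℝ) + 1) * x ^ 60 * ((K : ℝ) + 1) * m *
      (1 * (A * q))) * (1 * A) ≤ x ^ 66 * (√(m : ℝ) + m * (A * q)) * A := by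
  exact Pool.Agent.W_7d29a1_Z15.numA15

/-- **Owner helper15.** The first level. -/
theorem levelK {T P : ℝ} (hT : 0 < T) (hP : 0 < P) {L : ℕ} (h : 1 ≤ T * (L * P)) :
    ∃ K : ℕ, (∀ k < K, T * (2 ^ k * P) < 1) ∧ 1 ≤ T * (2 ^ K * P) ∧ (2 : ℝ) ^ K ≤ 2 * L := by
  exact Pool.Agent.W_7d29a1_Z15.levelK15 hT hP h

/-- **Owner helper15.** The exponential conditions. -/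
theorem numE {β cp : ℝ} (hβ : 0 < β) (hcp : 0 < cp) (n : ℕ) : ∃ c₁ : ℝ, 0 < c₁ ∧ ∃ L₀ : ℕ, ∀ L : ℕ, L₀ ≤ L →
    ∃ (N₀ J : ℕ) (lm u : ℝ), 1 ≤ N₀ ∧ (N₀ : ℝ) ≤ (L : ℝ) ^ β ∧ (J : ℝ) + 1 ≤ (L : ℝ) ^ β ∧ 0 ≤ lm ∧ lm ≤ (L : ℝ) ^ β ∧
      0 ≤ u ∧ u ≤ (L : ℝ) ^ β ∧ (Nat.size L : ℝ) ≤ (L : ℝ) ^ β ∧
      (∀ K : ℕ, (2 : ℝ) ^ K ≤ 2 * L → (K : ℝ) + 1 ≤ (L : ℝ) ^ β) ∧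
      ∀ (K B m X : ℕ) (p : ℝ), (2 : ℝ) ^ K ≤ 2 * L → B ≤ L → m ≤ L → (X : ℝ) ≤ (L : ℝ) ^ β → 0 ≤ p →
        p ≤ Real.exp (-(L : ℝ) ^ cp) →
        m * ((2 ^ (K + 3) * (2 * ((B : ℝ) + 1)) * B) ^ (n + 1) * (3 * errZ L X N₀ p lm u + (1 / 2) ^ J)) ≤
          Real.exp (-(L : ℝ) ^ c₁) := by
  exact Pool.Agent.W_7d29a1_Z15.numE15 hβ hcp n

end Pool.Agent.W_7d29a1_Z.R72
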