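import Pool.Agent.W_7d29a1_Z.Step81

/-!
# STORM Z: from the analytic step to the step of exponents, cone and failure exponents as parameters

`G t z δ A p` : at the scale `t` there is a deterministic pattern of `z` unit shears in the core whose response in the cone of
the exponent `δ` is at most `A` off an event of probability `p` (opaque here).
`PQ` : the pattern property with exponent `σ`. `AStepQ` : the analytic step (sampling of `n` blocks of length `t` in a block of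
length `R`), tie rate `κ`. `core` : the numbers of one step. `stepQ_of` : `AStepQ`, `EWP` and the strict Newman - Piza relation
give `StepP w (PQ G)`. (helper81)
-/

set_option autoImplicit false

namespace W_7d29a1_Z.Step81

open Filter Topology Real Pool.Agent.W_7d29a1_Z10

/-- the pattern property; `G t z δ A p`: at the scale `t` there is a pattern of `z` unit shears in the core whose response in the
cone of the exponent `δ` is at most `A` off an event of probability `p` -/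
def PQ (G : ℕ → ℕ → ℝ → ℝ → ℝ → Prop) (σ : ℝ) : Prop :=
  ∀ ε : ℝ, 0 < ε → ∃ δ c : ℝ, 0 < δ ∧ 0 < c ∧ ∃ t₀ : ℕ, ∀ t : ℕ, t₀ ≤ t → ∃ z : ℕ,
    (t : ℝ) ^ (2 * σ - ε) ≤ z ∧ (z : ℝ) ≤ (t : ℝ) ^ (2 * σ) ∧
    G t z δ ((t : ℝ) ^ (σ + ε)) (Real.exp (-(t : ℝ) ^ c))

/-- the analytic step with the tie rate `κ` -/
def AStepQ (G : ℕ → ℕ → ℝ → ℝ → ℝ → Prop) (w E κ : ℕ → ℝ) : Prop :=
  ∀ b ε δ c : ℝ, 0 < b → b < 1 → 0 < ε → 0 < δ → 0 < c → ∃ δ' c' : ℝ, 0 < δ' ∧ 0 < c' ∧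
    ∀ᶠ R : ℕ in atTop, ∀ t z n : ℕ, ∀ A : ℝ,
    (R : ℝ) ^ b ≤ t → (t : ℝ) ≤ 2 * (R : ℝ) ^ b → 1 ≤ z → 1 ≤ n → 1 ≤ A → A ≤ t →
    (R : ℝ) ^ ε * (n * t) ≤ R →
    (R : ℝ) ^ ε * (n * z) ≤ w R →
    (z : ℝ) ≤ A ^ 2 → (z : ℝ) * t ≤ w t ^ 3 →
    (R : ℝ) ^ ε * z ≤ A * (κ t * w t) → (R : ℝ) ^ ε * z ≤ w t →
    G t z δ A (Real.exp (-(t : ℝ) ^ c)) →
    G R (n * z) δ' ((R : ℝ) ^ ε * (n * t / R * (E R + ((R / t : ℝ) ^ (1 / 2 : ℝ) * A +
      R / t * κ t * A ^ 2)) + (n : ℝ) ^ (1 / 2 : ℝ) * A)) (Real.exp (-(R : ℝ) ^ c'))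

/-- the small number of one step -/
theorem small {ν b σ σ' c ε : ℝ} (hb0 : 0 < b) (hc : 0 < c) (hε : 0 < ε) (hσσ : σ < σ')
    (c1 : σ' < 1 - ν + σ - b * (1 - 2 * σ)) (c2 : σ' < b * ((1 - ν) / 2))
    (c3 : σ' < (σ + (1 - ν) / 2) / 2) (c4 : σ' < b * σ + (1 - b) / 2) : ∃ e : ℝ, 0 < e ∧
      100 * e ≤ 1 - ν + σ - b * (1 - 2 * σ) - σ' ∧
      100 * e ≤ b * ((1 - ν) / 2) - σ' ∧ 100 * e ≤ (σ + (1 - ν) / 2) / 2 - σ' ∧
      100 * e ≤ b * σ + (1 - b) / 2 - σ' ∧ 100 * e ≤ ε ∧ 100 * e ≤ c * b ∧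
      100 * e ≤ b * (σ' - σ) := by
  set m := min (min (1 - ν + σ - b * (1 - 2 * σ) - σ') (b * ((1 - ν) / 2) - σ'))
    (min (min ((σ + (1 - ν) / 2) / 2 - σ') (b * σ + (1 - b) / 2 - σ'))
      (min ε (min (c * b) (b * (σ' - σ)))))
    with hm
  have hm0 : 0 < m := by
    rw [hm]
    refine lt_min (lt_min (by linarith) (by linarith))
      (lt_min (lt_min (by linarith) (by linarith)) (lt_min hε (lt_min (mul_pos hc hb0)
        (mul_pos hb0 (by linarith)))))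
  refine ⟨m / 100, by positivity, ?_, ?_, ?_, ?_, ?_, ?_, ?_⟩ <;> rw [mul_div_cancel₀ _ (by norm_num)]
  · exact (min_le_left _ _).trans (min_le_left _ _)
  · exact (min_le_left _ _).trans (min_le_right _ _)
  · exact (min_le_right _ _).trans ((min_le_left _ _).trans (min_le_left _ _))
  · exact (min_le_right _ _).trans ((min_le_left _ _).trans (min_le_right _ _))
  · exact (min_le_right _ _).trans ((min_le_right _ _).trans (min_le_left _ _))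
  · exact (min_le_right _ _).trans ((min_le_right _ _).trans ((min_le_right _ _).trans (min_le_left _ _)))
  · exact (min_le_right _ _).trans ((min_le_right _ _).trans ((min_le_right _ _).trans (min_le_right _ _)))

/-- **the numbers of one step** -/
theorem core {ν b σ σ' c ε e : ℝ} (hb1 : b < 1) (hσ : 0 ≤ σ) (hσσ : σ < σ')
    (h2σ : 2 * σ ≤ ν) (hc : 0 < c) (he0 : 0 < e)
    (h1 : 100 * e ≤ 1 - ν + σ - b * (1 - 2 * σ) - σ') (h2 : 100 * e ≤ b * ((1 - ν) / 2) - σ')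
    (h3 : 100 * e ≤ (σ + (1 - ν) / 2) / 2 - σ') (h4 : 100 * e ≤ b * σ + (1 - b) / 2 - σ')
    (h5 : 100 * e ≤ ε) (h6 : 100 * e ≤ c * b) (h7' : 100 * e ≤ b * (σ' - σ)) {κt wt wR ER : ℝ} {R t z : ℕ} (hR1 : 1 ≤ R)
    (hρe : 10 ≤ e * Real.log R) (hρs : 10 ≤ (σ' - σ) * Real.log R) (ht1 : 1 ≤ t)
    (htb1 : (R : ℝ) ^ b ≤ t) (htb2 : (t : ℝ) ≤ 2 * (R : ℝ) ^ b) (hz1 : 1 ≤ z)
    (hz2 : (t : ℝ) ^ (2 * σ - e) ≤ z) (hz3 : (z : ℝ) ≤ (t : ℝ) ^ (2 * σ)) (hκ0 : 0 < κt)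
    (hκ : κt ≤ (t : ℝ) ^ (-((1 - ν) / 2))) (hwt0 : 0 ≤ wt) (hL1 : (t : ℝ) ^ (σ + c / 8) ≤ (wt / t) ^ (1 / 2 : ℝ) * wt)
    (hL1' : (t : ℝ) ^ (σ + c / 8) ≤ κt * wt) (hL2 : (t : ℝ) ^ (2 * σ' + e) ≤ wt)
    (hER : ER ≤ (R : ℝ) ^ (ν - σ + e)) (hwR : (R : ℝ) ^ (2 * σ' + e) ≤ wR) :
    ∃ n : ℕ, 1 ≤ n ∧ (1 : ℝ) ≤ (t : ℝ) ^ (σ + e) ∧ (t : ℝ) ^ (σ + e) ≤ t ∧ (R : ℝ) ^ e * (n * t) ≤ R ∧
      (R : ℝ) ^ e * (n * z) ≤ wR ∧ (z : ℝ) ≤ ((t : ℝ) ^ (σ + e)) ^ 2 ∧ (z : ℝ) * t ≤ wt ^ 3 ∧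
      (R : ℝ) ^ e * z ≤ (t : ℝ) ^ (σ + e) * (κt * wt) ∧ (R : ℝ) ^ e * z ≤ wt ∧
      (R : ℝ) ^ (2 * σ' - ε) ≤ n * z ∧ (n : ℝ) * z ≤ (R : ℝ) ^ (2 * σ') ∧
      (R : ℝ) ^ e * ((n : ℝ) * t / R * (ER + ((R / t : ℝ) ^ (1 / 2 : ℝ) *
          (t : ℝ) ^ (σ + e) + R / t * κt * ((t : ℝ) ^ (σ + e)) ^ 2)) +
        (n : ℝ) ^ (1 / 2 : ℝ) * (t : ℝ) ^ (σ + e)) ≤ (R : ℝ) ^ (σ' + ε) := by
  have hR1' : (1 : ℝ) ≤ R := by exact_mod_cast hR1
  have hR0 : (0 : ℝ) < R := by linarith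
  set ρ : ℝ := Real.log (R : ℝ) with hρ
  have hσσ' : 0 < σ' - σ := by linarith
  have hρ0 : 0 < ρ := by
    by_contra h
    push Not at h
    have := mul_nonpos_of_nonneg_of_nonpos he0.le h
    linarith
  have ht1' : (1 : ℝ) ≤ t := by exact_mod_cast ht1
  have ht0 : (0 : ℝ) < t := by linarith
  have hz1' : (1 : ℝ) ≤ z := by exact_mod_cast hz1
  have hz0 : (0 : ℝ) < z := by linarith
  -- logarithms
  set τ : ℝ := Real.log (t : ℝ) with hτ
  set ζ : ℝ := Real.log (z : ℝ) with hζ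
  have hl2 : Real.log 2 ≤ 1 := by
    have := Real.log_two_lt_d9
    linarith
  have hl20 : 0 ≤ Real.log 2 := Real.log_nonneg (by norm_num)
  have F1 : b * ρ ≤ τ := by
    have := Real.log_le_log (rpow_pos_of_pos hR0 _) htb1
    rwa [Real.log_rpow hR0] at this
  have F2 : τ ≤ b * ρ + Real.log 2 := by
    have := Real.log_le_log ht0 htb2
    rw [Real.log_mul (by norm_num) (rpow_pos_of_pos hR0 _).ne', Real.log_rpow hR0] at this
    linarith
  have Z1 : (2 * σ - e) * τ ≤ ζ := by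
    have := Real.log_le_log (rpow_pos_of_pos ht0 _) hz2
    rwa [Real.log_rpow ht0] at this
  have Z2 : ζ ≤ 2 * σ * τ := by
    have := Real.log_le_log hz0 hz3
    rwa [Real.log_rpow ht0] at this
  have W1 : Real.log κt ≤ -((1 - ν) / 2) * τ := by
    have := Real.log_le_log hκ0 hκ
    rwa [Real.log_rpow ht0] at this
  have hτ0 : 0 ≤ τ := Real.log_nonneg ht1'
  have hbρ : b * ρ ≤ ρ := by
    have := mul_le_mul_of_nonneg_right hb1.le hρ0.le
    linarith only [this]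
  -- products
  have G1 : σ * (b * ρ) ≤ σ * τ := mul_le_mul_of_nonneg_left F1 hσ
  have G2 : σ * τ ≤ σ * (b * ρ) + 1 := by
    have := mul_le_mul_of_nonneg_left F2 hσ
    have h7 : σ * Real.log 2 ≤ 1 * 1 := mul_le_mul (by linarith) hl2 hl20 (by norm_num)
    linarith only [this, h7]
  have G3 : 0 ≤ e * τ := mul_nonneg he0.le hτ0
  have he1 : e ≤ 1 := by linarith only [h3, h2σ, hσ, hσσ]
  have G4 : e * τ ≤ e * ρ + 1 := by
    have h7 := mul_le_mul_of_nonneg_left F2 he0.le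
    have h8 := mul_le_mul_of_nonneg_left hbρ he0.le
    have h9 : e * Real.log 2 ≤ 1 * 1 := mul_le_mul he1 hl2 hl20 (by norm_num)
    linarith only [h7, h8, h9]
  -- the number of blocks
  set x : ℝ := (R : ℝ) ^ (2 * σ') / z with hx
  have hx1 : 1 ≤ x := by
    rw [hx, one_le_div hz0]
    refine (Real.log_le_log_iff hz0 (rpow_pos_of_pos hR0 _)).1 ?_
    rw [Real.log_rpow hR0]
    have h7 : σ * (b * ρ) ≤ σ * ρ := mul_le_mul_of_nonneg_left hbρ hσ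
    have : 2 * σ * τ = 2 * (σ * τ) := by ring
    have h8 : (σ' - σ) * ρ = σ' * ρ - σ * ρ := by ring
    have h9 : 2 * σ' * ρ = 2 * (σ' * ρ) := by ring
    show ζ ≤ 2 * σ' * ρ
    linarith only [Z2, G2, h7, h8, h9, hρs]
  set n : ℕ := ⌊x⌋₊ with hn
  have hn1 : 1 ≤ n := Nat.one_le_floor_iff x |>.2 hx1
  have hnx : (n : ℝ) ≤ x := Nat.floor_le (by linarith)
  have hnx2 : x ≤ 2 * n := by
    have h7 : x < n + 1 := Nat.lt_floor_add_one x
    have h8 : (1 : ℝ) ≤ n := by exact_mod_cast hn1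
    linarith
  have hn1' : (1 : ℝ) ≤ n := by exact_mod_cast hn1
  have hn0 : (0 : ℝ) < n := by linarith
  have hnz : (n : ℝ) * z ≤ (R : ℝ) ^ (2 * σ') := by
    rw [hx, le_div_iff₀ hz0] at hnx; exact hnx
  have hnz2 : (R : ℝ) ^ (2 * σ') ≤ 2 * (n * z) := by
    rw [hx, div_le_iff₀ hz0] at hnx2; linarith
  set η : ℝ := Real.log (n : ℝ) with hη
  have N1 : η + ζ ≤ 2 * σ' * ρ := by
    have := Real.log_le_log (mul_pos hn0 hz0) hnz
    rwa [Real.log_mul hn0.ne' hz0.ne', Real.log_rpow hR0] at this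
  have hη0 : 0 ≤ η := Real.log_nonneg hn1'
  have e1 : (2 * σ - e) * τ = 2 * (σ * τ) - e * τ := by ring
  have e2 : 2 * σ' * ρ = 2 * (σ' * ρ) := by ring
  -- the size conditions
  have hc1 : (R : ℝ) ^ e * (n * t) ≤ R := by
    refine (Real.log_le_log_iff (by positivity) hR0).1 ?_
    rw [Real.log_mul (by positivity) (by positivity), Real.log_mul hn0.ne' ht0.ne',
      Real.log_rpow hR0]
    show e * ρ + (η + τ) ≤ ρ
    have h7 : (1 - 2 * σ) * τ ≤ (1 - 2 * σ) * (b * ρ + Real.log 2) :=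
      mul_le_mul_of_nonneg_left F2 (by linarith)
    have h8 := mul_le_mul_of_nonneg_right h4 hρ0.le
    have h9 : 0 ≤ σ * Real.log 2 := mul_nonneg hσ hl20
    linarith only [N1, Z1, e1, e2, h7, h8, h9, hl2, G3, G4, hρe]
  have hc2 : (R : ℝ) ^ e * (n * z) ≤ wR := by
    calc (R : ℝ) ^ e * (n * z) ≤ (R : ℝ) ^ e * (R : ℝ) ^ (2 * σ') :=
          mul_le_mul_of_nonneg_left hnz (rpow_nonneg hR0.le _)
      _ = (R : ℝ) ^ (2 * σ' + e) := by rw [← rpow_add hR0]; congr 1; ring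
      _ ≤ wR := hwR
  have hA1 : (1 : ℝ) ≤ (t : ℝ) ^ (σ + e) := Real.one_le_rpow ht1' (by linarith)
  have hAt : (t : ℝ) ^ (σ + e) ≤ t := by
    have h7 : (t : ℝ) ^ (σ + e) ≤ (t : ℝ) ^ (1 : ℝ) := rpow_le_rpow_of_exponent_le ht1' (by linarith)
    rwa [rpow_one] at h7
  have hc3 : (z : ℝ) ≤ ((t : ℝ) ^ (σ + e)) ^ 2 := by
    refine hz3.trans ?_
    rw [← rpow_natCast ((t : ℝ) ^ (σ + e)) 2, ← rpow_mul ht0.le]
    push_cast
    exact rpow_le_rpow_of_exponent_le ht1' (by linarith)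
  have hc4 : (z : ℝ) * t ≤ wt ^ 3 := by
    have h7 : ((t : ℝ) ^ (σ + c / 8)) ^ 2 ≤ ((wt / t) ^ (1 / 2 : ℝ) * wt) ^ 2 :=
      pow_le_pow_left₀ (rpow_nonneg ht0.le _) hL1 2
    have e3 : ((wt / t) ^ (1 / 2 : ℝ) * wt) ^ 2 = wt ^ 3 / t := by
      rw [mul_pow, ← rpow_natCast ((wt / t) ^ (1 / 2 : ℝ)) 2,
        ← rpow_mul (div_nonneg hwt0 ht0.le)]
      norm_num
      ring
    rw [e3, le_div_iff₀ ht0] at h7
    refine le_trans (mul_le_mul_of_nonneg_right ?_ ht0.le) h7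
    refine hz3.trans ?_
    rw [← rpow_natCast ((t : ℝ) ^ (σ + c / 8)) 2, ← rpow_mul ht0.le]
    push_cast
    exact rpow_le_rpow_of_exponent_le ht1' (by linarith)
  have hc5 : (R : ℝ) ^ e * z ≤ (t : ℝ) ^ (σ + e) * (κt * wt) := by
    calc (R : ℝ) ^ e * z ≤ (t : ℝ) ^ (σ + e) * (t : ℝ) ^ (σ + c / 8) := by
          refine (Real.log_le_log_iff (by positivity) (by positivity)).1 ?_
          rw [Real.log_mul (by positivity) hz0.ne', Real.log_rpow hR0,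
            Real.log_mul (by positivity) (by positivity), Real.log_rpow ht0, Real.log_rpow ht0]
          show e * ρ + ζ ≤ (σ + e) * τ + (σ + c / 8) * τ
          have h7 : c / 8 * (b * ρ) ≤ c / 8 * τ := mul_le_mul_of_nonneg_left F1 (by linarith)
          have h8 := mul_le_mul_of_nonneg_right h6 hρ0.le
          linarith only [Z2, h7, h8, G1, G3, hρe]
      _ ≤ _ := mul_le_mul_of_nonneg_left hL1' (by positivity)
  have hc6 : (R : ℝ) ^ e * z ≤ wt := by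
    refine le_trans ?_ hL2
    refine (Real.log_le_log_iff (by positivity) (by positivity)).1 ?_
    rw [Real.log_mul (by positivity) hz0.ne', Real.log_rpow hR0, Real.log_rpow ht0]
    show e * ρ + ζ ≤ (2 * σ' + e) * τ
    have h7 : (σ' - σ) * (b * ρ) ≤ (σ' - σ) * τ := mul_le_mul_of_nonneg_left F1 (by linarith)
    have h8 := mul_le_mul_of_nonneg_right h7' hρ0.le
    linarith only [Z2, h7, h8, G3, hρe]
  refine ⟨n, hn1, hA1, hAt, hc1, hc2, hc3, hc4, hc5, hc6, ?_, ?_, ?_⟩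
  · -- many shears
    have h7 : (R : ℝ) ^ (2 * σ' - ε) ≤ (R : ℝ) ^ (2 * σ') / 2 := by
      rw [le_div_iff₀ (by norm_num)]
      refine (Real.log_le_log_iff (by positivity) (by positivity)).1 ?_
      rw [Real.log_mul (by positivity) (by norm_num), Real.log_rpow hR0, Real.log_rpow hR0]
      have h8 := mul_le_mul_of_nonneg_right h5 hρ0.le
      show (2 * σ' - ε) * ρ + Real.log 2 ≤ 2 * σ' * ρ
      linarith only [h8, hl2, hρe]
    linarith
  · exact hnz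
  · -- the response
    set α : ℝ := (σ + e) * τ with hα
    have hlA : Real.log ((t : ℝ) ^ (σ + e)) = α := Real.log_rpow ht0 _
    have hAp : (0 : ℝ) < (t : ℝ) ^ (σ + e) := by linarith
    have e3 : (σ + e) * τ = σ * τ + e * τ := by ring
    have hb1e : 100 * (e * ρ) ≤ ε * ρ := by
      have := mul_le_mul_of_nonneg_right h5 hρ0.le
      linarith
    have T1 : (n : ℝ) * t / R * ER ≤ Real.exp ((σ' + 3 * e) * ρ + 3) := by
      calc (n : ℝ) * t / R * ER ≤ (n : ℝ) * t / R * (R : ℝ) ^ (ν - σ + e) :=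
            mul_le_mul_of_nonneg_left hER (by positivity)
        _ ≤ _ := by
          rw [← Real.log_le_iff_le_exp (by positivity), Real.log_mul (by positivity)
            (by positivity), Real.log_div (by positivity) hR0.ne',
            Real.log_mul hn0.ne' ht0.ne', Real.log_rpow hR0]
          show η + τ - ρ + (ν - σ + e) * ρ ≤ (σ' + 3 * e) * ρ + 3
          have h7 : (1 - 2 * σ) * τ ≤ (1 - 2 * σ) * (b * ρ + Real.log 2) :=
            mul_le_mul_of_nonneg_left F2 (by linarith)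
          have h8 := mul_le_mul_of_nonneg_right h1 hρ0.le
          have h9 : 0 ≤ σ * Real.log 2 := mul_nonneg hσ hl20
          linarith only [N1, Z1, e1, e2, h7, h8, h9, hl2, G3, G4, hρe]
    have T4 : (n : ℝ) ^ (1 / 2 : ℝ) * (t : ℝ) ^ (σ + e) ≤ Real.exp ((σ' + 3 * e) * ρ + 3) := by
      rw [← Real.log_le_iff_le_exp (by positivity), Real.log_mul (by positivity)
        (by positivity), Real.log_rpow hn0, hlA]
      show 1 / 2 * η + α ≤ _
      linarith only [N1, Z1, e1, e2, e3, hα, G3, G4, hρe]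
    have T2 : (n : ℝ) * t / R * ((R / t : ℝ) ^ (1 / 2 : ℝ) * (t : ℝ) ^ (σ + e))
        ≤ Real.exp ((σ' + 3 * e) * ρ + 3) := by
      have hRt : (0 : ℝ) < R / t := div_pos hR0 ht0
      rw [← Real.log_le_iff_le_exp (by positivity), Real.log_mul (by positivity)
        (by positivity), Real.log_div (by positivity) hR0.ne',
        Real.log_mul hn0.ne' ht0.ne', Real.log_mul (by positivity) (by positivity),
        Real.log_rpow hRt, Real.log_div hR0.ne' ht0.ne', hlA]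
      show η + τ - ρ + (1 / 2 * (ρ - τ) + α) ≤ _
      have h7 : η + τ ≤ ρ := by
        have := Real.log_le_log (by positivity) hc1
        rw [Real.log_mul (by positivity) (by positivity), Real.log_mul hn0.ne' ht0.ne',
          Real.log_rpow hR0] at this
        have h8 : e * ρ + (η + τ) ≤ ρ := this
        linarith
      linarith only [N1, Z1, e1, e2, e3, hα, G3, G4, hρe, h7]
    have T3 : (n : ℝ) * t / R * (R / t * κt * ((t : ℝ) ^ (σ + e)) ^ 2)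
        ≤ Real.exp ((σ' + 3 * e) * ρ + 3) := by
      have e5 : (n : ℝ) * t / R * (R / t * κt * ((t : ℝ) ^ (σ + e)) ^ 2)
          = n * κt * ((t : ℝ) ^ (σ + e)) ^ 2 := by
        field_simp
      rw [e5, ← Real.log_le_iff_le_exp (by positivity), Real.log_mul (by positivity)
        (by positivity), Real.log_mul hn0.ne' hκ0.ne', Real.log_pow, hlA]
      show η + Real.log κt + ((2 : ℕ) : ℝ) * α ≤ _
      push_cast
      have h7 : (1 - ν) / 2 * (b * ρ) ≤ (1 - ν) / 2 * τ :=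
        mul_le_mul_of_nonneg_left F1 (by linarith)
      have h8 := mul_le_mul_of_nonneg_right h2 hρ0.le
      linarith only [N1, Z1, e1, e2, e3, hα, G3, G4, hρe, h7, h8, W1]
    have hsum : (n : ℝ) * t / R * (ER + ((R / t : ℝ) ^ (1 / 2 : ℝ) * (t : ℝ) ^ (σ + e) +
      R / t * κt * ((t : ℝ) ^ (σ + e)) ^ 2)) +
        (n : ℝ) ^ (1 / 2 : ℝ) * (t : ℝ) ^ (σ + e) ≤ 4 * Real.exp ((σ' + 3 * e) * ρ + 3) := by
      have e6 : (n : ℝ) * t / R * (ER + ((R / t : ℝ) ^ (1 / 2 : ℝ) * (t : ℝ) ^ (σ + e) +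
          R / t * κt * ((t : ℝ) ^ (σ + e)) ^ 2))
          = (n : ℝ) * t / R * ER + (n : ℝ) * t / R * ((R / t : ℝ) ^ (1 / 2 : ℝ) *
            (t : ℝ) ^ (σ + e)) + (n : ℝ) * t / R * (R / t * κt *
            ((t : ℝ) ^ (σ + e)) ^ 2) := by ring
      rw [e6]
      have h7 := add_le_add (add_le_add (add_le_add T1 T2) T3) T4
      have h8 : Real.exp ((σ' + 3 * e) * ρ + 3) + Real.exp ((σ' + 3 * e) * ρ + 3) +
          Real.exp ((σ' + 3 * e) * ρ + 3) + Real.exp ((σ' + 3 * e) * ρ + 3)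
          = 4 * Real.exp ((σ' + 3 * e) * ρ + 3) := by ring
      rw [← h8]
      exact h7
    have h4e : (4 : ℝ) ≤ Real.exp 3 := by
      have := Real.add_one_le_exp (3 : ℝ)
      linarith
    calc (R : ℝ) ^ e * ((n : ℝ) * t / R * (ER + ((R / t : ℝ) ^ (1 / 2 : ℝ) *
          (t : ℝ) ^ (σ + e) + R / t * κt * ((t : ℝ) ^ (σ + e)) ^ 2)) +
        (n : ℝ) ^ (1 / 2 : ℝ) * (t : ℝ) ^ (σ + e))
        ≤ (R : ℝ) ^ e * (4 * Real.exp ((σ' + 3 * e) * ρ + 3)) :=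
          mul_le_mul_of_nonneg_left hsum (rpow_nonneg hR0.le _)
      _ ≤ Real.exp (e * ρ) * (Real.exp 3 * Real.exp ((σ' + 3 * e) * ρ + 3)) := by
          rw [rpow_def_of_pos hR0, mul_comm (Real.log (R : ℝ)) e]
          gcongr
      _ = Real.exp (e * ρ + (3 + ((σ' + 3 * e) * ρ + 3))) := by
          rw [← Real.exp_add, ← Real.exp_add]
      _ ≤ Real.exp ((σ' + ε) * ρ) := by
          refine Real.exp_le_exp.2 ?_
          linarith only [hb1e, hρe]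
      _ = (R : ℝ) ^ (σ' + ε) := by
          rw [rpow_def_of_pos hR0, mul_comm (Real.log (R : ℝ))]


/-- **the step of exponents from the analytic step** -/
theorem stepQ_of {G : ℕ → ℕ → ℝ → ℝ → ℝ → Prop} {w E κ : ℕ → ℝ} (hw : ∀ n, 0 ≤ w n)
    (hE : ∀ n, 0 ≤ E n)
    (hmono : ∀ (t z : ℕ) (δ A A' p : ℝ), A ≤ A' → G t z δ A p → G t z δ A' p)
    (hκ : ∀ t : ℕ, κ t = (w t / t) ^ (1 / 2 : ℝ))
    (hA : AStepQ G w E κ) (hEW : EWP w E (PQ G)) {c : ℝ} (hc : 0 < c)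
    (hNP : ∀ᶠ n : ℕ in atTop, (n : ℝ) ^ (1 + c) ≤ w n * E n ^ 2) : StepP w (PQ G) := by
  intro ν b σ σ' hb0 hb1 hσ hσσ h2σ hP hν c1 c2 c3 c4 _ ε hε
  have hν1 : ν < 1 := by
    by_contra h
    push Not at h
    have : b * ((1 - ν) / 2) ≤ 0 := mul_nonpos_of_nonneg_of_nonpos hb0.le (by linarith)
    linarith
  have hσ4 : σ < 1 / 4 := by linarith
  obtain ⟨e, he0, h1, h2, h3, h4, h5, h6, h7'⟩ := small hb0 hc hε hσσ c1 c2 c3 c4
  have hec : 100 * e ≤ c := h6.trans (by nlinarith)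
  obtain ⟨δ, c₀, hδ, hc₀, t₀, hG⟩ := hP e he0
  obtain ⟨δ', c', hδ', hc', hAR⟩ := hA b e δ c₀ hb0 hb1 he0 hδ hc₀
  refine ⟨δ', c', hδ', hc', ?_⟩
  rw [← eventually_atTop (p := fun t : ℕ => ∃ z : ℕ, (t : ℝ) ^ (2 * σ' - ε) ≤ z ∧
    (z : ℝ) ≤ (t : ℝ) ^ (2 * σ') ∧ G t z δ' ((t : ℝ) ^ (σ' + ε)) (Real.exp (-(t : ℝ) ^ c')))]
  obtain ⟨T0, hT0⟩ := eventually_atTop.1 ((L1 hEW hw hE hc hσ hσ4 hP hNP).and
    ((hν.and (E_branch hEW hw hE hσ hσ4 hP hc hNP)).and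
    (L2 hEW hw hE (θ := 2 * σ' + e) hc hσ hσ4 hP hNP hν (by linarith) (by linarith))))
  have htb : Tendsto (fun R : ℕ => (R : ℝ) ^ b) atTop atTop :=
    (tendsto_rpow_atTop hb0).comp tendsto_natCast_atTop_atTop
  have hlog : Tendsto (fun R : ℕ => Real.log (R : ℝ)) atTop atTop :=
    Real.tendsto_log_atTop.comp tendsto_natCast_atTop_atTop
  have hσσ' : 0 < σ' - σ := by linarith
  filter_upwards [hAR, htb.eventually_ge_atTop (T0 : ℝ), eventually_ge_atTop 1,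
    E_up hEW hw hσ hσ4 h2σ hP he0 hν,
    L2 hEW hw hE (θ := 2 * σ' + e) hc hσ hσ4 hP hNP hν (by linarith) (by linarith),
    hlog.eventually_ge_atTop (10 / e + 10 / (σ' - σ)),
    htb.eventually_ge_atTop (t₀ : ℝ)] with R hAR' hTR hR1 hER hwR hρbig hTR2
  have hρe : 10 ≤ e * Real.log R := by
    have h7 : 10 / e ≤ Real.log R := le_trans (by
      have : 0 < 10 / (σ' - σ) := by positivity
      linarith) hρbig
    rw [div_le_iff₀ he0] at h7; linarith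
  have hρs : 10 ≤ (σ' - σ) * Real.log R := by
    have h7 : 10 / (σ' - σ) ≤ Real.log R := le_trans (by
      have : 0 < 10 / e := by positivity
      linarith) hρbig
    rw [div_le_iff₀ hσσ'] at h7; linarith
  obtain ⟨t, ht1, htR, htb1, htb2⟩ := exists_t hb0.le hb1.le hR1
  have hT0t : T0 ≤ t := by exact_mod_cast hTR.trans htb1
  have ht0t : t₀ ≤ t := by exact_mod_cast hTR2.trans htb1
  have ht0 : (0 : ℝ) < t := by exact_mod_cast ht1
  obtain ⟨hL1, ⟨hwt, hwt0, _, _⟩, hL2t⟩ := hT0 t hT0t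
  obtain ⟨z, hz2, hz3, hgood⟩ := hG t ht0t
  have hz1 : 1 ≤ z := by
    have h7 : (0 : ℝ) < z := lt_of_lt_of_le (rpow_pos_of_pos ht0 _) hz2
    exact_mod_cast h7
  have hκ0 : 0 < κ t := by rw [hκ]; exact rpow_pos_of_pos (div_pos hwt0 ht0) _
  have hκ1 : κ t ≤ (t : ℝ) ^ (-((1 - ν) / 2)) := by
    have h7 : w t / t ≤ (t : ℝ) ^ (ν - 1) := by
      rw [div_le_iff₀ ht0, ← rpow_add_one ht0.ne']
      simpa using hwt
    calc κ t = (w t / t) ^ (1 / 2 : ℝ) := hκ t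
      _ ≤ ((t : ℝ) ^ (ν - 1)) ^ (1 / 2 : ℝ) :=
          rpow_le_rpow (div_nonneg hwt0.le ht0.le) h7 (by norm_num)
      _ = _ := by rw [← rpow_mul ht0.le]; congr 1; ring
  have hL1' : (t : ℝ) ^ (σ + c / 8) ≤ κ t * w t := by rw [hκ]; exact hL1
  obtain ⟨n, hn1, hA1, hAt, hc1, hc2, hc3, hc4, hc5, hc6, n1, n2, n3⟩ := core hb1 hσ hσσ h2σ hc he0
    h1 h2 h3 h4 h5 h6 h7' hR1 hρe hρs ht1 htb1 htb2 hz1 hz2 hz3 hκ0 hκ1 hwt0.le hL1 hL1' hL2t hER hwR
  refine ⟨n * z, ?_, ?_, hmono _ _ _ _ _ _ n3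
    (hAR' t z n _ htb1 htb2 hz1 hn1 hA1 hAt hc1 hc2 hc3 hc4 hc5 hc6 hgood)⟩
  · push_cast; exact n1
  · push_cast; exact n2

end W_7d29a1_Z.Step81
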