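import Mathlib

/-!
STORM Z, Stp, the numbers (pure): the number `l` of zones in a group and the final bound of the response. (helper81)
-/

set_option autoImplicit false

namespace Pool.Agent.W_7d29a1_Z.StpN

open Real Filter Topology

/-- The number of zones in a group. -/
def lz (R t n : ℕ) : ℕ := (3 * R / 4 - R / 4) / (2 * t * n)

theorem lz_fit {R t n : ℕ} : R / 4 + 2 * t * (n * lz R t n) ≤ 3 * R / 4 := by
  have h := Nat.div_mul_le_self (3 * R / 4 - R / 4) (2 * t * n)
  have e : 2 * t * (n * lz R t n) = (3 * R / 4 - R / 4) / (2 * t * n) * (2 * t * n) := by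
    unfold lz
    ring
  rw [e]
  omega

theorem lz_ge {R t n : ℕ} (ht : 1 ≤ t) (hn : 1 ≤ n) (h : 24 * (t * n) ≤ R) :
    1 ≤ lz R t n ∧ (R : ℝ) ≤ 12 * t * n * lz R t n ∧ (n : ℝ) * lz R t n * t ≤ R := by
  have htn : 1 ≤ t * n := Nat.mul_pos ht hn
  have h0 : 0 < 2 * t * n := by
    have : 2 * t * n = 2 * (t * n) := by ring
    omega
  have h1 : 3 * R / 4 - R / 4 < (lz R t n + 1) * (2 * t * n) := by
    unfold lz
    exact Nat.lt_mul_of_div_lt (Nat.lt_succ_self _) h0
  have h2 : R ≤ 2 * (3 * R / 4 - R / 4) + 2 := by omega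
  have h3 : (lz R t n + 1) * (2 * t * n) = 2 * (t * n) * lz R t n + 2 * (t * n) := by ring
  have h4 : R ≤ 4 * (t * n) * lz R t n + 4 * (t * n) + 2 := by
    have : 4 * (t * n) * lz R t n = 2 * (2 * (t * n) * lz R t n) := by ring
    omega
  have h5 : 1 ≤ lz R t n := by
    by_contra hc
    have hz : lz R t n = 0 := by omega
    rw [hz] at h4
    omega
  have h6 : t * n ≤ t * n * lz R t n := Nat.le_mul_of_pos_right _ h5
  refine ⟨h5, ?_, ?_⟩
  · have h7 : R ≤ 12 * (t * n * lz R t n) := by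
      have e : 4 * (t * n) * lz R t n = 4 * (t * n * lz R t n) := by ring
      omega
    have h8 : ((R : ℕ) : ℝ) ≤ ((12 * (t * n * lz R t n) : ℕ) : ℝ) := by exact_mod_cast h7
    push_cast at h8
    linarith
  · have h7 := lz_fit (R := R) (t := t) (n := n)
    have h9 : n * lz R t n * t ≤ R := by
      have e : 2 * t * (n * lz R t n) = 2 * (n * lz R t n * t) := by ring
      omega
    exact_mod_cast h9

/-- **the final bound of the response** -/
theorem fin_num {R t n l : ℕ} {A κ ER U lam K x y η : ℝ} (ht : 1 ≤ t) (hn : 1 ≤ n) (hl : 1 ≤ l) (hA : 1 ≤ A)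
    (hκ : 0 ≤ κ) (hER : 0 ≤ ER) (hK : 1 ≤ K) (hx : 1 ≤ x) (hl1 : (R : ℝ) ≤ 12 * t * n * l) (hl2 : (n : ℝ) * l * t ≤ R)
    (hU : U ≤ K * x * ER) (hlam : lam ≤ x * (Real.sqrt (n * l) + n * l * (A * κ)) * A) (hη : 3 * (η * (n * l * A)) ≤ 1)
    (hy : 39 * K * x ≤ y) :
    (U + 1 + lam + 3 * (η * (n * l * A))) / l + x * (Real.sqrt n * A) + 1 ≤
      y * (n * t / R * (ER + ((R / t : ℝ) ^ (1 / 2 : ℝ) * A + R / t * κ * A ^ 2)) + (n : ℝ) ^ (1 / 2 : ℝ) * A) := by
  have ht' : (1 : ℝ) ≤ t := by exact_mod_cast ht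
  have hn' : (1 : ℝ) ≤ n := by exact_mod_cast hn
  have hl' : (1 : ℝ) ≤ l := by exact_mod_cast hl
  have ht0 : (0 : ℝ) < t := by linarith
  have hn0 : (0 : ℝ) < n := by linarith
  have hl0 : (0 : ℝ) < l := by linarith
  have hR0 : (0 : ℝ) < R := lt_of_lt_of_le (by positivity) hl2
  set s : ℝ := Real.sqrt (R / t) with hs
  have hsn : Real.sqrt n = (n : ℝ) ^ (1 / 2 : ℝ) := Real.sqrt_eq_rpow _
  have hse : (R / t : ℝ) ^ (1 / 2 : ℝ) = s := (Real.sqrt_eq_rpow _).symm
  rw [hse, ← hsn]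
  set r : ℝ := Real.sqrt n with hr
  have hr1 : 1 ≤ r := by
    rw [hr, Real.one_le_sqrt]
    exact hn'
  have hs0 : 0 ≤ s := Real.sqrt_nonneg _
  have hnl : Real.sqrt (n * l) ≤ s := by
    refine Real.sqrt_le_sqrt ?_
    rw [le_div_iff₀ ht0]
    exact hl2
  have hnl2 : (n : ℝ) * l ≤ R / t := by
    rw [le_div_iff₀ ht0]
    exact hl2
  have hA0 : 0 ≤ A := by linarith
  have hx0 : 0 ≤ x := by linarith
  -- the bracket
  set Q : ℝ := ER + (s * A + R / t * κ * A ^ 2) with hQ
  have hQ0 : 0 ≤ Q := by positivity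
  have hlam2 : lam ≤ x * (s * A + R / t * κ * A ^ 2) := by
    refine hlam.trans ?_
    have h1 : (Real.sqrt (n * l) + n * l * (A * κ)) * A ≤ s * A + R / t * κ * A ^ 2 := by
      have h2 : Real.sqrt (n * l) * A ≤ s * A := mul_le_mul_of_nonneg_right hnl hA0
      have h3 : n * l * (A * κ) * A ≤ R / t * (A * κ) * A :=
        mul_le_mul_of_nonneg_right (mul_le_mul_of_nonneg_right hnl2 (by positivity)) hA0
      have e : R / t * (A * κ) * A = R / t * κ * A ^ 2 := by ring
      rw [add_mul]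
      linarith
    calc x * (Real.sqrt (n * l) + n * l * (A * κ)) * A = x * ((Real.sqrt (n * l) + n * l * (A * κ)) * A) := by ring
      _ ≤ _ := mul_le_mul_of_nonneg_left h1 hx0
  have hKx : x ≤ K * x := by nlinarith
  have hsum : U + 1 + lam + 3 * (η * (n * l * A)) ≤ K * x * Q + 2 := by
    have h1 : x * (s * A + R / t * κ * A ^ 2) ≤ K * x * (s * A + R / t * κ * A ^ 2) :=
      mul_le_mul_of_nonneg_right hKx (by positivity)
    have e : K * x * Q = K * x * ER + K * x * (s * A + R / t * κ * A ^ 2) := by rw [hQ]; ring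
    linarith
  have hl3 : 1 / (l : ℝ) ≤ 12 * (n * t / R) := by
    rw [div_le_iff₀ hl0]
    have e : 12 * (n * t / R) * (l : ℝ) = 12 * t * n * l / R := by ring
    rw [e, le_div_iff₀ hR0]
    linarith
  have h5 : (U + 1 + lam + 3 * (η * (n * l * A))) / l ≤ (K * x * Q + 2) * (12 * (n * t / R)) := by
    rw [div_eq_mul_one_div]
    have h6 : 0 ≤ K * x * Q + 2 := by positivity
    calc (U + 1 + lam + 3 * (η * (n * l * A))) * (1 / (l : ℝ)) ≤ (K * x * Q + 2) * (1 / (l : ℝ)) :=
          mul_le_mul_of_nonneg_right hsum (by positivity)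
      _ ≤ _ := mul_le_mul_of_nonneg_left hl3 h6
  have hntR : (n : ℝ) * t / R ≤ 1 := by
    rw [div_le_one hR0]
    have h6 : (n : ℝ) * t * 1 ≤ n * t * l := mul_le_mul_of_nonneg_left hl' (by positivity)
    nlinarith
  have hnt0 : 0 ≤ (n : ℝ) * t / R := by positivity
  have hrA : 1 ≤ r * A := by nlinarith
  have h7 : (K * x * Q + 2) * (12 * (n * t / R)) ≤ 12 * K * x * (n * t / R * Q) + 24 * (r * A) := by
    have : 24 * (n * t / R) ≤ 24 * (r * A) := by linarith
    have e : (K * x * Q + 2) * (12 * (n * t / R)) = 12 * K * x * (n * t / R * Q) + 24 * (n * t / R) := by ring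
    rw [e]
    linarith
  have h8 : 1 ≤ K * x := by nlinarith
  have h9 : x * (r * A) + 1 ≤ 2 * (K * x) * (r * A) := by
    have h10 : x * (r * A) ≤ K * x * (r * A) := mul_le_mul_of_nonneg_right hKx (by positivity)
    have h11 : 1 ≤ K * x * (r * A) := by nlinarith
    linarith
  have h12 : 24 * (r * A) ≤ 24 * (K * x) * (r * A) := by
    have : 1 * (r * A) ≤ K * x * (r * A) := mul_le_mul_of_nonneg_right h8 (by positivity)
    linarith
  calc (U + 1 + lam + 3 * (η * (n * l * A))) / l + x * (r * A) + 1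
      ≤ 12 * K * x * (n * t / R * Q) + 26 * (K * x) * (r * A) := by linarith
    _ ≤ 39 * K * x * (n * t / R * Q + r * A) := by
        have : 0 ≤ K * x * (n * t / R * Q) := by positivity
        have : 0 ≤ K * x * (r * A) := by positivity
        nlinarith
    _ ≤ y * (n * t / R * Q + r * A) := mul_le_mul_of_nonneg_right hy (by positivity)

end Pool.Agent.W_7d29a1_Z.StpN
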