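import Pool.Agent.W_7d29a1_Z.Ker
import Pool.Agent.W_7d29a1_Z17.CoinB17

/-!
STORM Z, (DL) for path kernels: near ties of a path `S` which avoids the window sites `sJ J D` with pieces which stay in these sites
are decoupled from every event which does not depend on the environment there. (helper36)
-/

namespace Pool.Agent.W_7d29a1_Z

open Finset Pool.Agent.W_7d29a1_F Pool.Agent.W_7d29a1_Z17 MeasureTheory

noncomputable section

/-- The sum over the brackets `b ∈ B` (pairs of times) of the ratio of the kernel of the pieces staying in the window sites (frame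
`d'`) between the positions of `S` and the denominator `den`. -/
def rK (μ : Measure ℝ) (s : ℝ) (d d' : ℕ → ℤ) (J : Finset ℕ) (D : ℕ → Finset ℤ) (B : Finset (ℕ × ℕ))
    (den : ℕ × ℕ → ℤ → ℤ → Env → ℝ) (t0 : ℕ) (x0 : ℤ) (S : Finset ℕ) (η : Env) : ℝ :=
  ∑ b ∈ B, Kc μ s d' (Ins d' J D b.1 (ps d t0 x0 S b.1)) η b.1 (ps d t0 x0 S b.1) b.2 (ps d t0 x0 S b.2) /
    den b (ps d t0 x0 S b.1) (ps d t0 x0 S b.2) η

/-- The near ties of depth `M` of the path `S`. -/
def nt (μ : Measure ℝ) (s : ℝ) (d d' : ℕ → ℤ) (J : Finset ℕ) (D : ℕ → Finset ℤ) (B : Finset (ℕ × ℕ))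
    (den : ℕ × ℕ → ℤ → ℤ → Env → ℝ) (t0 : ℕ) (x0 : ℤ) (M : ℝ) (S : Finset ℕ) : Set Env :=
  {η | Real.exp (-M) ≤ rK μ s d d' J D B den t0 x0 S η ∧ rK μ s d d' J D B den t0 x0 S η ≤ Real.exp M}

open scoped Classical in
/-- The mass of the paths from `(t0, x0)` to `(N, y0)` (frame `d`) with the weight `a`. -/
def mas (μ : Measure ℝ) (s : ℝ) (d : ℕ → ℤ) (t0 : ℕ) (x0 : ℤ) (N : ℕ) (y0 : ℤ) (a : Finset ℕ → Env → ℝ) (η : Env) : ℝ :=
  ∑ S ∈ pcs d t0 x0 N y0, a S η * (pw μ s d η t0 x0 N S / Kf μ s d η t0 x0 N y0)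

variable {μ : Measure ℝ} [IsProbabilityMeasure μ] {s : ℝ}

/-- **(DL) for path kernels.** -/
theorem dlK (d d' : ℕ → ℤ) {J : Finset ℕ} {D : ℕ → Finset ℤ} {B : Finset (ℕ × ℕ)} {den : ℕ × ℕ → ℤ → ℤ → Env → ℝ}
    {t0 : ℕ} {x0 : ℤ} {N : ℕ} {y0 : ℤ} (hne : (pcs d t0 x0 N y0).Nonempty)
    (hB : ∀ b ∈ B, J ⊆ Ioc b.1 b.2)
    (hdm : ∀ b ∈ B, ∀ x y, Measurable (den b x y)) (hd0 : ∀ b ∈ B, ∀ x y η, 0 ≤ den b x y η)
    (hdi : ∀ b ∈ B, ∀ x y, ∀ v ∈ sJ J D, ∀ η t, den b x y (Function.update η v t) = den b x y η)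
    {a : Finset ℕ → Env → ℝ} (ha0 : ∀ S η, 0 ≤ a S η) (ha1 : ∀ S η, a S η ≤ 1) (ham : ∀ S, Measurable (a S))
    (hai : ∀ S, ∀ v ∈ sJ J D, ∀ η t, a S (Function.update η v t) = a S η)
    (hav : ∀ S ∈ pcs d t0 x0 N y0, ¬ Avo d J D t0 x0 N S → ∀ η, a S η = 0)
    {x y : ℝ} (hxy : x < y) {M u : ℝ} (hM : 1 ≤ M) (hu : 0 ≤ u) :
    kap μ x y * ((J.card : ℝ) / (8 * M)) *
        ∫ η, mas μ s d t0 x0 N y0 (fun S η => a S η * (nt μ s d d' J D B den t0 x0 M S).indicator (fun _ => (1 : ℝ)) η) η ∂(law μ) ≤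
      2 * (y - x) * (u * √((sJ J D).card : ℝ) * ∫ η, mas μ s d t0 x0 N y0 a η ∂(law μ) +
        (sJ J D).card * Real.exp (-2 * u ^ 2)) := by
  classical
  set I : Finset (Finset ℕ) := (pcs d t0 x0 N y0).filter fun S => Avo d J D t0 x0 N S with hI
  set w : Finset ℕ → Env → ℝ := fun S η => pw μ s d η t0 x0 N S with hw
  set Z : Env → ℝ := fun η => Kf μ s d η t0 x0 N y0 with hZ
  set Γ : Finset ℕ → Finset ((ℕ × ℕ) × Finset ℕ) := fun S =>
    (B ×ˢ (B.sup fun b => (Ico b.1 b.2).powerset)).filter fun g => g.2 ∈ pcs d' g.1.1 (ps d t0 x0 S g.1.1) g.1.2 (ps d t0 x0 S g.1.2) ∧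
      Ins d' J D g.1.1 (ps d t0 x0 S g.1.1) g.2 with hΓ
  set c : Finset ℕ → (ℕ × ℕ) × Finset ℕ → Env → ℝ := fun S g η =>
    pwo μ s d' J η g.1.1 (ps d t0 x0 S g.1.1) g.1.2 g.2 / den g.1 (ps d t0 x0 S g.1.1) (ps d t0 x0 S g.1.2) η with hc
  set T : Finset ℕ → (ℕ × ℕ) × Finset ℕ → Finset Pt := fun S g => tr d' J g.1.1 (ps d t0 x0 S g.1.1) g.2 with hT
  have hrr : ∀ S η, rr Γ c T S η = rK μ s d d' J D B den t0 x0 S η := by
    intro S η
    unfold rr rK
    simp only [hΓ]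
    rw [sum_filter, sum_product]
    refine sum_congr rfl fun b hb => ?_
    unfold Kc
    rw [sum_div, ← sum_filter]
    have hset : (((B.sup fun b => (Ico b.1 b.2).powerset)).filter fun g => g ∈ pcs d' b.1 (ps d t0 x0 S b.1) b.2 (ps d t0 x0 S b.2) ∧
        Ins d' J D b.1 (ps d t0 x0 S b.1) g) =
        ((pcs d' b.1 (ps d t0 x0 S b.1) b.2 (ps d t0 x0 S b.2)).filter (Ins d' J D b.1 (ps d t0 x0 S b.1))) := by
      ext g
      simp only [mem_filter]
      constructor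
      · rintro ⟨_, h2, h3⟩
        exact ⟨h2, h3⟩
      · rintro ⟨h2, h3⟩
        refine ⟨?_, h2, h3⟩
        have h4 := (mem_pcs.1 h2).1
        rw [mem_sup]
        exact ⟨b, hb, mem_powerset.2 h4⟩
    rw [hset]
    refine sum_congr rfl fun g _ => ?_
    simp only [hc, hT]
    rw [pw_window (hB b hb)]
    ring
  have htie : Tie (sJ J D) (J.card : ℝ) I a w Z Γ c T := by
    refine ⟨?_, ?_, ?_, ?_, ?_, ?_, ?_, ?_, ?_, ?_, ?_, ?_, ?_, ?_, ?_, ?_⟩
    · exact fun i _ η => ha0 i η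
    · exact fun i _ η => ha1 i η
    · exact fun i _ η => pw_nonneg _ _ _ _ _ _
    · intro i _ g hg η
      have hgB : g.1 ∈ B := by
        simp only [hΓ] at hg
        exact (mem_product.1 (mem_filter.1 hg).1).1
      exact div_nonneg (pwo_pos _ _ _ _ _ _ _).le (hd0 _ hgB _ _ _)
    · exact fun i _ => ham i
    · exact fun i _ => pw_meas d t0 x0 N i
    · exact Kf_meas d t0 x0 N y0
    · intro i _ g hg
      have hgB : g.1 ∈ B := by
        simp only [hΓ] at hg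
        exact (mem_product.1 (mem_filter.1 hg).1).1
      exact (pwo_meas d' J _ _ _ _).div (hdm _ hgB _ _)
    · intro η
      exact sum_pos (fun S _ => pw_pos _ _ _ _ _ _) hne
    · intro η
      exact sum_le_sum_of_subset_of_nonneg (filter_subset _ _) fun _ _ _ => pw_nonneg _ _ _ _ _ _
    · intro v _ η t ht
      refine Kf_mono d t0 x0 N y0 fun p => ?_
      by_cases hp : p = v
      · subst hp
        rw [Function.update_self]
        exact ht
      · rw [Function.update_of_ne hp]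
    · exact fun i _ v hv η t => hai i v hv η t
    · exact fun i hi v hv η t => pw_avo (mem_filter.1 hi).2 hv η t
    · intro i _ g hg v hv η t
      have hgB : g.1 ∈ B := by
        simp only [hΓ] at hg
        exact (mem_product.1 (mem_filter.1 hg).1).1
      simp only [hc]
      rw [pwo_upd d' hv, hdi _ hgB _ _ v hv]
    · intro i _ g hg
      simp only [hΓ] at hg
      exact tr_subset (mem_filter.1 hg).2.2
    · intro i _ g _
      simp only [hT]
      rw [card_tr]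
  have hmain := dl17 (μ := μ) htie hxy hM hu (Nat.cast_nonneg _)
  have hzero : ∀ (f : Finset ℕ → Env → ℝ), (∀ S ∈ pcs d t0 x0 N y0, ¬ Avo d J D t0 x0 N S → ∀ η, f S η = 0) → ∀ η,
      mas μ s d t0 x0 N y0 f η = ∑ S ∈ I, f S η * (w S η / Z η) := by
    intro f hf η
    unfold mas
    rw [hI, sum_filter]
    refine sum_congr rfl fun S hS => ?_
    split_ifs with hA
    · rfl
    · rw [hf S hS hA, zero_mul]
  have e1 : ∀ η, mas μ s d t0 x0 N y0 a η = ∑ S ∈ I, a S η * (w S η / Z η) := hzero a hav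
  have e2 : ∀ η, mas μ s d t0 x0 N y0 (fun S η => a S η * (nt μ s d d' J D B den t0 x0 M S).indicator (fun _ => (1 : ℝ)) η) η =
      ∑ S ∈ I, a S η * (w S η / Z η) * (near Γ c T M S).indicator (fun _ => (1 : ℝ)) η := by
    intro η
    rw [hzero _ (fun S hS hA η => by rw [hav S hS hA, zero_mul]) η]
    refine sum_congr rfl fun S _ => ?_
    have hn : nt μ s d d' J D B den t0 x0 M S = near Γ c T M S := by
      unfold nt near
      simp_rw [hrr]
    rw [hn]
    ring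
  simp_rw [e1, e2]
  exact hmain

end

end Pool.Agent.W_7d29a1_Z
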