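import Pool.Agent.W_7d29a1_Z.PthB
import Pool.Agent.W_7d29a1_Z.TieK

/-!
STORM Z, leaf TIE: the near ties of `Defs.lean` in terms of the kernels of pieces. (helper36)
-/

namespace Pool.Agent.W_7d29a1_Z

open Finset Pool.Agent.W_7d29a1_F Pool.Agent.W_7d29a1_X Pool.Agent.W_7d29a1_Z17 MeasureTheory
open scoped ENNReal

noncomputable section

variable {μ : Measure ℝ}

/-- The positions of the strip at the row `t`. -/
def Dr (sg Y w : ℤ) (t : ℕ) : Finset ℤ :=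
  (Icc (-(|Y| + |w| + t)) (|Y| + |w| + t)).filter fun q => Y < sg * (2 * q - t) ∧ sg * (2 * q - t) ≤ Y + w

theorem mem_Dr {sg Y w : ℤ} (hsg : sg = 1 ∨ sg = -1) {t : ℕ} {q : ℤ} :
    q ∈ Dr sg Y w t ↔ Y < sg * (2 * q - t) ∧ sg * (2 * q - t) ≤ Y + w := by
  unfold Dr
  rw [mem_filter, mem_Icc]
  constructor
  · exact fun h => h.2
  · intro h
    refine ⟨?_, h⟩
    have h1 := le_abs_self Y
    have h2 := neg_abs_le Y
    have h3 := le_abs_self w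
    have h4 : (0 : ℤ) ≤ t := Int.natCast_nonneg t
    rcases hsg with rfl | rfl
    · constructor <;> linarith [h.1, h.2]
    · constructor <;> linarith [h.1, h.2]

theorem card_Dr {sg Y w : ℤ} (hsg : sg = 1 ∨ sg = -1) (t : ℕ) : (Dr sg Y w t).card ≤ w.toNat := by
  have h : (Dr sg Y w t).card ≤ (Ioc Y (Y + w)).card := by
    refine card_le_card_of_injOn (fun q => sg * (2 * q - t)) ?_ ?_
    · intro q hq
      have hq' := (mem_Dr hsg).1 (mem_coe.1 hq)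
      exact mem_coe.2 (mem_Ioc.2 hq')
    · intro q _ q' _ hqq
      simp only at hqq
      rcases hsg with rfl | rfl
      · linarith
      · linarith
  rwa [Int.card_Ioc, add_sub_cancel_left] at h

/-- The pairs of times around the rows `J`. -/
def Br (N H : ℕ) (J : Finset ℕ) : Finset (ℕ × ℕ) :=
  (range (N + 1) ×ˢ range (N + 1)).filter fun b => b.1 ≤ b.2 ∧ b.2 ≤ b.1 + H ∧ ∀ i ∈ J, b.1 < i ∧ i < b.2

theorem mem_Br {N H : ℕ} {J : Finset ℕ} {b : ℕ × ℕ} :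
    b ∈ Br N H J ↔ (b.1 ≤ N ∧ b.2 ≤ N) ∧ b.1 ≤ b.2 ∧ b.2 ≤ b.1 + H ∧ ∀ i ∈ J, b.1 < i ∧ i < b.2 := by
  unfold Br
  rw [mem_filter, mem_product, mem_range, mem_range, Nat.lt_succ_iff, Nat.lt_succ_iff]

theorem card_Br (N H : ℕ) (J : Finset ℕ) : (Br N H J).card ≤ (N + 1) ^ 2 := by
  unfold Br
  refine (card_filter_le _ _).trans ?_
  rw [card_product, card_range, sq]

/-- The kernel between two positions of a path. -/
theorem kr_eq (R : Set Pt) (η : Env) {a b : ℕ} (h : a ≤ b) (X : ℕ → ℤ) :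
    kr μ R η a b X = Kc μ 0 0 (Reg R 0 a (X a) b) η a (X a) b (X b) := by
  unfold kr
  rw [WR_eq_Kc, Nat.add_sub_cancel' h, add_sub_cancel]

/-- The denominators. -/
def dn (μ : Measure ℝ) (sg : ℤ) (J : Finset ℕ) (Y : ℤ) (b : ℕ × ℕ) (x y : ℤ) (η : Env) : ℝ :=
  Kc μ 0 0 (Reg (Lr sg J Y) 0 b.1 x b.2) η b.1 x b.2 y

theorem dn_meas (sg : ℤ) (J : Finset ℕ) (Y : ℤ) (b : ℕ × ℕ) (x y : ℤ) : Measurable (dn μ sg J Y b x y) :=
  Kc_meas _ _ _ _ _ _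

theorem dn_nonneg (sg : ℤ) (J : Finset ℕ) (Y : ℤ) (b : ℕ × ℕ) (x y : ℤ) (η : Env) : 0 ≤ dn μ sg J Y b x y η :=
  Kc_nonneg _ _ _ _ _ _ _

theorem dn_upd {sg : ℤ} (hsg : sg = 1 ∨ sg = -1) {J : Finset ℕ} {Y w : ℤ} (b : ℕ × ℕ) (x y : ℤ) {v : Pt}
    (hv : v ∈ sJ J (Dr sg Y w)) (η : Env) (r : ℝ) : dn μ sg J Y b x y (Function.update η v r) = dn μ sg J Y b x y η := by
  classical
  unfold dn Kc
  refine sum_congr rfl fun S hS => ?_
  refine pw_avo (J := J) (D := Dr sg Y w) ?_ hv η r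
  intro t htJ ht htD
  have h1 := (mem_filter.1 hS).2 t ht
  have h2 := ((mem_Dr hsg).1 htD).1
  unfold Lr at h1
  have h3 : sg * (2 * ps 0 b.1 x S t - ((t : ℕ) : ℤ)) ≤ Y := h1 (by simpa using htJ)
  linarith

/-- The sum of the ratios. -/
def rS (μ : Measure ℝ) (N H : ℕ) (sg : ℤ) (J : Finset ℕ) (Y w : ℤ) (η : Env) (S : Finset ℕ) : ℝ :=
  ∑ b ∈ Br N H J, kr μ (Rr sg J Y w) η b.1 b.2 (pos S) / kr μ (Lr sg J Y) η b.1 b.2 (pos S)

theorem kr_Rr {sg : ℤ} (hsg : sg = 1 ∨ sg = -1) {J : Finset ℕ} {Y w : ℤ} (η : Env) {a b : ℕ} (hab : a ≤ b)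
    (hJ : ∀ i ∈ J, a < i ∧ i < b) (X : ℕ → ℤ) :
    kr μ (Rr sg J Y w) η a b X = Kc μ 0 0 (Ins 0 J (Dr sg Y w) a (X a)) η a (X a) b (X b) := by
  classical
  rw [kr_eq _ _ hab]
  unfold Kc
  refine sum_congr ?_ fun _ _ => rfl
  ext S
  rw [mem_filter, mem_filter]
  refine and_congr_right fun _ => ?_
  unfold Reg Ins Rr
  constructor
  · intro h t ht
    have h1 := hJ t ht
    exact (mem_Dr hsg).2 (h t (mem_Ioc.2 ⟨h1.1, h1.2.le⟩) (by simpa using ht))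
  · intro h t _ htJ
    have h2 : t ∈ J := by simpa using htJ
    exact (mem_Dr hsg).1 (h t h2)

theorem rS_eq {sg : ℤ} (hsg : sg = 1 ∨ sg = -1) {N H : ℕ} {J : Finset ℕ} {Y w : ℤ} (η : Env) (S : Finset ℕ) :
    rS μ N H sg J Y w η S = rK μ 0 0 0 J (Dr sg Y w) (Br N H J) (dn μ sg J Y) 0 0 S η := by
  unfold rS rK
  refine sum_congr rfl fun b hb => ?_
  rw [mem_Br] at hb
  rw [kr_Rr hsg η hb.2.1 hb.2.2.2, kr_eq _ _ hb.2.1, ps_pos, ps_pos]
  rfl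

theorem kr_nonneg36 (R : Set Pt) (η : Env) {a b : ℕ} (h : a ≤ b) (X : ℕ → ℤ) : 0 ≤ kr μ R η a b X := by
  rw [kr_eq R η h]
  exact Kc_nonneg _ _ _ _ _ _ _

/-- The kernel of the left class is positive if the path itself is in the class. -/
theorem kr_Lr_pos {sg : ℤ} {J : Finset ℕ} {Y : ℤ} (η : Env) {a b : ℕ} (hab : a ≤ b) {S : Finset ℕ} (hS : InL sg J Y S) :
    0 < kr μ (Lr sg J Y) η a b (pos S) := by
  classical
  rw [kr_eq _ _ hab]
  unfold Kc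
  have hp : ∀ t, a ≤ t → t ≤ b → ps 0 a (pos S a) (S ∩ Ico a b) t = pos S t := by
    intro t h1 h2
    rw [ps_inter 0 a _ S h2, ← ps_pos S a, ps_chain 0 0 S (Nat.zero_le a) h1, ps_pos]
  have hmem : S ∩ Ico a b ∈ (pcs 0 a (pos S a) b (pos S b)).filter (Reg (Lr sg J Y) 0 a (pos S a) b) := by
    have hsub : S ∩ Ico a b ⊆ Ico a b := inter_subset_right
    have hend : ps 0 a (pos S a) (S ∩ Ico a b) b = pos S b := hp b hab (le_refl b)
    have hp1 : S ∩ Ico a b ∈ pcs 0 a (pos S a) b (pos S b) := mem_pcs.2 ⟨hsub, hend⟩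
    refine mem_filter.2 ⟨hp1, ?_⟩
    intro t ht
    rw [mem_Ioc] at ht
    have h1 : sg * (2 * pos S t - ((t : ℕ) : ℤ)) ≤ Y ∨ t ∉ J := by
      by_cases htJ : t ∈ J
      · exact Or.inl (hS t htJ)
      · exact Or.inr htJ
    rw [hp t ht.1.le ht.2]
    intro htJ
    rcases h1 with h1 | h1
    · exact h1
    · exact absurd (by simpa using htJ) h1
  exact lt_of_lt_of_le (pw_pos 0 η a (pos S a) b (S ∩ Ico a b))
    (single_le_sum (f := fun S' => pw μ 0 0 η a (pos S a) b S') (fun S' _ => pw_nonneg 0 η a (pos S a) b S') hmem)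

/-- A near tie makes the sum of the ratios large. -/
theorem rS_ge {sg : ℤ} {N H : ℕ} {J : Finset ℕ} (hJ : J.Nonempty) {Y w : ℤ} {M : ℝ} {η : Env} {S : Finset ℕ}
    (h : NT μ N H sg J Y w M η S) : Real.exp (-M) ≤ rS μ N H sg J Y w η S := by
  obtain ⟨hL, a, b, hbN, hbH, hJab, hk⟩ := h
  obtain ⟨i, hi⟩ := hJ
  have hab : a ≤ b := ((hJab i hi).1.trans (hJab i hi).2).le
  have hpos := kr_Lr_pos (μ := μ) η hab hL
  have h1 : Real.exp (-M) ≤ kr μ (Rr sg J Y w) η a b (pos S) / kr μ (Lr sg J Y) η a b (pos S) := by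
    rw [le_div_iff₀ hpos]
    exact hk
  have hmem : (a, b) ∈ Br N H J := mem_Br.2 ⟨⟨hab.trans hbN, hbN⟩, hab, hbH, hJab⟩
  have h0 : ∀ p ∈ Br N H J, 0 ≤ kr μ (Rr sg J Y w) η p.1 p.2 (pos S) / kr μ (Lr sg J Y) η p.1 p.2 (pos S) := by
    intro p hp
    rw [mem_Br] at hp
    exact div_nonneg (kr_nonneg36 _ _ hp.2.1 _) (kr_nonneg36 _ _ hp.2.1 _)
  have h2 := single_le_sum (f := fun p : ℕ × ℕ => kr μ (Rr sg J Y w) η p.1 p.2 (pos S) / kr μ (Lr sg J Y) η p.1 p.2 (pos S)) h0 hmem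
  simp only at h2
  unfold rS
  exact h1.trans h2

end

end Pool.Agent.W_7d29a1_Z
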