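import Pool.Agent.W_7d29a1_Z.Ker

/-!
STORM Z: the weights `WR` of `W_7d29a1_F` (paths in a region) are kernels of pieces. (helper36)
-/

namespace Pool.Agent.W_7d29a1_Z

open Finset Pool.Agent.W_7d29a1_F

noncomputable section

variable {μ : MeasureTheory.Measure ℝ} {s : ℝ}

/-- The piece stays in the region `R` (all sites except the first one). -/
def Reg (R : Set Pt) (d : ℕ → ℤ) (t1 : ℕ) (x : ℤ) (t2 : ℕ) (S : Finset ℕ) : Prop :=
  ∀ t ∈ Ioc t1 t2, (((t : ℤ), ps d t1 x S t) : Pt) ∈ R

/-- The unnormalised sum over the pieces. -/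
def Gr (R : Set Pt) (η : Env) (t1 : ℕ) (x : ℤ) (n : ℕ) (y : ℤ) : ℝ :=
  ∑ S ∈ (Ico t1 (t1 + n)).powerset, if ((S.card : ℕ) : ℤ) = y then
    ∏ t ∈ Ioc t1 (t1 + n), R.indicator (fun p => Real.exp (η p)) (((t : ℤ), x + ((S ∩ Ico t1 t).card : ℤ)) : Pt) else 0

theorem Gr_zero (R : Set Pt) (η : Env) (t1 : ℕ) (x : ℤ) (y : ℤ) : Gr R η t1 x 0 y = if y = 0 then 1 else 0 := by
  unfold Gr
  have h : Ico t1 (t1 + 0) = ∅ := by simp
  rw [h, powerset_empty, sum_singleton, card_empty, add_zero, Ioc_self, prod_empty, Nat.cast_zero]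
  by_cases hy : y = 0
  · rw [if_pos hy, if_pos hy.symm]
  · rw [if_neg hy, if_neg fun h => hy h.symm]

theorem Gr_succ (R : Set Pt) (η : Env) (t1 : ℕ) (x : ℤ) (n : ℕ) (y : ℤ) :
    Gr R η t1 x (n + 1) y = R.indicator (fun p => Real.exp (η p)) ((((t1 : ℤ) + (n + 1), x + y)) : Pt) *
      (Gr R η t1 x n y + Gr R η t1 x n (y - 1)) := by
  classical
  unfold Gr
  have h1 : Ico t1 (t1 + (n + 1)) = insert (t1 + n) (Ico t1 (t1 + n)) := by
    ext i
    simp only [mem_Ico, mem_insert]
    omega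
  have h2 : Ioc t1 (t1 + (n + 1)) = insert (t1 + n + 1) (Ioc t1 (t1 + n)) := by
    ext i
    simp only [mem_Ioc, mem_insert]
    omega
  have h3 : t1 + n ∉ Ico t1 (t1 + n) := by simp
  have h4 : t1 + n + 1 ∉ Ioc t1 (t1 + n) := by simp
  rw [h1, sum_powerset_insert h3, mul_add, mul_sum, mul_sum]
  congr 1
  · refine sum_congr rfl fun S hS => ?_
    rw [mem_powerset] at hS
    by_cases hc : ((S.card : ℕ) : ℤ) = y
    · rw [if_pos hc, if_pos hc, h2, prod_insert h4]
      congr 1
      have h5 : S ∩ Ico t1 (t1 + n + 1) = S := inter_eq_left.2 (hS.trans (Ico_subset_Ico_right (by omega)))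
      rw [h5, hc]
      congr 2
    · rw [if_neg hc, if_neg hc, mul_zero]
  · refine sum_congr rfl fun S hS => ?_
    rw [mem_powerset] at hS
    have h6 : t1 + n ∉ S := fun h => h3 (hS h)
    have hcd : (((insert (t1 + n) S).card : ℕ) : ℤ) = (S.card : ℤ) + 1 := by
      rw [card_insert_of_notMem h6]
      push_cast
      ring
    by_cases hc : ((S.card : ℕ) : ℤ) = y - 1
    · rw [if_pos hc, if_pos (by rw [hcd, hc]; ring), h2, prod_insert h4]
      congr 1
      · have h5 : insert (t1 + n) S ∩ Ico t1 (t1 + n + 1) = insert (t1 + n) S := by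
          rw [inter_eq_left]
          intro i hi
          rw [mem_insert] at hi
          rcases hi with rfl | hi
          · rw [mem_Ico]
            omega
          · have := mem_Ico.1 (hS hi)
            rw [mem_Ico]
            omega
        rw [h5, hcd, hc]
        have e1 : (((t1 + n + 1 : ℕ) : ℤ)) = (t1 : ℤ) + (n + 1) := by
          push_cast
          ring
        have e2 : x + (y - 1 + 1) = x + y := by ring
        rw [e1, e2]
      · refine prod_congr rfl fun t ht => ?_
        rw [mem_Ioc] at ht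
        have h7 : insert (t1 + n) S ∩ Ico t1 t = S ∩ Ico t1 t := by
          rw [insert_inter_of_notMem]
          rw [mem_Ico]
          omega
        rw [h7]
    · rw [if_neg hc, if_neg (by rw [hcd]; intro h; exact hc (by linarith)), mul_zero]

theorem Zr_eq_Gr (R : Set Pt) (η : Env) (t1 : ℕ) (x : ℤ) (n : ℕ) : ∀ y : ℤ, Zr R η (((t1 : ℤ), x) : Pt) n y = Gr R η t1 x n y := by
  induction n with
  | zero =>
    intro y
    rw [Gr_zero]
    rfl
  | succ n ih =>
    intro y
    rw [Gr_succ, ← ih y, ← ih (y - 1)]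
    rfl

/-- The weight of the paths in the region as a kernel of pieces. -/
theorem WR_eq_Kc (R : Set Pt) (η : Env) (t1 : ℕ) (x : ℤ) (n : ℕ) (y : ℤ) :
    WR μ s R η (((t1 : ℤ), x) : Pt) n y = Kc μ s 0 (Reg R 0 t1 x (t1 + n)) η t1 x (t1 + n) (x + y) := by
  classical
  unfold WR Kc pcs
  rw [Zr_eq_Gr, Gr, mul_sum, filter_filter, sum_filter]
  refine sum_congr rfl fun S hS => ?_
  rw [mem_powerset] at hS
  have h0 : ∀ t, ps 0 t1 x S t = x + ((S ∩ Ico t1 t).card : ℤ) := fun t => by simp [ps]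
  have h1 : ps 0 t1 x S (t1 + n) = x + (S.card : ℤ) := by
    rw [h0, inter_eq_left.2 hS]
  by_cases hc : ((S.card : ℕ) : ℤ) = y
  · rw [if_pos hc]
    by_cases hr : Reg R 0 t1 x (t1 + n) S
    · rw [if_pos ⟨by rw [h1, hc], hr⟩]
      unfold pw
      rw [inter_eq_left.2 hS]
      congr 1
      · congr 1
        have : (S.card : ℝ) = (y : ℝ) := by exact_mod_cast hc
        rw [this]
        congr 2
        congr 1
        omega
      · refine prod_congr rfl fun t ht => ?_
        have := hr t ht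
        rw [h0] at this
        rw [Set.indicator_of_mem this, h0]
    · rw [if_neg (fun h => hr h.2)]
      unfold Reg at hr
      push Not at hr
      obtain ⟨t, ht, htR⟩ := hr
      rw [h0] at htR
      rw [prod_eq_zero ht (Set.indicator_of_notMem htR _), mul_zero]
  · rw [if_neg hc, mul_zero, if_neg]
    rintro ⟨h2, _⟩
    rw [h1] at h2
    exact hc (by linarith)

/-- The point to point weight as a kernel of pieces. -/
theorem W_eq_Kf (η : Env) (t1 : ℕ) (x : ℤ) (n : ℕ) (y : ℤ) :
    W μ s η (((t1 : ℤ), x) : Pt) n y = Kf μ s 0 η t1 x (t1 + n) (x + y) := by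
  classical
  unfold W
  rw [WR_eq_Kc]
  unfold Kc Kf
  rw [filter_true_of_mem]
  intro S _ t _
  exact Set.mem_univ _

end

end Pool.Agent.W_7d29a1_Z
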