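import Pool.Agent.W_7d29a1_Z.TieA
import Pool.Agent.W_7d29a1_Z17.Swap17

/-!
STORM Z, leaf TIE: near ties are rare, whatever else is known, explicit form. (helper36)
-/

namespace Pool.Agent.W_7d29a1_Z

open Finset Pool.Agent.W_7d29a1_F Pool.Agent.W_7d29a1_X Pool.Agent.W_7d29a1_Z17 MeasureTheory
open scoped ENNReal

noncomputable section

variable {μ : Measure ℝ}

theorem rS_meas {sg : ℤ} (hsg : sg = 1 ∨ sg = -1) (N H : ℕ) (J : Finset ℕ) (Y w : ℤ) (S : Finset ℕ) :
    Measurable fun η : Env => rS μ N H sg J Y w η S := by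
  have e : (fun η : Env => rS μ N H sg J Y w η S) = fun η => rK μ 0 0 0 J (Dr sg Y w) (Br N H J) (dn μ sg J Y) 0 0 S η := by
    funext η
    exact rS_eq hsg η S
  rw [e]
  unfold rK
  exact Finset.measurable_sum _ fun b _ => (Kc_meas _ _ _ _ _ _).div (dn_meas _ _ _ _ _ _)

theorem rS_nonneg {sg : ℤ} (N H : ℕ) (J : Finset ℕ) (Y w : ℤ) (η : Env) (S : Finset ℕ) : 0 ≤ rS μ N H sg J Y w η S := by
  unfold rS
  refine sum_nonneg fun p hp => ?_
  rw [mem_Br] at hp
  exact div_nonneg (kr_nonneg36 _ _ hp.2.1 _) (kr_nonneg36 _ _ hp.2.1 _)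

open scoped Classical in
/-- The mean of the sum of the ratios over the left paths is at most the number of brackets. -/
theorem rS_sum {sg : ℤ} (N H : ℕ) (J : Finset ℕ) (Y w y : ℤ) (η : Env) :
    ∑ S ∈ (range N).powerset, ic (InL sg J Y S) * rS μ N H sg J Y w η S * gp μ η N y S ≤ ((N : ℝ) + 1) ^ 2 := by
  have h1 : ∑ S ∈ (range N).powerset, ic (InL sg J Y S) * rS μ N H sg J Y w η S * gp μ η N y S =
      ∑ b ∈ Br N H J, ∑ S ∈ (range N).powerset, (if InL sg J Y S then
        gp μ η N y S * (kr μ (Rr sg J Y w) η b.1 b.2 (pos S) / kr μ (Lr sg J Y) η b.1 b.2 (pos S)) else 0) := by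
    rw [sum_comm]
    refine sum_congr rfl fun S _ => ?_
    by_cases hS : InL sg J Y S
    · rw [ic_pos hS, one_mul]
      unfold rS
      rw [sum_mul]
      refine sum_congr rfl fun b _ => ?_
      rw [if_pos hS, mul_comm]
    · rw [ic_neg hS, zero_mul, zero_mul]
      exact (sum_eq_zero fun b _ => if_neg hS).symm
  rw [h1]
  calc ∑ b ∈ Br N H J, ∑ S ∈ (range N).powerset, (if InL sg J Y S then
        gp μ η N y S * (kr μ (Rr sg J Y w) η b.1 b.2 (pos S) / kr μ (Lr sg J Y) η b.1 b.2 (pos S)) else 0)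
      ≤ ∑ _b ∈ Br N H J, (1 : ℝ) := by
        refine sum_le_sum fun b hb => ?_
        rw [mem_Br] at hb
        exact swap_sum (μ := μ) η (N := N) (y := y) (sg := sg) (Y := Y) (w := w) (J := J) hb.2.1 hb.1.2 hb.2.2.2
    _ = ((Br N H J).card : ℝ) := by rw [sum_const, nsmul_eq_mul, mul_one]
    _ ≤ ((N : ℝ) + 1) ^ 2 := by exact_mod_cast card_Br N H J

variable [IsProbabilityMeasure μ]

omit [IsProbabilityMeasure μ] in
theorem tie_alg {κ c M P Q X w E u r : ℝ} (hκ : 0 < κ) (hc : 0 < c) (hM : 0 < M)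
    (h : κ * (c / (8 * M)) * P ≤ 2 * X * (u * (c * r) * Q + c * w * E)) :
    P ≤ 16 * X / κ * M * (u * r) * Q + 16 * X / κ * M * (w * E) := by
  have h1 : κ * (c / (8 * M)) * P * (8 * M) = κ * c * P := by
    field_simp
  have h2 : κ * c * P ≤ 2 * X * (u * (c * r) * Q + c * w * E) * (8 * M) := by
    rw [← h1]
    exact mul_le_mul_of_nonneg_right h (by linarith)
  have h3 : (P * κ) * c ≤ (16 * X * M * (u * r) * Q + 16 * X * M * (w * E)) * c := by
    calc (P * κ) * c = κ * c * P := by ring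
      _ ≤ _ := h2
      _ = (16 * X * M * (u * r) * Q + 16 * X * M * (w * E)) * c := by ring
  have h4 : P * κ ≤ 16 * X * M * (u * r) * Q + 16 * X * M * (w * E) := le_of_mul_le_mul_right h3 hc
  have h5 : P ≤ (16 * X * M * (u * r) * Q + 16 * X * M * (w * E)) / κ := (le_div_iff₀ hκ).2 h4
  refine h5.trans (le_of_eq ?_)
  ring

/-- **The two sided near ties.** -/
theorem tie_two {x x' : ℝ} (hxx : x < x') {N : ℕ} {y : ℤ} (hy0 : 0 ≤ y) (hyN : y ≤ N)
    {H : ℕ} {J : Finset ℕ} (hJ : J.Nonempty) {sg Y w : ℤ} (hsg : sg = 1 ∨ sg = -1) (hw : 0 ≤ w) {M u : ℝ} (hM : 1 ≤ M) (hu : 0 ≤ u)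
    (hk : 0 < kap μ x x')
    {A : Env → Finset ℕ → Prop} (hA : Ms A) (hoff : OffRows J A) :
    P1 μ N y (fun η S => (A η S ∧ InL sg J Y S) ∧ Real.exp (-M) ≤ rS μ N H sg J Y w η S ∧ rS μ N H sg J Y w η S ≤ Real.exp M) ≤
      ENNReal.ofReal (16 * (x' - x) / kap μ x x' * M * (u * √((w : ℝ) / J.card))) * P1 μ N y (fun η S => A η S ∧ InL sg J Y S) +
        ENNReal.ofReal (16 * (x' - x) / kap μ x x' * M * (w * Real.exp (-2 * u ^ 2))) := by
  have hJc : (0 : ℝ) < J.card := by exact_mod_cast card_pos.2 hJ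
  have hw' : (0 : ℝ) ≤ w := by exact_mod_cast hw
  set a : Finset ℕ → Env → ℝ := fun S η => ic (A η S ∧ InL sg J Y S) with ha
  have hAm : ∀ S, MeasurableSet {η | A η S ∧ InL sg J Y S} := fun S => by
    by_cases hS : InL sg J Y S
    · have : {η : Env | A η S ∧ InL sg J Y S} = {η | A η S} := by
        ext η
        simp [hS]
      rw [this]
      exact hA S
    · have : {η : Env | A η S ∧ InL sg J Y S} = ∅ := by
        ext η
        simp [hS]
      rw [this]
      exact MeasurableSet.empty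
  have hne : (pcs 0 0 0 N y).Nonempty := by
    refine ⟨range y.toNat, ?_⟩
    have h1 : y.toNat ≤ N := by omega
    rw [mem_pcs, ps_pos]
    refine ⟨?_, ?_⟩
    · rw [← range_eq_Ico]
      exact range_subset_range.2 h1
    · unfold pos
      rw [inter_eq_left.2 (range_subset_range.2 h1), card_range]
      omega
  have hmain := dlK (μ := μ) (s := 0) 0 0 (J := J) (D := Dr sg Y w) (B := Br N H J) (den := dn μ sg J Y) (t0 := 0) (x0 := 0)
    (N := N) (y0 := y) hne
    (fun b hb t ht => by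
      rw [mem_Br] at hb
      have := hb.2.2.2 t ht
      exact mem_Ioc.2 ⟨this.1, this.2.le⟩)
    (fun b _ p q => dn_meas sg J Y b p q) (fun b _ p q η => dn_nonneg sg J Y b p q η)
    (fun b _ p q v hv η t => dn_upd hsg b p q hv η t)
    (a := a) (fun S η => ic_nonneg _) (fun S η => ic_le_one _)
    (fun S => ic_meas (hAm S))
    (fun S v hv η t => by
      obtain ⟨i, hi, q, _, rfl⟩ := exists_of_mem_sJ hv
      have h1 : A (Function.update η ((i : ℤ), q) t) S ↔ A η S := by
        refine hoff _ _ S fun p hp => ?_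
        rw [Function.update_of_ne]
        rintro rfl
        exact hp ⟨Int.natCast_nonneg i, by simpa using hi⟩
      simp only [ha, h1])
    (fun S _ hS η => by
      simp only [ha]
      refine ic_neg ?_
      rintro ⟨_, hL⟩
      apply hS
      intro t ht htI htD
      have h1 := ((mem_Dr hsg).1 htD).1
      have h2 := hL t ht
      rw [ps_pos] at h1
      linarith)
    hxx hM hu
  -- the two masses
  have hi1 : ∀ η, mas μ 0 0 0 0 N y a η = ∑ S ∈ (range N).powerset, ic (A η S ∧ InL sg J Y S) * gp μ η N y S := by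
    intro η
    rw [sum_gp_mul]
    rfl
  have hi2 : ∀ η, mas μ 0 0 0 0 N y (fun S η => a S η * (nt μ 0 0 0 J (Dr sg Y w) (Br N H J) (dn μ sg J Y) 0 0 M S).indicator
      (fun _ => (1 : ℝ)) η) η = ∑ S ∈ (range N).powerset, ic ((A η S ∧ InL sg J Y S) ∧ Real.exp (-M) ≤ rS μ N H sg J Y w η S ∧
        rS μ N H sg J Y w η S ≤ Real.exp M) * gp μ η N y S := by
    intro η
    rw [sum_gp_mul]
    unfold mas
    refine sum_congr rfl fun S _ => ?_
    congr 1
    simp only [ha]
    by_cases h1 : A η S ∧ InL sg J Y S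
    · rw [ic_pos h1, one_mul]
      by_cases h2 : Real.exp (-M) ≤ rS μ N H sg J Y w η S ∧ rS μ N H sg J Y w η S ≤ Real.exp M
      · rw [ic_pos ⟨h1, h2⟩, Set.indicator_of_mem]
        unfold nt
        rw [Set.mem_ofPred_eq, ← rS_eq hsg]
        exact h2
      · rw [ic_neg fun h => h2 h.2, Set.indicator_of_notMem]
        unfold nt
        rw [Set.mem_ofPred_eq, ← rS_eq hsg]
        exact h2
    · rw [ic_neg h1, zero_mul, ic_neg fun h => h1 h.1]
  have hnm : Ms fun η S => (A η S ∧ InL sg J Y S) ∧ Real.exp (-M) ≤ rS μ N H sg J Y w η S ∧ rS μ N H sg J Y w η S ≤ Real.exp M := by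
    intro S
    exact (hAm S).inter ((measurableSet_le measurable_const (rS_meas hsg N H J Y w S)).inter
      (measurableSet_le (rS_meas hsg N H J Y w S) measurable_const))
  rw [P1_ic hnm, P1_ic (A := fun η S => A η S ∧ InL sg J Y S) hAm, ← ENNReal.ofReal_mul, ← ENNReal.ofReal_add]
  · refine ENNReal.ofReal_le_ofReal ?_
    simp_rw [hi1, hi2] at hmain
    obtain ⟨P, hP⟩ : ∃ P : ℝ, P = ∫ η, ∑ S ∈ (range N).powerset, ic ((A η S ∧ InL sg J Y S) ∧ Real.exp (-M) ≤ rS μ N H sg J Y w η S ∧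
        rS μ N H sg J Y w η S ≤ Real.exp M) * gp μ η N y S ∂(law μ) := ⟨_, rfl⟩
    obtain ⟨Q, hQ⟩ : ∃ Q : ℝ, Q = ∫ η, ∑ S ∈ (range N).powerset, ic (A η S ∧ InL sg J Y S) * gp μ η N y S ∂(law μ) :=
      ⟨_, rfl⟩
    rw [← hP, ← hQ] at hmain ⊢
    have hQ0 : 0 ≤ Q := by
      rw [hQ]
      exact integral_nonneg fun η => sum_nonneg fun S _ => mul_nonneg (ic_nonneg _) (gp_nonneg36 η N y S)
    have hcd : ((sJ J (Dr sg Y w)).card : ℝ) ≤ J.card * w := by
      have h1 := card_sJ_le J (Dr sg Y w) (w := w.toNat) fun t _ => card_Dr hsg t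
      have h2 : ((w.toNat : ℕ) : ℝ) = w := by
        have : ((w.toNat : ℕ) : ℤ) = w := Int.toNat_of_nonneg hw
        exact_mod_cast this
      calc ((sJ J (Dr sg Y w)).card : ℝ) ≤ ((J.card * w.toNat : ℕ) : ℝ) := by exact_mod_cast h1
        _ = J.card * w := by push_cast; rw [h2]
    have hsq : √((sJ J (Dr sg Y w)).card : ℝ) ≤ J.card * √((w : ℝ) / J.card) := by
      refine (Real.sqrt_le_sqrt hcd).trans (le_of_eq ?_)
      have e : (J.card : ℝ) * w = (J.card : ℝ) ^ 2 * ((w : ℝ) / J.card) := by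
        field_simp
      rw [e, Real.sqrt_mul (by positivity), Real.sqrt_sq hJc.le]
    have hyx : 0 < x' - x := by linarith
    have h3 : kap μ x x' * ((J.card : ℝ) / (8 * M)) * P ≤
        2 * (x' - x) * (u * (J.card * √((w : ℝ) / J.card)) * Q + J.card * w * Real.exp (-2 * u ^ 2)) := by
      refine hmain.trans (mul_le_mul_of_nonneg_left (add_le_add ?_ ?_) (by linarith))
      · exact mul_le_mul_of_nonneg_right (mul_le_mul_of_nonneg_left hsq hu) hQ0
      · exact mul_le_mul_of_nonneg_right hcd (Real.exp_pos _).le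
    have hM0 : 0 < M := by linarith
    exact tie_alg hk hJc hM0 h3
  · have hyx : 0 < x' - x := by linarith
    have hM0 : 0 < M := by linarith
    exact mul_nonneg (by positivity) (integral_nonneg fun η => sum_nonneg fun S _ =>
      mul_nonneg (ic_nonneg _) (gp_nonneg36 η N y S))
  · have hyx : 0 < x' - x := by linarith
    have hM0 : 0 < M := by linarith
    positivity
  · have hyx : 0 < x' - x := by linarith
    have hM0 : 0 < M := by linarith
    positivity

/-- The upper side: large sums of ratios are unlikely. -/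
theorem tie_up {N : ℕ} {y : ℤ} {H : ℕ} {J : Finset ℕ} {sg Y w : ℤ} (hsg : sg = 1 ∨ sg = -1) {M : ℝ} :
    P1 μ N y (fun η S => InL sg J Y S ∧ Real.exp M < rS μ N H sg J Y w η S) ≤
      ENNReal.ofReal (((N : ℝ) + 1) ^ 2 * Real.exp (-M)) := by
  have hm : Ms fun η S => InL sg J Y S ∧ Real.exp M < rS μ N H sg J Y w η S := by
    intro S
    by_cases hS : InL sg J Y S
    · have : {η : Env | InL sg J Y S ∧ Real.exp M < rS μ N H sg J Y w η S} = {η | Real.exp M < rS μ N H sg J Y w η S} := by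
        ext η
        simp [hS]
      rw [this]
      exact measurableSet_lt measurable_const (rS_meas hsg N H J Y w S)
    · have : {η : Env | InL sg J Y S ∧ Real.exp M < rS μ N H sg J Y w η S} = ∅ := by
        ext η
        simp [hS]
      rw [this]
      exact MeasurableSet.empty
  rw [P1_ic hm]
  refine ENNReal.ofReal_le_ofReal ?_
  have hpt : ∀ η, ∑ S ∈ (range N).powerset, ic (InL sg J Y S ∧ Real.exp M < rS μ N H sg J Y w η S) * gp μ η N y S ≤
      ((N : ℝ) + 1) ^ 2 * Real.exp (-M) := by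
    intro η
    calc ∑ S ∈ (range N).powerset, ic (InL sg J Y S ∧ Real.exp M < rS μ N H sg J Y w η S) * gp μ η N y S
        ≤ ∑ S ∈ (range N).powerset, (ic (InL sg J Y S) * rS μ N H sg J Y w η S * gp μ η N y S) * Real.exp (-M) := by
          refine sum_le_sum fun S _ => ?_
          have hg := gp_nonneg36 (μ := μ) η N y S
          have hr := rS_nonneg (μ := μ) (sg := sg) N H J Y w η S
          by_cases hS : InL sg J Y S
          · by_cases hr2 : Real.exp M < rS μ N H sg J Y w η S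
            · rw [ic_pos ⟨hS, hr2⟩, ic_pos hS, one_mul, one_mul]
              have h1 : 1 ≤ rS μ N H sg J Y w η S * Real.exp (-M) := by
                have : Real.exp M * Real.exp (-M) = 1 := by rw [← Real.exp_add, add_neg_cancel, Real.exp_zero]
                rw [← this]
                exact mul_le_mul_of_nonneg_right hr2.le (Real.exp_pos _).le
              nlinarith
            · rw [ic_neg fun h => hr2 h.2, zero_mul, ic_pos hS, one_mul]
              positivity
          · rw [ic_neg fun h => hS h.1, zero_mul, ic_neg hS, zero_mul, zero_mul, zero_mul]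
      _ = (∑ S ∈ (range N).powerset, ic (InL sg J Y S) * rS μ N H sg J Y w η S * gp μ η N y S) * Real.exp (-M) :=
          (sum_mul _ _ _).symm
      _ ≤ ((N : ℝ) + 1) ^ 2 * Real.exp (-M) := mul_le_mul_of_nonneg_right (rS_sum N H J Y w y η) (Real.exp_pos _).le
  calc ∫ η, ∑ S ∈ (range N).powerset, ic (InL sg J Y S ∧ Real.exp M < rS μ N H sg J Y w η S) * gp μ η N y S ∂(law μ)
      ≤ ∫ _η, ((N : ℝ) + 1) ^ 2 * Real.exp (-M) ∂(law μ) := by
        refine integral_mono_of_nonneg (Filter.Eventually.of_forall fun η => sum_nonneg fun S _ =>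
          mul_nonneg (ic_nonneg _) (gp_nonneg36 η N y S)) (integrable_const _) (Filter.Eventually.of_forall hpt)
    _ = ((N : ℝ) + 1) ^ 2 * Real.exp (-M) := by
        rw [integral_const, probReal_univ, one_smul]

/-- **Near ties, explicit form.** -/
theorem tie36 {x x' : ℝ} (hxx : x < x') {N : ℕ} {y : ℤ} (hy0 : 0 ≤ y) (hyN : y ≤ N)
    {H : ℕ} {J : Finset ℕ} (hJ : J.Nonempty) {sg Y w : ℤ} (hsg : sg = 1 ∨ sg = -1) (hw : 0 ≤ w) {M u : ℝ} (hM : 1 ≤ M) (hu : 0 ≤ u)
    (hk : 0 < kap μ x x')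
    {A : Env → Finset ℕ → Prop} (hA : Ms A) (hoff : OffRows J A) :
    P1 μ N y (fun η S => A η S ∧ NT μ N H sg J Y w M η S) ≤
      ENNReal.ofReal (16 * (x' - x) / kap μ x x' * M * (u * √((w : ℝ) / J.card))) * P1 μ N y (fun η S => A η S ∧ InL sg J Y S) +
        ENNReal.ofReal (16 * (x' - x) / kap μ x x' * M * (w * Real.exp (-2 * u ^ 2)) + ((N : ℝ) + 1) ^ 2 * Real.exp (-M)) := by
  have hyx : 0 < x' - x := by linarith
  have hM0 : 0 < M := by linarith
  have hw' : (0 : ℝ) ≤ w := by exact_mod_cast hw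
  rw [ENNReal.ofReal_add (by positivity) (by positivity), ← add_assoc]
  refine le_trans ?_ (add_le_add (tie_two (H := H) hxx hy0 hyN hJ hsg hw hM hu hk hA hoff)
    (tie_up (μ := μ) (N := N) (y := y) (H := H) (J := J) (Y := Y) (w := w) hsg (M := M)))
  refine le_trans (P1_mono36 ?_) (P1_or36 _ _)
  intro η S _ h
  have h1 := rS_ge hJ h.2
  rcases le_or_gt (rS μ N H sg J Y w η S) (Real.exp M) with h2 | h2
  · exact Or.inl ⟨⟨h.1, h.2.1⟩, h1, h2⟩
  · exact Or.inr ⟨h.2.1, h2⟩

end

end Pool.Agent.W_7d29a1_Z
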