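import Pool.Agent.W_7d29a1_Z.Ker
import Pool.Agent.W_7d29a1_Z79.Path79

/-!
STORM Z: the kernels of `Ker.lean` are those of `W_7d29a1_Z79/Path79.lean`. (helper36)
-/

namespace Pool.Agent.W_7d29a1_Z

open Finset Pool.Agent.W_7d29a1_F

noncomputable section

variable {μ : MeasureTheory.Measure ℝ} {s : ℝ}

theorem ps_eq79 (d : ℕ → ℤ) (t1 : ℕ) (x : ℤ) (S : Finset ℕ) (t : ℕ) : ps d t1 x S t = Pool.Agent.W_7d29a1_Z79.ps d x t1 S t := rfl

theorem pw_eq79 (d : ℕ → ℤ) (η : Env) {t1 t2 : ℕ} (h : t1 ≤ t2) (x : ℤ) (S : Finset ℕ) :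
    pw μ s d η t1 x t2 S = Pool.Agent.W_7d29a1_Z79.wt s (lam μ s) d η t1 x t2 S := by
  unfold pw Pool.Agent.W_7d29a1_Z79.wt
  rw [Nat.cast_sub h]
  rfl

theorem Kf_eq79 (d : ℕ → ℤ) (η : Env) {t1 t2 : ℕ} (h : t1 ≤ t2) (x : ℤ) (y : ℤ) :
    Kf μ s d η t1 x t2 y = Pool.Agent.W_7d29a1_Z79.Kn s (lam μ s) d η t1 x t2 y := by
  classical
  unfold Kf pcs Pool.Agent.W_7d29a1_Z79.Kn
  have e : ((Ico t1 t2).powerset.filter fun S => ps d t1 x S t2 = y) =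
      (Ico t1 t2).powerset.filter fun S => Pool.Agent.W_7d29a1_Z79.ps d x t1 S t2 = y := by
    refine filter_congr fun S _ => ?_
    rw [ps_eq79]
  refine sum_congr ?_ fun S _ => pw_eq79 d η h x S
  ext S
  simp only [mem_filter, mem_powerset, ps_eq79]

theorem Kc_eq79 (d : ℕ → ℤ) (C : Finset ℕ → Prop) [DecidablePred C] (η : Env) {t1 t2 : ℕ} (h : t1 ≤ t2) (x : ℤ) (y : ℤ) :
    Kc μ s d C η t1 x t2 y = Pool.Agent.W_7d29a1_Z79.KC s (lam μ s) d η C t1 x t2 y := by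
  classical
  unfold Kc pcs Pool.Agent.W_7d29a1_Z79.KC
  refine sum_congr ?_ fun S _ => pw_eq79 d η h x S
  ext S
  simp only [mem_filter, mem_powerset, ps_eq79, and_assoc]

end

end Pool.Agent.W_7d29a1_Z
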