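import Pool.Agent.W_7d29a1_Z.Ker

/-!
STORM Z: the piece with jumps in the environment `η` is the piece without jumps in the sheared environment `shK d η`. (helper36)
-/

namespace Pool.Agent.W_7d29a1_Z

open Finset Pool.Agent.W_7d29a1_F

noncomputable section

/-- The sheared environment: the row `t` is shifted by the cumulated jump `d t`. -/
def shK (d : ℕ → ℤ) (η : Env) : Env := fun p => η (p.1, p.2 + d p.1.toNat)

theorem shK_apply (d : ℕ → ℤ) (η : Env) (t : ℕ) (y : ℤ) : shK d η ((t : ℤ), y) = η ((t : ℤ), y + d t) := by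
  simp [shK]

theorem shK_zero (η : Env) : shK 0 η = η := by
  funext p
  simp [shK]

theorem shK_add (d e : ℕ → ℤ) (η : Env) : shK d (shK e η) = shK (d + e) η := by
  funext p
  simp only [shK, Pi.add_apply]
  rw [add_assoc]

theorem shK_neg (d : ℕ → ℤ) (η : Env) : shK (-d) (shK d η) = η := by
  rw [shK_add, neg_add_cancel, shK_zero]

variable {μ : MeasureTheory.Measure ℝ} {s : ℝ}

/-- The positions in the two frames. -/
theorem ps_shK (d e : ℕ → ℤ) (t1 : ℕ) (x : ℤ) (S : Finset ℕ) (t : ℕ) :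
    ps (d + e) t1 x S t = ps d t1 (x - e t1) S t + e t := by
  unfold ps
  simp only [Pi.add_apply]
  ring

/-- The weights in the two frames. -/
theorem pw_shK (d e : ℕ → ℤ) (η : Env) (t1 : ℕ) (x : ℤ) (t2 : ℕ) (S : Finset ℕ) :
    pw μ s (d + e) η t1 x t2 S = pw μ s d (shK e η) t1 (x - e t1) t2 S := by
  unfold pw
  congr 1
  refine prod_congr rfl fun t _ => ?_
  rw [shK_apply, ps_shK]

theorem pcs_shK (d e : ℕ → ℤ) (t1 : ℕ) (x : ℤ) (t2 : ℕ) (y : ℤ) :
    pcs (d + e) t1 x t2 y = pcs d t1 (x - e t1) t2 (y - e t2) := by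
  ext S
  rw [mem_pcs, mem_pcs, ps_shK]
  constructor
  · rintro ⟨h1, h2⟩
    exact ⟨h1, by linarith⟩
  · rintro ⟨h1, h2⟩
    exact ⟨h1, by linarith⟩

/-- The kernels in the two frames. -/
theorem Kf_shK (d e : ℕ → ℤ) (η : Env) (t1 : ℕ) (x : ℤ) (t2 : ℕ) (y : ℤ) :
    Kf μ s (d + e) η t1 x t2 y = Kf μ s d (shK e η) t1 (x - e t1) t2 (y - e t2) := by
  unfold Kf
  rw [pcs_shK]
  exact sum_congr rfl fun S _ => pw_shK d e η t1 x t2 S

/-- The kernel with jumps is the kernel without jumps in the sheared environment. -/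
theorem Kf_shK_zero (e : ℕ → ℤ) (η : Env) (t1 : ℕ) (x : ℤ) (t2 : ℕ) (y : ℤ) :
    Kf μ s e η t1 x t2 y = Kf μ s 0 (shK e η) t1 (x - e t1) t2 (y - e t2) := by
  have h := Kf_shK (μ := μ) (s := s) 0 e η t1 x t2 y
  rwa [zero_add] at h

/-- The masses in the two frames. -/
theorem Kc_shK (d e : ℕ → ℤ) (C : Finset ℕ → Prop) (η : Env) (t1 : ℕ) (x : ℤ) (t2 : ℕ) (y : ℤ) :
    Kc μ s (d + e) C η t1 x t2 y = Kc μ s d C (shK e η) t1 (x - e t1) t2 (y - e t2) := by
  classical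
  unfold Kc
  rw [pcs_shK]
  exact sum_congr rfl fun S _ => pw_shK d e η t1 x t2 S

end

end Pool.Agent.W_7d29a1_Z
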