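import Mathlib

/-!
# STORM Z: sampling of blocks

A chain carries `n * l` blocks, cut into `n` groups of `l` blocks; in every group ONE block is
chosen uniformly, independently.  For numbers `h j i` (group `j`, block `i`) with `|h j i| ≤ A`
the sum over the chosen blocks is `(1 / l)` times the full sum up to `s`, except for a fraction
`2 exp (- s² / (8 A² n))` of the choices (`card_tail`).  If the numbers are random
(they depend on `ω : Ω`), one deterministic choice is good (`exists_sample`).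
-/

set_option autoImplicit false

namespace W_7d29a1_Z.Samp81

open Finset Real MeasureTheory

/-- exponential moment of one uniform choice -/
theorem mgf_one {l : ℕ} (hl : 0 < l) (x : Fin l → ℝ) (A θ : ℝ) (hA : ∀ i, |x i| ≤ A) :
    (∑ i, exp (θ * (x i - (∑ j, x j) / l))) ≤ l * exp (2 * θ ^ 2 * A ^ 2) := by
  have hl' : (0 : ℝ) < l := by exact_mod_cast hl
  set m : ℝ := (∑ j, x j) / l with hm
  -- Jensen
  have hJ : exp (-(θ * m)) ≤ (∑ j, exp (-(θ * x j))) / l := by
    have h1 : ∀ j ∈ (univ : Finset (Fin l)), exp (-(θ * m)) * (1 + (θ * m - θ * x j))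
        ≤ exp (-(θ * x j)) := by
      intro j _
      have h2 : 1 + (θ * m - θ * x j) ≤ exp (θ * m - θ * x j) := by
        have := add_one_le_exp (θ * m - θ * x j)
        linarith
      have h3 : exp (-(θ * x j)) = exp (-(θ * m)) * exp (θ * m - θ * x j) := by
        rw [← exp_add]; congr 1; ring
      rw [h3]
      exact mul_le_mul_of_nonneg_left h2 (exp_pos _).le
    have h4 := Finset.sum_le_sum h1
    have h5 : ∑ j : Fin l, exp (-(θ * m)) * (1 + (θ * m - θ * x j)) = l * exp (-(θ * m)) := by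
      have h6 : ∑ j : Fin l, exp (-(θ * m)) * (1 + (θ * m - θ * x j))
          = exp (-(θ * m)) * (l * (1 + θ * m) - θ * ∑ j, x j) := by
        rw [← Finset.mul_sum]
        congr 1
        have : ∀ j : Fin l, 1 + (θ * m - θ * x j) = (1 + θ * m) - θ * x j := fun j => by ring
        rw [Finset.sum_congr rfl fun j _ => this j, Finset.sum_sub_distrib, ← Finset.mul_sum]
        simp only [Finset.sum_const, Finset.card_univ, Fintype.card_fin, nsmul_eq_mul]
      rw [h6]
      have h7 : ∑ j, x j = l * m := by rw [hm]; field_simp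
      rw [h7]; ring
    rw [h5] at h4
    rw [le_div_iff₀ hl']
    linarith
  have h8 : ∀ i, exp (θ * (x i - m)) ≤ (∑ j, exp (θ * (x i - x j))) / l := by
    intro i
    have e1 : exp (θ * (x i - m)) = exp (θ * x i) * exp (-(θ * m)) := by
      rw [← exp_add]; congr 1; ring
    have e2 : (∑ j, exp (θ * (x i - x j))) / l = exp (θ * x i) * ((∑ j, exp (-(θ * x j))) / l) := by
      rw [mul_div_assoc', Finset.mul_sum]
      congr 1
      refine Finset.sum_congr rfl fun j _ => ?_
      rw [← exp_add]; congr 1; ring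
    rw [e1, e2]
    exact mul_le_mul_of_nonneg_left hJ (exp_pos _).le
  have h9 : (∑ i, exp (θ * (x i - m))) ≤ (∑ i, ∑ j, exp (θ * (x i - x j))) / l := by
    rw [Finset.sum_div]
    exact Finset.sum_le_sum fun i _ => h8 i
  have h10 : ∑ i, ∑ j, exp (θ * (x i - x j)) = ∑ i, ∑ j, cosh (θ * (x i - x j)) := by
    have hs : ∑ i, ∑ j, exp (θ * (x i - x j)) = ∑ i, ∑ j, exp (-(θ * (x i - x j))) := by
      rw [Finset.sum_comm]
      refine Finset.sum_congr rfl fun i _ => Finset.sum_congr rfl fun j _ => ?_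
      congr 1; ring
    have h2 : ∑ i, ∑ j, cosh (θ * (x i - x j))
        = (∑ i, ∑ j, exp (θ * (x i - x j)) + ∑ i, ∑ j, exp (-(θ * (x i - x j)))) / 2 := by
      rw [← Finset.sum_add_distrib, Finset.sum_div]
      refine Finset.sum_congr rfl fun i _ => ?_
      rw [← Finset.sum_add_distrib, Finset.sum_div]
      refine Finset.sum_congr rfl fun j _ => ?_
      rw [cosh_eq]
    rw [h2, ← hs]; ring
  have h11 : ∑ i, ∑ j, cosh (θ * (x i - x j)) ≤ ∑ _i : Fin l, ∑ _j : Fin l, exp (2 * θ ^ 2 * A ^ 2) := by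
    refine Finset.sum_le_sum fun i _ => Finset.sum_le_sum fun j _ => ?_
    refine (cosh_le_exp_half_sq _).trans (exp_le_exp.2 ?_)
    have ha := abs_le.1 (hA i)
    have hb := abs_le.1 (hA j)
    have hd : (x i - x j) ^ 2 ≤ (2 * A) ^ 2 := by
      apply sq_le_sq'
      · linarith [ha.1, hb.2]
      · linarith [ha.2, hb.1]
    nlinarith [sq_nonneg θ, hd, mul_le_mul_of_nonneg_left hd (sq_nonneg θ)]
  calc (∑ i, exp (θ * (x i - m))) ≤ (∑ i, ∑ j, exp (θ * (x i - x j))) / l := h9
    _ ≤ (∑ _i : Fin l, ∑ _j : Fin l, exp (2 * θ ^ 2 * A ^ 2)) / l := by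
        rw [h10]; exact div_le_div_of_nonneg_right h11 hl'.le
    _ = l * exp (2 * θ ^ 2 * A ^ 2) := by
        simp only [Finset.sum_const, Finset.card_univ, Fintype.card_fin, nsmul_eq_mul]
        field_simp

/-- exponential moment of the sum over the chosen blocks -/
theorem mgf_prod {n l : ℕ} (hl : 0 < l) (h : Fin n → Fin l → ℝ) (A θ : ℝ)
    (hA : ∀ j i, |h j i| ≤ A) :
    ∑ β : Fin n → Fin l, exp (θ * ((∑ j, h j (β j)) - (∑ j, ∑ i, h j i) / l))
      ≤ (l : ℝ) ^ n * exp (2 * θ ^ 2 * A ^ 2 * n) := by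
  have e1 : ∀ β : Fin n → Fin l, exp (θ * ((∑ j, h j (β j)) - (∑ j, ∑ i, h j i) / l))
      = ∏ j, exp (θ * (h j (β j) - (∑ i, h j i) / l)) := by
    intro β
    rw [← exp_sum]
    congr 1
    rw [← Finset.mul_sum, Finset.sum_sub_distrib, Finset.sum_div]
  rw [Finset.sum_congr rfl fun β _ => e1 β]
  have e2 : ∑ β : Fin n → Fin l, ∏ j, exp (θ * (h j (β j) - (∑ i, h j i) / l))
      = ∏ j, ∑ i, exp (θ * (h j i - (∑ i, h j i) / l)) := by
    rw [Finset.prod_univ_sum, Fintype.piFinset_univ]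
  rw [e2]
  calc ∏ j, ∑ i, exp (θ * (h j i - (∑ i, h j i) / l))
      ≤ ∏ _j : Fin n, (l * exp (2 * θ ^ 2 * A ^ 2)) := by
        refine Finset.prod_le_prod (fun j _ => Finset.sum_nonneg fun i _ => (exp_pos _).le) ?_
        intro j _
        exact mgf_one hl (h j) A θ (hA j)
    _ = (l : ℝ) ^ n * exp (2 * θ ^ 2 * A ^ 2 * n) := by
        rw [Finset.prod_const, Finset.card_univ, Fintype.card_fin, mul_pow, ← exp_nat_mul]
        congr 2
        ring

/-- one sided tail -/
theorem card_tail_one {n l : ℕ} (hl : 0 < l) (h : Fin n → Fin l → ℝ) {A s : ℝ} (hA0 : 0 < A)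
    (hn : 0 < n) (hA : ∀ j i, |h j i| ≤ A) :
    ((univ.filter fun β : Fin n → Fin l =>
        s ≤ (∑ j, h j (β j)) - (∑ j, ∑ i, h j i) / l).card : ℝ)
      ≤ (l : ℝ) ^ n * exp (-(s ^ 2 / (8 * A ^ 2 * n))) ∨ s < 0 := by
  by_cases hs : s < 0
  · exact Or.inr hs
  left
  push Not at hs
  have hn' : (0 : ℝ) < n := by exact_mod_cast hn
  set θ : ℝ := s / (4 * A ^ 2 * n) with hθ
  have hθ0 : 0 ≤ θ := by rw [hθ]; positivity
  have h1 := mgf_prod hl h A θ hA
  have h2 : ((univ.filter fun β : Fin n → Fin l =>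
        s ≤ (∑ j, h j (β j)) - (∑ j, ∑ i, h j i) / l).card : ℝ) * exp (θ * s)
      ≤ ∑ β : Fin n → Fin l, exp (θ * ((∑ j, h j (β j)) - (∑ j, ∑ i, h j i) / l)) := by
    rw [← nsmul_eq_mul, ← Finset.sum_const]
    refine le_trans (Finset.sum_le_sum (g := fun β : Fin n → Fin l =>
      exp (θ * ((∑ j, h j (β j)) - (∑ j, ∑ i, h j i) / l))) ?_)
      (Finset.sum_le_sum_of_subset_of_nonneg (Finset.filter_subset _ _)
        fun β _ _ => (exp_pos _).le)
    intro β hβ
    rw [Finset.mem_filter] at hβ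
    exact exp_le_exp.2 (mul_le_mul_of_nonneg_left hβ.2 hθ0)
  have h3 := h2.trans h1
  rw [← le_div_iff₀ (exp_pos _)] at h3
  refine h3.trans (le_of_eq ?_)
  rw [mul_div_assoc, ← exp_sub]
  congr 2
  rw [hθ]
  field_simp
  ring

/-- **sampling of blocks**: two sided tail -/
theorem card_tail {n l : ℕ} (hl : 0 < l) (h : Fin n → Fin l → ℝ) {A s : ℝ} (hA0 : 0 < A)
    (hn : 0 < n) (hs : 0 ≤ s) (hA : ∀ j i, |h j i| ≤ A) :
    ((univ.filter fun β : Fin n → Fin l =>
        s ≤ |(∑ j, h j (β j)) - (∑ j, ∑ i, h j i) / l|).card : ℝ)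
      ≤ 2 * (l : ℝ) ^ n * exp (-(s ^ 2 / (8 * A ^ 2 * n))) := by
  have h1 := (card_tail_one hl h hA0 hn hA (s := s)).resolve_right (not_lt.2 hs)
  have h2 := (card_tail_one hl (fun j i => - h j i) hA0 hn
    (by intro j i; rw [abs_neg]; exact hA j i) (s := s)).resolve_right (not_lt.2 hs)
  have h3 : (univ.filter fun β : Fin n → Fin l =>
        s ≤ |(∑ j, h j (β j)) - (∑ j, ∑ i, h j i) / l|)
      ⊆ (univ.filter fun β : Fin n → Fin l => s ≤ (∑ j, h j (β j)) - (∑ j, ∑ i, h j i) / l) ∪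
        (univ.filter fun β : Fin n → Fin l =>
          s ≤ (∑ j, - h j (β j)) - (∑ j, ∑ i, - h j i) / l) := by
    intro β hβ
    rw [Finset.mem_filter] at hβ
    rw [Finset.mem_union, Finset.mem_filter, Finset.mem_filter]
    rcases le_abs.1 hβ.2 with h | h
    · exact Or.inl ⟨mem_univ _, h⟩
    · refine Or.inr ⟨mem_univ _, ?_⟩
      simp only [Finset.sum_neg_distrib, neg_div]
      linarith
  have h4 : ((univ.filter fun β : Fin n → Fin l =>
        s ≤ |(∑ j, h j (β j)) - (∑ j, ∑ i, h j i) / l|).card : ℝ)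
      ≤ ((univ.filter fun β : Fin n → Fin l =>
          s ≤ (∑ j, h j (β j)) - (∑ j, ∑ i, h j i) / l).card : ℝ) +
        ((univ.filter fun β : Fin n → Fin l =>
          s ≤ (∑ j, - h j (β j)) - (∑ j, ∑ i, - h j i) / l).card : ℝ) := by
    exact_mod_cast (Finset.card_le_card h3).trans (Finset.card_union_le _ _)
  linarith

/-- min ≤ average: one deterministic choice -/
theorem exists_choice {Ω : Type*} [MeasurableSpace Ω] (μ : Measure Ω) [IsProbabilityMeasure μ]
    {ι : Type*} [Fintype ι] [Nonempty ι] (Bad : ι → Set Ω) (hBad : ∀ β, MeasurableSet (Bad β))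
    (N : Set Ω) (hN : MeasurableSet N) {δ : ℝ} (hδ : 0 ≤ δ)
    (h : ∀ ω, ω ∉ N → (∑ β, (Bad β).indicator (fun _ => (1 : ℝ)) ω) ≤ δ * Fintype.card ι) :
    ∃ β, μ.real (Bad β) ≤ μ.real N + δ := by
  by_contra hcon
  push Not at hcon
  have hc : (0 : ℝ) < Fintype.card ι := by exact_mod_cast Fintype.card_pos
  have hint : ∀ β, Integrable ((Bad β).indicator (fun _ => (1 : ℝ))) μ := fun β =>
    (integrable_const (1 : ℝ)).indicator (hBad β)
  have h1 : ∑ β, μ.real (Bad β) = ∫ ω, ∑ β, (Bad β).indicator (fun _ => (1 : ℝ)) ω ∂μ := by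
    rw [integral_finsetSum _ fun β _ => hint β]
    refine Finset.sum_congr rfl fun β _ => ?_
    rw [integral_indicator (hBad β)]
    simp [Measure.real]
  have h2 : ∫ ω, ∑ β, (Bad β).indicator (fun _ => (1 : ℝ)) ω ∂μ
      ≤ ∫ ω, (N.indicator (fun _ => (Fintype.card ι : ℝ)) ω + δ * Fintype.card ι) ∂μ := by
    refine integral_mono (integrable_finsetSum _ fun β _ => hint β)
      (((integrable_const _).indicator hN).add (integrable_const _)) ?_
    intro ω
    by_cases hω : ω ∈ N
    · simp only [Set.indicator_of_mem hω]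
      have : ∑ β, (Bad β).indicator (fun _ => (1 : ℝ)) ω ≤ ∑ _β : ι, (1 : ℝ) := by
        refine Finset.sum_le_sum fun β _ => ?_
        by_cases hb : ω ∈ Bad β
        · simp [hb]
        · simp [hb]
      have h' : ∑ _β : ι, (1 : ℝ) = Fintype.card ι := by simp
      have : 0 ≤ δ * Fintype.card ι := by positivity
      linarith
    · simp only [Set.indicator_of_notMem hω]
      have := h ω hω
      linarith
  have h3 : ∫ ω, (N.indicator (fun _ => (Fintype.card ι : ℝ)) ω + δ * Fintype.card ι) ∂μ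
      = (μ.real N + δ) * Fintype.card ι := by
    rw [integral_add ((integrable_const _).indicator hN) (integrable_const _),
      integral_indicator hN]
    simp [Measure.real]
    ring
  have h4 : (μ.real N + δ) * Fintype.card ι < ∑ β, μ.real (Bad β) := by
    have : ∑ _β : ι, (μ.real N + δ) < ∑ β, μ.real (Bad β) :=
      Finset.sum_lt_sum_of_nonempty univ_nonempty fun β _ => hcon β
    rw [Finset.sum_const, Finset.card_univ, nsmul_eq_mul] at this
    linarith
  linarith [h1, h2, h3, h4]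

/-- **one deterministic sample of blocks is good for a finite family of random numbers.**
`h k ω j i` is the number of the block `i` of the group `j`; off the set `N` all numbers are
bounded by `A` and all the full sums by `Γ`. -/
theorem exists_sample {Ω : Type*} [MeasurableSpace Ω] (μ : Measure Ω) [IsProbabilityMeasure μ]
    {κ : Type*} (K : Finset κ) {n l : ℕ} (hl : 0 < l) (hn : 0 < n)
    (h : κ → Ω → Fin n → Fin l → ℝ) (hm : ∀ k j i, Measurable fun ω => h k ω j i)
    {A Γ s : ℝ} (hA0 : 0 < A) (hs : 0 ≤ s) (N : Set Ω) (hN : MeasurableSet N)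
    (hA : ∀ ω, ω ∉ N → ∀ k ∈ K, ∀ j i, |h k ω j i| ≤ A)
    (hΓ : ∀ ω, ω ∉ N → ∀ k ∈ K, |∑ j, ∑ i, h k ω j i| ≤ Γ) :
    ∃ β : Fin n → Fin l,
      μ.real {ω | ∃ k ∈ K, Γ / l + s ≤ |∑ j, h k ω j (β j)|}
        ≤ μ.real N + K.card * (2 * exp (-(s ^ 2 / (8 * A ^ 2 * n)))) := by
  classical
  have hl' : (0 : ℝ) < l := by exact_mod_cast hl
  have : Nonempty (Fin n → Fin l) := ⟨fun _ => ⟨0, hl⟩⟩
  refine exists_choice μ (fun β : Fin n → Fin l =>
    {ω | ∃ k ∈ K, Γ / l + s ≤ |∑ j, h k ω j (β j)|}) ?_ N hN (by positivity) ?_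
  · intro β
    have : {ω | ∃ k ∈ K, Γ / l + s ≤ |∑ j, h k ω j (β j)|}
        = ⋃ k ∈ K, {ω | Γ / l + s ≤ |∑ j, h k ω j (β j)|} := by
      ext ω; simp
    rw [this]
    refine Finset.measurableSet_biUnion K fun k _ => ?_
    refine measurableSet_le measurable_const ?_
    exact (Finset.measurable_sum _ fun j _ => hm k j (β j)).abs
  · intro ω hω
    have h1 : ∀ β : Fin n → Fin l,
        ({ω | ∃ k ∈ K, Γ / l + s ≤ |∑ j, h k ω j (β j)|} : Set Ω).indicator
          (fun _ => (1 : ℝ)) ω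
        ≤ ∑ k ∈ K, if s ≤ |(∑ j, h k ω j (β j)) - (∑ j, ∑ i, h k ω j i) / l|
            then (1 : ℝ) else 0 := by
      intro β
      by_cases hb : ω ∈ ({ω | ∃ k ∈ K, Γ / l + s ≤ |∑ j, h k ω j (β j)|} : Set Ω)
      · rw [Set.indicator_of_mem hb]
        obtain ⟨k, hk, hb'⟩ := hb
        have h2 : s ≤ |(∑ j, h k ω j (β j)) - (∑ j, ∑ i, h k ω j i) / l| := by
          have h3 : |∑ j, h k ω j (β j)| ≤
              |(∑ j, h k ω j (β j)) - (∑ j, ∑ i, h k ω j i) / l|
                + |(∑ j, ∑ i, h k ω j i) / l| := by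
            have := abs_add_le ((∑ j, h k ω j (β j)) - (∑ j, ∑ i, h k ω j i) / l)
              ((∑ j, ∑ i, h k ω j i) / l)
            simpa using this
          have h4 : |(∑ j, ∑ i, h k ω j i) / l| ≤ Γ / l := by
            rw [abs_div, abs_of_pos hl']
            exact div_le_div_of_nonneg_right (hΓ ω hω k hk) hl'.le
          linarith
        have h5 : (if s ≤ |(∑ j, h k ω j (β j)) - (∑ j, ∑ i, h k ω j i) / l|
            then (1 : ℝ) else 0) = 1 := if_pos h2
        calc (1 : ℝ) = (if s ≤ |(∑ j, h k ω j (β j)) - (∑ j, ∑ i, h k ω j i) / l|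
            then (1 : ℝ) else 0) := h5.symm
          _ ≤ _ := Finset.single_le_sum (f := fun k =>
              if s ≤ |(∑ j, h k ω j (β j)) - (∑ j, ∑ i, h k ω j i) / l|
                then (1 : ℝ) else 0) (fun k _ => by positivity) hk
      · rw [Set.indicator_of_notMem hb]
        exact Finset.sum_nonneg fun k _ => by positivity
    have h6 : ∑ β : Fin n → Fin l,
        ({ω | ∃ k ∈ K, Γ / l + s ≤ |∑ j, h k ω j (β j)|} : Set Ω).indicator
          (fun _ => (1 : ℝ)) ω
        ≤ ∑ k ∈ K, ∑ β : Fin n → Fin l,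
          if s ≤ |(∑ j, h k ω j (β j)) - (∑ j, ∑ i, h k ω j i) / l|
            then (1 : ℝ) else 0 := by
      rw [Finset.sum_comm]
      exact Finset.sum_le_sum fun β _ => h1 β
    refine h6.trans ?_
    have h7 : ∀ k ∈ K, (∑ β : Fin n → Fin l,
          if s ≤ |(∑ j, h k ω j (β j)) - (∑ j, ∑ i, h k ω j i) / l|
            then (1 : ℝ) else 0) ≤ 2 * (l : ℝ) ^ n * exp (-(s ^ 2 / (8 * A ^ 2 * n))) := by
      intro k hk
      have := card_tail hl (h k ω) hA0 hn hs (hA ω hω k hk)
      rw [Finset.sum_ite, Finset.sum_const, Finset.sum_const_zero, add_zero, nsmul_eq_mul, mul_one]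
      exact this
    refine (Finset.sum_le_sum h7).trans (le_of_eq ?_)
    rw [Finset.sum_const, nsmul_eq_mul]
    simp only [Fintype.card_pi, Fintype.card_fin, Finset.prod_const, Finset.card_univ]
    push_cast
    ring

end W_7d29a1_Z.Samp81
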