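import Pool.Agent.W_7d29a1_Z.Defs
import Pool.Agent.W_7d29a1_F.CoreB1

/-!
STORM Z, ACTION: the shears act on the environment, on the pieces `fk`, on the zones `fb`, `Db`, on the annealed measures
`P1`, `P2`, `P3`; measurability. All statements in the names of `Defs.lean`. (helper12)
-/

namespace Pool.Agent.W_7d29a1_Z.A12

open MeasureTheory ProbabilityTheory Finset
open Pool.Agent.W_7d29a1_F Pool.Agent.W_7d29a1_X Pool.Agent.W_7d29a1_Z
open scoped ENNReal

/-! ### The shifts `sv` -/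

theorem sv_self (v : ℕ → ℤ) (a : ℕ) : sv v a a = 0 := by simp [sv]

theorem sv_of_le (v : ℕ → ℤ) {a i : ℕ} (h : i ≤ a) : sv v a i = 0 := by
  unfold sv
  rw [Ico_eq_empty (by omega), sum_empty]

theorem sv_succ (v : ℕ → ℤ) {a i : ℕ} (h : a ≤ i) : sv v a (i + 1) = sv v a i + v i := by
  unfold sv
  rw [sum_Ico_succ_top h]

theorem sv_split (v : ℕ → ℤ) {a b c : ℕ} (h1 : a ≤ b) (h2 : b ≤ c) : sv v a c = sv v a b + sv v b c := by
  unfold sv
  rw [sum_Ico_consecutive _ h1 h2]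

theorem sv_add (v w : ℕ → ℤ) (a i : ℕ) : sv (v + w) a i = sv v a i + sv w a i := by
  unfold sv
  rw [← sum_add_distrib]
  rfl

theorem sv_neg (v : ℕ → ℤ) (a i : ℕ) : sv (-v) a i = -sv v a i := by
  unfold sv
  rw [← sum_neg_distrib]
  rfl

theorem sv_zero (a i : ℕ) : sv 0 a i = 0 := by simp [sv]

theorem sv_congr {v w : ℕ → ℤ} {a i : ℕ} (h : ∀ k, a ≤ k → k < i → v k = w k) : sv v a i = sv w a i := by
  unfold sv
  refine sum_congr rfl fun k hk => ?_
  rw [mem_Ico] at hk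
  exact h k hk.1 hk.2

theorem sv_eq_zero {v : ℕ → ℤ} {a i : ℕ} (h : ∀ k, a ≤ k → k < i → v k = 0) : sv v a i = 0 := by
  rw [sv_congr (w := 0) h, sv_zero]

theorem abs_sv_le (v : ℕ → ℤ) (a i : ℕ) : |sv v a i| ≤ ∑ k ∈ Ico a i, |v k| := abs_sum_le_sum_abs _ _

/-! ### The sheared environments -/

theorem shr_apply (a : ℕ) (v : ℕ → ℤ) (η : Env) (i : ℕ) (z : ℤ) : shr a v η ((i : ℤ), z) = η ((i : ℤ), z - sv v a i) := by
  simp [shr]

theorem shr_shr (a : ℕ) (v w : ℕ → ℤ) (η : Env) : shr a v (shr a w η) = shr a (v + w) η := by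
  funext p
  simp only [shr]
  rw [sv_add]
  congr 2
  ring

theorem shr_zero (a : ℕ) (η : Env) : shr a 0 η = η := by
  funext p
  simp [shr, sv_zero]

theorem shr_neg (a : ℕ) (v : ℕ → ℤ) (η : Env) : shr a (-v) (shr a v η) = η := by
  rw [shr_shr, neg_add_cancel, shr_zero]

theorem shr_neg' (a : ℕ) (v : ℕ → ℤ) (η : Env) : shr a v (shr a (-v) η) = η := by
  rw [shr_shr, add_neg_cancel, shr_zero]

/-- The rows up to `a` are not shifted. -/
theorem shr_row_le (a : ℕ) (v : ℕ → ℤ) (η : Env) {p : Pt} (h : p.1 ≤ a) : shr a v η p = η p := by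
  have h1 : p.1.toNat ≤ a := by omega
  unfold shr
  rw [sv_of_le v h1, sub_zero]

theorem shr_row_congr (a : ℕ) {v w : ℕ → ℤ} {b : ℕ} (h : ∀ k, a ≤ k → k < b → v k = w k) (η : Env) {p : Pt} (hp : p.1 ≤ b) :
    shr a v η p = shr a w η p := by
  have h1 : sv v a p.1.toNat = sv w a p.1.toNat := sv_congr fun k hk1 hk2 => h k hk1 (by omega)
  unfold shr
  rw [h1]

theorem measurable_shr (a : ℕ) (v : ℕ → ℤ) : Measurable (shr a v) :=
  measurable_pi_iff.2 fun _ => measurable_pi_apply _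

/-- The shears as equivalences. -/
def shrEquiv (a : ℕ) (v : ℕ → ℤ) : Env ≃ᵐ Env where
  toFun := shr a v
  invFun := shr a (-v)
  left_inv := shr_neg a v
  right_inv := shr_neg' a v
  measurable_toFun := measurable_shr a v
  measurable_invFun := measurable_shr a (-v)

theorem emb_shr (a : ℕ) (v : ℕ → ℤ) : MeasurableEmbedding (shr a v) := (shrEquiv a v).measurableEmbedding

section law

variable {μ : Measure ℝ} [IsProbabilityMeasure μ]

/-- The shears preserve the law of the environment. -/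
theorem mp_shr (a : ℕ) (v : ℕ → ℤ) : MeasurePreserving (shr a v) (law μ) (law μ) := by
  refine mp_reindex (μ := μ) (fun p : Pt => ((p.1, p.2 - sv v a p.1.toNat) : Pt)) ?_
  rintro ⟨i, y⟩ ⟨j, z⟩ h
  simp only [Prod.mk.injEq] at h
  obtain ⟨h1, h2⟩ := h
  subst h1
  exact Prod.ext rfl (by simpa using h2)

theorem law_shr (a : ℕ) (v : ℕ → ℤ) (E : Set Env) : law μ {η | shr a v η ∈ E} = law μ E :=
  (mp_shr (μ := μ) a v).measure_preimage_emb (emb_shr a v) E

end law

/-! ### The partition functions -/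

/-- Equal weights of the sites, equal partition functions. -/
theorem Zr_cong {R R' : Set Pt} {η η' : Env} {a a' : Pt} (n : ℕ)
    (h : ∀ m : ℕ, m < n → ∀ z : ℤ, R.indicator (fun p => Real.exp (η p)) (a.1 + (m + 1), a.2 + z) =
      R'.indicator (fun p => Real.exp (η' p)) (a'.1 + (m + 1), a'.2 + z)) (y : ℤ) :
    Zr R η a n y = Zr R' η' a' n y := by
  induction n generalizing y with
  | zero => rfl
  | succ n ih =>
    have ih' := ih fun m hm => h m (by omega)
    rw [Zr_succ89, Zr_succ89, ih', ih', h n (by omega) y]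

variable {μ : Measure ℝ}

theorem WR_cong {s : ℝ} {R R' : Set Pt} {η η' : Env} {a a' : Pt} (n : ℕ)
    (h : ∀ m : ℕ, m < n → ∀ z : ℤ, R.indicator (fun p => Real.exp (η p)) (a.1 + (m + 1), a.2 + z) =
      R'.indicator (fun p => Real.exp (η' p)) (a'.1 + (m + 1), a'.2 + z)) (y : ℤ) :
    WR μ s R η a n y = WR μ s R' η' a' n y := by
  unfold WR
  rw [Zr_cong n h]

theorem W_cong {s : ℝ} {η η' : Env} {a a' : Pt} (n : ℕ)
    (h : ∀ m : ℕ, m < n → ∀ z : ℤ, η (a.1 + (m + 1), a.2 + z) = η' (a'.1 + (m + 1), a'.2 + z)) (y : ℤ) :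
    W μ s η a n y = W μ s η' a' n y := by
  refine WR_cong n (fun m hm z => ?_) y
  rw [Set.indicator_of_mem (Set.mem_univ _), Set.indicator_of_mem (Set.mem_univ _), h m hm z]

/-- The weights from the row `a` on see the shears before `a` as a shift. -/
theorem W_shr_shift {s : ℝ} (v : ℕ → ℤ) (η : Env) {c a : ℕ} (hc : c ≤ a) (x : ℤ) (n : ℕ) (y : ℤ) :
    W μ s (shr c v η) ((a : ℤ), x + sv v c a) n y = W μ s (shr a v η) ((a : ℤ), x) n y := by
  refine W_cong n (fun m _ z => ?_) y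
  show shr c v η ((a : ℤ) + ((m : ℤ) + 1), x + sv v c a + z) = shr a v η ((a : ℤ) + ((m : ℤ) + 1), x + z)
  have e1 : (a : ℤ) + ((m : ℤ) + 1) = ((a + (m + 1) : ℕ) : ℤ) := by push_cast; ring
  rw [e1, shr_apply, shr_apply, sv_split v hc (show a ≤ a + (m + 1) by omega)]
  congr 2
  ring

theorem W_shr_zero {s : ℝ} (v : ℕ → ℤ) (η : Env) (a : ℕ) (x : ℤ) (n : ℕ) (y : ℤ) :
    W μ s (shr 0 v η) ((a : ℤ), x + sv v 0 a) n y = W μ s (shr a v η) ((a : ℤ), x) n y :=
  W_shr_shift v η (Nat.zero_le a) x n y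

/-! ### The pieces `fk` -/

theorem fk_zero (η : Env) (a b : ℕ) (x y : ℤ) : fk μ 0 η a b x y = Real.log (W μ 0 η ((a : ℤ), x) (b - a) (y - x)) := by
  unfold fk
  rw [shr_zero, sv_zero, add_zero]

theorem exp_fk (v : ℕ → ℤ) (η : Env) {a b : ℕ} {x y : ℤ} (h0 : 0 ≤ y - x + sv v a b) (h1 : y - x + sv v a b ≤ ((b - a : ℕ) : ℤ)) :
    Real.exp (fk μ v η a b x y) = W μ 0 (shr a v η) ((a : ℤ), x) (b - a) (y - x + sv v a b) :=
  Real.exp_log (W_pos _ _ h0 h1)

/-- Two shears. -/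
theorem fk_add (v w : ℕ → ℤ) (η : Env) (a b : ℕ) (x y : ℤ) :
    fk μ (v + w) η a b x y = fk μ v (shr a w η) a b x (y + sv w a b) := by
  unfold fk
  rw [shr_shr, sv_add]
  congr 2
  ring

/-- The piece of a sheared environment, the shears start at `c`. -/
theorem fk_shr (v w : ℕ → ℤ) (η : Env) {c a b : ℕ} (hc : c ≤ a) (hab : a ≤ b) (x y : ℤ) :
    fk μ v (shr c w η) a b x y = fk μ (v + w) η a b (x - sv w c a) (y - sv w c b) := by
  unfold fk
  have e1 : y - sv w c b - (x - sv w c a) + sv (v + w) a b = y - x + sv v a b := by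
    rw [sv_add, sv_split w hc hab]
    ring
  rw [e1]
  congr 1
  refine W_cong (b - a) (fun m _ z => ?_) _
  show shr a v (shr c w η) ((a : ℤ) + ((m : ℤ) + 1), x + z) = shr a (v + w) η ((a : ℤ) + ((m : ℤ) + 1), x - sv w c a + z)
  have e2 : (a : ℤ) + ((m : ℤ) + 1) = ((a + (m + 1) : ℕ) : ℤ) := by push_cast; ring
  rw [e2, shr_apply, shr_apply, shr_apply, sv_add, sv_split w hc (show a ≤ a + (m + 1) by omega)]
  congr 2
  ring

/-- The piece of the environment `shr 0 w η`, at the points of a path: the frame of the environment. -/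
theorem fk_shr0 (v w : ℕ → ℤ) (η : Env) {a b : ℕ} (hab : a ≤ b) (S : Finset ℕ) :
    fk μ v (shr 0 w η) a b (pos S a) (pos S b) = fk μ (v + w) η a b (px w S a) (px w S b) :=
  fk_shr v w η (Nat.zero_le a) hab _ _

/-- Locality in the shears. -/
theorem fk_congr {v w : ℕ → ℤ} {a b : ℕ} (h : ∀ k, a ≤ k → k < b → v k = w k) (η : Env) (x y : ℤ) :
    fk μ v η a b x y = fk μ w η a b x y := by
  unfold fk
  rw [sv_congr h]
  congr 1
  refine W_cong (b - a) (fun m hm z => ?_) _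
  refine shr_row_congr a h η ?_
  show (a : ℤ) + ((m : ℤ) + 1) ≤ b
  omega

/-- Locality in the environment: the rows `a + 1, .., b`. -/
theorem fk_congr_env (v : ℕ → ℤ) {a b : ℕ} {η η' : Env} (h : ∀ q : Pt, (a : ℤ) < q.1 → q.1 ≤ b → η q = η' q) (x y : ℤ) :
    fk μ v η a b x y = fk μ v η' a b x y := by
  unfold fk
  congr 1
  refine W_cong (b - a) (fun m hm z => ?_) _
  show shr a v η ((a : ℤ) + ((m : ℤ) + 1), x + z) = shr a v η' ((a : ℤ) + ((m : ℤ) + 1), x + z)
  unfold shr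
  refine h _ ?_ ?_
  · show (a : ℤ) < (a : ℤ) + ((m : ℤ) + 1)
    omega
  · show (a : ℤ) + ((m : ℤ) + 1) ≤ b
    omega

/-- Translation of the rows. -/
theorem fk_time (v : ℕ → ℤ) (η : Env) (c a b : ℕ) (x y : ℤ) :
    fk μ v η (c + a) (c + b) x y = fk μ (fun k => v (c + k)) (sh ((c : ℤ), 0) η) a b x y := by
  have hs : ∀ i, sv v (c + a) (c + i) = sv (fun k => v (c + k)) a i := by
    intro i
    unfold sv
    rw [sum_Ico_eq_sum_range, sum_Ico_eq_sum_range, show c + i - (c + a) = i - a by omega]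
    refine sum_congr rfl fun k _ => ?_
    rw [add_assoc]
  unfold fk
  rw [hs b, show c + b - (c + a) = b - a by omega]
  congr 1
  refine W_cong (b - a) (fun m _ z => ?_) _
  show shr (c + a) v η (((c + a : ℕ) : ℤ) + ((m : ℤ) + 1), x + z) =
    shr a (fun k => v (c + k)) (sh ((c : ℤ), 0) η) ((a : ℤ) + ((m : ℤ) + 1), x + z)
  have e1 : ((c + a : ℕ) : ℤ) + ((m : ℤ) + 1) = ((c + (a + (m + 1)) : ℕ) : ℤ) := by push_cast; ring
  have e2 : (a : ℤ) + ((m : ℤ) + 1) = ((a + (m + 1) : ℕ) : ℤ) := by push_cast; ring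
  rw [e1, e2, shr_apply, shr_apply, hs]
  unfold sh
  congr 1
  refine Prod.ext ?_ ?_
  · show ((c + (a + (m + 1)) : ℕ) : ℤ) = ((a + (m + 1) : ℕ) : ℤ) + (c : ℤ)
    push_cast
    ring
  · show _ = _ + (0 : ℤ)
    rw [add_zero]

/-- Translation of the positions. -/
theorem fk_space (v : ℕ → ℤ) (η : Env) (a b : ℕ) (x y z : ℤ) :
    fk μ v η a b (x + z) (y + z) = fk μ v (sh (0, z) η) a b x y := by
  unfold fk
  rw [show y + z - (x + z) + sv v a b = y - x + sv v a b by ring]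
  congr 1
  refine W_cong (b - a) (fun m _ u => ?_) _
  show η ((a : ℤ) + ((m : ℤ) + 1), x + z + u - sv v a _) = η ((a : ℤ) + ((m : ℤ) + 1) + 0, x + u - sv v a _ + z)
  rw [add_zero]
  congr 2
  ring

section meas

theorem measurable_fk (v : ℕ → ℤ) (a b : ℕ) (x y : ℤ) : Measurable fun η : Env => fk μ v η a b x y :=
  Real.measurable_log.comp ((measurable_W (μ := μ) (s := 0) _ _ _).comp (measurable_shr a v))

theorem measurable_fb (t τ : ℕ) (I : Finset ℕ) (b : ℕ) (a : ℤ) (X : ℕ → ℤ) : Measurable fun η : Env => fb μ t τ I η b a X :=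
  measurable_fk _ _ _ _ _

theorem measurable_Db (t τ : ℕ) (I : Finset ℕ) (s : ℤ) (b : ℕ) (a : ℤ) (X : ℕ → ℤ) :
    Measurable fun η : Env => Db μ t τ I s η b a X :=
  ((measurable_fb t τ I b (a + s) X).add (measurable_fb t τ I b (a - s) X)).sub ((measurable_fb t τ I b a X).const_mul 2)

theorem measurable_Xd (v : ℕ → ℤ) (Q : Finset (ℕ × ℕ)) (X : ℕ → ℤ) : Measurable fun η : Env => Xd μ v Q η X :=
  Finset.measurable_sum _ fun _ _ => (measurable_fk _ _ _ _ _).sub (measurable_fk _ _ _ _ _)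

theorem measurable_kr (R : Set Pt) (a b : ℕ) (X : ℕ → ℤ) : Measurable fun η : Env => kr μ R η a b X :=
  measurable_WR _ _ _ _

theorem measurable_pth (s : ℝ) (t : ℕ) (S : Finset ℕ) : Measurable fun η : Env => pth μ s η t S := by
  unfold pth
  refine Measurable.const_mul ?_ _
  exact Finset.measurable_prod _ fun i _ => Real.measurable_exp.comp (measurable_pi_apply _)

theorem measurable_gp (N : ℕ) (y : ℤ) (S : Finset ℕ) : Measurable fun η : Env => gp μ η N y S := by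
  unfold gp
  by_cases h : pos S N = y
  · simp only [if_pos h]
    exact (measurable_pth 0 N S).div (measurable_W _ _ _)
  · simp only [if_neg h]
    exact measurable_const

end meas

/-! ### The Gibbs weights -/

theorem gp_nonneg (η : Env) (N : ℕ) (y : ℤ) (S : Finset ℕ) : 0 ≤ gp μ η N y S := by
  unfold gp
  split_ifs
  · exact div_nonneg (pth_nonneg _ _ _) (W_nonneg _ _ _ _)
  · exact le_rfl

theorem sum_gp (η : Env) {N : ℕ} {y : ℤ} (h0 : 0 ≤ y) (h1 : y ≤ N) : ∑ S ∈ (range N).powerset, gp μ η N y S = 1 := by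
  have hW : 0 < W μ 0 η 0 N y := W_pos _ _ h0 h1
  have h := Mt_one (μ := μ) (s := 0) η N y
  unfold Mt at h
  have e : ∀ S : Finset ℕ, gp μ η N y S = (if pos S N = y then pth μ 0 η N S * 1 else 0) / W μ 0 η 0 N y := by
    intro S
    unfold gp
    split_ifs
    · rw [mul_one]
    · rw [zero_div]
  simp only [e]
  rw [← sum_div, h, div_self hW.ne']

theorem gp_le_one (η : Env) {N : ℕ} {y : ℤ} (h0 : 0 ≤ y) (h1 : y ≤ N) {S : Finset ℕ} (hS : S ⊆ range N) : gp μ η N y S ≤ 1 := by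
  rw [← sum_gp (μ := μ) η h0 h1]
  exact single_le_sum (f := fun S => gp μ η N y S) (fun S _ => gp_nonneg η N y S) (mem_powerset.2 hS)

/-- The pair of Gibbs weights. -/
theorem sum_gp_mul_left (η η' : Env) {N : ℕ} {y : ℤ} (h0 : 0 ≤ y) (h1 : y ≤ N) (S' : Finset ℕ) :
    ∑ S ∈ (range N).powerset, gp μ η N y S * gp μ η' N y S' = gp μ η' N y S' := by
  rw [← sum_mul, sum_gp η h0 h1, one_mul]

theorem sum_gp_mul_right (η η' : Env) {N : ℕ} {y : ℤ} (h0 : 0 ≤ y) (h1 : y ≤ N) (S : Finset ℕ) :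
    ∑ S' ∈ (range N).powerset, gp μ η N y S * gp μ η' N y S' = gp μ η N y S := by
  rw [← mul_sum, sum_gp η' h0 h1, mul_one]

/-! ### The annealed measure `P1` -/

section P1

variable [IsProbabilityMeasure μ] {N : ℕ} {y : ℤ}

theorem P1_eq (A : Env → Finset ℕ → Prop) :
    P1 μ N y A = ∑ S ∈ (range N).powerset, ∫⁻ η in {η | A η S}, ENNReal.ofReal (gp μ η N y S) ∂law μ := by
  unfold P1
  refine sum_congr rfl fun S _ => ?_
  rw [withDensity_apply']

omit [IsProbabilityMeasure μ] in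
theorem P1_mono {A B : Env → Finset ℕ → Prop} (h : ∀ η S, A η S → B η S) : P1 μ N y A ≤ P1 μ N y B :=
  sum_le_sum fun S _ => measure_mono fun η hη => h η S hη

/-- Only the events at the paths `S ⊆ range N` with the end point `y` matter. -/
theorem P1_mono' {A B : Env → Finset ℕ → Prop} (h : ∀ η S, S ⊆ range N → pos S N = y → A η S → B η S) :
    P1 μ N y A ≤ P1 μ N y B := by
  rw [P1_eq, P1_eq]
  refine sum_le_sum fun S hS => ?_
  by_cases hy : pos S N = y
  · exact lintegral_mono_set fun η hη => h η S (mem_powerset.1 hS) hy hη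
  · have e : ∀ η : Env, ENNReal.ofReal (gp μ η N y S) = 0 := by
      intro η
      unfold gp
      rw [if_neg hy, ENNReal.ofReal_zero]
    simp only [e, lintegral_zero]
    exact le_rfl

theorem P1_congr {A B : Env → Finset ℕ → Prop} (h : ∀ η S, S ⊆ range N → pos S N = y → (A η S ↔ B η S)) :
    P1 μ N y A = P1 μ N y B :=
  le_antisymm (P1_mono' fun η S h1 h2 => (h η S h1 h2).1) (P1_mono' fun η S h1 h2 => (h η S h1 h2).2)

omit [IsProbabilityMeasure μ] in
theorem P1_or (A B : Env → Finset ℕ → Prop) : P1 μ N y (fun η S => A η S ∨ B η S) ≤ P1 μ N y A + P1 μ N y B := by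
  unfold P1
  rw [← sum_add_distrib]
  exact sum_le_sum fun S _ => measure_union_le _ _

omit [IsProbabilityMeasure μ] in
theorem P1_exists {κ : Type*} (K : Finset κ) (A : κ → Env → Finset ℕ → Prop) :
    P1 μ N y (fun η S => ∃ k ∈ K, A k η S) ≤ ∑ k ∈ K, P1 μ N y (A k) := by
  unfold P1
  rw [sum_comm]
  refine sum_le_sum fun S _ => ?_
  have e : {η : Env | ∃ k ∈ K, A k η S} = ⋃ k ∈ K, {η | A k η S} := by
    ext η
    simp
  rw [e]
  exact measure_biUnion_finset_le _ _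

/-- The events of the environment. -/
theorem P1_env (h0 : 0 ≤ y) (h1 : y ≤ N) (E : Set Env) : P1 μ N y (fun η _ => η ∈ E) = law μ E := by
  rw [P1_eq]
  have e : ∀ η : Env, ∑ S ∈ (range N).powerset, ENNReal.ofReal (gp μ η N y S) = 1 := by
    intro η
    rw [← ENNReal.ofReal_sum_of_nonneg fun S _ => gp_nonneg η N y S, sum_gp η h0 h1, ENNReal.ofReal_one]
  rw [← lintegral_finsetSum _ fun S _ => (measurable_gp N y S).ennreal_ofReal]
  simp only [e]
  rw [setLIntegral_one]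
  rfl

theorem P1_univ (h0 : 0 ≤ y) (h1 : y ≤ N) : P1 μ N y (fun _ _ => True) = 1 := by
  have h := P1_env (μ := μ) h0 h1 Set.univ
  rw [measure_univ] at h
  exact h

theorem P1_le_one (h0 : 0 ≤ y) (h1 : y ≤ N) (A : Env → Finset ℕ → Prop) : P1 μ N y A ≤ 1 := by
  rw [← P1_univ (μ := μ) h0 h1]
  exact P1_mono fun _ _ _ => trivial

theorem P1_ne_top (h0 : 0 ≤ y) (h1 : y ≤ N) (A : Env → Finset ℕ → Prop) : P1 μ N y A ≠ ⊤ :=
  ((P1_le_one h0 h1 A).trans_lt ENNReal.one_lt_top).ne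

theorem P1_add_not (h0 : 0 ≤ y) (h1 : y ≤ N) {A : Env → Finset ℕ → Prop} (hA : Ms A) :
    P1 μ N y A + P1 μ N y (fun η S => ¬ A η S) = 1 := by
  rw [← P1_univ (μ := μ) h0 h1]
  unfold P1
  rw [← sum_add_distrib]
  refine sum_congr rfl fun S _ => ?_
  have h := measure_add_measure_compl (μ := (law μ).withDensity fun η => ENNReal.ofReal (gp μ η N y S)) (hA S)
  rw [show {η : Env | (True : Prop)} = Set.univ from rfl, ← h]
  rfl

omit [IsProbabilityMeasure μ] in
theorem P1_add_disj {A B : Env → Finset ℕ → Prop} (hB : Ms B) (h : ∀ η S, A η S → ¬ B η S) :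
    P1 μ N y (fun η S => A η S ∨ B η S) = P1 μ N y A + P1 μ N y B := by
  unfold P1
  rw [← sum_add_distrib]
  refine sum_congr rfl fun S _ => ?_
  exact measure_union (Set.disjoint_left.2 fun η hη => h η S hη) (hB S)

omit [IsProbabilityMeasure μ] in
/-- An event is the sum of its parts inside and outside of another event. -/
theorem P1_split (A : Env → Finset ℕ → Prop) {B : Env → Finset ℕ → Prop} (hB : Ms B) :
    P1 μ N y (fun η S => A η S ∧ B η S) + P1 μ N y (fun η S => A η S ∧ ¬ B η S) = P1 μ N y A := by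
  unfold P1
  rw [← sum_add_distrib]
  refine sum_congr rfl fun S _ => ?_
  exact measure_inter_add_sdiff {η | A η S} (hB S)

end P1

/-! ### The annealed measure `P2` -/

section P2

variable [IsProbabilityMeasure μ] {N : ℕ} {y : ℤ}

theorem P2_eq (v : ℕ → ℤ) (A : Env → Finset ℕ → Finset ℕ → Prop) :
    P2 μ N y v A = ∑ S ∈ (range N).powerset, ∑ S' ∈ (range N).powerset,
      ∫⁻ η in {η | A η S S'}, ENNReal.ofReal (gp μ η N y S * gp μ (shr 0 v η) N y S') ∂law μ := by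
  unfold P2
  refine sum_congr rfl fun S _ => sum_congr rfl fun S' _ => ?_
  rw [withDensity_apply']

omit [IsProbabilityMeasure μ] in
theorem P2_mono {v : ℕ → ℤ} {A B : Env → Finset ℕ → Finset ℕ → Prop} (h : ∀ η S S', A η S S' → B η S S') :
    P2 μ N y v A ≤ P2 μ N y v B :=
  sum_le_sum fun S _ => sum_le_sum fun S' _ => measure_mono fun η hη => h η S S' hη

theorem P2_mono' {v : ℕ → ℤ} {A B : Env → Finset ℕ → Finset ℕ → Prop}
    (h : ∀ η S S', S ⊆ range N → S' ⊆ range N → pos S N = y → pos S' N = y → A η S S' → B η S S') :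
    P2 μ N y v A ≤ P2 μ N y v B := by
  rw [P2_eq, P2_eq]
  refine sum_le_sum fun S hS => sum_le_sum fun S' hS' => ?_
  by_cases hy : pos S N = y ∧ pos S' N = y
  · exact lintegral_mono_set fun η hη => h η S S' (mem_powerset.1 hS) (mem_powerset.1 hS') hy.1 hy.2 hη
  · have e : ∀ η : Env, ENNReal.ofReal (gp μ η N y S * gp μ (shr 0 v η) N y S') = 0 := by
      intro η
      unfold gp
      rcases not_and_or.1 hy with h1 | h1
      · rw [if_neg h1, zero_mul, ENNReal.ofReal_zero]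
      · rw [if_neg h1, mul_zero, ENNReal.ofReal_zero]
    simp only [e, lintegral_zero]
    exact le_rfl

omit [IsProbabilityMeasure μ] in
theorem P2_or (v : ℕ → ℤ) (A B : Env → Finset ℕ → Finset ℕ → Prop) :
    P2 μ N y v (fun η S S' => A η S S' ∨ B η S S') ≤ P2 μ N y v A + P2 μ N y v B := by
  unfold P2
  rw [← sum_add_distrib]
  refine sum_le_sum fun S _ => ?_
  rw [← sum_add_distrib]
  exact sum_le_sum fun S' _ => measure_union_le _ _

omit [IsProbabilityMeasure μ] in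
theorem P2_exists (v : ℕ → ℤ) {κ : Type*} (K : Finset κ) (A : κ → Env → Finset ℕ → Finset ℕ → Prop) :
    P2 μ N y v (fun η S S' => ∃ k ∈ K, A k η S S') ≤ ∑ k ∈ K, P2 μ N y v (A k) := by
  have e1 : ∑ k ∈ K, P2 μ N y v (A k) = ∑ S ∈ (range N).powerset, ∑ S' ∈ (range N).powerset, ∑ k ∈ K,
      ((law μ).withDensity fun η => ENNReal.ofReal (gp μ η N y S * gp μ (shr 0 v η) N y S')) {η | A k η S S'} := by
    unfold P2
    rw [sum_comm]
    exact sum_congr rfl fun S _ => sum_comm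
  rw [e1]
  unfold P2
  refine sum_le_sum fun S _ => sum_le_sum fun S' _ => ?_
  have e : {η : Env | ∃ k ∈ K, A k η S S'} = ⋃ k ∈ K, {η | A k η S S'} := by
    ext η
    simp
  rw [e]
  exact measure_biUnion_finset_le _ _

omit [IsProbabilityMeasure μ] in
theorem measurable_gp2 (v : ℕ → ℤ) (N : ℕ) (y : ℤ) (S S' : Finset ℕ) :
    Measurable fun η : Env => gp μ η N y S * gp μ (shr 0 v η) N y S' :=
  (measurable_gp N y S).mul ((measurable_gp N y S').comp (measurable_shr 0 v))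

/-- The first path of the pair. -/
theorem P2_left (h0 : 0 ≤ y) (h1 : y ≤ N) (v : ℕ → ℤ) (A : Env → Finset ℕ → Prop) :
    P2 μ N y v (fun η S _ => A η S) = P1 μ N y A := by
  rw [P2_eq, P1_eq]
  refine sum_congr rfl fun S _ => ?_
  rw [← lintegral_finsetSum _ fun S' _ => (measurable_gp2 v N y S S').ennreal_ofReal]
  refine lintegral_congr fun η => ?_
  rw [← ENNReal.ofReal_sum_of_nonneg fun S' _ => mul_nonneg (gp_nonneg _ _ _ _) (gp_nonneg _ _ _ _),
    sum_gp_mul_right η (shr 0 v η) h0 h1]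

/-- The second path of the pair, in the sheared environment. -/
theorem P2_right (h0 : 0 ≤ y) (h1 : y ≤ N) (v : ℕ → ℤ) (A : Env → Finset ℕ → Prop) :
    P2 μ N y v (fun η _ S' => A (shr 0 v η) S') = P1 μ N y A := by
  rw [P2_eq, P1_eq, sum_comm]
  refine sum_congr rfl fun S' _ => ?_
  rw [← lintegral_finsetSum _ fun S _ => (measurable_gp2 v N y S S').ennreal_ofReal]
  have e : ∀ η : Env, ∑ S ∈ (range N).powerset, ENNReal.ofReal (gp μ η N y S * gp μ (shr 0 v η) N y S') =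
      ENNReal.ofReal (gp μ (shr 0 v η) N y S') := by
    intro η
    rw [← ENNReal.ofReal_sum_of_nonneg fun S _ => mul_nonneg (gp_nonneg _ _ _ _) (gp_nonneg _ _ _ _),
      sum_gp_mul_left η (shr 0 v η) h0 h1]
  simp only [e]
  exact (mp_shr (μ := μ) 0 v).setLIntegral_comp_preimage_emb (emb_shr 0 v)
    (fun η => ENNReal.ofReal (gp μ η N y S')) {η | A η S'}

theorem P2_env (h0 : 0 ≤ y) (h1 : y ≤ N) (v : ℕ → ℤ) (E : Set Env) : P2 μ N y v (fun η _ _ => η ∈ E) = law μ E := by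
  rw [← P1_env (μ := μ) h0 h1 E]
  exact P2_left h0 h1 v fun η _ => η ∈ E

theorem P2_univ (h0 : 0 ≤ y) (h1 : y ≤ N) (v : ℕ → ℤ) : P2 μ N y v (fun _ _ _ => True) = 1 := by
  rw [← P1_univ (μ := μ) h0 h1]
  exact P2_left h0 h1 v fun _ _ => True

theorem P2_le_one (h0 : 0 ≤ y) (h1 : y ≤ N) (v : ℕ → ℤ) (A : Env → Finset ℕ → Finset ℕ → Prop) : P2 μ N y v A ≤ 1 := by
  rw [← P2_univ (μ := μ) h0 h1 v]
  exact P2_mono fun _ _ _ _ => trivial

omit [IsProbabilityMeasure μ] in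
theorem P2_split (v : ℕ → ℤ) (A : Env → Finset ℕ → Finset ℕ → Prop) {B : Env → Finset ℕ → Finset ℕ → Prop}
    (hB : ∀ S S', MeasurableSet {η | B η S S'}) :
    P2 μ N y v (fun η S S' => A η S S' ∧ B η S S') + P2 μ N y v (fun η S S' => A η S S' ∧ ¬ B η S S') = P2 μ N y v A := by
  unfold P2
  rw [← sum_add_distrib]
  refine sum_congr rfl fun S _ => ?_
  rw [← sum_add_distrib]
  refine sum_congr rfl fun S' _ => ?_
  exact measure_inter_add_sdiff {η | A η S S'} (hB S S')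

end P2

/-! ### Random amplitudes -/

section P3

variable [IsProbabilityMeasure μ] {N : ℕ} {y : ℤ} (t τ : ℕ) (I : Finset ℕ) (s : ℤ) (b₀ m : ℕ)

theorem card_sign (m : ℕ) : ((univ : Finset (Fin m → Fin 4)).card : ℝ≥0∞) = (4 : ℝ≥0∞) ^ m := by
  rw [card_univ, Fintype.card_fun, Fintype.card_fin, Fintype.card_fin]
  push_cast
  rfl

omit [IsProbabilityMeasure μ] in
theorem P3_of_const {c : ℝ≥0∞} {A : (Fin m → Fin 4) → Env → Finset ℕ → Finset ℕ → Prop}
    (h : ∀ σ, P2 μ N y (pat t τ I (amp s b₀ m σ)) (A σ) = c) : P3 μ N y t τ I s b₀ m A = c := by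
  unfold P3
  simp only [h]
  rw [sum_const, nsmul_eq_mul, card_sign, ← mul_assoc, ENNReal.inv_mul_cancel, one_mul]
  · exact pow_ne_zero _ (by norm_num)
  · exact ENNReal.pow_ne_top (by norm_num)

omit [IsProbabilityMeasure μ] in
theorem P3_le_of {c : ℝ≥0∞} {A : (Fin m → Fin 4) → Env → Finset ℕ → Finset ℕ → Prop}
    (h : ∀ σ, P2 μ N y (pat t τ I (amp s b₀ m σ)) (A σ) ≤ c) : P3 μ N y t τ I s b₀ m A ≤ c := by
  unfold P3
  calc ((4 : ℝ≥0∞) ^ m)⁻¹ * ∑ σ : Fin m → Fin 4, P2 μ N y (pat t τ I (amp s b₀ m σ)) (A σ)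
      ≤ ((4 : ℝ≥0∞) ^ m)⁻¹ * ∑ _σ : Fin m → Fin 4, c := by
        gcongr with σ
        exact h σ
    _ = c := by
        rw [sum_const, nsmul_eq_mul, card_sign, ← mul_assoc, ENNReal.inv_mul_cancel, one_mul]
        · exact pow_ne_zero _ (by norm_num)
        · exact ENNReal.pow_ne_top (by norm_num)

omit [IsProbabilityMeasure μ] in
theorem P3_mono {A B : (Fin m → Fin 4) → Env → Finset ℕ → Finset ℕ → Prop} (h : ∀ σ η S S', A σ η S S' → B σ η S S') :
    P3 μ N y t τ I s b₀ m A ≤ P3 μ N y t τ I s b₀ m B := by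
  unfold P3
  gcongr with σ
  exact P2_mono fun η S S' => h σ η S S'

theorem P3_mono' {A B : (Fin m → Fin 4) → Env → Finset ℕ → Finset ℕ → Prop}
    (h : ∀ σ η S S', S ⊆ range N → S' ⊆ range N → pos S N = y → pos S' N = y → A σ η S S' → B σ η S S') :
    P3 μ N y t τ I s b₀ m A ≤ P3 μ N y t τ I s b₀ m B := by
  unfold P3
  gcongr with σ
  exact P2_mono' fun η S S' => h σ η S S'

omit [IsProbabilityMeasure μ] in
theorem P3_or (A B : (Fin m → Fin 4) → Env → Finset ℕ → Finset ℕ → Prop) :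
    P3 μ N y t τ I s b₀ m (fun σ η S S' => A σ η S S' ∨ B σ η S S') ≤
      P3 μ N y t τ I s b₀ m A + P3 μ N y t τ I s b₀ m B := by
  unfold P3
  rw [← mul_add, ← sum_add_distrib]
  gcongr with σ
  exact P2_or _ _ _

omit [IsProbabilityMeasure μ] in
theorem P3_exists {κ : Type*} (K : Finset κ) (A : κ → (Fin m → Fin 4) → Env → Finset ℕ → Finset ℕ → Prop) :
    P3 μ N y t τ I s b₀ m (fun σ η S S' => ∃ k ∈ K, A k σ η S S') ≤ ∑ k ∈ K, P3 μ N y t τ I s b₀ m (A k) := by
  unfold P3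
  rw [← mul_sum, sum_comm]
  gcongr with σ
  exact P2_exists _ K fun k => A k σ

theorem P3_left (h0 : 0 ≤ y) (h1 : y ≤ N) (A : Env → Finset ℕ → Prop) :
    P3 μ N y t τ I s b₀ m (fun _ η S _ => A η S) = P1 μ N y A :=
  P3_of_const t τ I s b₀ m fun _ => P2_left h0 h1 _ A

theorem P3_right (h0 : 0 ≤ y) (h1 : y ≤ N) (A : Env → Finset ℕ → Prop) :
    P3 μ N y t τ I s b₀ m (fun σ η _ S' => A (shr 0 (pat t τ I (amp s b₀ m σ)) η) S') = P1 μ N y A :=
  P3_of_const t τ I s b₀ m fun _ => P2_right h0 h1 _ A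

theorem P3_univ (h0 : 0 ≤ y) (h1 : y ≤ N) : P3 μ N y t τ I s b₀ m (fun _ _ _ _ => True) = 1 :=
  P3_of_const t τ I s b₀ m fun _ => P2_univ h0 h1 _

theorem P3_env (h0 : 0 ≤ y) (h1 : y ≤ N) (E : Set Env) : P3 μ N y t τ I s b₀ m (fun _ η _ _ => η ∈ E) = law μ E :=
  P3_of_const t τ I s b₀ m fun _ => P2_env h0 h1 _ E

theorem P3_le_one (h0 : 0 ≤ y) (h1 : y ≤ N) (A : (Fin m → Fin 4) → Env → Finset ℕ → Finset ℕ → Prop) :
    P3 μ N y t τ I s b₀ m A ≤ 1 :=
  P3_le_of t τ I s b₀ m fun _ => P2_le_one h0 h1 _ _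

end P3

/-! ### Zones -/

theorem pat_zone (t τ : ℕ) (I : Finset ℕ) (V : ℕ → ℤ) (b k : ℕ) (hk : k < 2 * t) :
    pat t τ I V (za t τ b + k) = if k ∈ I then V b else 0 := by
  unfold pat za
  have h1 : τ + 2 * t * b + k - τ = k + 2 * t * b := by omega
  have h2 : (k + 2 * t * b) % (2 * t) = k := by
    rw [Nat.add_mul_mod_self_left, Nat.mod_eq_of_lt hk]
  have h3 : (k + 2 * t * b) / (2 * t) = b := by
    rw [Nat.add_mul_div_left _ _ (by omega), Nat.div_eq_of_lt hk, zero_add]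
  rw [h1, h2, h3]
  by_cases h : k ∈ I
  · rw [if_pos ⟨by omega, h⟩, if_pos h]
  · rw [if_neg fun h' => h h'.2, if_neg h]

theorem pat_before (t τ : ℕ) (I : Finset ℕ) (V : ℕ → ℤ) {k : ℕ} (hk : k < τ) : pat t τ I V k = 0 := by
  unfold pat
  rw [if_neg]
  omega

theorem pat_add (t τ : ℕ) (I : Finset ℕ) (V V' : ℕ → ℤ) : pat t τ I V + pat t τ I V' = pat t τ I (V + V') := by
  funext k
  simp only [pat, Pi.add_apply]
  split_ifs
  · rfl
  · rfl

theorem pat_zero (t τ : ℕ) (I : Finset ℕ) : pat t τ I 0 = 0 := by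
  funext k
  simp [pat]

/-- In the zone `b` (and the gap behind it) only the amplitude `V b` counts. -/
theorem pat_congr (t τ : ℕ) (I : Finset ℕ) {V V' : ℕ → ℤ} {b : ℕ} (h : V b = V' b) {k : ℕ} (h1 : za t τ b ≤ k)
    (h2 : k < za t τ b + 2 * t) : pat t τ I V k = pat t τ I V' k := by
  obtain ⟨j, rfl⟩ := Nat.exists_eq_add_of_le h1
  rw [pat_zone t τ I V b j (by omega), pat_zone t τ I V' b j (by omega), h]

theorem zb_eq (t τ b : ℕ) : zb t τ b = za t τ b + t := rfl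

theorem za_succ (t τ b : ℕ) : za t τ (b + 1) = za t τ b + 2 * t := by
  unfold za
  ring

theorem za_mono {t τ b b' : ℕ} (h : b ≤ b') : za t τ b ≤ za t τ b' := by
  unfold za
  have := Nat.mul_le_mul_left (2 * t) h
  omega

theorem zb_le_za {t τ b b' : ℕ} (h : b < b') : zb t τ b ≤ za t τ b' := by
  have h1 := za_mono (t := t) (τ := τ) (Nat.succ_le_of_lt h)
  rw [Nat.succ_eq_add_one, za_succ] at h1
  rw [zb_eq]
  omega

/-- The total shift of one period. -/
theorem sv_pat_period (t τ : ℕ) {I : Finset ℕ} (hI : I ⊆ range (2 * t)) (V : ℕ → ℤ) (b : ℕ) :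
    sv (pat t τ I V) (za t τ b) (za t τ (b + 1)) = I.card * V b := by
  unfold sv
  rw [za_succ, sum_Ico_eq_sum_range, Nat.add_sub_cancel_left]
  have h1 : ∑ k ∈ range (2 * t), pat t τ I V (za t τ b + k) = ∑ k ∈ range (2 * t), if k ∈ I then V b else 0 :=
    sum_congr rfl fun k hk => pat_zone t τ I V b k (mem_range.1 hk)
  rw [h1, ← sum_filter, sum_const, filter_mem_eq_inter, inter_eq_right.2 hI, nsmul_eq_mul]

/-- The total shift of one zone. -/
theorem sv_pat_zone (t τ : ℕ) {I : Finset ℕ} (hI : I ⊆ range t) (V : ℕ → ℤ) (b : ℕ) :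
    sv (pat t τ I V) (za t τ b) (zb t τ b) = I.card * V b := by
  unfold sv
  rw [zb_eq, sum_Ico_eq_sum_range, Nat.add_sub_cancel_left]
  have h1 : ∑ k ∈ range t, pat t τ I V (za t τ b + k) = ∑ k ∈ range t, if k ∈ I then V b else 0 :=
    sum_congr rfl fun k hk => pat_zone t τ I V b k (by have := mem_range.1 hk; omega)
  rw [h1, ← sum_filter, sum_const, filter_mem_eq_inter, inter_eq_right.2 hI, nsmul_eq_mul]

/-- The gaps are not sheared. -/
theorem pat_gap (t τ : ℕ) {I : Finset ℕ} (hI : I ⊆ range t) (V : ℕ → ℤ) {b k : ℕ} (h1 : zb t τ b ≤ k)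
    (h2 : k < za t τ (b + 1)) : pat t τ I V k = 0 := by
  rw [za_succ] at h2
  rw [zb_eq] at h1
  obtain ⟨j, rfl⟩ := Nat.exists_eq_add_of_le (show za t τ b ≤ k by omega)
  rw [pat_zone t τ I V b j (by omega), if_neg]
  intro hj
  have := mem_range.1 (hI hj)
  omega

/-- The total shift before the zone `b`. -/
theorem sv_pat (t τ : ℕ) {I : Finset ℕ} (hI : I ⊆ range (2 * t)) (V : ℕ → ℤ) (b : ℕ) :
    sv (pat t τ I V) 0 (za t τ b) = I.card * ∑ b' ∈ range b, V b' := by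
  induction b with
  | zero =>
    rw [range_zero, sum_empty, mul_zero]
    refine sv_eq_zero fun k _ hk => pat_before t τ I V ?_
    unfold za at hk
    omega
  | succ b ih =>
    rw [sv_split _ (Nat.zero_le _) (za_mono (Nat.le_succ b)), ih, sv_pat_period t τ hI, sum_range_succ]
    ring

/-- The zone of the amplitude `a` in the environment sheared by the amplitudes `V`. -/
theorem fb_shr (t τ : ℕ) (I : Finset ℕ) (V : ℕ → ℤ) (η : Env) (b : ℕ) (a : ℤ) (S : Finset ℕ) :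
    fb μ t τ I (shr 0 (pat t τ I V) η) b a (pos S) = fb μ t τ I η b (a + V b) (px (pat t τ I V) S) := by
  unfold fb
  rw [fk_shr0 _ _ _ (by rw [zb_eq]; omega), pat_add]
  refine fk_congr (fun k h1 h2 => ?_) η _ _
  refine pat_congr t τ I (V := (fun _ => a) + V) (V' := fun _ => a + V b) rfl h1 ?_
  rw [zb_eq] at h2
  omega

theorem Db_shr (t τ : ℕ) (I : Finset ℕ) (s : ℤ) (V : ℕ → ℤ) (η : Env) (b : ℕ) (a : ℤ) (S : Finset ℕ) :
    Db μ t τ I s (shr 0 (pat t τ I V) η) b a (pos S) = Db μ t τ I s η b (a + V b) (px (pat t τ I V) S) := by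
  unfold Db
  rw [fb_shr, fb_shr, fb_shr, show a + s + V b = a + V b + s by ring, show a - s + V b = a + V b - s by ring]

/-- Zones with equal amplitude. -/
theorem fb_eq_fk (t τ : ℕ) (I : Finset ℕ) (V : ℕ → ℤ) (η : Env) (b : ℕ) (X : ℕ → ℤ) :
    fb μ t τ I η b (V b) X = fk μ (pat t τ I V) η (za t τ b) (zb t τ b) (X (za t τ b)) (X (zb t τ b)) := by
  unfold fb
  refine fk_congr (fun k h1 h2 => ?_) η _ _
  refine pat_congr t τ I (V := fun _ => V b) (V' := V) rfl h1 ?_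
  rw [zb_eq] at h2
  omega

/-- Locality: the rows of the zone. -/
theorem fb_congr_env (t τ : ℕ) (I : Finset ℕ) {η η' : Env} (b : ℕ)
    (h : ∀ q : Pt, (za t τ b : ℤ) < q.1 → q.1 ≤ zb t τ b → η q = η' q) (a : ℤ) (X : ℕ → ℤ) :
    fb μ t τ I η b a X = fb μ t τ I η' b a X :=
  fk_congr_env _ h _ _

/-- The zone `b` is the zone `0` of the translated environment. -/
theorem fb_sh (t τ : ℕ) (I : Finset ℕ) (η : Env) (b : ℕ) (a : ℤ) (X : ℕ → ℤ) :
    fb μ t τ I η b a X = fk μ (pat t 0 I fun _ => a) (sh ((za t τ b : ℤ), X (za t τ b)) η) 0 t 0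
      (X (zb t τ b) - X (za t τ b)) := by
  unfold fb
  have h1 := fk_time (μ := μ) (pat t τ I fun _ => a) η (za t τ b) 0 t (X (za t τ b)) (X (zb t τ b))
  rw [add_zero] at h1
  rw [zb_eq] at h1 ⊢
  rw [h1]
  have h2 := fk_space (μ := μ) (fun k => pat t τ I (fun _ => a) (za t τ b + k)) (sh ((za t τ b : ℤ), 0) η) 0 t 0
    (X (za t τ b + t) - X (za t τ b)) (X (za t τ b))
  rw [zero_add, sub_add_cancel] at h2
  rw [h2]
  have h3 : sh (0, X (za t τ b)) (sh ((za t τ b : ℤ), 0) η) = sh ((za t τ b : ℤ), X (za t τ b)) η := by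
    funext p
    unfold sh
    congr 1
    refine Prod.ext ?_ ?_
    · show p.1 + 0 + (za t τ b : ℤ) = p.1 + (za t τ b : ℤ)
      ring
    · show p.2 + X (za t τ b) + 0 = p.2 + X (za t τ b)
      ring
  rw [h3]
  refine fk_congr (fun k _ hk => ?_) _ _ _
  have h4 := pat_zone t τ I (fun _ => a) b k (by omega)
  have h5 := pat_zone t 0 I (fun _ => a) 0 k (by omega)
  have h6 : za t 0 0 + k = k := by simp [za]
  rw [h6] at h5
  show pat t τ I (fun _ => a) (za t τ b + k) = _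
  rw [h4, h5]

theorem Xd_shr (v w : ℕ → ℤ) (Q : Finset (ℕ × ℕ)) (hQ : ∀ q ∈ Q, q.1 ≤ q.2) (η : Env) (S : Finset ℕ) :
    Xd μ v Q (shr 0 w η) (pos S) =
      ∑ q ∈ Q, (fk μ (v + w) η q.1 q.2 (px w S q.1) (px w S q.2) - fk μ w η q.1 q.2 (px w S q.1) (px w S q.2)) := by
  unfold Xd
  refine sum_congr rfl fun q hq => ?_
  rw [fk_shr0 v w η (hQ q hq), fk_shr0 0 w η (hQ q hq), zero_add]

/-- The path of the model `shr 0 w`, seen from the model sheared by `w`: the response of the way back. -/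
theorem Xd_back (w : ℕ → ℤ) (Q : Finset (ℕ × ℕ)) (hQ : ∀ q ∈ Q, q.1 ≤ q.2) (η : Env) (S : Finset ℕ) :
    Xd μ (-w) Q (shr 0 w η) (pos S) = -Xd μ w Q η (px w S) := by
  rw [Xd_shr (-w) w Q hQ, neg_add_cancel]
  unfold Xd
  rw [← sum_neg_distrib]
  refine sum_congr rfl fun q _ => ?_
  ring

theorem px_succ (v : ℕ → ℤ) (S : Finset ℕ) (i : ℕ) :
    px v S (i + 1) = px v S i + (if i ∈ S then 1 else 0) - v i := by
  unfold px pos
  rw [sv_succ v (Nat.zero_le i), range_add_one]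
  by_cases h : i ∈ S
  · rw [if_pos h, inter_insert_of_mem h, card_insert_of_notMem (by simp)]
    push_cast
    ring
  · rw [if_neg h, inter_insert_of_notMem h]
    ring

theorem px_zero (S : Finset ℕ) : px 0 S = pos S := by
  funext i
  unfold px
  rw [sv_zero, sub_zero]

/-- The amplitudes of a pair of zones add up to zero. -/
theorem amp_pair (s : ℤ) (b₀ m : ℕ) (σ : Fin m → Fin 4) (i : ℕ) :
    amp s b₀ m σ (b₀ + 2 * i) + amp s b₀ m σ (b₀ + 2 * i + 1) = 0 := by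
  unfold amp
  have h1 : b₀ + 2 * i - b₀ = 2 * i := by omega
  have h2 : b₀ + 2 * i + 1 - b₀ = 2 * i + 1 := by omega
  have h3 : 2 * i / 2 = i := by omega
  have h4 : (2 * i + 1) / 2 = i := by omega
  have h5 : 2 * i % 2 = 0 := by omega
  have h6 : (2 * i + 1) % 2 = 1 := by omega
  simp only [h1, h2, h3, h4, h5, h6]
  by_cases h : i < m
  · rw [dif_pos ⟨by omega, h⟩, dif_pos ⟨by omega, h⟩]
    simp
  · rw [dif_neg fun h' => h h'.2, dif_neg fun h' => h h'.2]
    simp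

theorem sum_amp_pairs (s : ℤ) (b₀ m : ℕ) (σ : Fin m → Fin 4) (i : ℕ) :
    ∑ b ∈ range (b₀ + 2 * i), amp s b₀ m σ b = 0 := by
  induction i with
  | zero =>
    refine sum_eq_zero fun b hb => ?_
    rw [mem_range] at hb
    unfold amp
    rw [dif_neg]
    omega
  | succ i ih =>
    have e : b₀ + 2 * (i + 1) = b₀ + 2 * i + 1 + 1 := by ring
    rw [e, sum_range_succ, sum_range_succ, ih, zero_add, amp_pair]

theorem amp_of_ge (s : ℤ) (b₀ m : ℕ) (σ : Fin m → Fin 4) {b : ℕ} (hb : b₀ + 2 * m ≤ b) : amp s b₀ m σ b = 0 := by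
  unfold amp
  rw [dif_neg]
  omega

theorem amp_of_lt (s : ℤ) (b₀ m : ℕ) (σ : Fin m → Fin 4) {b : ℕ} (hb : b < b₀) : amp s b₀ m σ b = 0 := by
  unfold amp
  rw [dif_neg]
  omega

/-- The total shift vanishes at the start of every pair of zones. -/
theorem sv_amp_pairs (t τ : ℕ) {I : Finset ℕ} (hI : I ⊆ range (2 * t)) (s : ℤ) (b₀ m : ℕ) (σ : Fin m → Fin 4) (i : ℕ) :
    sv (pat t τ I (amp s b₀ m σ)) 0 (za t τ (b₀ + 2 * i)) = 0 := by
  rw [sv_pat t τ hI, sum_amp_pairs, mul_zero]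

/-- The total shift of the random shear vanishes behind the last zone. -/
theorem sv_amp_all (t τ : ℕ) {I : Finset ℕ} (hI : I ⊆ range (2 * t)) (s : ℤ) (b₀ m : ℕ) (σ : Fin m → Fin 4) {N : ℕ}
    (hN : za t τ (b₀ + 2 * m) ≤ N) : sv (pat t τ I (amp s b₀ m σ)) 0 N = 0 := by
  rw [sv_split _ (Nat.zero_le _) hN, sv_amp_pairs t τ hI, zero_add]
  refine sv_eq_zero fun k h1 h2 => ?_
  unfold pat
  split_ifs with h
  · refine amp_of_ge s b₀ m σ ?_
    have ht : 0 < 2 * t := by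
      by_contra h3
      have h4 : I = ∅ := by
        rw [show 2 * t = 0 by omega, range_zero] at hI
        exact subset_empty.1 hI
      rw [h4] at h
      exact absurd h.2 (by simp)
    rw [Nat.le_div_iff_mul_le ht]
    unfold za at h1
    have h5 : (b₀ + 2 * m) * (2 * t) = 2 * t * (b₀ + 2 * m) := by ring
    omega
  · rfl

theorem Core_sub (t : ℕ) : Core t ⊆ range t := by
  intro k hk
  unfold Core at hk
  rw [mem_Ico] at hk
  rw [mem_range]
  omega

theorem Core_sub2 (t : ℕ) : Core t ⊆ range (2 * t) :=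
  (Core_sub t).trans (range_subset_range.2 (by omega))

end Pool.Agent.W_7d29a1_Z.A12
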