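import Pool.Agent.W_7d29a1_Z.Act
import Pool.Agent.W_7d29a1_Z10.EwpZ

/-!
STORM Z, leaf EB: the unit is bounded by the response (the pattern is repeated until the total shift is of the order of the width).
-/

namespace Pool.Agent.W_7d29a1_Z

open MeasureTheory ProbabilityTheory Filter Topology Finset
open Pool.Agent.W_7d29a1_F Pool.Agent.W_7d29a1_X Pool.Agent.W_7d29a1_G
open Pool.Agent.W_7d29a1_SR (In wd)
open Pool.Agent.W_7d29a1_Z10 (StepP EWP)
open scoped ENNReal

variable {μ : Measure ℝ} [IsProbabilityMeasure μ] {c C : ℝ} {n₀ : ℕ}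

theorem ewp (h : In μ c C n₀) : EWP (wd μ) (EE μ) (PSg μ) := Pool.Agent.W_7d29a1_Z10.ewpZ h

end Pool.Agent.W_7d29a1_Z
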