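import Pool.Agent.W_7d29a1_Z.Act

/-!
STORM Z, (R1): the exchange of the pieces of two paths at a list of junctions without shears. (helper12)
-/

namespace Pool.Agent.W_7d29a1_Z

open MeasureTheory ProbabilityTheory Filter Topology Finset
open Pool.Agent.W_7d29a1_F Pool.Agent.W_7d29a1_X Pool.Agent.W_7d29a1_G
open scoped ENNReal

variable {μ : Measure ℝ}

theorem pos_step (S : Finset ℕ) (i : ℕ) : pos S (i + 1) = pos S i + if i ∈ S then 1 else 0 := by
  unfold pos
  rw [range_add_one]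
  by_cases h : i ∈ S
  · rw [if_pos h, inter_insert_of_mem h, card_insert_of_notMem (by simp)]
    push_cast
    ring
  · rw [if_neg h, inter_insert_of_notMem h]
    ring

/-- The path `S` outside of `[a, b)`, the steps of `S'` in `[a, b)`. -/
def mixS (S S' : Finset ℕ) (a b : ℕ) : Finset ℕ := (S \ Ico a b) ∪ (S' ∩ Ico a b)

theorem mem_mixS {S S' : Finset ℕ} {a b i : ℕ} : i ∈ mixS S S' a b ↔ if a ≤ i ∧ i < b then i ∈ S' else i ∈ S := by
  unfold mixS
  rw [Finset.mem_union, Finset.mem_sdiff, Finset.mem_inter, Finset.mem_Ico]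
  by_cases h : a ≤ i ∧ i < b
  · rw [if_pos h]
    simp [h]
  · rw [if_neg h]
    simp [h]

theorem mixS_sub {N : ℕ} {S S' : Finset ℕ} (hS : S ⊆ range N) (hS' : S' ⊆ range N) (a b : ℕ) : mixS S S' a b ⊆ range N :=
  union_subset (sdiff_subset.trans hS) (inter_subset_left.trans hS')

theorem mixS_mixS (S S' : Finset ℕ) (a b : ℕ) : mixS (mixS S S' a b) (mixS S' S a b) a b = S := by
  ext i
  rw [mem_mixS, mem_mixS, mem_mixS]
  split_ifs
  · rfl
  · rfl

theorem pos_mix_le (S S' : Finset ℕ) {a : ℕ} (b : ℕ) {i : ℕ} (h : i ≤ a) : pos (mixS S S' a b) i = pos S i := by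
  induction i with
  | zero => rw [pos_zero, pos_zero]
  | succ i ih =>
    rw [pos_step, pos_step, ih (by omega)]
    congr 1
    have h1 : i ∈ mixS S S' a b ↔ i ∈ S := by
      rw [mem_mixS, if_neg (by omega)]
    simp only [h1]

theorem pos_mix_mid (S S' : Finset ℕ) {a b i : ℕ} (h1 : a ≤ i) (h2 : i ≤ b) :
    pos (mixS S S' a b) i = pos S a + (pos S' i - pos S' a) := by
  induction i, h1 using Nat.le_induction with
  | base => rw [pos_mix_le S S' b le_rfl]; ring
  | succ i hi ih =>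
    have h3 : i ∈ mixS S S' a b ↔ i ∈ S' := by
      rw [mem_mixS, if_pos ⟨hi, by omega⟩]
    rw [pos_step, pos_step, ih (by omega)]
    simp only [h3]
    ring

theorem pos_mix_ge (S S' : Finset ℕ) {a b i : ℕ} (hab : a ≤ b) (h1 : b ≤ i) :
    pos (mixS S S' a b) i = pos S a + (pos S' b - pos S' a) + (pos S i - pos S b) := by
  induction i, h1 using Nat.le_induction with
  | base => rw [pos_mix_mid S S' hab le_rfl]; ring
  | succ i hi ih =>
    have h3 : i ∈ mixS S S' a b ↔ i ∈ S := by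
      rw [mem_mixS, if_neg (by omega)]
    rw [pos_step, pos_step, ih]
    simp only [h3]
    ring

/-- The meetings in `[p, q]`. -/
def Mee (v : ℕ → ℤ) (P : Finset ℕ × Finset ℕ) (p q : ℕ) : Set ℕ := {i | p ≤ i ∧ i ≤ q ∧ pos P.1 i = px v P.2 i}

open Classical in
/-- The exchange at one junction. -/
noncomputable def swp (v : ℕ → ℤ) (p q r s : ℕ) (P : Finset ℕ × Finset ℕ) : Finset ℕ × Finset ℕ :=
  if (Mee v P p q).Nonempty ∧ (Mee v P r s).Nonempty then
    (mixS P.1 P.2 (sInf (Mee v P p q)) (sInf (Mee v P r s)), mixS P.2 P.1 (sInf (Mee v P p q)) (sInf (Mee v P r s))) else P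

theorem swp_bad {v : ℕ → ℤ} {p q r s : ℕ} {P : Finset ℕ × Finset ℕ} (h : ¬ ((Mee v P p q).Nonempty ∧ (Mee v P r s).Nonempty)) :
    swp v p q r s P = P := if_neg h

/-- The positions of the exchanged pair. -/
theorem swp_pos {v : ℕ → ℤ} {p q r s : ℕ} (hqr : q ≤ r) (hv : ∀ k, p ≤ k → k < s → v k = 0) (P : Finset ℕ × Finset ℕ)
    (h : (Mee v P p q).Nonempty ∧ (Mee v P r s).Nonempty) :
    p ≤ sInf (Mee v P p q) ∧ sInf (Mee v P p q) ≤ q ∧ r ≤ sInf (Mee v P r s) ∧ sInf (Mee v P r s) ≤ s ∧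
    (∀ i, sInf (Mee v P p q) ≤ i → i ≤ sInf (Mee v P r s) →
      pos (swp v p q r s P).1 i = px v P.2 i ∧ px v (swp v p q r s P).2 i = pos P.1 i) ∧
    ∀ i, i ≤ sInf (Mee v P p q) ∨ sInf (Mee v P r s) ≤ i →
      pos (swp v p q r s P).1 i = pos P.1 i ∧ px v (swp v p q r s P).2 i = px v P.2 i := by
  obtain ⟨ha1, ha2, ha3⟩ := Nat.sInf_mem h.1
  obtain ⟨hb1, hb2, hb3⟩ := Nat.sInf_mem h.2
  have e : swp v p q r s P = (mixS P.1 P.2 (sInf (Mee v P p q)) (sInf (Mee v P r s)),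
    mixS P.2 P.1 (sInf (Mee v P p q)) (sInf (Mee v P r s))) := if_pos h
  rw [e]
  generalize sInf (Mee v P p q) = a at *
  generalize sInf (Mee v P r s) = b at *
  -- the shift is constant in `[p, s]`
  have hc : ∀ i, p ≤ i → i ≤ s → sv v 0 i = sv v 0 p := by
    intro i h1 h2
    rw [sv_split v (Nat.zero_le p) h1]
    have h3 : sv v p i = 0 := by
      unfold sv
      exact sum_eq_zero fun k hk => hv k (mem_Ico.1 hk).1 (by have := (mem_Ico.1 hk).2; omega)
    rw [h3, add_zero]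
  have hab : a ≤ b := by omega
  have hca := hc a ha1 (by omega)
  have hcb := hc b (by omega) hb2
  unfold px at ha3 hb3
  refine ⟨ha1, ha2, hb1, hb2, fun i h1 h2 => ?_, fun i hi => ?_⟩
  · have hci := hc i (by omega) (by omega)
    have e1 := pos_mix_mid P.1 P.2 h1 h2
    have e2 := pos_mix_mid P.2 P.1 h1 h2
    unfold px
    constructor
    · show pos (mixS P.1 P.2 a b) i = _
      linarith
    · show pos (mixS P.2 P.1 a b) i - _ = _
      linarith
  · unfold px
    rcases hi with hi | hi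
    · constructor
      · exact pos_mix_le P.1 P.2 b hi
      · show pos (mixS P.2 P.1 a b) i - _ = _
        rw [pos_mix_le P.2 P.1 b hi]
    · have e1 := pos_mix_ge P.1 P.2 hab hi
      have e2 := pos_mix_ge P.2 P.1 hab hi
      constructor
      · show pos (mixS P.1 P.2 a b) i = _
        linarith
      · show pos (mixS P.2 P.1 a b) i - _ = _
        linarith

/-- In all cases the pair of positions is kept or exchanged. -/
theorem swp_or {v : ℕ → ℤ} {p q r s : ℕ} (hqr : q ≤ r) (hv : ∀ k, p ≤ k → k < s → v k = 0) (P : Finset ℕ × Finset ℕ) (i : ℕ) :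
    (pos (swp v p q r s P).1 i = px v P.2 i ∧ px v (swp v p q r s P).2 i = pos P.1 i) ∨
    (pos (swp v p q r s P).1 i = pos P.1 i ∧ px v (swp v p q r s P).2 i = px v P.2 i) := by
  by_cases h : (Mee v P p q).Nonempty ∧ (Mee v P r s).Nonempty
  · obtain ⟨_, _, _, _, h1, h2⟩ := swp_pos hqr hv P h
    by_cases h3 : sInf (Mee v P p q) ≤ i ∧ i ≤ sInf (Mee v P r s)
    · exact Or.inl (h1 i h3.1 h3.2)
    · exact Or.inr (h2 i (by omega))
  · rw [swp_bad h]
    exact Or.inr ⟨rfl, rfl⟩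

theorem swp_Mee {v : ℕ → ℤ} {p q r s : ℕ} (hqr : q ≤ r) (hv : ∀ k, p ≤ k → k < s → v k = 0) (P : Finset ℕ × Finset ℕ) (p' q' : ℕ) :
    Mee v (swp v p q r s P) p' q' = Mee v P p' q' := by
  ext i
  unfold Mee
  rw [Set.mem_ofPred_eq, Set.mem_ofPred_eq]
  rcases swp_or hqr hv P i with h | h
  · rw [h.1, h.2]
    exact ⟨fun h1 => ⟨h1.1, h1.2.1, h1.2.2.symm⟩, fun h1 => ⟨h1.1, h1.2.1, h1.2.2.symm⟩⟩
  · rw [h.1, h.2]

theorem swp_swp {v : ℕ → ℤ} {p q r s : ℕ} (hqr : q ≤ r) (hv : ∀ k, p ≤ k → k < s → v k = 0) (P : Finset ℕ × Finset ℕ) :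
    swp v p q r s (swp v p q r s P) = P := by
  by_cases h : (Mee v P p q).Nonempty ∧ (Mee v P r s).Nonempty
  · have h' : (Mee v (swp v p q r s P) p q).Nonempty ∧ (Mee v (swp v p q r s P) r s).Nonempty := by
      rw [swp_Mee hqr hv, swp_Mee hqr hv]
      exact h
    have e1 : swp v p q r s (swp v p q r s P) = (mixS (swp v p q r s P).1 (swp v p q r s P).2 (sInf (Mee v P p q)) (sInf (Mee v P r s)),
        mixS (swp v p q r s P).2 (swp v p q r s P).1 (sInf (Mee v P p q)) (sInf (Mee v P r s))) := by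
      conv_lhs => unfold swp
      rw [if_pos (by unfold swp at h'; exact h')]
      have e2 := swp_Mee hqr hv P p q
      have e3 := swp_Mee hqr hv P r s
      unfold swp at e2 e3 ⊢
      rw [e2, e3]
    have e : swp v p q r s P = (mixS P.1 P.2 (sInf (Mee v P p q)) (sInf (Mee v P r s)),
      mixS P.2 P.1 (sInf (Mee v P p q)) (sInf (Mee v P r s))) := if_pos h
    rw [e1, e]
    exact Prod.ext (mixS_mixS _ _ _ _) (mixS_mixS _ _ _ _)
  · rw [swp_bad h, swp_bad h]

theorem swp_sub {N : ℕ} {v : ℕ → ℤ} {p q r s : ℕ} {P : Finset ℕ × Finset ℕ} (h1 : P.1 ⊆ range N) (h2 : P.2 ⊆ range N) :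
    (swp v p q r s P).1 ⊆ range N ∧ (swp v p q r s P).2 ⊆ range N := by
  unfold swp
  split_ifs
  · exact ⟨mixS_sub h1 h2 _ _, mixS_sub h2 h1 _ _⟩
  · exact ⟨h1, h2⟩

/-- The end points are kept. -/
theorem swp_end {N : ℕ} {v : ℕ → ℤ} {p q r s : ℕ} (hqr : q ≤ r) (hsN : s ≤ N) (hv : ∀ k, p ≤ k → k < s → v k = 0)
    (P : Finset ℕ × Finset ℕ) : pos (swp v p q r s P).1 N = pos P.1 N ∧ pos (swp v p q r s P).2 N = pos P.2 N := by
  by_cases h : (Mee v P p q).Nonempty ∧ (Mee v P r s).Nonempty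
  · obtain ⟨_, _, _, h0, _, h2⟩ := swp_pos hqr hv P h
    obtain ⟨h3, h4⟩ := h2 N (Or.inr (h0.trans hsN))
    unfold px at h4
    exact ⟨h3, by linarith⟩
  · rw [swp_bad h]
    exact ⟨rfl, rfl⟩

theorem pth_shr {s : ℝ} (v : ℕ → ℤ) (η : Env) (N : ℕ) (S : Finset ℕ) :
    pth μ s (shr 0 v η) N S = Real.exp (s * (pos S N : ℝ) - N * lam μ s) *
      ∏ i ∈ range N, Real.exp (η ((i : ℤ) + 1, px v S (i + 1))) := by
  unfold pth
  congr 1

/-- The product of the weights is kept. -/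
theorem gp_swp {N : ℕ} {v : ℕ → ℤ} {p q r s : ℕ} (hqr : q ≤ r) (hsN : s ≤ N) (hv : ∀ k, p ≤ k → k < s → v k = 0)
    (η : Env) (y : ℤ) (P : Finset ℕ × Finset ℕ) :
    gp μ η N y (swp v p q r s P).1 * gp μ (shr 0 v η) N y (swp v p q r s P).2 =
      gp μ η N y P.1 * gp μ (shr 0 v η) N y P.2 := by
  obtain ⟨h1, h2⟩ := swp_end hqr hsN hv P
  have h3 : pth μ 0 η N (swp v p q r s P).1 * pth μ 0 (shr 0 v η) N (swp v p q r s P).2 =
      pth μ 0 η N P.1 * pth μ 0 (shr 0 v η) N P.2 := by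
    rw [pth_shr, pth_shr]
    unfold pth
    rw [h1, h2, mul_mul_mul_comm, ← prod_mul_distrib, mul_mul_mul_comm, ← prod_mul_distrib]
    congr 1
    refine prod_congr rfl fun i _ => ?_
    rcases swp_or hqr hv P (i + 1) with h | h
    · rw [h.1, h.2, mul_comm]
    · rw [h.1, h.2]
  unfold gp
  rw [h1, h2]
  by_cases hy : pos P.1 N = y
  · by_cases hy' : pos P.2 N = y
    · rw [if_pos hy, if_pos hy', if_pos hy, if_pos hy', div_mul_div_comm, h3, div_mul_div_comm]
    · rw [if_neg hy', if_neg hy', mul_zero, mul_zero]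
  · rw [if_neg hy, if_neg hy, zero_mul, zero_mul]

/-- The exchange at the junctions `0, .., k - 1`. -/
noncomputable def swps (v : ℕ → ℤ) (p q r s : ℕ → ℕ) : ℕ → Finset ℕ × Finset ℕ → Finset ℕ × Finset ℕ
  | 0, P => P
  | k + 1, P => swp v (p k) (q k) (r k) (s k) (swps v p q r s k P)

theorem swps_sub {N : ℕ} {v : ℕ → ℤ} {p q r s : ℕ → ℕ} (k : ℕ) {P : Finset ℕ × Finset ℕ} (h1 : P.1 ⊆ range N) (h2 : P.2 ⊆ range N) :
    (swps v p q r s k P).1 ⊆ range N ∧ (swps v p q r s k P).2 ⊆ range N := by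
  induction k with
  | zero => exact ⟨h1, h2⟩
  | succ k ih => exact swp_sub ih.1 ih.2

theorem sum_swps {N : ℕ} {v : ℕ → ℤ} {K : ℕ} {p q r s : ℕ → ℕ} (h1 : ∀ l < K, q l ≤ r l ∧ s l ≤ N)
    (hv : ∀ l < K, ∀ k, p l ≤ k → k < s l → v k = 0) (η : Env) (y : ℤ) {k : ℕ} (hk : k ≤ K) (G : Finset ℕ × Finset ℕ → ℝ) :
    ∑ P ∈ (range N).powerset ×ˢ (range N).powerset, gp μ η N y P.1 * gp μ (shr 0 v η) N y P.2 * G (swps v p q r s k P) =
      ∑ P ∈ (range N).powerset ×ˢ (range N).powerset, gp μ η N y P.1 * gp μ (shr 0 v η) N y P.2 * G P := by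
  induction k generalizing G with
  | zero => rfl
  | succ k ih =>
    have hk' : k < K := by omega
    have e1 := ih (by omega) fun P => G (swp v (p k) (q k) (r k) (s k) P)
    refine e1.trans ?_
    refine sum_nbij' (fun P => swp v (p k) (q k) (r k) (s k) P) (fun P => swp v (p k) (q k) (r k) (s k) P) ?_ ?_ ?_ ?_ ?_
    · intro P hP
      rw [mem_product, mem_powerset, mem_powerset] at hP ⊢
      exact swp_sub hP.1 hP.2
    · intro P hP
      rw [mem_product, mem_powerset, mem_powerset] at hP ⊢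
      exact swp_sub hP.1 hP.2
    · intro P _
      exact swp_swp (h1 k hk').1 (hv k hk') P
    · intro P _
      exact swp_swp (h1 k hk').1 (hv k hk') P
    · intro P _
      rw [gp_swp (h1 k hk').1 (h1 k hk').2 (hv k hk')]

/-- The junctions are ordered. -/
theorem junc_le {N K : ℕ} {p q r s : ℕ → ℕ} (h1 : ∀ l < K, p l ≤ q l ∧ q l ≤ r l ∧ r l ≤ s l ∧ s l ≤ N)
    (h2 : ∀ l, l + 1 < K → s l ≤ p (l + 1)) {l k : ℕ} (hl : l < k) (hk : k < K) : s l ≤ p k := by
  induction k, hl using Nat.le_induction with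
  | base => exact h2 l hk
  | succ k hlk ih =>
    have h3 := ih (by omega)
    have h4 := h1 k (by omega)
    have h5 := h2 k hk
    omega

theorem swps_pos {N : ℕ} {v : ℕ → ℤ} {K : ℕ} {p q r s : ℕ → ℕ}
    (h1 : ∀ l < K, p l ≤ q l ∧ q l ≤ r l ∧ r l ≤ s l ∧ s l ≤ N) (h2 : ∀ l, l + 1 < K → s l ≤ p (l + 1))
    (hv : ∀ l < K, ∀ k, p l ≤ k → k < s l → v k = 0) (P : Finset ℕ × Finset ℕ) {k : ℕ} (hk : k ≤ K) :
    (∀ i, (∀ l < k, s l ≤ i) → pos (swps v p q r s k P).1 i = pos P.1 i ∧ px v (swps v p q r s k P).2 i = px v P.2 i) ∧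
    ∀ l < k, (Mee v P (p l) (q l)).Nonempty → (Mee v P (r l) (s l)).Nonempty →
      ∀ i, q l ≤ i → i ≤ r l → pos (swps v p q r s k P).1 i = px v P.2 i := by
  induction k with
  | zero => exact ⟨fun i _ => ⟨rfl, rfl⟩, fun l hl => absurd hl (Nat.not_lt_zero l)⟩
  | succ k ih =>
    obtain ⟨ih1, ih2⟩ := ih (by omega)
    have hk' : k < K := by omega
    obtain ⟨hpq, hqr, hrs, hsN⟩ := h1 k hk'
    -- the meetings behind the time `p k`
    have hM : ∀ a b, p k ≤ a → Mee v (swps v p q r s k P) a b = Mee v P a b := by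
      intro a b ha
      ext i
      unfold Mee
      rw [Set.mem_ofPred_eq, Set.mem_ofPred_eq]
      refine and_congr_right fun hai => and_congr_right fun _ => ?_
      obtain ⟨h3, h4⟩ := ih1 i fun l hl => (junc_le h1 h2 hl hk').trans (ha.trans hai)
      rw [h3, h4]
    -- the last exchange keeps the positions outside of `(p k, s k)`
    have hout : ∀ i, i ≤ p k ∨ s k ≤ i → pos (swps v p q r s (k + 1) P).1 i = pos (swps v p q r s k P).1 i ∧
        px v (swps v p q r s (k + 1) P).2 i = px v (swps v p q r s k P).2 i := by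
      intro i hi
      by_cases h : (Mee v (swps v p q r s k P) (p k) (q k)).Nonempty ∧ (Mee v (swps v p q r s k P) (r k) (s k)).Nonempty
      · obtain ⟨ha, _, _, hb, _, h4⟩ := swp_pos hqr (hv k hk') (swps v p q r s k P) h
        refine h4 i ?_
        rcases hi with hi | hi
        · exact Or.inl (hi.trans ha)
        · exact Or.inr (hb.trans hi)
      · have e : swps v p q r s (k + 1) P = swps v p q r s k P := swp_bad h
        rw [e]
        exact ⟨rfl, rfl⟩
    refine ⟨fun i hi => ?_, fun l hl hm1 hm2 i hi1 hi2 => ?_⟩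
    · obtain ⟨h3, h4⟩ := hout i (Or.inr (hi k (Nat.lt_succ_self k)))
      obtain ⟨h5, h6⟩ := ih1 i fun l hl => hi l (by omega)
      exact ⟨h3.trans h5, h4.trans h6⟩
    · rcases Nat.lt_succ_iff_lt_or_eq.1 hl with hl' | rfl
      · have h3 := junc_le h1 h2 hl' hk'
        have h4 := h1 l (by omega)
        rw [(hout i (Or.inl (by omega))).1]
        exact ih2 l hl' hm1 hm2 i hi1 hi2
      · have h : (Mee v (swps v p q r s l P) (p l) (q l)).Nonempty ∧ (Mee v (swps v p q r s l P) (r l) (s l)).Nonempty := by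
          rw [hM _ _ le_rfl, hM _ _ (by omega)]
          exact ⟨hm1, hm2⟩
        obtain ⟨_, ha, hb, _, h4, _⟩ := swp_pos hqr (hv l hk') (swps v p q r s l P) h
        have h5 := (h4 i (by omega) (by omega)).1
        have h6 := (ih1 i fun l' hl' => (junc_le h1 h2 hl' hk').trans (by omega)).2
        exact h5.trans h6

end Pool.Agent.W_7d29a1_Z
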