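import Pool.Agent.W_7d29a1_Z.NS
import Pool.Agent.W_7d29a1_Z40.FreshOf

/-!
STORM Z, leaf FRESH (ML): two paths, one in the environment, one in the sheared environment, which do not meet are separated.
-/

namespace Pool.Agent.W_7d29a1_Z

open MeasureTheory ProbabilityTheory Filter Topology Finset
open Pool.Agent.W_7d29a1_F Pool.Agent.W_7d29a1_X Pool.Agent.W_7d29a1_G
open Pool.Agent.W_7d29a1_SR (In wd)
open scoped ENNReal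

variable {μ : Measure ℝ} [IsProbabilityMeasure μ] {c C : ℝ} {n₀ : ℕ}

/-- The paths do not meet in `[i, i + n]` and are never separated by more than `L ^ (- ε) wd' n`. -/
def Close (μ : Measure ℝ) (L N : ℕ) (ε : ℝ) (v : ℕ → ℤ) (S S' : Finset ℕ) : Prop :=
  ∃ i n : ℕ, (L : ℝ) ^ ε ≤ n ∧ i + n ≤ N ∧ (∀ k, i ≤ k → k ≤ i + n → pos S k ≠ px v S' k) ∧
    ∀ k, i ≤ k → k ≤ i + n → |((pos S k - px v S' k : ℤ) : ℝ)| ≤ (L : ℝ) ^ (-ε) * wd' μ n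

theorem fresh (h : In μ c C n₀) (hF : HF2 μ) : ∀ ε : ℝ, 0 < ε → ∃ δ c' : ℝ, 0 < δ ∧ 0 < c' ∧ ∃ L₀ : ℕ, ∀ L : ℕ, L₀ ≤ L → ∀ N : ℕ,
    L ≤ 16 * N → N ≤ L → ∀ y : ℤ, 0 ≤ y → y ≤ N → |2 * (y : ℝ) - N| ≤ 2 * ((L : ℝ) ^ δ * wd' μ N) → ∀ v : ℕ → ℤ, sv v 0 N = 0 →
    P2 μ N y v (fun _ S S' => Close μ L N ε v S S') ≤ ENNReal.ofReal (Real.exp (-(L : ℝ) ^ c')) :=
  Pool.Agent.W_7d29a1_Z40.fresh_of h hF (by
    first
      | exact ns h hF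
      | exact ns h)

end Pool.Agent.W_7d29a1_Z
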