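import Mathlib

/-!
# STORM Z, block (V): the pure Hilbert space lemma

A commutative real algebra `A` with an involution `st` acts on a real inner product space `H`
(`Act A H`).  A *probability element* is `z = ∑ p_i u_i` with unitary `u_i` (`st u_i * u_i = 1`).
For `v : H` put

* `D p u v = ∑ p_i ‖u_i v - v‖²`,
* `EM p u p' u' v = ∑∑ p_i p'_j ‖(u_i - 1)(u'_j - 1) v‖²` (second mixed difference),
* `kap z z' v = ¼ ⟪(z - z*) v, (z' - z'*) v⟫`.

Then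
* `D_mul` : `D (zz') = D z + D z' - EM / 2 + 2 kap z z'`;
* `kap_le` : `|kap z z'| ≤ |kap z² z'²| / 4 + √EM (√D z + √D z') + EM`;
* `kap_top` : `|kap z z'| ≤ √D z * √D z'`.
-/

set_option autoImplicit false

namespace W_7d29a1_Z.HilV77

open scoped BigOperators InnerProductSpace
open Finset

/-- a commutative real algebra with involution acting on an inner product space -/
structure Act (A : Type*) [CommRing A] [Algebra ℝ A]
    (H : Type*) [NormedAddCommGroup H] [InnerProductSpace ℝ H] where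
  ρ : A →ₐ[ℝ] Module.End ℝ H
  st : A →ₐ[ℝ] A
  stst : ∀ a, st (st a) = a
  adj : ∀ (a : A) (u v : H), ⟪ρ a u, v⟫_ℝ = ⟪u, ρ (st a) v⟫_ℝ

namespace Act

variable {A : Type*} [CommRing A] [Algebra ℝ A]
variable {H : Type*} [NormedAddCommGroup H] [InnerProductSpace ℝ H]
variable (T : Act A H)

lemma adj' (a : A) (u v : H) : ⟪u, T.ρ a v⟫_ℝ = ⟪T.ρ (T.st a) u, v⟫_ℝ := by
  have h := T.adj (T.st a) u v
  rw [T.stst] at h
  exact h.symm

/-- all inner products of images of `v` are values of the quadratic functional -/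
lemma inner_eq (a b : A) (v : H) :
    ⟪T.ρ a v, T.ρ b v⟫_ℝ = ⟪T.ρ (T.st b * a) v, v⟫_ℝ := by
  rw [T.adj' b, map_mul]
  rfl

lemma inner_st (a : A) (v : H) : ⟪T.ρ (T.st a) v, v⟫_ℝ = ⟪T.ρ a v, v⟫_ℝ := by
  rw [← T.adj' a v v, real_inner_comm]

lemma normsq_eq (a : A) (v : H) : ‖T.ρ a v‖ ^ 2 = ⟪T.ρ (T.st a * a) v, v⟫_ℝ := by
  rw [← T.inner_eq, real_inner_self_eq_norm_sq]

lemma mul_apply (a b : A) (v : H) : T.ρ (a * b) v = T.ρ a (T.ρ b v) := by
  rw [map_mul]; rfl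

lemma mul_apply' (a b : A) (v : H) : T.ρ (a * b) v = T.ρ b (T.ρ a v) := by
  rw [mul_comm, map_mul]; rfl

lemma one_apply (v : H) : T.ρ 1 v = v := by
  rw [map_one]; rfl

lemma sub_apply (a b : A) (v : H) : T.ρ (a - b) v = T.ρ a v - T.ρ b v := by
  rw [map_sub]; rfl

lemma add_apply (a b : A) (v : H) : T.ρ (a + b) v = T.ρ a v + T.ρ b v := by
  rw [map_add]; rfl

lemma smul_apply (c : ℝ) (a : A) (v : H) : T.ρ (c • a) v = c • T.ρ a v := by
  rw [map_smul]; rfl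

lemma sum_apply {ι : Type*} (s : Finset ι) (f : ι → A) (v : H) :
    T.ρ (∑ i ∈ s, f i) v = ∑ i ∈ s, T.ρ (f i) v := by
  rw [map_sum, LinearMap.sum_apply]

/-- `(p, u)` is a probability on unitary elements -/
structure IsProb {ι : Type*} [Fintype ι] (p : ι → ℝ) (u : ι → A) : Prop where
  nn : ∀ i, 0 ≤ p i
  sum : ∑ i, p i = 1
  unit : ∀ i, T.st (u i) * u i = 1

/-- the barycentre -/
def bar {ι : Type*} [Fintype ι] (p : ι → ℝ) (u : ι → A) : A := ∑ i, p i • u i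

/-- `z - z*` -/
def sk (z : A) : A := z - T.st z

/-- `2 - z - z*` -/
def xx (z : A) : A := 2 - z - T.st z

/-- `D = ∑ p_i ‖u_i v - v‖²` -/
noncomputable def D {ι : Type*} [Fintype ι] (p : ι → ℝ) (u : ι → A) (v : H) : ℝ :=
  ∑ i, p i * ‖T.ρ (u i) v - v‖ ^ 2

/-- the mean square of the second mixed difference -/
noncomputable def EM {ι ι' : Type*} [Fintype ι] [Fintype ι'] (p : ι → ℝ) (u : ι → A)
    (p' : ι' → ℝ) (u' : ι' → A) (v : H) : ℝ :=
  ∑ i, ∑ j, p i * p' j * ‖T.ρ ((u i - 1) * (u' j - 1)) v‖ ^ 2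

/-- `kap = ⟪S v, S' v⟫`, `S = (z - z*)/2` -/
noncomputable def kap (z z' : A) (v : H) : ℝ :=
  (1 / 4) * ⟪T.ρ (T.sk z) v, T.ρ (T.sk z') v⟫_ℝ

lemma st_sk (z : A) : T.st (T.sk z) = - T.sk z := by
  simp [sk, T.stst]

lemma st_xx (z : A) : T.st (T.xx z) = T.xx z := by
  simp only [xx, map_sub, T.stst]
  have : T.st (2 : A) = 2 := map_ofNat T.st 2
  rw [this]; ring

section prob

variable {ι : Type*} [Fintype ι] {p : ι → ℝ} {u : ι → A}
variable {ι' : Type*} [Fintype ι'] {p' : ι' → ℝ} {u' : ι' → A}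

lemma norm_unit {a : A} (ha : T.st a * a = 1) (w : H) : ‖T.ρ a w‖ = ‖w‖ := by
  have h := T.normsq_eq a w
  rw [ha, T.one_apply, real_inner_self_eq_norm_sq] at h
  exact (sq_eq_sq₀ (norm_nonneg _) (norm_nonneg _)).1 h

lemma contr (h : T.IsProb p u) (w : H) : ‖T.ρ (bar p u) w‖ ≤ ‖w‖ := by
  unfold bar
  rw [T.sum_apply]
  calc ‖∑ i, T.ρ (p i • u i) w‖ ≤ ∑ i, ‖T.ρ (p i • u i) w‖ := norm_sum_le _ _
    _ = ∑ i, p i * ‖w‖ := by
        refine sum_congr rfl fun i _ => ?_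
        rw [T.smul_apply, norm_smul, T.norm_unit (h.unit i), Real.norm_of_nonneg (h.nn i)]
    _ = ‖w‖ := by rw [← sum_mul, h.sum, one_mul]

/-- `⟪x w, w⟫ = D` -/
lemma inner_xx (h : T.IsProb p u) (w : H) :
    ⟪T.ρ (T.xx (bar p u)) w, w⟫_ℝ = T.D p u w := by
  have h1 : ⟪T.ρ (T.xx (bar p u)) w, w⟫_ℝ = 2 * ‖w‖ ^ 2 - 2 * ⟪T.ρ (bar p u) w, w⟫_ℝ := by
    have e2 : (2 : A) = 1 + 1 := by norm_num
    rw [xx, T.sub_apply, T.sub_apply, e2, T.add_apply, T.one_apply, inner_sub_left,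
      inner_sub_left, inner_add_left, T.inner_st, real_inner_self_eq_norm_sq]
    ring
  rw [h1]
  have h2 : ⟪T.ρ (bar p u) w, w⟫_ℝ = ∑ i, p i * ⟪T.ρ (u i) w, w⟫_ℝ := by
    unfold bar
    rw [T.sum_apply, sum_inner]
    refine sum_congr rfl fun i _ => ?_
    rw [T.smul_apply, real_inner_smul_left]
  have h3 : T.D p u w = ∑ i, (p i * (2 * ‖w‖ ^ 2) - 2 * (p i * ⟪T.ρ (u i) w, w⟫_ℝ)) := by
    unfold D
    refine sum_congr rfl fun i _ => ?_
    rw [@norm_sub_sq_real, T.norm_unit (h.unit i)]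
    ring
  rw [h3, sum_sub_distrib, ← sum_mul, h.sum, ← mul_sum, h2]
  ring

/-- fact (1): `‖s w‖² + ‖x w‖² ≤ 4 ⟪x w, w⟫` -/
lemma fact1 (h : T.IsProb p u) (w : H) :
    ‖T.ρ (T.sk (bar p u)) w‖ ^ 2 + ‖T.ρ (T.xx (bar p u)) w‖ ^ 2 ≤ 4 * T.D p u w := by
  set z := bar p u with hz
  have hc : ‖T.ρ z w‖ ^ 2 ≤ ‖w‖ ^ 2 :=
    pow_le_pow_left₀ (norm_nonneg _) (T.contr h w) 2
  have e1 : ‖T.ρ z w‖ ^ 2 = ⟪T.ρ (T.st z * z) w, w⟫_ℝ := T.normsq_eq z w
  have e2 : ‖T.ρ (T.sk z) w‖ ^ 2 + ‖T.ρ (T.xx z) w‖ ^ 2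
      = ⟪T.ρ (T.st z * z + T.st z * z + T.st z * z + T.st z * z) w, w⟫_ℝ
        - ⟪T.ρ (1 + 1 + 1 + 1) w, w⟫_ℝ
        + ⟪T.ρ (T.xx z + T.xx z + T.xx z + T.xx z) w, w⟫_ℝ := by
    rw [T.normsq_eq, T.normsq_eq, ← inner_add_left, ← inner_sub_left, ← inner_add_left,
      ← T.add_apply, ← T.sub_apply, ← T.add_apply, st_sk, st_xx]
    congr 3
    simp only [sk, xx]
    ring
  rw [← T.inner_xx h, e2]
  simp only [T.add_apply, inner_add_left, T.one_apply, real_inner_self_eq_norm_sq]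
  rw [← e1]
  linarith

lemma norm_sk_sq (h : T.IsProb p u) (w : H) :
    ‖T.ρ (T.sk (bar p u)) w‖ ^ 2 ≤ 4 * T.D p u w := by
  have := T.fact1 h w
  nlinarith [sq_nonneg ‖T.ρ (T.xx (bar p u)) w‖]

lemma norm_xx_sq (h : T.IsProb p u) (w : H) :
    ‖T.ρ (T.xx (bar p u)) w‖ ^ 2 ≤ 4 * T.D p u w := by
  have := T.fact1 h w
  nlinarith [sq_nonneg ‖T.ρ (T.sk (bar p u)) w‖]

lemma D_nonneg (h : T.IsProb p u) (w : H) : 0 ≤ T.D p u w :=
  sum_nonneg fun i _ => mul_nonneg (h.nn i) (by positivity)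

lemma EM_nonneg (h : T.IsProb p u) (h' : T.IsProb p' u') (w : H) : 0 ≤ T.EM p u p' u' w :=
  sum_nonneg fun i _ => sum_nonneg fun j _ =>
    mul_nonneg (mul_nonneg (h.nn i) (h'.nn j)) (by positivity)

lemma EM_symm (w : H) : T.EM p u p' u' w = T.EM p' u' p u w := by
  unfold EM
  rw [sum_comm]
  refine sum_congr rfl fun j _ => sum_congr rfl fun i _ => ?_
  rw [mul_comm (p i), mul_comm (u i - 1)]

/-- `EM = ∑_j p'_j D ((u'_j - 1) v)` -/
lemma EM_eq (w : H) : T.EM p u p' u' w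
    = ∑ j, p' j * T.D p u (T.ρ (u' j - 1) w) := by
  unfold EM D
  rw [sum_comm]
  refine sum_congr rfl fun j _ => ?_
  rw [mul_sum]
  refine sum_congr rfl fun i _ => ?_
  rw [T.mul_apply, T.sub_apply (u i) 1, T.one_apply]
  ring

/-- fact (4): `‖x s' v‖² ≤ 16 EM` -/
lemma fact4 (h : T.IsProb p u) (h' : T.IsProb p' u') (v : H) :
    ‖T.ρ (T.xx (bar p u) * T.sk (bar p' u')) v‖ ^ 2 ≤ 16 * T.EM p u p' u' v := by
  rw [T.mul_apply']
  have h1 := T.norm_sk_sq h' (T.ρ (T.xx (bar p u)) v)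
  have h2 : T.D p' u' (T.ρ (T.xx (bar p u)) v)
      ≤ ∑ j, p' j * (4 * T.D p u (T.ρ (u' j - 1) v)) := by
    unfold D
    refine sum_le_sum fun j _ => ?_
    refine mul_le_mul_of_nonneg_left ?_ (h'.nn j)
    have e : T.ρ (u' j) (T.ρ (T.xx (bar p u)) v) - T.ρ (T.xx (bar p u)) v
        = T.ρ (T.xx (bar p u)) (T.ρ (u' j - 1) v) := by
      rw [← T.mul_apply, ← T.sub_apply, ← T.mul_apply]
      congr 2
      ring
    rw [e]
    exact T.norm_xx_sq h _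
  have h3 : ∑ j, p' j * (4 * T.D p u (T.ρ (u' j - 1) v)) = 4 * T.EM p u p' u' v := by
    rw [T.EM_eq, mul_sum]
    refine sum_congr rfl fun j _ => ?_
    ring
  linarith

/-- `⟪x x' v, v⟫ = EM` -/
lemma inner_xx_xx (h : T.IsProb p u) (h' : T.IsProb p' u') (v : H) :
    ⟪T.ρ (T.xx (bar p u) * T.xx (bar p' u')) v, v⟫_ℝ = T.EM p u p' u' v := by
  have hx : T.xx (bar p' u') = ∑ j, p' j • (2 - u' j - T.st (u' j)) := by
    have e2 : (2 : A) = ∑ j, p' j • (2 : A) := by rw [← sum_smul, h'.sum, one_smul]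
    simp only [xx, bar, map_sum, map_smul, smul_sub, sum_sub_distrib]
    rw [← e2]
  have hj : ∀ j, T.D p u (T.ρ (u' j - 1) v)
      = ⟪T.ρ (T.xx (bar p u) * (2 - u' j - T.st (u' j))) v, v⟫_ℝ := by
    intro j
    rw [← T.inner_xx h, ← T.mul_apply, T.inner_eq]
    congr 3
    rw [map_sub, map_one]
    linear_combination (T.xx (bar p u)) * h'.unit j
  rw [T.EM_eq, hx, mul_sum, T.sum_apply, sum_inner]
  refine sum_congr rfl fun j _ => ?_
  rw [hj, mul_smul_comm, T.smul_apply, real_inner_smul_left]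

/-- the barycentre of the product -/
lemma bar_mul : bar (fun i : ι × ι' => p i.1 * p' i.2) (fun i => u i.1 * u' i.2)
    = bar p u * bar p' u' := by
  unfold bar
  rw [sum_mul_sum, ← univ_product_univ, sum_product]
  refine sum_congr rfl fun i _ => sum_congr rfl fun j _ => ?_
  rw [smul_mul_smul_comm]

lemma IsProb.mul (h : T.IsProb p u) (h' : T.IsProb p' u') :
    T.IsProb (fun i : ι × ι' => p i.1 * p' i.2) (fun i => u i.1 * u' i.2) where
  nn := fun i => mul_nonneg (h.nn _) (h'.nn _)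
  sum := by
    rw [← univ_product_univ, sum_product]
    simp only [← mul_sum, h'.sum, mul_one, h.sum]
  unit := fun i => by
    rw [map_mul]
    linear_combination (T.st (u' i.2) * u' i.2) * h.unit i.1 + h'.unit i.2

/-- **(2)** -/
theorem D_mul (h : T.IsProb p u) (h' : T.IsProb p' u') (v : H) :
    T.D (fun i : ι × ι' => p i.1 * p' i.2) (fun i => u i.1 * u' i.2) v
      = T.D p u v + T.D p' u' v - T.EM p u p' u' v / 2
        + 2 * T.kap (bar p u) (bar p' u') v := by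
  rw [← T.inner_xx (h.mul T h'), ← T.inner_xx h, ← T.inner_xx h', ← T.inner_xx_xx h h', kap,
    bar_mul, T.inner_eq, st_sk]
  set z := bar p u
  set z' := bar p' u'
  have key : T.xx (z * z') + T.xx (z * z') + T.xx z * T.xx z'
      = T.xx z + T.xx z + T.xx z' + T.xx z' + (- T.sk z' * T.sk z) := by
    simp only [xx, sk, map_mul]
    ring
  have := congrArg (fun a => ⟪T.ρ a v, v⟫_ℝ) key
  simp only [T.add_apply, inner_add_left] at this
  linarith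

/-- **(top)** -/
theorem kap_top (h : T.IsProb p u) (h' : T.IsProb p' u') (v : H) :
    |T.kap (bar p u) (bar p' u') v| ≤ √(T.D p u v) * √(T.D p' u' v) := by
  have h1 : ‖T.ρ (T.sk (bar p u)) v‖ ≤ 2 * √(T.D p u v) := by
    rw [show (2 : ℝ) * √(T.D p u v) = √(4 * T.D p u v) by
      rw [Real.sqrt_mul (by norm_num)]; norm_num]
    exact Real.le_sqrt_of_sq_le (T.norm_sk_sq h v)
  have h2 : ‖T.ρ (T.sk (bar p' u')) v‖ ≤ 2 * √(T.D p' u' v) := by
    rw [show (2 : ℝ) * √(T.D p' u' v) = √(4 * T.D p' u' v) by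
      rw [Real.sqrt_mul (by norm_num)]; norm_num]
    exact Real.le_sqrt_of_sq_le (T.norm_sk_sq h' v)
  have h3 := abs_real_inner_le_norm (T.ρ (T.sk (bar p u)) v) (T.ρ (T.sk (bar p' u')) v)
  unfold kap
  rw [abs_mul, abs_of_nonneg (by norm_num : (0 : ℝ) ≤ 1 / 4)]
  have h4 : ‖T.ρ (T.sk (bar p u)) v‖ * ‖T.ρ (T.sk (bar p' u')) v‖
      ≤ (2 * √(T.D p u v)) * (2 * √(T.D p' u' v)) :=
    mul_le_mul h1 h2 (norm_nonneg _) (by positivity)
  linarith

/-- **(5)**: one doubling -/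
theorem kap_le (h : T.IsProb p u) (h' : T.IsProb p' u') (v : H) :
    |T.kap (bar p u) (bar p' u') v|
      ≤ |T.kap (bar p u * bar p u) (bar p' u' * bar p' u') v| / 4
        + √(T.EM p u p' u' v) * (√(T.D p u v) + √(T.D p' u' v)) + T.EM p u p' u' v := by
  set z := bar p u with hz
  set z' := bar p' u' with hz'
  set e := T.EM p u p' u' v with he
  have he0 : 0 ≤ e := T.EM_nonneg h h' v
  have n1 : ‖T.ρ (T.sk z) v‖ ≤ 2 * √(T.D p u v) := by
    rw [show (2 : ℝ) * √(T.D p u v) = √(4 * T.D p u v) by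
      rw [Real.sqrt_mul (by norm_num)]; norm_num]
    exact Real.le_sqrt_of_sq_le (T.norm_sk_sq h v)
  have n2 : ‖T.ρ (T.sk z') v‖ ≤ 2 * √(T.D p' u' v) := by
    rw [show (2 : ℝ) * √(T.D p' u' v) = √(4 * T.D p' u' v) by
      rw [Real.sqrt_mul (by norm_num)]; norm_num]
    exact Real.le_sqrt_of_sq_le (T.norm_sk_sq h' v)
  have m1 : ‖T.ρ (T.xx z * T.sk z') v‖ ≤ 4 * √e := by
    rw [show (4 : ℝ) * √e = √(16 * e) by
      rw [Real.sqrt_mul (by norm_num), show (16 : ℝ) = 4 ^ 2 by norm_num,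
        Real.sqrt_sq (by norm_num)]]
    exact Real.le_sqrt_of_sq_le (T.fact4 h h' v)
  have m2 : ‖T.ρ (T.xx z' * T.sk z) v‖ ≤ 4 * √e := by
    rw [show (4 : ℝ) * √e = √(16 * e) by
      rw [Real.sqrt_mul (by norm_num), show (16 : ℝ) = 4 ^ 2 by norm_num,
        Real.sqrt_sq (by norm_num)]]
    refine Real.le_sqrt_of_sq_le ?_
    rw [he, T.EM_symm]
    exact T.fact4 h' h v
  -- the identity
  have key : ⟪T.ρ (T.sk (z * z)) v, T.ρ (T.sk (z' * z')) v⟫_ℝ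
      = 4 * ⟪T.ρ (T.sk z) v, T.ρ (T.sk z') v⟫_ℝ
        - 2 * ⟪T.ρ (T.sk z) v, T.ρ (T.xx z * T.sk z') v⟫_ℝ
        - 2 * ⟪T.ρ (T.xx z' * T.sk z) v, T.ρ (T.sk z') v⟫_ℝ
        + ⟪T.ρ (T.xx z' * T.sk z) v, T.ρ (T.xx z * T.sk z') v⟫_ℝ := by
    simp only [T.inner_eq]
    have k : T.st (T.sk (z' * z')) * T.sk (z * z)
        + (T.st (T.xx z * T.sk z') * T.sk z + T.st (T.xx z * T.sk z') * T.sk z)
        + (T.st (T.sk z') * (T.xx z' * T.sk z) + T.st (T.sk z') * (T.xx z' * T.sk z))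
        = (T.st (T.sk z') * T.sk z + T.st (T.sk z') * T.sk z + T.st (T.sk z') * T.sk z
          + T.st (T.sk z') * T.sk z)
        + T.st (T.xx z * T.sk z') * (T.xx z' * T.sk z) := by
      simp only [map_mul, st_sk, st_xx]
      simp only [xx, sk, map_mul]
      ring
    have := congrArg (fun a => ⟪T.ρ a v, v⟫_ℝ) k
    simp only [T.add_apply, inner_add_left] at this
    linarith
  have c1 := abs_real_inner_le_norm (T.ρ (T.sk z) v) (T.ρ (T.xx z * T.sk z') v)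
  have c2 := abs_real_inner_le_norm (T.ρ (T.xx z' * T.sk z) v) (T.ρ (T.sk z') v)
  have c3 := abs_real_inner_le_norm (T.ρ (T.xx z' * T.sk z) v) (T.ρ (T.xx z * T.sk z') v)
  have d1 : ‖T.ρ (T.sk z) v‖ * ‖T.ρ (T.xx z * T.sk z') v‖
      ≤ (2 * √(T.D p u v)) * (4 * √e) := mul_le_mul n1 m1 (norm_nonneg _) (by positivity)
  have d2 : ‖T.ρ (T.xx z' * T.sk z) v‖ * ‖T.ρ (T.sk z') v‖
      ≤ (4 * √e) * (2 * √(T.D p' u' v)) := mul_le_mul m2 n2 (norm_nonneg _) (by positivity)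
  have d3 : ‖T.ρ (T.xx z' * T.sk z) v‖ * ‖T.ρ (T.xx z * T.sk z') v‖
      ≤ (4 * √e) * (4 * √e) := mul_le_mul m2 m1 (norm_nonneg _) (by positivity)
  have hse : √e * √e = e := Real.mul_self_sqrt he0
  have c1' := c1.trans d1
  have c2' := c2.trans d2
  have c3' := c3.trans d3
  unfold kap
  rw [key]
  set I0 := ⟪T.ρ (T.sk z) v, T.ρ (T.sk z') v⟫_ℝ
  set I1 := ⟪T.ρ (T.sk z) v, T.ρ (T.xx z * T.sk z') v⟫_ℝ
  set I2 := ⟪T.ρ (T.xx z' * T.sk z) v, T.ρ (T.sk z') v⟫_ℝ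
  set I3 := ⟪T.ρ (T.xx z' * T.sk z) v, T.ρ (T.xx z * T.sk z') v⟫_ℝ
  have e3 : (4 * √e) * (4 * √e) = 16 * e := by linear_combination 16 * hse
  rw [e3] at c3'
  have hI : 1 / 4 * I0 = (1 / 4 * (4 * I0 - 2 * I1 - 2 * I2 + I3)) / 4 + (1 / 8) * I1
      + (1 / 8) * I2 - (1 / 16) * I3 := by ring
  rw [hI]
  set Q := 1 / 4 * (4 * I0 - 2 * I1 - 2 * I2 + I3)
  have t1 : |Q / 4 + (1 / 8) * I1 + (1 / 8) * I2 - (1 / 16) * I3|
      ≤ |Q| / 4 + (1 / 8) * |I1| + (1 / 8) * |I2| + (1 / 16) * |I3| := by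
    rw [abs_le]
    constructor
    · have := neg_abs_le Q
      have := neg_abs_le I1
      have := neg_abs_le I2
      have := le_abs_self I3
      linarith
    · have := le_abs_self Q
      have := le_abs_self I1
      have := le_abs_self I2
      have := neg_abs_le I3
      linarith
  have a1 : (1 / 8) * |I1| ≤ √e * √(T.D p u v) * 1 := by nlinarith
  have a2 : (1 / 8) * |I2| ≤ √e * √(T.D p' u' v) * 1 := by nlinarith
  have a3 : (1 / 16) * |I3| ≤ e := by linarith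
  calc |Q / 4 + (1 / 8) * I1 + (1 / 8) * I2 - (1 / 16) * I3|
      ≤ |Q| / 4 + (1 / 8) * |I1| + (1 / 8) * |I2| + (1 / 16) * |I3| := t1
    _ ≤ |Q| / 4 + √e * √(T.D p u v) * 1 + √e * √(T.D p' u' v) * 1 + e := by linarith
    _ = _ := by ring

end prob

end Act

end W_7d29a1_Z.HilV77
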