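import Mathlib

/-!
STORM Z (MP_7d29a1_pr), leaf Z8, pure part: the induction (IN) over the size of the steps and over the lengths of the
intervals of blocks. (helper72)

Levels `k = 0, .., K`, `θ = 2 ^ (k - K)`, intervals of `m ≤ θ⁻²` blocks, bound `c (√m + θ m) W` with `W = 2 ^ k A`.
`level`: the bound of the level `k + 1` on at most four pieces. `cluster`: the sum over the clusters. `step`: the pathwise
inequality. `cc_step`: the constants. `prob_rec`: the recursion of the probabilities. `absorb`: long clusters.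
-/

namespace Pool.Agent.W_7d29a1_Z.In72

open Finset

noncomputable section

/-! ### The level above -/

/-- Cauchy - Schwarz for at most four pieces. -/
theorem pieces {ι : Type*} (s : Finset ι) (m : ι → ℝ) (hm : ∀ i ∈ s, 0 ≤ m i) (hc : s.card ≤ 4) :
    ∑ i ∈ s, √(m i) ≤ 2 * √(∑ i ∈ s, m i) := by
  have h1 : (∑ i ∈ s, √(m i)) ^ 2 ≤ s.card * ∑ i ∈ s, √(m i) ^ 2 := sq_sum_le_card_mul_sum_sq
  have h2 : ∑ i ∈ s, √(m i) ^ 2 = ∑ i ∈ s, m i := Finset.sum_congr rfl fun i hi => Real.sq_sqrt (hm i hi)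
  have h3 : 0 ≤ ∑ i ∈ s, m i := Finset.sum_nonneg hm
  have h4 : (∑ i ∈ s, √(m i)) ^ 2 ≤ (2 * √(∑ i ∈ s, m i)) ^ 2 := by
    rw [mul_pow, Real.sq_sqrt h3]
    refine h1.trans ?_
    rw [h2]
    have : (s.card : ℝ) ≤ 4 := by exact_mod_cast hc
    nlinarith
  exact abs_le_of_sq_le_sq' h4 (by positivity) |>.2

/-- The bound of the level `k + 1` on at most four pieces of the interval, multiplied by `1 / 4`. -/
theorem level {ι : Type*} (s : Finset ι) (m : ι → ℝ) (hm : ∀ i ∈ s, 0 ≤ m i) (hc : s.card ≤ 4) {c θ W : ℝ}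
    (hc0 : 0 ≤ c) (hW : 0 ≤ W) :
    1 / 4 * ∑ i ∈ s, c * (√(m i) + 2 * θ * m i) * (2 * W) ≤ c * (√(∑ i ∈ s, m i) + θ * ∑ i ∈ s, m i) * W := by
  have h1 := pieces s m hm hc
  have h2 : ∑ i ∈ s, c * (√(m i) + 2 * θ * m i) * (2 * W) =
      2 * (c * W) * ∑ i ∈ s, √(m i) + 4 * (c * W) * (θ * ∑ i ∈ s, m i) := by
    rw [Finset.mul_sum, Finset.mul_sum, Finset.mul_sum, ← Finset.sum_add_distrib]
    exact Finset.sum_congr rfl fun i _ => by ring
  rw [h2]
  have h3 : 0 ≤ c * W := mul_nonneg hc0 hW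
  nlinarith [mul_le_mul_of_nonneg_left h1 h3]

/-! ### The sum over the clusters -/

theorem geom_sqrt (J : ℕ) : ∑ j ∈ range J, √((2 : ℝ) ^ j) ≤ 5 / 2 * √((2 : ℝ) ^ J) := by
  induction J with
  | zero => norm_num
  | succ J ih =>
    rw [Finset.sum_range_succ]
    have h1 : √((2 : ℝ) ^ (J + 1)) = √((2 : ℝ) ^ J) * √2 := by
      rw [pow_succ, Real.sqrt_mul (by positivity)]
    have h2 : (7 / 5 : ℝ) ≤ √2 := by
      apply Real.le_sqrt_of_sq_le
      norm_num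
    have h3 : 0 ≤ √((2 : ℝ) ^ J) := Real.sqrt_nonneg _
    rw [h1]
    nlinarith

theorem geom_sqrt_le {J : ℕ} {x : ℝ} :
    ∑ j ∈ (range J).filter (fun j => (2 : ℝ) ^ j ≤ x), √((2 : ℝ) ^ j) ≤ 4 * √x := by
  induction J with
  | zero => simp
  | succ J ih =>
    by_cases hJ : (2 : ℝ) ^ J ≤ x
    · have h1 : ∑ j ∈ (range (J + 1)).filter (fun j => (2 : ℝ) ^ j ≤ x), √((2 : ℝ) ^ j) ≤
          ∑ j ∈ range (J + 1), √((2 : ℝ) ^ j) :=
        Finset.sum_le_sum_of_subset_of_nonneg (Finset.filter_subset _ _) fun _ _ _ => Real.sqrt_nonneg _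
      have h2 := geom_sqrt (J + 1)
      have h3 : √((2 : ℝ) ^ (J + 1)) ≤ 3 / 2 * √x := by
        rw [pow_succ, Real.sqrt_mul (by positivity), mul_comm]
        have h4 : √2 ≤ 3 / 2 := by
          rw [Real.sqrt_le_left (by norm_num)]
          norm_num
        exact mul_le_mul h4 (Real.sqrt_le_sqrt hJ) (Real.sqrt_nonneg _) (by norm_num)
      have h4 : 0 ≤ √x := Real.sqrt_nonneg x
      linarith
    · rw [Finset.range_add_one, Finset.filter_insert, if_neg hJ]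
      exact ih

theorem geom_le {J : ℕ} {x : ℝ} (hx : 0 ≤ x) :
    ∑ j ∈ (range J).filter (fun j => (2 : ℝ) ^ j ≤ x), (2 : ℝ) ^ j ≤ 2 * x := by
  induction J with
  | zero => simpa using hx
  | succ J ih =>
    by_cases hJ : (2 : ℝ) ^ J ≤ x
    · have h1 : ∑ j ∈ (range (J + 1)).filter (fun j => (2 : ℝ) ^ j ≤ x), (2 : ℝ) ^ j ≤
          ∑ j ∈ range (J + 1), (2 : ℝ) ^ j :=
        Finset.sum_le_sum_of_subset_of_nonneg (Finset.filter_subset _ _) fun _ _ _ => by positivity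
      have h2 : ∑ j ∈ range (J + 1), (2 : ℝ) ^ j = 2 ^ (J + 1) - 1 := by
        have h3 : (2 : ℝ) ≠ 1 := by norm_num
        rw [geom_sum_eq h3 (J + 1)]
        norm_num
      rw [h2] at h1
      rw [pow_succ] at h1
      linarith
    · rw [Finset.range_add_one, Finset.filter_insert, if_neg hJ]
      exact ih

/-- A sum over the clusters, arranged according to the dyadic classes of the spans. -/
theorem dyadic {ι : Type*} (s : Finset ι) (d : ι → ℕ) (hd : ∀ i ∈ s, 1 ≤ d i) {J : ℕ} (hJ : ∀ i ∈ s, d i < 2 ^ J)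
    {x : ℝ} (hx : ∀ i ∈ s, (d i : ℝ) ≤ x) (f : ℕ → ℝ) (g N : ℕ → ℝ) (hg : ∀ j, 0 ≤ g j)
    (hf : ∀ j, ∀ n < 2 ^ (j + 1), f n ≤ g j)
    (hN : ∀ j < J, (((s.filter fun i => 2 ^ j ≤ d i ∧ d i < 2 ^ (j + 1)).card : ℕ) : ℝ) ≤ N j) :
    ∑ i ∈ s, f (d i) ≤ ∑ j ∈ (range J).filter (fun j => (2 : ℝ) ^ j ≤ x), N j * g j := by
  classical
  have hlog : ∀ i ∈ s, 2 ^ Nat.log 2 (d i) ≤ d i ∧ d i < 2 ^ (Nat.log 2 (d i) + 1) := fun i hi =>
    ⟨Nat.pow_log_le_self 2 (by have := hd i hi; omega), Nat.lt_pow_succ_log_self (by norm_num) _⟩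
  have hmaps : ∀ i ∈ s, Nat.log 2 (d i) ∈ (range J).filter (fun j => (2 : ℝ) ^ j ≤ x) := by
    intro i hi
    rw [Finset.mem_filter, Finset.mem_range]
    refine ⟨?_, ?_⟩
    · have h1 := (hlog i hi).1.trans_lt (hJ i hi)
      exact (Nat.pow_lt_pow_iff_right (by norm_num)).1 h1
    · have h1 : ((2 ^ Nat.log 2 (d i) : ℕ) : ℝ) ≤ (d i : ℝ) := by exact_mod_cast (hlog i hi).1
      push_cast at h1
      exact h1.trans (hx i hi)
  rw [← Finset.sum_fiberwise_of_maps_to hmaps]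
  refine Finset.sum_le_sum fun j hj => ?_
  have hjJ : j < J := by simpa using (Finset.mem_filter.1 hj).1
  calc ∑ i ∈ s.filter (fun i => Nat.log 2 (d i) = j), f (d i)
      ≤ ∑ _i ∈ s.filter (fun i => Nat.log 2 (d i) = j), g j := by
        refine Finset.sum_le_sum fun i hi => ?_
        obtain ⟨his, hij⟩ := Finset.mem_filter.1 hi
        refine hf j _ ?_
        rw [← hij]
        exact (hlog i his).2
    _ = ((s.filter (fun i => Nat.log 2 (d i) = j)).card : ℝ) * g j := by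
        rw [Finset.sum_const, nsmul_eq_mul]
    _ ≤ N j * g j := by
        refine mul_le_mul_of_nonneg_right ?_ (hg j)
        refine le_trans ?_ (hN j hjJ)
        have : s.filter (fun i => Nat.log 2 (d i) = j) ⊆ s.filter fun i => 2 ^ j ≤ d i ∧ d i < 2 ^ (j + 1) := by
          intro i hi
          obtain ⟨his, hij⟩ := Finset.mem_filter.1 hi
          refine Finset.mem_filter.2 ⟨his, ?_⟩
          rw [← hij]
          exact hlog i his
        exact_mod_cast Finset.card_le_card this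

/-- The sum over the clusters: `l (1 + m π 2 ^ (- j / 2))` clusters with a span in `[2 ^ j, 2 ^ (j + 1))`, all spans at most
`m / T`. -/
theorem cluster {ι : Type*} (s : Finset ι) (d : ι → ℕ) (hd : ∀ i ∈ s, 1 ≤ d i) {J : ℕ} (hJ : ∀ i ∈ s, d i < 2 ^ J)
    {m T l ϖ θ η : ℝ} (hm : 0 ≤ m) (hT : 1 ≤ T) (hl : 1 ≤ l) (hJl : (J : ℝ) ≤ l) (hϖ : 0 ≤ ϖ) (hθ : 0 ≤ θ)
    (hm0 : θ ^ 2 * m ≤ 1) (hx : ∀ i ∈ s, (d i : ℝ) ≤ m / T)
    (hN : ∀ j < J, (((s.filter fun i => 2 ^ j ≤ d i ∧ d i < 2 ^ (j + 1)).card : ℕ) : ℝ) ≤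
      l * (1 + m * ϖ / √((2 : ℝ) ^ j)))
    (hπθ : ϖ ≤ θ) (h1 : 24 * l ≤ η * √T) (h2 : 4 * l ^ 2 * ϖ ≤ η * θ) :
    ∑ i ∈ s, (√(d i : ℝ) + θ * (d i : ℝ)) ≤ η * (√m + θ * m) := by
  have hT0 : (0 : ℝ) < T := by linarith
  have hsT : (1 : ℝ) ≤ √T := by rw [Real.one_le_sqrt]; exact hT
  have hx0 : 0 ≤ m / T := div_nonneg hm hT0.le
  have hs2 : √2 ≤ (3 / 2 : ℝ) := by
    rw [Real.sqrt_le_left (by norm_num)]
    norm_num
  have hη : 0 ≤ η := by
    by_contra hneg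
    push Not at hneg
    nlinarith
  have hpos : ∀ j : ℕ, 0 < √((2 : ℝ) ^ j) := fun j => Real.sqrt_pos.2 (by positivity)
  -- the square roots
  have hA := dyadic s d hd hJ hx (fun n => √(n : ℝ)) (fun j => √2 * √((2 : ℝ) ^ j))
    (fun j => l * (1 + m * ϖ / √((2 : ℝ) ^ j))) (fun j => by positivity)
    (fun j n hn => by
      have h3 : (n : ℝ) ≤ 2 * 2 ^ j := by
        have : (n : ℝ) ≤ ((2 ^ (j + 1) : ℕ) : ℝ) := by exact_mod_cast hn.le
        push_cast at this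
        rw [pow_succ] at this
        linarith
      calc √(n : ℝ) ≤ √(2 * 2 ^ j) := Real.sqrt_le_sqrt h3
        _ = √2 * √((2 : ℝ) ^ j) := Real.sqrt_mul (by norm_num) _) hN
  have hB := dyadic s d hd hJ hx (fun n => (n : ℝ)) (fun j => 2 * (2 : ℝ) ^ j)
    (fun j => l * (1 + m * ϖ / √((2 : ℝ) ^ j))) (fun j => by positivity)
    (fun j n hn => by
      have : (n : ℝ) ≤ ((2 ^ (j + 1) : ℕ) : ℝ) := by exact_mod_cast hn.le
      push_cast at this
      rw [pow_succ] at this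
      linarith) hN
  have hA2 : ∑ j ∈ (range J).filter (fun j => (2 : ℝ) ^ j ≤ m / T),
      l * (1 + m * ϖ / √((2 : ℝ) ^ j)) * (√2 * √((2 : ℝ) ^ j)) ≤ 6 * l * √(m / T) + 2 * l ^ 2 * (ϖ * m) := by
    have h3 : ∀ j : ℕ, l * (1 + m * ϖ / √((2 : ℝ) ^ j)) * (√2 * √((2 : ℝ) ^ j)) =
        l * √2 * √((2 : ℝ) ^ j) + l * √2 * (ϖ * m) := by
      intro j
      have := (hpos j).ne'
      field_simp
    rw [Finset.sum_congr rfl fun j _ => h3 j, Finset.sum_add_distrib, ← Finset.mul_sum, Finset.sum_const,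
      nsmul_eq_mul]
    have h4 := geom_sqrt_le (J := J) (x := m / T)
    have h5 : (((range J).filter (fun j => (2 : ℝ) ^ j ≤ m / T)).card : ℝ) ≤ l := by
      refine le_trans ?_ hJl
      have := Finset.card_filter_le (range J) (fun j => (2 : ℝ) ^ j ≤ m / T)
      rw [Finset.card_range] at this
      exact_mod_cast this
    have h6 : 0 ≤ √(m / T) := Real.sqrt_nonneg _
    have h7 : l * √2 * ∑ j ∈ (range J).filter (fun j => (2 : ℝ) ^ j ≤ m / T), √((2 : ℝ) ^ j) ≤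
        l * (3 / 2) * (4 * √(m / T)) := by
      refine mul_le_mul (mul_le_mul_of_nonneg_left hs2 (by linarith)) h4
        (Finset.sum_nonneg fun _ _ => Real.sqrt_nonneg _) (by linarith)
    have h8 : (((range J).filter (fun j => (2 : ℝ) ^ j ≤ m / T)).card : ℝ) * (l * √2 * (ϖ * m)) ≤
        l * (l * (3 / 2) * (ϖ * m)) := by
      have h9 : 0 ≤ ϖ * m := mul_nonneg hϖ hm
      refine mul_le_mul h5 ?_ (by positivity) (by linarith)
      exact mul_le_mul_of_nonneg_right (mul_le_mul_of_nonneg_left hs2 (by linarith)) h9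
    have h9 : 0 ≤ l ^ 2 * (ϖ * m) := by positivity
    nlinarith
  have hB2 : ∑ j ∈ (range J).filter (fun j => (2 : ℝ) ^ j ≤ m / T),
      l * (1 + m * ϖ / √((2 : ℝ) ^ j)) * (2 * (2 : ℝ) ^ j) ≤ 4 * l * (m / T) + 8 * l * (ϖ * m) * √(m / T) := by
    have h3 : ∀ j : ℕ, l * (1 + m * ϖ / √((2 : ℝ) ^ j)) * (2 * (2 : ℝ) ^ j) =
        2 * l * (2 : ℝ) ^ j + 2 * l * (ϖ * m) * √((2 : ℝ) ^ j) := by
      intro j
      have h4 : (2 : ℝ) ^ j = √((2 : ℝ) ^ j) * √((2 : ℝ) ^ j) := (Real.mul_self_sqrt (by positivity)).symm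
      have h5 := (hpos j).ne'
      have h6 : m * ϖ / √((2 : ℝ) ^ j) * (2 : ℝ) ^ j = m * ϖ * √((2 : ℝ) ^ j) := by
        nth_rewrite 2 [h4]
        field_simp
      calc l * (1 + m * ϖ / √((2 : ℝ) ^ j)) * (2 * (2 : ℝ) ^ j) =
          2 * l * (2 : ℝ) ^ j + 2 * l * (m * ϖ / √((2 : ℝ) ^ j) * (2 : ℝ) ^ j) := by ring
        _ = _ := by rw [h6]; ring
    rw [Finset.sum_congr rfl fun j _ => h3 j, Finset.sum_add_distrib, ← Finset.mul_sum, ← Finset.mul_sum]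
    have h4 := geom_sqrt_le (J := J) (x := m / T)
    have h5 := geom_le (J := J) hx0
    have h6 : 0 ≤ 2 * l * (ϖ * m) := by positivity
    have h7 : 0 ≤ 2 * l := by linarith
    nlinarith [mul_le_mul_of_nonneg_left h4 h6, mul_le_mul_of_nonneg_left h5 h7]
  -- the final comparison
  have hsm : √(m / T) = √m / √T := Real.sqrt_div hm T
  have hsT0 : 0 < √T := by linarith
  have hsm0 : 0 ≤ √m := Real.sqrt_nonneg m
  have hmm : √m * √m = m := Real.mul_self_sqrt hm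
  have hθm : θ * √m ≤ 1 := by
    have h3 : (θ * √m) ^ 2 ≤ 1 ^ 2 := by
      rw [mul_pow, Real.sq_sqrt hm]
      simpa using hm0
    exact abs_le_of_sq_le_sq' h3 (by norm_num) |>.2
  rw [Finset.sum_add_distrib, ← Finset.mul_sum]
  have hS1 : ∑ i ∈ s, √(d i : ℝ) ≤ 6 * l * √(m / T) + 2 * l ^ 2 * (ϖ * m) := hA.trans hA2
  have hS2 : ∑ i ∈ s, (d i : ℝ) ≤ 4 * l * (m / T) + 8 * l * (ϖ * m) * √(m / T) := hB.trans hB2
  have e1 : 6 * l * √(m / T) ≤ η / 4 * √m := by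
    rw [hsm]
    have : 6 * l * (√m / √T) = 6 * l / √T * √m := by ring
    rw [this]
    refine mul_le_mul_of_nonneg_right ?_ hsm0
    rw [div_le_iff₀ hsT0]
    linarith
  have e2 : 2 * l ^ 2 * (ϖ * m) ≤ η / 2 * (θ * m) := by
    have := mul_le_mul_of_nonneg_right h2 hm
    nlinarith
  have e3 : 4 * l * (m / T) ≤ η / 6 * m := by
    have : 4 * l * (m / T) = 4 * l / T * m := by ring
    rw [this]
    refine mul_le_mul_of_nonneg_right ?_ hm
    rw [div_le_iff₀ hT0]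
    have h3 : √T * √T = T := Real.mul_self_sqrt hT0.le
    nlinarith [mul_nonneg hη (mul_nonneg hsT0.le (sub_nonneg.2 hsT))]
  have e4 : 8 * l * (ϖ * m) * √(m / T) ≤ η * m / 3 * (θ * √m) := by
    rw [hsm]
    have h3 : 8 * l * (ϖ * m) * (√m / √T) = 8 * l / √T * (m * (ϖ * √m)) := by ring
    rw [h3]
    have h4 : 8 * l / √T ≤ η / 3 := by
      rw [div_le_iff₀ hsT0]
      linarith
    have h5 : m * (ϖ * √m) ≤ m * (θ * √m) :=
      mul_le_mul_of_nonneg_left (mul_le_mul_of_nonneg_right hπθ hsm0) hm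
    have h6 : 0 ≤ m * (ϖ * √m) := by positivity
    calc 8 * l / √T * (m * (ϖ * √m)) ≤ η / 3 * (m * (θ * √m)) :=
          mul_le_mul h4 h5 h6 (by positivity)
      _ = η * m / 3 * (θ * √m) := by ring
  have e5 : η * m / 3 * (θ * √m) ≤ η * m / 3 := by
    have h3 : 0 ≤ η * m / 3 := by positivity
    nlinarith
  have e6 : θ * ∑ i ∈ s, (d i : ℝ) ≤ θ * (η / 2 * m) := by
    refine mul_le_mul_of_nonneg_left ?_ hθ
    linarith
  have e7 : 0 ≤ η * √m := mul_nonneg hη hsm0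
  nlinarith

/-! ### The pathwise step -/

/-- The pathwise step: `X` is bounded by the level `k + 1` on the whole interval (`Y`), the noise `H` and the clusters. -/
theorem step {ι : Type*} (s : Finset ι) (d a b h : ι → ℝ) {X Y H m θ W c c' h₀ η : ℝ} (hd : ∀ i ∈ s, 0 ≤ d i)
    (hW : 0 ≤ W) (hθ : 0 ≤ θ) (hm : 0 ≤ m) (hc' : 0 ≤ c') (hh : 0 ≤ h₀)
    (hX : X ≤ 1 / 4 * Y + H + ∑ i ∈ s, (a i + 1 / 4 * b i + h i))
    (hY : 1 / 4 * Y ≤ c' * (√m + θ * m) * W) (hH : H ≤ h₀ * √m * W)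
    (ha : ∀ i ∈ s, a i ≤ c * (√(d i) + θ * d i) * W)
    (hb : ∀ i ∈ s, b i ≤ c' * (√(d i) + 2 * θ * d i) * (2 * W)) (hhi : ∀ i ∈ s, h i ≤ h₀ * √(d i) * W)
    (hcl : ∑ i ∈ s, (√(d i) + θ * d i) ≤ η * (√m + θ * m)) (hcc : c' + h₀ + (c + c' + h₀) * η ≤ c)
    (hc : 0 ≤ c) :
    X ≤ c * (√m + θ * m) * W := by
  have h1 : ∑ i ∈ s, (a i + 1 / 4 * b i + h i) ≤ ∑ i ∈ s, (c + c' + h₀) * W * (√(d i) + θ * d i) := by
    refine Finset.sum_le_sum fun i hi => ?_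
    have e1 := ha i hi
    have e2 := hb i hi
    have e3 := hhi i hi
    have e4 : 0 ≤ √(d i) := Real.sqrt_nonneg _
    have e5 : 0 ≤ θ * d i := mul_nonneg hθ (hd i hi)
    have e6 : 0 ≤ c' * W := mul_nonneg hc' hW
    have e7 : 0 ≤ h₀ * W := mul_nonneg hh hW
    nlinarith [mul_nonneg e6 e4, mul_nonneg e7 e5, mul_nonneg e6 e5]
  rw [← Finset.mul_sum] at h1
  have h2 : 0 ≤ (c + c' + h₀) * W := mul_nonneg (by linarith) hW
  have h3 := mul_le_mul_of_nonneg_left hcl h2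
  have h4 : 0 ≤ √m := Real.sqrt_nonneg m
  have h5 : 0 ≤ θ * m := mul_nonneg hθ hm
  have h6 : 0 ≤ W * (√m + θ * m) := mul_nonneg hW (by linarith)
  have h7 := mul_le_mul_of_nonneg_right hcc h6
  have h8 : 0 ≤ h₀ * W * (θ * m) := by positivity
  nlinarith

/-- The constants of the levels. -/
def cc (c₀ h₀ : ℝ) (K k : ℕ) : ℝ := c₀ + 2 * h₀ * ((K : ℝ) - k)

theorem cc_step {c₀ h₀ η : ℝ} {K k : ℕ} (hh : 0 ≤ h₀) (hη : 0 ≤ η) (hk : k < K)
    (h : (2 * c₀ + (4 * K + 1) * h₀) * η ≤ h₀) :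
    cc c₀ h₀ K (k + 1) + h₀ + (cc c₀ h₀ K k + cc c₀ h₀ K (k + 1) + h₀) * η ≤ cc c₀ h₀ K k := by
  have h1 : ((k : ℝ) + 1) ≤ K := by exact_mod_cast hk
  have h2 : (0 : ℝ) ≤ k := by positivity
  have h3 : cc c₀ h₀ K k + cc c₀ h₀ K (k + 1) + h₀ ≤ 2 * c₀ + (4 * K + 1) * h₀ := by
    unfold cc
    push_cast
    nlinarith
  have h4 := mul_le_mul_of_nonneg_right h3 hη
  have h5 : cc c₀ h₀ K k = cc c₀ h₀ K (k + 1) + 2 * h₀ := by
    unfold cc
    push_cast
    ring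
  linarith

theorem cc_nonneg {c₀ h₀ : ℝ} {K k : ℕ} (hc : 0 ≤ c₀) (hh : 0 ≤ h₀) (hk : k ≤ K) : 0 ≤ cc c₀ h₀ K k := by
  have h1 : (k : ℝ) ≤ K := by exact_mod_cast hk
  unfold cc
  have : 0 ≤ 2 * h₀ * ((K : ℝ) - k) := mul_nonneg (by linarith) (by linarith)
  linarith

theorem cc_le {c₀ h₀ : ℝ} {K k : ℕ} (hh : 0 ≤ h₀) : cc c₀ h₀ K k ≤ c₀ + 2 * h₀ * K := by
  unfold cc
  have : (0 : ℝ) ≤ k := by positivity
  nlinarith

/-! ### The probabilities -/

/-- The recursion of the probabilities: at the level `k < K` the interval of length `m` fails only if it fails at the level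
`k + 1` (at most `8` times a probability for at most the same length), or one of at most `4 N ^ 2` (intervals, levels) of
length at most `m / T` fails, or with probability `δ`. Then the failure probability is `δ` times a power of `N`. -/
theorem prob_rec {K N T : ℕ} (hT : 2 ≤ T) (p : ℕ → ℕ → ℝ) {δ : ℝ} (hδ : 0 ≤ δ) (h0 : ∀ k, p k 0 ≤ δ)
    (hK : ∀ m ≤ N, p K m ≤ δ)
    (hrec : ∀ k < K, ∀ m ≤ N, 1 ≤ m → ∃ m₁ m₂ m₃, m₁ ≤ m ∧ m₂ ≤ m / T ∧ m₃ ≤ m / T ∧
      p k m ≤ δ + 8 * p (k + 1) m₁ + 4 * (N : ℝ) ^ 2 * (p k m₂ + p (k + 1) m₃)) :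
    ∀ j k r m : ℕ, k + j = K → m ≤ N → m < T ^ r →
      p k m ≤ δ * (32 ^ (j + 1) * (32 * ((N : ℝ) + 1) ^ 2) ^ r) := by
  have hN : (1 : ℝ) ≤ ((N : ℝ) + 1) ^ 2 := by
    have : (0 : ℝ) ≤ N := by positivity
    nlinarith
  have hB : (1 : ℝ) ≤ 32 * ((N : ℝ) + 1) ^ 2 := by linarith
  intro j
  induction j with
  | zero =>
    intro k r m hk hm _
    have hkK : k = K := by omega
    rw [hkK]
    have h1 : (1 : ℝ) ≤ (32 * ((N : ℝ) + 1) ^ 2) ^ r := one_le_pow₀ hB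
    exact (hK m hm).trans (le_mul_of_one_le_right hδ
      (one_le_mul_of_one_le_of_one_le (one_le_pow₀ (by norm_num)) h1))
  | succ j ihj =>
    intro k r
    induction r with
    | zero =>
      intro m hk _ hmr
      have hm0 : m = 0 := by simpa using hmr
      rw [hm0]
      have h1 : (1 : ℝ) ≤ 32 ^ (j + 1 + 1) := one_le_pow₀ (by norm_num)
      have h2 := h0 k
      simp only [pow_zero, mul_one]
      exact h2.trans (le_mul_of_one_le_right hδ h1)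
    | succ r ihr =>
      intro m hk hm hmr
      rcases Nat.eq_zero_or_pos m with hm0 | hm1
      · rw [hm0]
        have h1 : (1 : ℝ) ≤ 32 ^ (j + 1 + 1) := one_le_pow₀ (by norm_num)
        have h3 : (1 : ℝ) ≤ (32 * ((N : ℝ) + 1) ^ 2) ^ (r + 1) := one_le_pow₀ hB
        have h2 := h0 k
        exact h2.trans (le_mul_of_one_le_right hδ (one_le_mul_of_one_le_of_one_le h1 h3))
      · obtain ⟨m₁, m₂, m₃, h1, h2, h3, h4⟩ := hrec k (by omega) m hm hm1
        have hdiv : m / T < T ^ r := by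
          rw [Nat.div_lt_iff_lt_mul (by omega)]
          rwa [pow_succ] at hmr
        have e1 := ihj (k + 1) (r + 1) m₁ (by omega) (h1.trans hm) (h1.trans_lt hmr)
        have hmT : m / T ≤ m := Nat.div_le_self m T
        have e2 := ihr m₂ hk (h2.trans (hmT.trans hm)) (h2.trans_lt hdiv)
        have e3 := ihj (k + 1) r m₃ (by omega) (h3.trans (hmT.trans hm)) (h3.trans_lt hdiv)
        have hNN : (N : ℝ) ^ 2 ≤ ((N : ℝ) + 1) ^ 2 := by
          have : (0 : ℝ) ≤ N := by positivity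
          nlinarith
        set B : ℝ := 32 * ((N : ℝ) + 1) ^ 2 with hBdef
        have hP : (0 : ℝ) < 32 ^ (j + 1) := by positivity
        have hQ : (0 : ℝ) < B ^ r := by positivity
        have hPQ : 1 ≤ 32 ^ (j + 1) * B ^ r := one_le_mul_of_one_le_of_one_le (one_le_pow₀ (by norm_num)) (one_le_pow₀ hB)
        have g1 : 8 * p (k + 1) m₁ ≤ 8 * (δ * (32 ^ (j + 1) * B ^ (r + 1))) := by linarith
        have g2 : 4 * (N : ℝ) ^ 2 * (p k m₂ + p (k + 1) m₃) ≤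
            B / 8 * (δ * (32 ^ (j + 1 + 1) * B ^ r) + δ * (32 ^ (j + 1) * B ^ r)) := by
          have g3 : p k m₂ + p (k + 1) m₃ ≤ δ * (32 ^ (j + 1 + 1) * B ^ r) + δ * (32 ^ (j + 1) * B ^ r) := by linarith
          have g4 : 0 ≤ δ * (32 ^ (j + 1 + 1) * B ^ r) + δ * (32 ^ (j + 1) * B ^ r) := by positivity
          have g5 : 4 * (N : ℝ) ^ 2 ≤ B / 8 := by rw [hBdef]; linarith
          calc 4 * (N : ℝ) ^ 2 * (p k m₂ + p (k + 1) m₃) ≤
              4 * (N : ℝ) ^ 2 * (δ * (32 ^ (j + 1 + 1) * B ^ r) + δ * (32 ^ (j + 1) * B ^ r)) :=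
                mul_le_mul_of_nonneg_left g3 (by positivity)
            _ ≤ _ := mul_le_mul_of_nonneg_right g5 g4
        have g6 : δ ≤ δ * (32 ^ (j + 1) * B ^ r) := by nlinarith
        have g7 : δ * (32 ^ (j + 1) * B ^ r) ≤ δ * (32 ^ (j + 1) * B ^ (r + 1)) := by
          refine mul_le_mul_of_nonneg_left ?_ hδ
          refine mul_le_mul_of_nonneg_left ?_ hP.le
          rw [pow_succ]
          nlinarith
        have g8 : δ * (32 ^ (j + 1 + 1) * B ^ (r + 1)) = 32 * (δ * (32 ^ (j + 1) * B ^ (r + 1))) := by ring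
        have g9 : B / 8 * (δ * (32 ^ (j + 1 + 1) * B ^ r) + δ * (32 ^ (j + 1) * B ^ r)) =
            33 / 8 * (δ * (32 ^ (j + 1) * B ^ (r + 1))) := by ring
        have g10 : 0 ≤ δ * (32 ^ (j + 1) * B ^ (r + 1)) := by positivity
        rw [g8]
        linarith

/-- Absorption of the long clusters: `P A (x)` is the probability of `X > x`, nonincreasing; with a long cluster it is at most
`ρ` times the probability at the level lowered by `μ`, up to an error. -/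
theorem absorb (f g : ℝ → ℝ) {ρ ε x μ₀ : ℝ} (hρ0 : 0 ≤ ρ) (hρ : ρ ≤ 1 / 2) (hε : 0 ≤ ε) (hμ : 0 ≤ μ₀)
    (hf1 : ∀ y, f y ≤ 1) (hg : ∀ y, x ≤ y → g y ≤ g x) (hg0 : 0 ≤ g x)
    (h : ∀ y, x ≤ y → f (y + μ₀) ≤ g (y + μ₀) + ρ * f y + ε) :
    ∀ j : ℕ, f (x + j * μ₀) ≤ ρ ^ j + 2 * (g x + ε) := by
  intro j
  induction j with
  | zero =>
    have := hf1 (x + (0 : ℕ) * μ₀)
    simp only [pow_zero]
    linarith
  | succ j ih =>
    have hj : (0 : ℝ) ≤ j * μ₀ := by positivity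
    have h1 := h (x + j * μ₀) (by linarith)
    have h2 : x + ((j + 1 : ℕ) : ℝ) * μ₀ = x + j * μ₀ + μ₀ := by push_cast; ring
    have h3 := hg (x + j * μ₀ + μ₀) (by linarith)
    have h4 := mul_le_mul_of_nonneg_left ih hρ0
    rw [h2, pow_succ']
    nlinarith

end

end Pool.Agent.W_7d29a1_Z.In72
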