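import Pool.Agent.W_7d29a1_Z.TieQ
import Pool.Agent.W_7d29a1_Z.Fresh
import Pool.Agent.W_7d29a1_Z.NT72
import Pool.Agent.W_7d29a1_Z86.NumW86

/-!
STORM Z, leaf INN: the windows and their scales. (stub: helper72; owner: helper86)
-/

namespace Pool.Agent.W_7d29a1_Z.R72

open MeasureTheory ProbabilityTheory Filter Topology Finset
open Pool.Agent.W_7d29a1_F Pool.Agent.W_7d29a1_X Pool.Agent.W_7d29a1_G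
open Pool.Agent.W_7d29a1_SR (In wd)
open Pool.Agent.W_7d29a1_Z86 (Wd)
open scoped ENNReal

variable {μ : Measure ℝ} [IsProbabilityMeasure μ] {c C : ℝ} {n₀ : ℕ}

/-- **Owner helper86.** The scales of the windows, everything which `inn` needs. -/
theorem numW (h : In μ c C n₀) (hF : HF2 μ) {q : ℕ → ℝ} {K : ℝ} (hq : QOK q K) (hT : TIE μ q) :
    ∀ ε η θ : ℝ, 0 < ε → 0 < η → 0 < θ → ∃ ε₁ δ c' : ℝ, 0 < ε₁ ∧ 0 < δ ∧ 0 < c' ∧ ∃ L₀ : ℕ,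
    ∀ L : ℕ, L₀ ≤ L → ∀ N t : ℕ, L ≤ 16 * N → N ≤ L → (L : ℝ) ^ θ ≤ t → t ≤ N →
    ∀ y : ℤ, 0 ≤ y → y ≤ N → |2 * (y : ℝ) - N| ≤ 2 * ((L : ℝ) ^ δ * wd' μ N) →
    ∃ (n1 : ℕ → ℕ) (e0 E X : ℕ) (w : ℝ), 2 ^ (E + 3) ≤ L ∧ 1 ≤ X ∧ (X : ℝ) ≤ (L : ℝ) ^ ε ∧
      64 * ((L : ℝ) ^ (-η) * wd' μ t) ≤ 2 ^ e0 ∧ 2 ^ e0 ≤ t ∧ 0 ≤ w ∧ w ≤ (L : ℝ) ^ ε * wd' μ t ∧ 16 * w ≤ t ∧
      (∀ e, e0 ≤ e → e ≤ E → 1 ≤ n1 e) ∧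
      (∀ τ k₀, TieIn μ N y t τ k₀ n1 e0 E ((L : ℝ) ^ ε * q t) (Real.exp (-(L : ℝ) ^ c'))) ∧
      (∀ τ k₀ b, (Wd N t τ k₀ n1 e0 E b).card ≤ X) ∧
      (∀ S, S ⊆ range N → NSp μ L N ε₁ S → Tame L N t w (pos S) ∧ FlatP N e0 E n1 S) ∧
      (∀ (τ k₀ k₁ : ℕ) (v : ℕ → ℤ) (S S' : Finset ℕ), S ⊆ range N → S' ⊆ range N → (∀ i, |sv v 0 i| ≤ 2 ^ e0) →
        NSp μ L N ε₁ S → NSp μ L N ε₁ S' → ¬ Close μ L N ε₁ v S S' → SepOK N t τ k₀ k₁ e0 E v S S') :=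
  Pool.Agent.W_7d29a1_Z86.numW86 h hF hq hT

end Pool.Agent.W_7d29a1_Z.R72
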