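import Pool.Agent.W_7d29a1_Z.RB72

/-!
STORM Z, leaf RA: the response of all the zones, all starts of the box, all amplitudes up to `K`, from `Rsp`.
-/

namespace Pool.Agent.W_7d29a1_Z

open MeasureTheory ProbabilityTheory Filter Topology Finset
open Pool.Agent.W_7d29a1_F Pool.Agent.W_7d29a1_X Pool.Agent.W_7d29a1_G
open scoped ENNReal

variable {μ : Measure ℝ}

/-- All the kernels of the zones, started in the first quarter and ended in the last quarter, respond to the amplitude `i`, `|i| ≤ K`, by at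
most `|i| A`; starts `x` in the box, displacements in the cone of half width `w` (all amplitudes: frame positions `x`, `y`). -/
def RA (μ : Measure ℝ) (L t τ B : ℕ) (I : Finset ℕ) (w A : ℝ) (K : ℕ) (η : Env) : Prop :=
  ∀ b < B, ∀ u u' : ℕ, za t τ b ≤ u → u ≤ u' → u' ≤ zb t τ b → 4 * (u - za t τ b) ≤ t → 3 * t ≤ 4 * (u' - za t τ b) →
    ∀ x y : ℤ, |x| ≤ 2 * L → |2 * ((y : ℝ) - x) - ((u' : ℝ) - u)| ≤ 2 * w → ∀ i : ℤ, |i| ≤ K →
      |fk μ (pat t τ I fun _ => i) η u u' x y - fk μ 0 η u u' x y| ≤ |(i : ℝ)| * A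

/-- The response of all the pieces with the property `P`, all zones `b < B`, all amplitudes. -/
theorem ra_core [IsProbabilityMeasure μ] {t : ℕ} {I : Finset ℕ} {w w' A p : ℝ} (P : ℕ → ℕ → Prop)
    (hP : ∀ u u', P u u' → u ≤ u')
    (hR : law μ {η | ∃ u u' : ℕ, P u u' ∧ u' ≤ t ∧ ∃ y : ℤ, |2 * (y : ℝ) - ((u' : ℝ) - u)| ≤ 2 * w' ∧
      A < |fk μ (pat t 0 I fun _ => (1 : ℤ)) η u u' 0 y - fk μ 0 η u u' 0 y|} ≤ ENNReal.ofReal p)
    (B L τ K : ℕ) (hw : w + (K : ℝ) * I.card ≤ w') :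
    law μ {η | ¬ ∀ b < B, ∀ u u' : ℕ, P u u' → u' ≤ t → ∀ x y : ℤ, |x| ≤ 2 * L →
      |2 * ((y : ℝ) - x) - ((u' : ℝ) - u)| ≤ 2 * w → ∀ a : ℤ, |a| ≤ K →
      |fk μ (pat t τ I fun _ => a + 1) η (za t τ b + u) (za t τ b + u') x y -
        fk μ (pat t τ I fun _ => a) η (za t τ b + u) (za t τ b + u') x y| ≤ A} ≤
      ENNReal.ofReal ((B : ℝ) * (2 * (2 * L + K * I.card) + 1) * (2 * K + 1) * p) := by
  classical
  set Bad : Set Env := {η | ∃ u u' : ℕ, P u u' ∧ u' ≤ t ∧ ∃ y : ℤ,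
    |2 * (y : ℝ) - ((u' : ℝ) - u)| ≤ 2 * w' ∧
    A < |fk μ (pat t 0 I fun _ => (1 : ℤ)) η u u' 0 y - fk μ 0 η u u' 0 y|} with hBad
  set Z : ℕ := 2 * L + K * I.card with hZ
  set T : ℕ × ℤ × ℤ → Env → Env := fun q η =>
    sh ((0 : ℤ), q.2.2) (shr 0 (pat t 0 I fun _ => q.2.1) (sh ((za t τ q.1 : ℤ), 0) η)) with hT
  set F : Finset (ℕ × ℤ × ℤ) := (range B) ×ˢ ((Icc (-(K : ℤ)) K) ×ˢ (Icc (-(Z : ℤ)) Z)) with hF
  have hsub : {η | ¬ ∀ b < B, ∀ u u' : ℕ, P u u' → u' ≤ t → ∀ x y : ℤ, |x| ≤ 2 * L →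
      |2 * ((y : ℝ) - x) - ((u' : ℝ) - u)| ≤ 2 * w → ∀ a : ℤ, |a| ≤ K →
      |fk μ (pat t τ I fun _ => a + 1) η (za t τ b + u) (za t τ b + u') x y -
        fk μ (pat t τ I fun _ => a) η (za t τ b + u) (za t τ b + u') x y| ≤ A} ⊆ ⋃ q ∈ F, T q ⁻¹' Bad := by
    intro η hη
    rw [Set.mem_ofPred_eq] at hη
    push Not at hη
    obtain ⟨b, hb, u, u', h2, h4, x, y, hx, hy, a, ha, hlt⟩ := hη
    have h3 : u ≤ u' := hP u u' h2
    have h5 := sv_pat_le (t := t) (I := I) a h3 h4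
    have h5' := sv_pat_le (t := t) (I := I) a (Nat.zero_le u) (h3.trans h4)
    have hsv0 : sv (pat t 0 I fun _ => a) 0 0 = 0 := by simp [sv]
    rw [hsv0, sub_zero] at h5'
    have haI : |a| * (I.card : ℤ) ≤ K * I.card := mul_le_mul_of_nonneg_right ha (by positivity)
    simp only [Set.mem_iUnion, Set.mem_preimage]
    refine ⟨(b, a, x + sv (pat t 0 I fun _ => a) 0 u), ?_, ?_⟩
    · rw [hF]
      simp only [mem_product, mem_range, mem_Icc]
      refine ⟨hb, ⟨(abs_le.1 ha).1, (abs_le.1 ha).2⟩, ?_, ?_⟩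
      · have e1 := (abs_le.1 hx).1
        have e2 := (abs_le.1 h5').1
        push_cast [hZ]
        linarith
      · have e1 := (abs_le.1 hx).2
        have e2 := (abs_le.1 h5').2
        push_cast [hZ]
        linarith
    · rw [hBad]
      refine ⟨u, u', h2, h4, y - x + (sv (pat t 0 I fun _ => a) 0 u' - sv (pat t 0 I fun _ => a) 0 u), ?_, ?_⟩
      · have e1 : |((sv (pat t 0 I fun _ => a) 0 u' - sv (pat t 0 I fun _ => a) 0 u : ℤ) : ℝ)| ≤ K * I.card := by
          rw [← Int.cast_abs]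
          exact_mod_cast h5.trans haI
        have e2 := abs_le.1 hy
        have e3 := abs_le.1 e1
        rw [abs_le]
        push_cast at e3 ⊢
        constructor <;> linarith [e2.1, e2.2, e3.1, e3.2]
      · have e1 := fk_zone (μ := μ) (t := t) (τ := τ) (b := b) (I := I) η a 1 x y h3 h4
        have e2 := fk_zone (μ := μ) (t := t) (τ := τ) (b := b) (I := I) η a 0 x y h3 h4
        have e3 : (pat t 0 I fun _ => (0 : ℤ)) = 0 := by
          funext k
          unfold pat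
          simp
        rw [add_zero, e3] at e2
        rw [e1, e2] at hlt
        exact hlt
  have hmp : ∀ q, MeasurePreserving (T q) (law μ) (law μ) := fun q =>
    (mp_sh (μ := μ) ((0 : ℤ), q.2.2)).comp ((shr_mp 0 _).comp (mp_sh (μ := μ) ((za t τ q.1 : ℤ), 0)))
  have hone : ∀ q, law μ (T q ⁻¹' Bad) ≤ ENNReal.ofReal p := by
    intro q
    refine le_trans ?_ hR
    have h1 := Measure.le_map_apply (hmp q).measurable.aemeasurable (μ := law μ) Bad
    rwa [(hmp q).map_eq] at h1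
  refine (measure_mono hsub).trans ((measure_biUnion_finset_le _ _).trans ?_)
  refine (Finset.sum_le_sum fun q _ => hone q).trans ?_
  rw [Finset.sum_const, nsmul_eq_mul]
  have hcard : (F.card : ℝ) = (B : ℝ) * (2 * (2 * L + K * I.card) + 1) * (2 * K + 1) := by
    rw [hF, card_product, card_product, card_range, Int.card_Icc, Int.card_Icc]
    have e1 : ((K : ℤ) + 1 - -(K : ℤ)).toNat = 2 * K + 1 := by omega
    have e2 : ((Z : ℤ) + 1 - -(Z : ℤ)).toNat = 2 * Z + 1 := by omega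
    rw [e1, e2]
    push_cast [hZ]
    ring
  rw [← hcard, ENNReal.ofReal_mul (by positivity), ENNReal.ofReal_natCast]

/-- Telescoping over the amplitudes. -/
theorem tele_amp {g : ℤ → ℝ} {A : ℝ} {K : ℕ} (h : ∀ a : ℤ, |a| ≤ K → |g (a + 1) - g a| ≤ A) {i : ℤ} (hi : |i| ≤ K) :
    |g i - g 0| ≤ |(i : ℝ)| * A := by
  have hpos : ∀ n : ℕ, n ≤ K → |g n - g 0| ≤ n * A := by
    intro n
    induction n with
    | zero => intro _; simp
    | succ n ih =>
      intro hn
      have h1 := ih (by omega)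
      have h2 := h n (by rw [abs_of_nonneg (by positivity)]; exact_mod_cast (by omega : n ≤ K))
      have h3 : g ((n + 1 : ℕ) : ℤ) - g 0 = (g ((n : ℤ) + 1) - g n) + (g n - g 0) := by
        push_cast
        ring
      rw [h3]
      refine (abs_add_le _ _).trans ?_
      push_cast
      linarith
  have hneg : ∀ n : ℕ, n ≤ K → |g (-(n : ℤ)) - g 0| ≤ n * A := by
    intro n
    induction n with
    | zero => intro _; simp
    | succ n ih =>
      intro hn
      have h1 := ih (by omega)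
      have h2 := h (-((n + 1 : ℕ) : ℤ)) (by rw [abs_neg, abs_of_nonneg (by positivity)]; exact_mod_cast hn)
      have h4 : -((n + 1 : ℕ) : ℤ) + 1 = -(n : ℤ) := by push_cast; ring
      rw [h4] at h2
      have h3 : g (-((n + 1 : ℕ) : ℤ)) - g 0 = -(g (-(n : ℤ)) - g (-((n + 1 : ℕ) : ℤ))) + (g (-(n : ℤ)) - g 0) := by
        ring
      rw [h3]
      refine (abs_add_le _ _).trans ?_
      rw [abs_neg]
      push_cast at h2 ⊢
      linarith
  rcases le_total 0 i with h0 | h0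
  · lift i to ℕ using h0
    rw [abs_of_nonneg (by positivity)] at hi
    have h1 := hpos i (by exact_mod_cast hi)
    have h2 : |((i : ℤ) : ℝ)| = (i : ℝ) := by
      rw [Int.cast_natCast]
      exact abs_of_nonneg (by positivity)
    rw [h2]
    exact h1
  · obtain ⟨n, rfl⟩ : ∃ n : ℕ, i = -(n : ℤ) := ⟨(-i).toNat, by omega⟩
    rw [abs_neg, abs_of_nonneg (by positivity)] at hi
    have h1 := hneg n (by exact_mod_cast hi)
    have h2 : |((-(n : ℤ) : ℤ) : ℝ)| = (n : ℝ) := by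
      rw [Int.cast_neg, abs_neg, Int.cast_natCast]
      exact abs_of_nonneg (by positivity)
    rw [h2]
    exact h1

theorem ra_prob [IsProbabilityMeasure μ] {L t τ B : ℕ} {I : Finset ℕ} {w w' A p : ℝ} {K : ℕ}
    (hw : w + K * I.card ≤ w') (hR : Rsp μ t I 1 w' A p) :
    law μ {η | ¬ RA μ L t τ B I w A K η} ≤
      ENNReal.ofReal (B * (2 * (2 * L + K * I.card) + 1) * (2 * K + 1) * p) := by
  unfold Rsp at hR
  have hR' : law μ {η | ∃ u u' : ℕ, (4 * u ≤ t ∧ 3 * t ≤ 4 * u') ∧ u' ≤ t ∧ ∃ y : ℤ,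
      |2 * (y : ℝ) - ((u' : ℝ) - u)| ≤ 2 * w' ∧
      A < |fk μ (pat t 0 I fun _ => (1 : ℤ)) η u u' 0 y - fk μ 0 η u u' 0 y|} ≤ ENNReal.ofReal p := by
    simpa only [and_assoc] using hR
  refine le_trans (measure_mono ?_) (ra_core (μ := μ) (t := t) (I := I) (w := w) (w' := w') (A := A) (p := p)
    (fun u u' => 4 * u ≤ t ∧ 3 * t ≤ 4 * u') (fun u u' h => by omega) hR' B L τ K hw)
  intro η hη hcon
  refine hη ?_
  intro b hb u u' h1 h2 h3 h4 h4' x y hx hy i hi
  unfold zb at h3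
  have hza : za t τ b = τ + 2 * t * b := rfl
  have e1 : za t τ b + (u - za t τ b) = u := by omega
  have e2 : za t τ b + (u' - za t τ b) = u' := by omega
  have e3 : ((u' - za t τ b : ℕ) : ℝ) - ((u - za t τ b : ℕ) : ℝ) = (u' : ℝ) - u := by
    rw [Nat.cast_sub (by omega), Nat.cast_sub h1]
    ring
  have h5 := fun a ha => hcon b hb (u - za t τ b) (u' - za t τ b) ⟨h4, h4'⟩ (by omega) x y hx
    (by rw [e3]; exact hy) a ha
  rw [e1, e2] at h5
  have h6 := tele_amp (g := fun i => fk μ (pat t τ I fun _ => i) η u u' x y) (A := A) (K := K) h5 hi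
  have e4 : (pat t τ I fun _ => (0 : ℤ)) = 0 := by
    funext k
    unfold pat
    simp
  simp only [e4] at h6
  exact h6

/-- The second differences of one zone. -/
theorem ra_Db {L t τ B : ℕ} {I : Finset ℕ} {w A : ℝ} {K : ℕ} {η : Env} (h : RA μ L t τ B I w A K η) {b : ℕ} (hb : b < B) {s a : ℤ}
    (hK : |a| + |s| ≤ K) {X : ℕ → ℤ} (hX : |X (za t τ b)| ≤ 2 * L)
    (hc : |2 * ((X (zb t τ b) : ℝ) - X (za t τ b)) - t| ≤ 2 * w) :
    |Db μ t τ I s η b 0 X| ≤ 2 * |(s : ℝ)| * A ∧ |fb μ t τ I η b a X - fb μ t τ I η b 0 X| ≤ |(a : ℝ)| * A := by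
  have hza : za t τ b = τ + 2 * t * b := rfl
  have hzb : zb t τ b = τ + 2 * t * b + t := rfl
  have e4 : (pat t τ I fun _ => (0 : ℤ)) = 0 := by
    funext k
    unfold pat
    simp
  have key : ∀ i : ℤ, |i| ≤ K → |fb μ t τ I η b i X - fb μ t τ I η b 0 X| ≤ |(i : ℝ)| * A := by
    intro i hi
    have h1 := h b hb (za t τ b) (zb t τ b) le_rfl (by omega) le_rfl (by omega) (by omega) (X (za t τ b)) (X (zb t τ b)) hX
      (by
        have e5 : ((zb t τ b : ℕ) : ℝ) - (za t τ b : ℕ) = t := by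
          rw [hza, hzb]
          push_cast
          ring
        rw [e5]
        exact hc) i hi
    unfold fb
    rw [e4]
    exact h1
  have hs : |s| ≤ K := by linarith [abs_nonneg a]
  have ha : |a| ≤ K := by linarith [abs_nonneg s]
  refine ⟨?_, key a ha⟩
  have h1 := key s hs
  have h2 := key (-s) (by rw [abs_neg]; exact hs)
  unfold Db
  rw [zero_add, zero_sub]
  rw [Int.cast_neg, abs_neg] at h2
  have e6 : fb μ t τ I η b s X + fb μ t τ I η b (-s) X - 2 * fb μ t τ I η b 0 X =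
      (fb μ t τ I η b s X - fb μ t τ I η b 0 X) + (fb μ t τ I η b (-s) X - fb μ t τ I η b 0 X) := by ring
  rw [e6]
  refine (abs_add_le _ _).trans ?_
  linarith

end Pool.Agent.W_7d29a1_Z
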