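import Pool.Agent.W_7d29a1_Z96.ScaleZ
import Pool.Agent.W_7d29a1_Z.Act
import Pool.Agent.W_7d29a1_Z22.PBox

/-!
STORM Z, leaf PB: bounds of all the point to point weights of a box, outside an event of probability `exp (- L ^ c)`.
-/

namespace Pool.Agent.W_7d29a1_Z

open MeasureTheory ProbabilityTheory Filter Topology Finset
open Pool.Agent.W_7d29a1_F Pool.Agent.W_7d29a1_X Pool.Agent.W_7d29a1_G
open Pool.Agent.W_7d29a1_SR (In wd)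
open scoped ENNReal

variable {μ : Measure ℝ} [IsProbabilityMeasure μ] {c C : ℝ} {n₀ : ℕ}

/-- The good event of the point to point weights: all starts `(i, x)` of the box, all lengths; lower bound in the cone of half width
`L ^ δ wd' n`, upper bound for all displacements, crude lower bound for all displacements. -/
def PBox (μ : Measure ℝ) (L : ℕ) (δ ε : ℝ) (η : Env) : Prop :=
  ∀ i n : ℕ, i + n ≤ L → ∀ x : ℤ, |x| ≤ 2 * L → ∀ y : ℤ, 0 ≤ y → y ≤ n →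
    W μ 0 η ((i : ℤ), x) n y ≤ Real.exp ((L : ℝ) ^ ε * EE' μ n) ∧ Real.exp (-(L : ℝ) ^ (2 : ℕ)) ≤ W μ 0 η ((i : ℤ), x) n y ∧
    (|2 * (y : ℝ) - n| ≤ 2 * ((L : ℝ) ^ δ * wd' μ n) → Real.exp (-((L : ℝ) ^ ε * EE' μ n)) ≤ W μ 0 η ((i : ℤ), x) n y)

theorem pbox (h : In μ c C n₀) (hF : HF2 μ) : ∀ ε : ℝ, 0 < ε → ∃ δ c' : ℝ, 0 < δ ∧ 0 < c' ∧ ∃ L₀ : ℕ, ∀ L : ℕ, L₀ ≤ L →
    law μ {η | ¬ PBox μ L δ ε η} ≤ ENNReal.ofReal (Real.exp (-(L : ℝ) ^ c')) :=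
  Pool.Agent.W_7d29a1_Z22.pbox22 h hF

/-- The same event with smaller exponents. -/
theorem PBox.mono {L : ℕ} (hL : 1 ≤ L) {δ δ' ε ε' : ℝ} (hδ : δ' ≤ δ) (hε : ε ≤ ε') {η : Env} (h : PBox μ L δ ε η) :
    PBox μ L δ' ε' η := by
  have hLR : (1 : ℝ) ≤ L := by exact_mod_cast hL
  intro i n hin x hx y hy0 hyn
  obtain ⟨h1, h2, h3⟩ := h i n hin x hx y hy0 hyn
  have hE : 0 ≤ EE' μ n := zero_le_one.trans (le_max_left _ _)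
  have hw : 0 ≤ wd' μ n := zero_le_one.trans (le_max_left _ _)
  have e1 : (L : ℝ) ^ ε * EE' μ n ≤ (L : ℝ) ^ ε' * EE' μ n :=
    mul_le_mul_of_nonneg_right (Real.rpow_le_rpow_of_exponent_le hLR hε) hE
  have e2 : (L : ℝ) ^ δ' * wd' μ n ≤ (L : ℝ) ^ δ * wd' μ n :=
    mul_le_mul_of_nonneg_right (Real.rpow_le_rpow_of_exponent_le hLR hδ) hw
  refine ⟨h1.trans (Real.exp_le_exp.2 e1), h2, fun h4 => ?_⟩
  exact (Real.exp_le_exp.2 (neg_le_neg e1)).trans (h3 (h4.trans (by linarith)))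

/-! ### Facts on the scales, in the form in which they are used -/

theorem wd'_pow (h : In μ c C n₀) (hF : HF2 μ) : ∃ a K : ℝ, 0 < a ∧ a < 1 ∧ 1 ≤ K ∧ ∀ m n : ℕ, 1 ≤ m → m ≤ n →
    wd' μ m ≤ K * wd' μ n ∧ K⁻¹ * ((n : ℝ) / m) ^ a * wd' μ m ≤ wd' μ n ∧ wd' μ n ≤ K * ((n : ℝ) / m) ^ (1 - a) * wd' μ m :=
  Pool.Agent.W_7d29a1_Z96.wd_all96 h hF

theorem EE'_pow (h : In μ c C n₀) : ∃ a K : ℝ, 0 < a ∧ a < 1 ∧ 1 ≤ K ∧ ∀ m n : ℕ, 1 ≤ m → m ≤ n →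
    EE' μ m ≤ K * EE' μ n ∧ K⁻¹ * ((n : ℝ) / m) ^ a * EE' μ m ≤ EE' μ n ∧ EE' μ n ≤ K * Real.sqrt ((n : ℝ) / m) * EE' μ m :=
  Pool.Agent.W_7d29a1_Z96.EE_all96 h

/-- Eventually the width and the unit are the sequences of the SR files. -/
theorem wd'_eq (h : In μ c C n₀) : ∃ n₁ : ℕ, ∀ n, n₁ ≤ n → wd' μ n = wd μ n ∧ EE' μ n = EE μ n ∧ (n : ℝ) ^ (1 / 4 : ℝ) ≤ wd μ n :=
  Pool.Agent.W_7d29a1_Z96.wd_eq96 h

/-- Newman - Piza, non strict form. -/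
theorem np_weak (h : In μ c C n₀) : ∃ K : ℝ, 1 ≤ K ∧ ∀ n : ℕ, 1 ≤ n → (n : ℝ) ≤ K * (wd' μ n * EE' μ n ^ 2) :=
  Pool.Agent.W_7d29a1_Z96.np_all96 h

end Pool.Agent.W_7d29a1_Z
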