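import Pool.Agent.W_7d29a1_F.Defs

/-!
STORM Z, kernels of path pieces in the moving frame. A piece between the times `t1 ≤ t2` is the finite set `S ⊆ Ico t1 t2` of its up
steps; `d : ℕ → ℤ` are the cumulated jumps of the frame (`d = 0` for the path without shears); `ps d t1 x S t` is the frame position at
the time `t`, `pw` the weight of the piece, `Kc` the kernel of the pieces of a class. (helper36)
-/

namespace Pool.Agent.W_7d29a1_Z

open Finset Pool.Agent.W_7d29a1_F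

noncomputable section

/-- Frame position at the time `t` of the piece `S` started in `x` at the time `t1`. -/
def ps (d : ℕ → ℤ) (t1 : ℕ) (x : ℤ) (S : Finset ℕ) (t : ℕ) : ℤ :=
  x + ((S ∩ Ico t1 t).card : ℤ) + (d t - d t1)

/-- Weight of the piece `S` between the times `t1` and `t2`. -/
def pw (μ : MeasureTheory.Measure ℝ) (s : ℝ) (d : ℕ → ℤ) (η : Env) (t1 : ℕ) (x : ℤ) (t2 : ℕ) (S : Finset ℕ) : ℝ :=
  Real.exp (s * ((S ∩ Ico t1 t2).card : ℝ) - ((t2 - t1 : ℕ) : ℝ) * lam μ s) *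
    ∏ t ∈ Ioc t1 t2, Real.exp (η ((t : ℤ), ps d t1 x S t))

open scoped Classical in
/-- The pieces from `(t1, x)` to `(t2, y)`. -/
def pcs (d : ℕ → ℤ) (t1 : ℕ) (x : ℤ) (t2 : ℕ) (y : ℤ) : Finset (Finset ℕ) :=
  (Ico t1 t2).powerset.filter fun S => ps d t1 x S t2 = y

open scoped Classical in
/-- The kernel of the pieces of the class `C` from `(t1, x)` to `(t2, y)`. -/
def Kc (μ : MeasureTheory.Measure ℝ) (s : ℝ) (d : ℕ → ℤ) (C : Finset ℕ → Prop) (η : Env) (t1 : ℕ) (x : ℤ) (t2 : ℕ) (y : ℤ) : ℝ :=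
  ∑ S ∈ (pcs d t1 x t2 y).filter C, pw μ s d η t1 x t2 S

/-- The kernel of all pieces. -/
def Kf (μ : MeasureTheory.Measure ℝ) (s : ℝ) (d : ℕ → ℤ) (η : Env) (t1 : ℕ) (x : ℤ) (t2 : ℕ) (y : ℤ) : ℝ :=
  ∑ S ∈ pcs d t1 x t2 y, pw μ s d η t1 x t2 S

variable {μ : MeasureTheory.Measure ℝ} {s : ℝ}

theorem ps_self (d : ℕ → ℤ) (t1 : ℕ) (x : ℤ) (S : Finset ℕ) : ps d t1 x S t1 = x := by
  simp [ps]

theorem pw_self (d : ℕ → ℤ) (η : Env) (t1 : ℕ) (x : ℤ) (S : Finset ℕ) : pw μ s d η t1 x t1 S = 1 := by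
  simp [pw]

theorem pw_pos (d : ℕ → ℤ) (η : Env) (t1 : ℕ) (x : ℤ) (t2 : ℕ) (S : Finset ℕ) : 0 < pw μ s d η t1 x t2 S :=
  mul_pos (Real.exp_pos _) (prod_pos fun _ _ => Real.exp_pos _)

theorem pw_nonneg (d : ℕ → ℤ) (η : Env) (t1 : ℕ) (x : ℤ) (t2 : ℕ) (S : Finset ℕ) : 0 ≤ pw μ s d η t1 x t2 S :=
  (pw_pos d η t1 x t2 S).le

theorem Kc_nonneg (d : ℕ → ℤ) (C : Finset ℕ → Prop) (η : Env) (t1 : ℕ) (x : ℤ) (t2 : ℕ) (y : ℤ) : 0 ≤ Kc μ s d C η t1 x t2 y :=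
  sum_nonneg fun _ _ => pw_nonneg _ _ _ _ _ _

theorem Kf_nonneg (d : ℕ → ℤ) (η : Env) (t1 : ℕ) (x : ℤ) (t2 : ℕ) (y : ℤ) : 0 ≤ Kf μ s d η t1 x t2 y :=
  sum_nonneg fun _ _ => pw_nonneg _ _ _ _ _ _

theorem Kc_le_Kf (d : ℕ → ℤ) (C : Finset ℕ → Prop) (η : Env) (t1 : ℕ) (x : ℤ) (t2 : ℕ) (y : ℤ) :
    Kc μ s d C η t1 x t2 y ≤ Kf μ s d η t1 x t2 y := by
  classical
  unfold Kc Kf
  exact sum_le_sum_of_subset_of_nonneg (filter_subset _ _) fun _ _ _ => pw_nonneg _ _ _ _ _ _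

theorem mem_pcs {d : ℕ → ℤ} {t1 : ℕ} {x : ℤ} {t2 : ℕ} {y : ℤ} {S : Finset ℕ} :
    S ∈ pcs d t1 x t2 y ↔ S ⊆ Ico t1 t2 ∧ ps d t1 x S t2 = y := by
  classical
  simp [pcs]

/-- Positions depend only on the up steps before the time. -/
theorem ps_congr (d : ℕ → ℤ) (t1 : ℕ) (x : ℤ) {S S' : Finset ℕ} {t : ℕ} (h : S ∩ Ico t1 t = S' ∩ Ico t1 t) :
    ps d t1 x S t = ps d t1 x S' t := by
  unfold ps
  rw [h]

theorem inter_Ico_of_le {t1 t t2 : ℕ} (S : Finset ℕ) (h : t ≤ t2) : S ∩ Ico t1 t2 ∩ Ico t1 t = S ∩ Ico t1 t := by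
  rw [inter_assoc]
  congr 1
  ext i
  simp only [mem_inter, mem_Ico]
  omega

theorem ps_inter (d : ℕ → ℤ) (t1 : ℕ) (x : ℤ) (S : Finset ℕ) {t t2 : ℕ} (h : t ≤ t2) :
    ps d t1 x (S ∩ Ico t1 t2) t = ps d t1 x S t :=
  ps_congr d t1 x (inter_Ico_of_le S h)

/-- The position after the time `t2` in terms of the position at the time `t2`. -/
theorem ps_chain (d : ℕ → ℤ) {t1 t2 t : ℕ} (x : ℤ) (S : Finset ℕ) (h1 : t1 ≤ t2) (h2 : t2 ≤ t) :
    ps d t2 (ps d t1 x S t2) S t = ps d t1 x S t := by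
  unfold ps
  have hd : S ∩ Ico t1 t = (S ∩ Ico t1 t2) ∪ (S ∩ Ico t2 t) := by
    rw [← inter_union_distrib_left, Ico_union_Ico_eq_Ico h1 h2]
  have hj : Disjoint (S ∩ Ico t1 t2) (S ∩ Ico t2 t) := by
    rw [disjoint_left]
    intro i hi hi'
    simp only [mem_inter, mem_Ico] at hi hi'
    omega
  rw [hd, card_union_of_disjoint hj]
  push_cast
  ring

/-- The weight of a piece, cut at the time `t2`. -/
theorem pw_cut (d : ℕ → ℤ) (η : Env) {t1 t2 t3 : ℕ} (x : ℤ) (S : Finset ℕ) (h1 : t1 ≤ t2) (h2 : t2 ≤ t3) :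
    pw μ s d η t1 x t3 S = pw μ s d η t1 x t2 S * pw μ s d η t2 (ps d t1 x S t2) t3 S := by
  unfold pw
  have hp : ∏ t ∈ Ioc t1 t3, Real.exp (η ((t : ℤ), ps d t1 x S t)) =
      (∏ t ∈ Ioc t1 t2, Real.exp (η ((t : ℤ), ps d t1 x S t))) *
        ∏ t ∈ Ioc t2 t3, Real.exp (η ((t : ℤ), ps d t2 (ps d t1 x S t2) S t)) := by
    rw [← Ioc_union_Ioc_eq_Ioc h1 h2, prod_union]
    · congr 1
      refine prod_congr rfl fun t ht => ?_
      rw [mem_Ioc] at ht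
      rw [ps_chain d x S h1 ht.1.le]
    · rw [disjoint_left]
      intro i hi hi'
      simp only [mem_Ioc] at hi hi'
      omega
  have hc : ((S ∩ Ico t1 t3).card : ℝ) = ((S ∩ Ico t1 t2).card : ℝ) + ((S ∩ Ico t2 t3).card : ℝ) := by
    have hd : S ∩ Ico t1 t3 = (S ∩ Ico t1 t2) ∪ (S ∩ Ico t2 t3) := by
      rw [← inter_union_distrib_left, Ico_union_Ico_eq_Ico h1 h2]
    have hj : Disjoint (S ∩ Ico t1 t2) (S ∩ Ico t2 t3) := by
      rw [disjoint_left]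
      intro i hi hi'
      simp only [mem_inter, mem_Ico] at hi hi'
      omega
    rw [hd, card_union_of_disjoint hj]
    push_cast
    ring
  have hn : ((t3 - t1 : ℕ) : ℝ) = ((t2 - t1 : ℕ) : ℝ) + ((t3 - t2 : ℕ) : ℝ) := by
    rw [← Nat.cast_add]
    congr 1
    omega
  rw [hp, hc, hn]
  have he : Real.exp (s * (((S ∩ Ico t1 t2).card : ℝ) + ((S ∩ Ico t2 t3).card : ℝ)) -
      (((t2 - t1 : ℕ) : ℝ) + ((t3 - t2 : ℕ) : ℝ)) * lam μ s) =
      Real.exp (s * ((S ∩ Ico t1 t2).card : ℝ) - ((t2 - t1 : ℕ) : ℝ) * lam μ s) *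
        Real.exp (s * ((S ∩ Ico t2 t3).card : ℝ) - ((t3 - t2 : ℕ) : ℝ) * lam μ s) := by
    rw [← Real.exp_add]
    congr 1
    ring
  rw [he]
  ring

/-- The weight depends only on the up steps of the piece. -/
theorem pw_congr (d : ℕ → ℤ) (η : Env) (t1 : ℕ) (x : ℤ) (t2 : ℕ) {S S' : Finset ℕ} (h : S ∩ Ico t1 t2 = S' ∩ Ico t1 t2) :
    pw μ s d η t1 x t2 S = pw μ s d η t1 x t2 S' := by
  unfold pw
  rw [h]
  congr 1
  refine prod_congr rfl fun t ht => ?_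
  rw [mem_Ioc] at ht
  rw [ps_congr d t1 x]
  rw [← inter_Ico_of_le S ht.2, ← inter_Ico_of_le S' ht.2, h]

/-- Splitting a sum over pieces at the time `t2`. -/
theorem sum_cut {t1 t2 t3 : ℕ} (h1 : t1 ≤ t2) (h2 : t2 ≤ t3) (F : Finset ℕ → ℝ) :
    ∑ S ∈ (Ico t1 t3).powerset, F S = ∑ S ∈ (Ico t1 t2).powerset, ∑ S' ∈ (Ico t2 t3).powerset, F (S ∪ S') := by
  classical
  rw [← sum_product']
  symm
  refine sum_bij' (fun q _ => q.1 ∪ q.2) (fun S _ => (S ∩ Ico t1 t2, S ∩ Ico t2 t3)) ?_ ?_ ?_ ?_ ?_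
  · rintro ⟨S, S'⟩ hq
    rw [mem_product, mem_powerset, mem_powerset] at hq
    rw [mem_powerset]
    refine union_subset (hq.1.trans ?_) (hq.2.trans ?_)
    · exact Ico_subset_Ico_right h2
    · exact Ico_subset_Ico_left h1
  · intro S _
    rw [mem_product, mem_powerset, mem_powerset]
    exact ⟨inter_subset_right, inter_subset_right⟩
  · rintro ⟨S, S'⟩ hq
    rw [mem_product, mem_powerset, mem_powerset] at hq
    have hj : Disjoint (Ico t1 t2) (Ico t2 t3) := by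
      rw [disjoint_left]
      intro i hi hi'
      simp only [mem_Ico] at hi hi'
      omega
    refine Prod.ext ?_ ?_
    · change (S ∪ S') ∩ Ico t1 t2 = S
      rw [union_inter_distrib_right, inter_eq_left.2 hq.1, disjoint_iff_inter_eq_empty.1 (hj.symm.mono_left hq.2), union_empty]
    · change (S ∪ S') ∩ Ico t2 t3 = S'
      rw [union_inter_distrib_right, inter_eq_left.2 hq.2, disjoint_iff_inter_eq_empty.1 (hj.mono_left hq.1), empty_union]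
  · intro S hS
    rw [mem_powerset] at hS
    change S ∩ Ico t1 t2 ∪ S ∩ Ico t2 t3 = S
    rw [← inter_union_distrib_left, Ico_union_Ico_eq_Ico h1 h2, inter_eq_left.2 hS]
  · rintro ⟨S, S'⟩ _
    rfl

theorem union_inter_left {t1 t2 t3 : ℕ} {S S' : Finset ℕ} (hS : S ⊆ Ico t1 t2) (hS' : S' ⊆ Ico t2 t3) :
    (S ∪ S') ∩ Ico t1 t2 = S := by
  have hj : Disjoint (Ico t1 t2) (Ico t2 t3) := by
    rw [disjoint_left]
    intro i hi hi'
    simp only [mem_Ico] at hi hi'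
    omega
  rw [union_inter_distrib_right, inter_eq_left.2 hS, disjoint_iff_inter_eq_empty.1 (hj.symm.mono_left hS'), union_empty]

theorem union_inter_right {t1 t2 t3 : ℕ} {S S' : Finset ℕ} (hS : S ⊆ Ico t1 t2) (hS' : S' ⊆ Ico t2 t3) :
    (S ∪ S') ∩ Ico t2 t3 = S' := by
  have hj : Disjoint (Ico t1 t2) (Ico t2 t3) := by
    rw [disjoint_left]
    intro i hi hi'
    simp only [mem_Ico] at hi hi'
    omega
  rw [union_inter_distrib_right, inter_eq_left.2 hS', disjoint_iff_inter_eq_empty.1 (hj.mono_left hS), empty_union]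

/-- The weight of a union of two consecutive pieces. -/
theorem pw_union (d : ℕ → ℤ) (η : Env) {t1 t2 t3 : ℕ} (x : ℤ) {S S' : Finset ℕ} (h1 : t1 ≤ t2) (h2 : t2 ≤ t3)
    (hS : S ⊆ Ico t1 t2) (hS' : S' ⊆ Ico t2 t3) :
    pw μ s d η t1 x t3 (S ∪ S') = pw μ s d η t1 x t2 S * pw μ s d η t2 (ps d t1 x S t2) t3 S' := by
  rw [pw_cut d η x _ h1 h2]
  have e1 : (S ∪ S') ∩ Ico t1 t2 = S ∩ Ico t1 t2 := by
    rw [union_inter_left hS hS', inter_eq_left.2 hS]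
  have e2 : (S ∪ S') ∩ Ico t2 t3 = S' ∩ Ico t2 t3 := by
    rw [union_inter_right hS hS', inter_eq_left.2 hS']
  rw [pw_congr d η t1 x t2 e1, ps_congr d t1 x e1, pw_congr d η t2 _ t3 e2]

theorem ps_union_left (d : ℕ → ℤ) {t1 t2 t3 t : ℕ} (x : ℤ) {S S' : Finset ℕ} (hS : S ⊆ Ico t1 t2) (hS' : S' ⊆ Ico t2 t3)
    (ht : t ≤ t2) : ps d t1 x (S ∪ S') t = ps d t1 x S t := by
  rw [← ps_inter d t1 x (S ∪ S') ht, union_inter_left hS hS']

theorem ps_union_right (d : ℕ → ℤ) {t1 t2 t3 t : ℕ} (x : ℤ) {S S' : Finset ℕ} (hS : S ⊆ Ico t1 t2) (hS' : S' ⊆ Ico t2 t3)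
    (h1 : t1 ≤ t2) (ht : t2 ≤ t) (ht3 : t ≤ t3) : ps d t1 x (S ∪ S') t = ps d t2 (ps d t1 x S t2) S' t := by
  rw [← ps_chain d x (S ∪ S') h1 ht, ps_union_left d x hS hS' le_rfl, ← ps_inter d t2 _ (S ∪ S') ht3, union_inter_right hS hS']

/-- A kernel sum over pieces, cut at the time `t2`, with general weights. -/
theorem sum_pw_cut (d : ℕ → ℤ) (η : Env) {t1 t2 t3 : ℕ} (x : ℤ) (h1 : t1 ≤ t2) (h2 : t2 ≤ t3) (F : Finset ℕ → ℝ) :
    ∑ S ∈ (Ico t1 t3).powerset, pw μ s d η t1 x t3 S * F S =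
      ∑ S ∈ (Ico t1 t2).powerset, pw μ s d η t1 x t2 S *
        ∑ S' ∈ (Ico t2 t3).powerset, pw μ s d η t2 (ps d t1 x S t2) t3 S' * F (S ∪ S') := by
  rw [sum_cut h1 h2]
  refine sum_congr rfl fun S hS => ?_
  rw [mul_sum]
  refine sum_congr rfl fun S' hS' => ?_
  rw [mem_powerset] at hS hS'
  rw [pw_union d η x h1 h2 hS hS']
  ring

/-- The weight of a piece depends only on the environment on its sites. -/
theorem pw_env (d : ℕ → ℤ) {η η' : Env} (t1 : ℕ) (x : ℤ) (t2 : ℕ) (S : Finset ℕ)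
    (h : ∀ t ∈ Ioc t1 t2, η ((t : ℤ), ps d t1 x S t) = η' ((t : ℤ), ps d t1 x S t)) :
    pw μ s d η t1 x t2 S = pw μ s d η' t1 x t2 S := by
  unfold pw
  congr 1
  exact prod_congr rfl fun t ht => by rw [h t ht]

/-- The weight of a piece is nondecreasing in the environment. -/
theorem pw_mono (d : ℕ → ℤ) {η η' : Env} (t1 : ℕ) (x : ℤ) (t2 : ℕ) (S : Finset ℕ) (h : ∀ p, η p ≤ η' p) :
    pw μ s d η t1 x t2 S ≤ pw μ s d η' t1 x t2 S := by
  unfold pw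
  refine mul_le_mul_of_nonneg_left ?_ (Real.exp_pos _).le
  exact prod_le_prod (fun _ _ => (Real.exp_pos _).le) fun t _ => Real.exp_le_exp.2 (h _)

theorem Kf_mono (d : ℕ → ℤ) {η η' : Env} (t1 : ℕ) (x : ℤ) (t2 : ℕ) (y : ℤ) (h : ∀ p, η p ≤ η' p) :
    Kf μ s d η t1 x t2 y ≤ Kf μ s d η' t1 x t2 y :=
  sum_le_sum fun S _ => pw_mono d t1 x t2 S h

/-- The kernel at the time `t2` in terms of the kernels at the intermediate time. -/
theorem Kf_cut (d : ℕ → ℤ) (η : Env) {t1 t2 t3 : ℕ} (x : ℤ) (z : ℤ) (h1 : t1 ≤ t2) (h2 : t2 ≤ t3) :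
    Kf μ s d η t1 x t3 z =
      ∑ S ∈ (Ico t1 t2).powerset, pw μ s d η t1 x t2 S * Kf μ s d η t2 (ps d t1 x S t2) t3 z := by
  classical
  have e1 : Kf μ s d η t1 x t3 z =
      ∑ S ∈ (Ico t1 t3).powerset, pw μ s d η t1 x t3 S * (if ps d t1 x S t3 = z then (1 : ℝ) else 0) := by
    unfold Kf pcs
    rw [sum_filter]
    refine sum_congr rfl fun S _ => ?_
    split_ifs <;> simp
  rw [e1, sum_pw_cut d η x h1 h2]
  refine sum_congr rfl fun S hS => ?_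
  congr 1
  unfold Kf pcs
  rw [sum_filter]
  refine sum_congr rfl fun S' hS' => ?_
  rw [mem_powerset] at hS hS'
  rw [ps_union_right d x hS hS' h1 h2 le_rfl]
  split_ifs <;> simp

/-- The weight of a piece is a measurable function of the environment. -/
theorem pw_meas (d : ℕ → ℤ) (t1 : ℕ) (x : ℤ) (t2 : ℕ) (S : Finset ℕ) : Measurable fun η : Env => pw μ s d η t1 x t2 S := by
  unfold pw
  refine measurable_const.mul (Finset.measurable_prod _ fun t _ => ?_)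
  exact Real.measurable_exp.comp (measurable_pi_apply _)

theorem Kc_meas (d : ℕ → ℤ) (C : Finset ℕ → Prop) (t1 : ℕ) (x : ℤ) (t2 : ℕ) (y : ℤ) :
    Measurable fun η : Env => Kc μ s d C η t1 x t2 y := by
  classical
  unfold Kc
  exact Finset.measurable_sum _ fun S _ => pw_meas d t1 x t2 S

theorem Kf_meas (d : ℕ → ℤ) (t1 : ℕ) (x : ℤ) (t2 : ℕ) (y : ℤ) : Measurable fun η : Env => Kf μ s d η t1 x t2 y := by
  classical
  unfold Kf
  exact Finset.measurable_sum _ fun S _ => pw_meas d t1 x t2 S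

/-- The sites of the window `J` with the position sets `D`. -/
def sJ (J : Finset ℕ) (D : ℕ → Finset ℤ) : Finset Pt := J.biUnion fun t => (D t).image fun y : ℤ => (((t : ℕ) : ℤ), y)

theorem mem_sJ {J : Finset ℕ} {D : ℕ → Finset ℤ} {t : ℕ} {y : ℤ} : (((t : ℤ), y) : Pt) ∈ sJ J D ↔ t ∈ J ∧ y ∈ D t := by
  unfold sJ
  rw [mem_biUnion]
  constructor
  · rintro ⟨t', ht', hy⟩
    rw [mem_image] at hy
    obtain ⟨y', hy', he⟩ := hy
    have e1 : ((t' : ℕ) : ℤ) = (t : ℤ) := (Prod.mk.inj he).1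
    have e2 : y' = y := (Prod.mk.inj he).2
    have e3 : t' = t := by exact_mod_cast e1
    subst e3
    subst e2
    exact ⟨ht', hy'⟩
  · rintro ⟨h1, h2⟩
    exact ⟨t, h1, mem_image.2 ⟨y, h2, rfl⟩⟩

theorem exists_of_mem_sJ {J : Finset ℕ} {D : ℕ → Finset ℤ} {v : Pt} (hv : v ∈ sJ J D) :
    ∃ t ∈ J, ∃ y ∈ D t, v = ((t : ℤ), y) := by
  unfold sJ at hv
  rw [mem_biUnion] at hv
  obtain ⟨t, ht, hy⟩ := hv
  rw [mem_image] at hy
  obtain ⟨y, hy, rfl⟩ := hy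
  exact ⟨t, ht, y, hy, rfl⟩

theorem card_sJ_le (J : Finset ℕ) (D : ℕ → Finset ℤ) {w : ℕ} (hw : ∀ t ∈ J, (D t).card ≤ w) : (sJ J D).card ≤ J.card * w := by
  classical
  unfold sJ
  refine card_biUnion_le.trans ?_
  calc ∑ t ∈ J, ((D t).image fun y : ℤ => (((t : ℕ) : ℤ), y)).card ≤ ∑ _t ∈ J, w :=
        sum_le_sum fun t ht => card_image_le.trans (hw t ht)
    _ = J.card * w := by rw [sum_const, smul_eq_mul]

/-- The pieces which avoid the sites. -/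
def Avo (d : ℕ → ℤ) (J : Finset ℕ) (D : ℕ → Finset ℤ) (t1 : ℕ) (x : ℤ) (t2 : ℕ) (S : Finset ℕ) : Prop :=
  ∀ t ∈ J, t ∈ Ioc t1 t2 → ps d t1 x S t ∉ D t

/-- The pieces which stay in the sites. -/
def Ins (d : ℕ → ℤ) (J : Finset ℕ) (D : ℕ → Finset ℤ) (t1 : ℕ) (x : ℤ) (S : Finset ℕ) : Prop :=
  ∀ t ∈ J, ps d t1 x S t ∈ D t

/-- The weight of a piece which avoids the sites does not depend on the environment there. -/
theorem pw_avo {d : ℕ → ℤ} {J : Finset ℕ} {D : ℕ → Finset ℤ} {t1 : ℕ} {x : ℤ} {t2 : ℕ} {S : Finset ℕ} (h : Avo d J D t1 x t2 S)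
    {v : Pt} (hv : v ∈ sJ J D) (η : Env) (r : ℝ) : pw μ s d (Function.update η v r) t1 x t2 S = pw μ s d η t1 x t2 S := by
  classical
  refine pw_env d t1 x t2 S fun t ht => ?_
  rw [Function.update_of_ne]
  rintro rfl
  rw [mem_sJ] at hv
  exact h t hv.1 ht hv.2

/-- The part of the weight of a piece outside the window. -/
def pwo (μ : MeasureTheory.Measure ℝ) (s : ℝ) (d : ℕ → ℤ) (J : Finset ℕ) (η : Env) (t1 : ℕ) (x : ℤ) (t2 : ℕ) (S : Finset ℕ) : ℝ :=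
  Real.exp (s * ((S ∩ Ico t1 t2).card : ℝ) - ((t2 - t1 : ℕ) : ℝ) * lam μ s) *
    ∏ t ∈ Ioc t1 t2 \ J, Real.exp (η ((t : ℤ), ps d t1 x S t))

theorem pwo_pos (d : ℕ → ℤ) (J : Finset ℕ) (η : Env) (t1 : ℕ) (x : ℤ) (t2 : ℕ) (S : Finset ℕ) : 0 < pwo μ s d J η t1 x t2 S :=
  mul_pos (Real.exp_pos _) (prod_pos fun _ _ => Real.exp_pos _)

theorem pwo_meas (d : ℕ → ℤ) (J : Finset ℕ) (t1 : ℕ) (x : ℤ) (t2 : ℕ) (S : Finset ℕ) :
    Measurable fun η : Env => pwo μ s d J η t1 x t2 S := by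
  unfold pwo
  refine measurable_const.mul (Finset.measurable_prod _ fun t _ => ?_)
  exact Real.measurable_exp.comp (measurable_pi_apply _)

/-- The site at the time `t`. -/
theorem site_inj (d : ℕ → ℤ) (t1 : ℕ) (x : ℤ) (S : Finset ℕ) : Function.Injective fun t : ℕ => (((t : ℤ), ps d t1 x S t) : Pt) := by
  intro t t' h
  have h1 : ((t : ℕ) : ℤ) = ((t' : ℕ) : ℤ) := (Prod.mk.inj h).1
  exact_mod_cast h1

/-- The sites of a piece in the window. -/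
def tr (d : ℕ → ℤ) (J : Finset ℕ) (t1 : ℕ) (x : ℤ) (S : Finset ℕ) : Finset Pt :=
  J.image fun t : ℕ => (((t : ℤ), ps d t1 x S t) : Pt)

theorem card_tr (d : ℕ → ℤ) (J : Finset ℕ) (t1 : ℕ) (x : ℤ) (S : Finset ℕ) : (tr d J t1 x S).card = J.card :=
  card_image_of_injective _ (site_inj d t1 x S)

theorem tr_subset {d : ℕ → ℤ} {J : Finset ℕ} {D : ℕ → Finset ℤ} {t1 : ℕ} {x : ℤ} {S : Finset ℕ} (h : Ins d J D t1 x S) :
    tr d J t1 x S ⊆ sJ J D := by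
  intro p hp
  unfold tr at hp
  rw [mem_image] at hp
  obtain ⟨t, ht, rfl⟩ := hp
  exact mem_sJ.2 ⟨ht, h t ht⟩

theorem pw_window {J : Finset ℕ} {t1 t2 : ℕ} (hJ : J ⊆ Ioc t1 t2) (d : ℕ → ℤ) (η : Env) (x : ℤ) (S : Finset ℕ) :
    pw μ s d η t1 x t2 S = pwo μ s d J η t1 x t2 S * Real.exp (∑ v ∈ tr d J t1 x S, η v) := by
  unfold pw pwo tr
  rw [sum_image fun t _ t' _ h => site_inj d t1 x S h, Real.exp_sum, mul_assoc]
  congr 1
  rw [← prod_sdiff hJ]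

theorem pwo_upd {J : Finset ℕ} {D : ℕ → Finset ℤ} (d : ℕ → ℤ) {v : Pt} (hv : v ∈ sJ J D) (η : Env) (r : ℝ)
    (t1 : ℕ) (x : ℤ) (t2 : ℕ) (S : Finset ℕ) : pwo μ s d J (Function.update η v r) t1 x t2 S = pwo μ s d J η t1 x t2 S := by
  classical
  unfold pwo
  congr 1
  refine prod_congr rfl fun t ht => ?_
  rw [Function.update_of_ne]
  rintro rfl
  rw [mem_sJ] at hv
  exact (mem_sdiff.1 ht).2 hv.1

end

end Pool.Agent.W_7d29a1_Z
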