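import Pool.Agent.W_7d29a1_Z.NS
import Pool.Agent.W_7d29a1_Z74.UR74

/-!
STORM Z, leaf UR: the response of one unit dislocation is at most `t ^ ε`. (helper74; the proof is `W_7d29a1_Z74/UR74.lean`)
-/

namespace Pool.Agent.W_7d29a1_Z

open MeasureTheory ProbabilityTheory Filter Topology Finset
open Pool.Agent.W_7d29a1_F Pool.Agent.W_7d29a1_X Pool.Agent.W_7d29a1_G
open Pool.Agent.W_7d29a1_SR (In wd)
open scoped ENNReal

variable {μ : Measure ℝ} [IsProbabilityMeasure μ] {c C : ℝ} {n₀ : ℕ}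

theorem PSg_zero (h : In μ c C n₀) (hF : HF2 μ) : PSg μ 0 :=
  Pool.Agent.W_7d29a1_Z74.psg_zero h hF fun ε hε => ns h hF ε hε

end Pool.Agent.W_7d29a1_Z
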