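import Pool.Agent.W_7d29a1_Z.Stp
import Pool.Agent.W_7d29a1_Z.Eb
import Pool.Agent.W_7d29a1_Z.UR
import Pool.Agent.W_7d29a1_NP.NPMain

/-!
STORM Z: the width is superdiffusive along a sequence.
-/

namespace Pool.Agent.W_7d29a1_Z

open MeasureTheory ProbabilityTheory Filter Topology Finset
open Pool.Agent.W_7d29a1_F Pool.Agent.W_7d29a1_X Pool.Agent.W_7d29a1_G
open Pool.Agent.W_7d29a1_SR (In wd)
open Pool.Agent.W_7d29a1_Z10 (StepP EWP superP)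
open scoped ENNReal

variable {μ : Measure ℝ} [IsProbabilityMeasure μ] {c C : ℝ} {n₀ : ℕ}

/-- Strict Newman - Piza in the form of the algebra. -/
theorem np_strict (h : In μ c C n₀) : ∃ c' : ℝ, 0 < c' ∧ ∀ᶠ n : ℕ in atTop, (n : ℝ) ^ (1 + c') ≤ wd μ n * EE μ n ^ 2 :=
  Pool.Agent.W_7d29a1_Z10.strictNP h

theorem zmain (h : In μ c C n₀) (hF : HF2 μ) : ∃ c' : ℝ, 0 < c' ∧ ∃ᶠ n : ℕ in atTop, (n : ℝ) ^ (1 / 2 + c') ≤ wd μ n := by
  obtain ⟨c', hc', hNP⟩ := np_strict h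
  exact superP (w := wd μ) (E := EE μ) (P := PSg μ) (Pool.Agent.W_7d29a1_Z10.wd_nn h) (fun n => Pool.Agent.W_7d29a1_Z10.EE_nn n) (PSg_zero h hF)
    (stepP h hF) (ewp h) hc' hNP

end Pool.Agent.W_7d29a1_Z
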