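import Pool.Agent.W_7d29a1_Z.OneP

/-!
STORM Z, OneZ, deterministic part: outside the bad set every bad junction of a cluster is a near tie: the short clusters are
counted by the nearly tied places of their class, a long cluster gives a near tie at one of few places. (helper72)
-/

namespace Pool.Agent.W_7d29a1_Z.R72

open MeasureTheory ProbabilityTheory Filter Topology Finset
open Pool.Agent.W_7d29a1_F Pool.Agent.W_7d29a1_X Pool.Agent.W_7d29a1_G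
open Pool.Agent.W_7d29a1_Z86 (phi sp1 sp2 Wd Meet BadJ Runs RegT Bf st)
open Pool.Agent.W_7d29a1_Z.Asm72
open _root_.W_7d29a1_Z.CtrOp77 (D)
open scoped ENNReal

variable {μ : Measure ℝ}

/-- The complement of the bad set. -/
theorem badS_not {L N t τ B k₀ k₁ K s e0 E : ℕ} {n1 : ℕ → ℕ} {I : Finset ℕ} {V : ℕ → ℤ} {w A h lm : ℝ} {y : ℤ}
    {θ : Env × Finset ℕ × Finset ℕ} (hθ : θ ∉ BadS μ L N y t τ B k₀ k₁ K s e0 E n1 I w A h lm V) :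
    RegT N y θ ∧ RA μ L t τ B I w A K θ.1 ∧ RA μ L t τ B I w A K (shr 0 (pat t τ I V) θ.1) ∧
    (Tame L N t w (pos θ.2.1) ∧ FlatP N e0 E n1 θ.2.1) ∧ (Tame L N t w (pos θ.2.2) ∧ FlatP N e0 E n1 θ.2.2) ∧
    SepOK N t τ k₀ k₁ e0 E (pat t τ I V) θ.2.1 θ.2.2 ∧ θ ∉ BadD μ N t τ k₀ k₁ e0 E n1 I V lm ∧
    (∀ l r : ℕ, (k₀ ≤ l ∧ l < r ∧ r ≤ k₁) →
      |∑ b ∈ Ico l r, (fb μ t τ I θ.1 b (V b) (pos θ.2.1) - fb μ t τ I θ.1 b 0 (pos θ.2.1) -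
        Db μ t τ I s θ.1 b 0 (pos θ.2.1) / 4)| ≤ h * √((r - l : ℕ) : ℝ) * (s * A)) ∧
    (∀ l r : ℕ, (k₀ ≤ l ∧ l < r ∧ r ≤ k₁) →
      |∑ b ∈ Ico l r, (fb μ t τ I (shr 0 (pat t τ I V) θ.1) b (-V b) (pos θ.2.2) -
        fb μ t τ I (shr 0 (pat t τ I V) θ.1) b 0 (pos θ.2.2) -
        Db μ t τ I s (shr 0 (pat t τ I V) θ.1) b 0 (pos θ.2.2) / 4)| ≤ h * √((r - l : ℕ) : ℝ) * (s * A)) := by
  unfold BadS at hθ
  simp only [Set.mem_ofPred_eq, not_or] at hθ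
  obtain ⟨c1, c2, c3, c4, c5, c6, c7, c8, c9⟩ := hθ
  exact ⟨not_not.1 c1, not_not.1 c2, not_not.1 c3, not_not.1 c4, not_not.1 c5, not_not.1 c6, c7,
    fun l r hlr => not_lt.1 fun hcon => c8 ⟨l, r, hlr, hcon⟩, fun l r hlr => not_lt.1 fun hcon => c9 ⟨l, r, hlr, hcon⟩⟩

/-- Outside the bad set `near_tie` applies. -/
theorem nt_junction {L N t τ B k₀ k₁ K s e0 E : ℕ} {n1 : ℕ → ℕ} {I : Finset ℕ} {V : ℕ → ℤ} {w A h lm Del : ℝ} {y : ℤ}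
    {θ : Env × Finset ℕ × Finset ℕ} (ht : 16 ≤ t) (hI : I ⊆ Core t) (hk : k₀ < k₁) (hk1 : k₁ ≤ B) (hkN : za t τ k₁ ≤ N)
    (hV : VOK t τ N k₀ k₁ s I V) (hs : s ≤ K) (hA : 0 ≤ A) (hw : 4 * w + 8 * (s * I.card) ≤ t)
    (hn1 : ∀ e, e0 ≤ e → e ≤ E → 1 ≤ n1 e) (hD : 64 * (s * I.card) ≤ 2 ^ e0)
    (hθ : θ ∉ BadS μ L N y t τ B k₀ k₁ K s e0 E n1 I w A h lm V) {p : ℕ × ℕ}
    (hp : p ∈ Runs (BadJ t τ k₀ k₁ (pat t τ I V) θ.2.1 θ.2.2) k₀ k₁) {b : ℕ} (hb1 : p.1 ≤ b) (hb2 : b ≤ p.2)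
    (hb : BadJ t τ k₀ k₁ (pat t τ I V) θ.2.1 θ.2.2 b)
    (hDel : |Xs s (Ico p.1 p.2) (phi μ t τ I (θ.1, θ.2.1))| ≤ Del)
    (hDel' : |Xs s (Ico p.1 p.2) (phi μ t τ I (shr 0 (pat t τ I V) θ.1, θ.2.2))| ≤ Del) :
    ∃ a b' : ℕ, (za t τ p.1 ≤ a ∨ p.1 = k₀) ∧ (b' ≤ zb t τ (p.2 - 1) ∨ p.2 = k₁) ∧ b' ≤ N ∧
      ∃ W ∈ Wd N t τ k₀ n1 e0 E b, (∀ i ∈ W.2.2, a < i ∧ i < b') ∧ ∀ H M, b' ≤ a + H →
        2 * (Del / 4 + h * √((p.2 - p.1 : ℕ) : ℝ) * (s * A) + 6 * (s * A)) + 3 * lm ≤ M →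
        NTW μ N H W.2.1 W.2.2 (2 ^ W.1) (2 ^ (W.1 + 3)) M (shr 0 (pat t τ I V) θ.1) θ.2.2 := by
  obtain ⟨c1, c2, c3, c4, c5, c6, c7, c8, c9⟩ := badS_not hθ
  have hpm := Pool.Agent.W_7d29a1_Z86.mem_Runs.1 hp
  obtain ⟨p1, p2, p3, -, -, -, -⟩ := hpm
  exact near_tie ht hI hk hk1 hkN hV hs hA c2 c3 c4.1 c5.1 hw c6 hn1 c4.2 c5.2 hD (c1.2.2.1.trans c1.2.2.2.symm) hp hb1 hb2
    hb c7 (c8 p.1 p.2 ⟨p1, p3, p2⟩) (c9 p.1 p.2 ⟨p1, p3, p2⟩) hDel hDel'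

/-- **Field `hcl`.** -/
theorem hcl72 {L N t τ B k₀ k₁ K s e0 E M j : ℕ} {n1 : ℕ → ℕ} {I : Finset ℕ} {V : ℕ → ℤ} {w A h lm G : ℝ} {y : ℤ}
    {θ : Env × Finset ℕ × Finset ℕ} (ht : 16 ≤ t) (hI : I ⊆ Core t) (hk : k₀ < k₁) (hk1 : k₁ ≤ B) (hkN : za t τ k₁ ≤ N)
    (hV : VOK t τ N k₀ k₁ s I V) (hs : s ≤ K) (hs1 : 1 ≤ s) (hA : 1 ≤ A) (hw : 4 * w + 8 * (s * I.card) ≤ t)
    (hn1 : ∀ e, e0 ≤ e → e ≤ E → 1 ≤ n1 e) (hD : 64 * (s * I.card) ≤ 2 ^ e0) (hG : 0 ≤ G) (hh : 0 ≤ h) (hlm : 0 ≤ lm)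
    (hθ : θ ∉ BadS μ L N y t τ B k₀ k₁ K s e0 E n1 I w A h lm V)
    (hg0 : ∀ q ∈ Iv k₀ k₁ M, |Xs s (Ico q.1 q.2) (phi μ t τ I (θ.1, θ.2.1))| ≤
      G * √((q.2 - q.1 : ℕ) : ℝ) * (s * A))
    (hg1 : ∀ q ∈ Iv k₀ k₁ M, |Xs s (Ico q.1 q.2) (phi μ t τ I (shr 0 (pat t τ I V) θ.1, θ.2.2))| ≤
      G * √((q.2 - q.1 : ℕ) : ℝ) * (s * A))
    (hno : ∀ p ∈ Bf N y t τ k₀ k₁ (pat t τ I V) θ, p.2 - p.1 ≤ M) :
    (((Bf N y t τ k₀ k₁ (pat t τ I V) θ).filter fun p => 2 ^ j ≤ p.2 - p.1 ∧ p.2 - p.1 < 2 ^ (j + 1)).card : ℝ) ≤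
      1 * (Set.ncard {u | u < (k₁ - k₀) / st j + 1 ∧ (shr 0 (pat t τ I V) θ.1, θ.2.2) ∈
        NTb μ N t τ k₀ n1 e0 E (2 * t * (2 ^ (j + 1) + 1)) (2 * t * (2 ^ (j + 1) + 1))
          (√((2 : ℝ) ^ j) * ((G + 3 * h + 12 + 3 * lm) * (s * A))) (k₀ + u * st j)} : ℝ) + 2 := by
  have hreg : RegT N y θ := by
    by_contra hcon
    exact hθ (Or.inl hcon)
  rw [Pool.Agent.W_7d29a1_Z86.Bf_of_reg hreg] at hno ⊢
  rw [one_mul]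
  have key := Pool.Agent.W_7d29a1_Z86.runs_count2 (bad := BadJ t τ k₀ k₁ (pat t τ I V) θ.2.1 θ.2.2) (k0 := k₀) (k1 := k₁)
    (j := j) (fun b => (shr 0 (pat t τ I V) θ.1, θ.2.2) ∈
        NTb μ N t τ k₀ n1 e0 E (2 * t * (2 ^ (j + 1) + 1)) (2 * t * (2 ^ (j + 1) + 1))
          (√((2 : ℝ) ^ j) * ((G + 3 * h + 12 + 3 * lm) * (s * A))) b) ?_
  · exact_mod_cast key
  intro p hp h1 h2 h3 h4 b hb1 hb2 hb
  have hpm := Pool.Agent.W_7d29a1_Z86.mem_Runs.1 hp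
  obtain ⟨p1, p2, p3, -, -, -, -⟩ := hpm
  have hq : p ∈ Iv k₀ k₁ M := mem_Iv.2 ⟨⟨p1, p3, p2⟩, hno p hp⟩
  obtain ⟨a, b', ha, hb', hb'N, W, hW, hab, hNT⟩ := nt_junction ht hI hk hk1 hkN hV hs (by linarith) hw hn1 hD hθ hp hb1.le
    hb2.le hb (hg0 p hq) (hg1 p hq)
  have ha' : za t τ p.1 ≤ a := ha.resolve_right (by omega)
  have hb'' : b' ≤ zb t τ (p.2 - 1) := hb'.resolve_right (by omega)
  -- the lengths
  have e1 : zb t τ (p.2 - 1) ≤ za t τ p.1 + 2 * t * 2 ^ (j + 1) := by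
    have h5 : p.2 - 1 ≤ p.1 + (2 ^ (j + 1) - 1) := by omega
    have h6 := Nat.mul_le_mul_left (2 * t) h5
    have h7 : 1 ≤ 2 ^ (j + 1) := Nat.one_le_two_pow
    have h8 : 2 * t * (p.1 + (2 ^ (j + 1) - 1)) + 2 * t = 2 * t * p.1 + 2 * t * 2 ^ (j + 1) := by
      rw [← Nat.mul_succ, ← Nat.mul_add]
      congr 1
      omega
    rw [zb_eq]
    unfold za
    omega
  have e2 : za t τ p.1 ≤ za t τ b := za_mono' hb1.le
  have e3 : za t τ b ≤ za t τ p.1 + 2 * t * 2 ^ (j + 1) := by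
    have h5 : b ≤ p.1 + 2 ^ (j + 1) := by omega
    have h6 := Nat.mul_le_mul_left (2 * t) h5
    rw [Nat.mul_add] at h6
    unfold za
    omega
  have e4 : 2 * t * (2 ^ (j + 1) + 1) = 2 * t * 2 ^ (j + 1) + 2 * t := by ring
  refine ⟨W, hW, fun i hi => ?_, hNT _ _ ?_ ?_⟩
  · have := hab i hi
    rw [e4]
    omega
  · rw [e4]
    omega
  · -- the depth
    have ha1 : 1 ≤ (s : ℝ) * A := by
      have : (1 : ℝ) ≤ s := by exact_mod_cast hs1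
      nlinarith
    set a₀ := (s : ℝ) * A with ha₀
    have hr : 1 ≤ √((2 : ℝ) ^ j) := Real.one_le_sqrt.2 (one_le_pow₀ (by norm_num))
    set r := √((2 : ℝ) ^ j) with hrd
    have hs2 : √2 ≤ (3 / 2 : ℝ) := by
      rw [Real.sqrt_le_left (by norm_num)]
      norm_num
    have h5 : √((p.2 - p.1 : ℕ) : ℝ) ≤ 3 / 2 * r := by
      have h6 : ((p.2 - p.1 : ℕ) : ℝ) ≤ 2 * 2 ^ j := by
        have : ((p.2 - p.1 : ℕ) : ℝ) ≤ ((2 ^ (j + 1) : ℕ) : ℝ) := by exact_mod_cast h4.le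
        push_cast at this ⊢
        rw [pow_succ] at this
        linarith
      calc √((p.2 - p.1 : ℕ) : ℝ) ≤ √(2 * 2 ^ j) := Real.sqrt_le_sqrt h6
        _ = √2 * r := Real.sqrt_mul (by norm_num) _
        _ ≤ 3 / 2 * r := mul_le_mul_of_nonneg_right hs2 (by linarith)
    have h6 : 0 ≤ √((p.2 - p.1 : ℕ) : ℝ) := Real.sqrt_nonneg _
    set d := √((p.2 - p.1 : ℕ) : ℝ) with hd
    have h7 : G * d * a₀ ≤ G * (3 / 2 * r) * a₀ := by gcongr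
    have h8 : h * d * a₀ ≤ h * (3 / 2 * r) * a₀ := by gcongr
    have h9 : a₀ ≤ r * a₀ := by nlinarith
    have h10 : lm ≤ r * lm * a₀ := by
      have : lm ≤ r * lm := by nlinarith
      have : r * lm ≤ r * lm * a₀ := by
        have : 0 ≤ r * lm := by positivity
        nlinarith
      linarith
    have h11 : 0 ≤ G * r * a₀ := by positivity
    have h12 : 0 ≤ h * r * a₀ := by positivity
    nlinarith

/-- The places of the long clusters. -/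
theorem long_place {bad : ℕ → Prop} {k₀ k₁ M : ℕ} {p : ℕ × ℕ} (hp : p ∈ Runs bad k₀ k₁) (hM : M < p.2 - p.1) :
    ∃ i < (k₁ - k₀) / max 1 M + 1, p.1 ≤ k₀ + i * max 1 M ∧ k₀ + i * max 1 M ≤ p.2 ∧ bad (k₀ + i * max 1 M) := by
  obtain ⟨p1, p2, p3, p4, -, -, b, hb1, hb2, hb⟩ := Pool.Agent.W_7d29a1_Z86.mem_Runs.1 hp
  rcases Nat.eq_zero_or_pos M with h0 | h0
  · subst h0
    rw [show max 1 0 = 1 from rfl, Nat.div_one]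
    refine ⟨b - k₀, by omega, ?_⟩
    rw [mul_one, show k₀ + (b - k₀) = b by omega]
    exact ⟨hb1, hb2, hb⟩
  · rw [max_eq_right h0]
    have h1 := Nat.div_add_mod (p.1 - k₀) M
    have h2 := Nat.mod_lt (p.1 - k₀) h0
    have h3 : ((p.1 - k₀) / M + 1) * M = M * ((p.1 - k₀) / M) + M := by ring
    have h4 : p.1 < k₀ + ((p.1 - k₀) / M + 1) * M := by
      rw [h3]
      omega
    have h5 : k₀ + ((p.1 - k₀) / M + 1) * M < p.2 := by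
      rw [h3]
      omega
    refine ⟨(p.1 - k₀) / M + 1, ?_, h4.le, h5.le, p4 _ h4 h5⟩
    have h6 : (p.1 - k₀) / M + 1 ≤ (k₁ - k₀) / M := by
      rw [Nat.le_div_iff_mul_le h0]
      omega
    omega

/-- The sums over long intervals. -/
theorem del_long (F : ℕ → ℝ) {k₀ k₁ : ℕ} {G a s₀ : ℝ} (hk : k₀ < k₁) (hG : 0 ≤ G) (ha : 0 ≤ a) (hs₀ : 1 ≤ s₀)
    (h1 : ∀ x z, k₀ ≤ x → x < z → z ≤ k₁ → z - x ≤ ⌊((k₁ - k₀ : ℕ) : ℝ) / s₀⌋₊ →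
      |∑ b ∈ Ico x z, F b| ≤ G * √((z - x : ℕ) : ℝ) * a)
    (h2 : ∀ b, k₀ ≤ b → b < k₁ → |F b| ≤ 2 * a) {l r : ℕ} (hl : k₀ ≤ l) (hlr : l ≤ r) (hr : r ≤ k₁) :
    |∑ b ∈ Ico l r, F b| ≤ 3 * (G + 2) * √s₀ * √((k₁ - k₀ : ℕ) : ℝ) * a := by
  set m : ℝ := ((k₁ - k₀ : ℕ) : ℝ) with hm
  set M : ℕ := ⌊m / s₀⌋₊ with hM
  have hm1 : 1 ≤ m := by
    rw [hm]
    exact_mod_cast (by omega : 1 ≤ k₁ - k₀)
  have hsm : 0 ≤ √m := Real.sqrt_nonneg m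
  have hss : 1 ≤ √s₀ := Real.one_le_sqrt.2 hs₀
  have hmm : √m * √m = m := Real.mul_self_sqrt (by linarith)
  have hss2 : √s₀ * √s₀ = s₀ := Real.mul_self_sqrt (by linarith)
  have hrl : ((r - l : ℕ) : ℝ) ≤ m := by
    rw [hm]
    exact_mod_cast (by omega : r - l ≤ k₁ - k₀)
  have hGs : 0 ≤ G * √s₀ * √m * a := by positivity
  have hSs : 0 ≤ √s₀ * √m * a := by positivity
  rcases Nat.eq_zero_or_pos M with h0 | h0
  · -- short intervals do not exist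
    have h3 : m / s₀ < 1 := by
      rw [hM] at h0
      exact Nat.floor_eq_zero.1 h0
    have h4 : m < s₀ := by rwa [div_lt_one (by linarith)] at h3
    have h5 : |∑ b ∈ Ico l r, F b| ≤ ((r - l : ℕ) : ℝ) * (2 * a) := by
      refine (Finset.abs_sum_le_sum_abs _ _).trans ?_
      refine (Finset.sum_le_sum (g := fun _ => 2 * a) fun b hb => ?_).trans (le_of_eq ?_)
      · have := mem_Ico.1 hb
        exact h2 b (by omega) (by omega)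
      · rw [Finset.sum_const, Nat.card_Ico, nsmul_eq_mul]
    have h6 : √m ≤ √s₀ := Real.sqrt_le_sqrt h4.le
    have h7 : ((r - l : ℕ) : ℝ) * (2 * a) ≤ m * (2 * a) := mul_le_mul_of_nonneg_right hrl (by linarith)
    have h8 : m * (2 * a) ≤ 2 * (√s₀ * √m * a) := by
      have : √m * √m ≤ √s₀ * √m := mul_le_mul_of_nonneg_right h6 hsm
      rw [hmm] at this
      nlinarith
    nlinarith
  · have hM0 : (0 : ℝ) < M := by exact_mod_cast h0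
    have hM1 : (1 : ℝ) ≤ M := by exact_mod_cast h0
    have h3 : m / s₀ < M + 1 := Nat.lt_floor_add_one _
    have h4 : (M : ℝ) ≤ m / s₀ := Nat.floor_le (by positivity)
    have h5 : m / M ≤ 2 * s₀ := by
      rw [div_le_iff₀ hM0]
      rw [div_lt_iff₀ (by linarith)] at h3
      nlinarith
    have h6 : (M : ℝ) ≤ m := h4.trans (div_le_self (by linarith) hs₀)
    have h7 := Num72.xs_long F (k₀ := k₀) (k₁ := k₁) (n := M) h0 (g := G * √(M : ℝ) * a) (by positivity)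
      (fun x z hx hxz hz hzx => (h1 x z hx hxz hz hzx).trans (by
        have h8 : ((z - x : ℕ) : ℝ) ≤ M := by exact_mod_cast hzx
        have h9 := Real.sqrt_le_sqrt h8
        gcongr)) hl hlr hr
    refine h7.trans ?_
    have h8 : 0 < √(M : ℝ) := Real.sqrt_pos.2 hM0
    have h9 : √(M : ℝ) * √(M : ℝ) = M := Real.mul_self_sqrt hM0.le
    have h10 : √(M : ℝ) ≤ √m := Real.sqrt_le_sqrt h6
    -- `m / √M ≤ √m √(2 s₀)`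
    have h11 : m / M * √(M : ℝ) ≤ 3 / 2 * √s₀ * √m := by
      have e1 : m / M * √(M : ℝ) = √m * √(m / M) := by
        rw [Real.sqrt_div' m hM0.le, ← mul_div_assoc, hmm, div_mul_eq_mul_div, div_eq_div_iff hM0.ne' h8.ne', mul_assoc, h9]
      have e2 : √(m / M) ≤ √(2 * s₀) := Real.sqrt_le_sqrt h5
      have e3 : √(2 * s₀) ≤ 3 / 2 * √s₀ := by
        rw [Real.sqrt_mul (by norm_num)]
        refine mul_le_mul_of_nonneg_right ?_ (by linarith)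
        rw [Real.sqrt_le_left (by norm_num)]
        norm_num
      rw [e1]
      nlinarith [mul_le_mul_of_nonneg_left (e2.trans e3) hsm]
    have h12 : ((r - l : ℕ) : ℝ) / M ≤ m / M := by gcongr
    have h13 : (((r - l : ℕ) : ℝ) / M + 1) * (G * √(M : ℝ) * a) ≤ (m / M * √(M : ℝ) + √(M : ℝ)) * (G * a) := by
      have : 0 ≤ G * √(M : ℝ) * a := by positivity
      nlinarith [mul_le_mul_of_nonneg_right h12 this]
    refine h13.trans ?_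
    have h14 : √(M : ℝ) ≤ √s₀ * √m := by nlinarith
    have h15 : m / M * √(M : ℝ) + √(M : ℝ) ≤ 3 * √s₀ * √m := by
      have : 0 ≤ √s₀ * √m := by positivity
      linarith
    have h16 := mul_le_mul_of_nonneg_right h15 (mul_nonneg hG ha)
    nlinarith

/-- **Field `hlong`.** -/
theorem hlong72 {L N t τ B k₀ k₁ K s e0 E : ℕ} {n1 : ℕ → ℕ} {I : Finset ℕ} {V : ℕ → ℤ} {w A h lm G s₀ : ℝ} {y : ℤ}
    {θ : Env × Finset ℕ × Finset ℕ} (ht : 16 ≤ t) (hI : I ⊆ Core t) (hk : k₀ < k₁) (hk1 : k₁ ≤ B) (hkN : za t τ k₁ ≤ N)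
    (hV : VOK t τ N k₀ k₁ s I V) (hs : s ≤ K) (hs1 : 1 ≤ s) (hA : 1 ≤ A) (hw : 4 * w + 8 * (s * I.card) ≤ t)
    (hn1 : ∀ e, e0 ≤ e → e ≤ E → 1 ≤ n1 e) (hD : 64 * (s * I.card) ≤ 2 ^ e0) (hG : 0 ≤ G) (hh : 0 ≤ h) (hlm : 0 ≤ lm)
    (hs₀ : 1 ≤ s₀) (hθ : θ ∉ BadS μ L N y t τ B k₀ k₁ K s e0 E n1 I w A h lm V)
    (hg0 : ∀ q ∈ Iv k₀ k₁ ⌊((k₁ - k₀ : ℕ) : ℝ) / s₀⌋₊, |Xs s (Ico q.1 q.2) (phi μ t τ I (θ.1, θ.2.1))| ≤
      G * √((q.2 - q.1 : ℕ) : ℝ) * (s * A))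
    (hg1 : ∀ q ∈ Iv k₀ k₁ ⌊((k₁ - k₀ : ℕ) : ℝ) / s₀⌋₊, |Xs s (Ico q.1 q.2) (phi μ t τ I (shr 0 (pat t τ I V) θ.1, θ.2.2))| ≤
      G * √((q.2 - q.1 : ℕ) : ℝ) * (s * A))
    (hp : ∃ p ∈ Bf N y t τ k₀ k₁ (pat t τ I V) θ, ⌊((k₁ - k₀ : ℕ) : ℝ) / s₀⌋₊ < p.2 - p.1) :
    ∃ i ∈ range ((k₁ - k₀) / max 1 ⌊((k₁ - k₀ : ℕ) : ℝ) / s₀⌋₊ + 1), (shr 0 (pat t τ I V) θ.1, θ.2.2) ∈
      NTb μ N t τ k₀ n1 e0 E N N (√((k₁ - k₀ : ℕ) : ℝ) * ((2 * (G + 2) * √s₀ + 2 * h + 12 + 3 * lm) * (s * A)))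
        (k₀ + i * max 1 ⌊((k₁ - k₀ : ℕ) : ℝ) / s₀⌋₊) := by
  obtain ⟨c1, c2, c3, c4, c5, c6, c7, c8, c9⟩ := badS_not hθ
  set m : ℝ := ((k₁ - k₀ : ℕ) : ℝ) with hm
  set M : ℕ := ⌊m / s₀⌋₊ with hM
  obtain ⟨p, hp, hMp⟩ := hp
  rw [Pool.Agent.W_7d29a1_Z86.Bf_of_reg c1] at hp
  obtain ⟨i, hi, hb1, hb2, hb⟩ := long_place hp hMp
  have hpm := Pool.Agent.W_7d29a1_Z86.mem_Runs.1 hp
  obtain ⟨p1, p2, p3, -, -, -, -⟩ := hpm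
  have hA0 : 0 ≤ A := by linarith
  have hsA : 0 ≤ (s : ℝ) * A := by positivity
  -- single zones
  have hz : ∀ (η : Env) (S : Finset ℕ), RA μ L t τ B I w A K η → Tame L N t w (pos S) → ∀ b, k₀ ≤ b → b < k₁ →
      |Db μ t τ I s η b 0 (pos S)| ≤ 2 * ((s : ℝ) * A) := by
    intro η S hR hT b hb1 hb2
    have hzN : zb t τ b ≤ N := by
      have h3 := za_lt (t := t) (τ := τ) (show b < b + 1 by omega)
      have h4 : za t τ (b + 1) ≤ za t τ k₁ := za_mono' (by omega)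
      have h5 : za t τ (b + 1) = za t τ b + 2 * t := by unfold za; ring
      rw [zb_eq]
      omega
    have h2 := hT.cone (τ := τ) (pce_full t) hzN
    have h3 := (ra_Db hR (b := b) (s := (s : ℤ)) (a := 0) (by omega) (by
      rw [abs_zero, zero_add, Nat.abs_cast]
      exact_mod_cast hs) (X := pos S) (by simpa using h2.1) (by
      have e := h2.2
      rw [zb_eq]
      simpa using e)).1
    rw [Int.cast_natCast, Nat.abs_cast] at h3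
    linarith
  have hDel0 := del_long (fun b => Db μ t τ I s θ.1 b 0 (pos θ.2.1)) hk hG hsA hs₀
    (fun x z hx hxz hz' hzx => hg0 (x, z) (mem_Iv.2 ⟨⟨hx, hxz, hz'⟩, hzx⟩)) (hz θ.1 θ.2.1 c2 c4.1) p1 p3.le p2
  have hDel1 := del_long (fun b => Db μ t τ I s (shr 0 (pat t τ I V) θ.1) b 0 (pos θ.2.2)) hk hG hsA hs₀
    (fun x z hx hxz hz' hzx => hg1 (x, z) (mem_Iv.2 ⟨⟨hx, hxz, hz'⟩, hzx⟩)) (hz _ θ.2.2 c3 c5.1) p1 p3.le p2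
  obtain ⟨a, b', -, -, hb'N, W, hW, hab, hNT⟩ := nt_junction ht hI hk hk1 hkN hV hs hA0 hw hn1 hD hθ hp hb1 hb2 hb
    hDel0 hDel1
  refine ⟨i, mem_range.2 hi, W, hW, fun j hj => ?_, hNT _ _ (by omega) ?_⟩
  · have h3 := hab j hj
    have h4 : za t τ (k₀ + i * max 1 M) ≤ za t τ k₁ := za_mono' (hb2.trans p2)
    omega
  · have ha1 : 1 ≤ (s : ℝ) * A := by
      have : (1 : ℝ) ≤ s := by exact_mod_cast hs1
      nlinarith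
    have hm1 : 1 ≤ m := by
      rw [hm]
      exact_mod_cast (by omega : 1 ≤ k₁ - k₀)
    have hr : 1 ≤ √m := Real.one_le_sqrt.2 hm1
    have hpm : √((p.2 - p.1 : ℕ) : ℝ) ≤ √m := by
      refine Real.sqrt_le_sqrt ?_
      rw [hm]
      exact_mod_cast (by omega : p.2 - p.1 ≤ k₁ - k₀)
    set a₀ := (s : ℝ) * A with ha₀
    rw [← hm]
    have h8 : h * √((p.2 - p.1 : ℕ) : ℝ) * a₀ ≤ h * √m * a₀ := by gcongr
    have h9 : a₀ ≤ √m * a₀ := by nlinarith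
    have h10 : lm ≤ √m * lm * a₀ := by
      have h11 : lm ≤ √m * lm := by nlinarith
      have : 0 ≤ √m * lm := by positivity
      nlinarith
    have h11 : 0 ≤ (G + 2) * √s₀ * √m * a₀ := by positivity
    nlinarith

end Pool.Agent.W_7d29a1_Z.R72
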