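import Pool.Agent.W_7d29a1_Z.Hoef
import Pool.Agent.W_7d29a1_Z2.HoefO2
import Pool.Agent.W_7d29a1_Z.Tie
import Pool.Agent.W_7d29a1_Z.Num72
import Pool.Agent.W_7d29a1_Z.Dep72
import Pool.Agent.W_7d29a1_Z86.Ins86A
import Pool.Agent.W_7d29a1_Z86.Brk86
import Pool.Agent.W_7d29a1_Z86.Ins86B
import Pool.Agent.W_7d29a1_Z49.CountZ

/-!
STORM Z, OneZ: definitions and stubs of the fields of `Asm72.onestep_w` for the concrete model. (helper72)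
-/

namespace Pool.Agent.W_7d29a1_Z.R72

open MeasureTheory ProbabilityTheory Filter Topology Finset
open Pool.Agent.W_7d29a1_F Pool.Agent.W_7d29a1_X Pool.Agent.W_7d29a1_G
open Pool.Agent.W_7d29a1_Z86 (phi sp1 sp2 Wd)
open Pool.Agent.W_7d29a1_Z.Asm72
open _root_.W_7d29a1_Z.CtrOp77 (D)
open scoped ENNReal

variable {μ : Measure ℝ}

/-! ### Hoeffding (owner: helper2) -/

/-- Field `hoef`. The pairs are `k₀ + 2 i, k₀ + 2 i + 1` for `i < (k₁ - k₀) / 2`; if `k₁ - k₀` is odd the last zone has the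
amplitude `0` (it costs `4 A'`). -/
theorem hoefD1 [IsProbabilityMeasure μ] {N : ℕ} {y : ℤ} (h0 : 0 ≤ y) (h1 : y ≤ N) (t τ : ℕ) (I : Finset ℕ) (s : ℤ)
    {k₀ k₁ x z : ℕ} (hx : k₀ ≤ x) (hxz : x < z) (hz : z ≤ k₁) {A' u p : ℝ} (hA' : 0 ≤ A') (hu : 0 ≤ u) (hp : 0 ≤ p)
    (hG : P1 μ N y (fun η S => ¬ ∀ b, x ≤ b → b < z → ∀ i : ℤ, |i| ≤ 1 →
      |D s (phi μ t τ I (η, S) b) (i * s)| ≤ 2 * A') ≤ ENNReal.ofReal p) :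
    ∑ σ : Fin ((k₁ - k₀) / 2) → Fin 4, ((4 : ℝ) ^ ((k₁ - k₀) / 2))⁻¹ * (sp1 μ N y).pr {q |
      (u + 4) * √((z - x : ℕ) : ℝ) * A' < |XV s (Ico x z) (phi μ t τ I q) (amp s k₀ ((k₁ - k₀) / 2) σ) -
        Xs (2 * s) (Ico x z) (phi μ t τ I q) / 4|} ≤ 2 * Real.exp (-(u ^ 2 / 64)) + p :=
  Pool.Agent.W_7d29a1_Z2.hoefD1 t τ I s hx hxz hz hA' hu hp hG

/-- Hoeffding for the responses (size of the depth); `s` may be negative. -/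
theorem hoefF1 [IsProbabilityMeasure μ] {N : ℕ} {y : ℤ} (h0 : 0 ≤ y) (h1 : y ≤ N) (t τ : ℕ) (I : Finset ℕ) (s : ℤ)
    {k₀ k₁ x z : ℕ} (hx : k₀ ≤ x) (hxz : x < z) (hz : z ≤ k₁) {A' u p : ℝ} (hA' : 0 ≤ A') (hu : 0 ≤ u) (hp : 0 ≤ p)
    (hG : P1 μ N y (fun η S => ¬ ∀ b, x ≤ b → b < z →
      |fb μ t τ I η b s (pos S) - fb μ t τ I η b 0 (pos S)| ≤ A' ∧
      |fb μ t τ I η b (-s) (pos S) - fb μ t τ I η b 0 (pos S)| ≤ A') ≤ ENNReal.ofReal p) :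
    ∑ σ : Fin ((k₁ - k₀) / 2) → Fin 4, ((4 : ℝ) ^ ((k₁ - k₀) / 2))⁻¹ * (sp1 μ N y).pr {q |
      (u + 1) * √((z - x : ℕ) : ℝ) * A' < |∑ b ∈ Ico x z, (fb μ t τ I q.1 b (amp s k₀ ((k₁ - k₀) / 2) σ b) (pos q.2) -
        fb μ t τ I q.1 b 0 (pos q.2) - Db μ t τ I s q.1 b 0 (pos q.2) / 4)|} ≤ 2 * Real.exp (-(u ^ 2 / 64)) + p :=
  Pool.Agent.W_7d29a1_Z2.hoefF1 t τ I s hx hxz hz hA' hu hp hG

/-! ### Near ties at a place (owner: helper49) -/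

/-- Near tie at the junction `b`: one of the windows of the list, with all rows at distance at most `Hd` from the start of the
zone `b`, is nearly tied. -/
def NTb (μ : Measure ℝ) (N t τ k₀ : ℕ) (n1 : ℕ → ℕ) (e0 E H Hd : ℕ) (M : ℝ) (b : ℕ) : Set (Env × Finset ℕ) :=
  {q | ∃ W ∈ Wd N t τ k₀ n1 e0 E b, (∀ i ∈ W.2.2, za t τ b ≤ i + Hd ∧ i ≤ za t τ b + Hd) ∧
    NTW μ N H W.2.1 W.2.2 (2 ^ W.1) (2 ^ (W.1 + 3)) M q.1 q.2}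

/-- The tie lemma in the form of an input: all windows of the lists are nearly tied with a probability at most `r M`, given
any event which does not depend on their rows. -/
def TieIn (μ : Measure ℝ) (N : ℕ) (y : ℤ) (t τ k₀ : ℕ) (n1 : ℕ → ℕ) (e0 E : ℕ) (r p : ℝ) : Prop :=
  ∀ b : ℕ, ∀ W ∈ Wd N t τ k₀ n1 e0 E b, ∀ H : ℕ, ∀ M : ℝ, 1 ≤ M → ∀ F : Env → Finset ℕ → Prop, Ms F →
    OffRows W.2.2 F → P1 μ N y (fun η S => F η S ∧ NTW μ N H W.2.1 W.2.2 (2 ^ W.1) (2 ^ (W.1 + 3)) M η S) ≤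
      ENNReal.ofReal (r * M) * P1 μ N y F + ENNReal.ofReal p

/-- The windows of `NTb`. -/
def WHd (N t τ k₀ : ℕ) (n1 : ℕ → ℕ) (e0 E Hd b : ℕ) : Finset (ℕ × ℕ × Finset ℕ) :=
  (Wd N t τ k₀ n1 e0 E b).filter fun p => ∀ i ∈ p.2.2, za t τ b ≤ i + Hd ∧ i ≤ za t τ b + Hd

theorem NTb_eq (N t τ k₀ : ℕ) (n1 : ℕ → ℕ) (e0 E H Hd : ℕ) (M : ℝ) (b : ℕ) :
    NTb μ N t τ k₀ n1 e0 E H Hd M b = Pool.Agent.W_7d29a1_Z49.NPl μ N H M (WHd N t τ k₀ n1 e0 E Hd b) := by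
  ext q
  simp only [NTb, WHd, Pool.Agent.W_7d29a1_Z49.NPl, Pool.Agent.W_7d29a1_Z49.NTp, Finset.mem_filter, Set.mem_ofPred_eq,
    and_assoc]

theorem ntb_tieA [IsProbabilityMeasure μ] {N : ℕ} {y : ℤ} {t τ k₀ : ℕ} {n1 : ℕ → ℕ} {e0 E : ℕ}
    {r p : ℝ} (hr : 0 ≤ r) (hp : 0 ≤ p) (hT : TieIn μ N y t τ k₀ n1 e0 E r p) {b X : ℕ}
    (hX : (Wd N t τ k₀ n1 e0 E b).card ≤ X) (H Hd : ℕ) {M : ℝ} (hM : 1 ≤ M) {F : Set (Env × Finset ℕ)}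
    (hF : F ∈ Pool.Agent.W_7d29a1_Z49.Adm (WHd N t τ k₀ n1 e0 E Hd b)) :
    (sp1 μ N y).pr (F ∩ NTb μ N t τ k₀ n1 e0 E H Hd M b) ≤ X * (r * M) * (sp1 μ N y).pr F + X * p := by
  rw [NTb_eq]
  exact Pool.Agent.W_7d29a1_Z49.tie_place hp (by positivity) ((Finset.card_filter_le _ _).trans hX)
    (fun q hq A hA hoffA => hT b q (Finset.mem_filter.1 hq).1 H M hM A hA hoffA) hF

/-- One place: union over the windows. -/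
theorem ntb_tie [IsProbabilityMeasure μ] {N : ℕ} {y : ℤ} (h0 : 0 ≤ y) (h1 : y ≤ N) {t τ k₀ : ℕ} {n1 : ℕ → ℕ} {e0 E : ℕ}
    {r p : ℝ} (hr : 0 ≤ r) (hp : 0 ≤ p) (hT : TieIn μ N y t τ k₀ n1 e0 E r p) {b X : ℕ}
    (hX : (Wd N t τ k₀ n1 e0 E b).card ≤ X) (H Hd : ℕ) {M : ℝ} (hM : 1 ≤ M) {F : Set (Env × Finset ℕ)}
    (hF : Ms fun η S => (η, S) ∈ F)
    (hoff : ∀ W ∈ Wd N t τ k₀ n1 e0 E b, (∀ i ∈ W.2.2, za t τ b ≤ i + Hd ∧ i ≤ za t τ b + Hd) →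
      OffRows W.2.2 fun η S => (η, S) ∈ F) :
    (sp1 μ N y).pr (F ∩ NTb μ N t τ k₀ n1 e0 E H Hd M b) ≤ X * (r * M) * (sp1 μ N y).pr F + X * p :=
  ntb_tieA hr hp hT hX H Hd hM ⟨hF, fun q hq => hoff q (Finset.mem_filter.1 hq).1 (Finset.mem_filter.1 hq).2⟩

/-- Field `hcount`: the number of nearly tied places `k₀ + u st`, `u < U`, brackets and windows within
`H = 2 t (2 ^ (j + 1) + 1)`. -/
theorem count_places [IsProbabilityMeasure μ] {N : ℕ} {y : ℤ} (h0 : 0 ≤ y) (h1 : y ≤ N) {t τ k₀ : ℕ} {n1 : ℕ → ℕ}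
    {e0 E : ℕ} {r p : ℝ} (hr : 0 ≤ r) (hp : 0 ≤ p) (hT : TieIn μ N y t τ k₀ n1 e0 E r p) {X : ℕ}
    (hX : ∀ b, (Wd N t τ k₀ n1 e0 E b).card ≤ X) (j U N₀ : ℕ) (hN₀ : 1 ≤ N₀) {M Λ : ℝ} (hM : 1 ≤ M) (hΛ : 1 ≤ Λ) :
    (sp1 μ N y).pr {q | 4 * (N₀ : ℝ) * (10 : ℕ) * (X * (r * M) * Λ * U + 1) < (Set.ncard {u | u < U ∧
        q ∈ NTb μ N t τ k₀ n1 e0 E (2 * t * (2 ^ (j + 1) + 1)) (2 * t * (2 ^ (j + 1) + 1)) M
          (k₀ + u * Pool.Agent.W_7d29a1_Z86.st j)} : ℝ)} ≤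
      (10 : ℕ) * (2 * ((U : ℝ) + 1) * ((1 / Λ) ^ N₀ + (U : ℝ) ^ N₀ * (N₀ * (X * p)))) := by
  have hsep : ∀ u u' : ℕ, (u + 2 * 10 ≤ u' ∨ u' + 2 * 10 ≤ u) →
      ∀ p ∈ WHd N t τ k₀ n1 e0 E (2 * t * (2 ^ (j + 1) + 1)) (k₀ + u * Pool.Agent.W_7d29a1_Z86.st j),
      ∀ q ∈ WHd N t τ k₀ n1 e0 E (2 * t * (2 ^ (j + 1) + 1)) (k₀ + u' * Pool.Agent.W_7d29a1_Z86.st j),
      ∀ i ∈ q.2.2, ∀ i' ∈ p.2.2, i + 2 * (2 * t * (2 ^ (j + 1) + 1)) ≤ i' ∨ i' + 2 * (2 * t * (2 ^ (j + 1) + 1)) ≤ i := by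
    intro u u' h p hp q hq i hi i' hi'
    have h1 := (Finset.mem_filter.1 hp).2 i' hi'
    have h2 := (Finset.mem_filter.1 hq).2 i hi
    have h3 : 2 * t * (2 ^ (j + 1) + 1) ≤ 10 * (t * Pool.Agent.W_7d29a1_Z86.st j) := Pool.Agent.W_7d29a1_Z49.Hj_le t j
    have e1 : ∀ w : ℕ, za t τ (k₀ + w * Pool.Agent.W_7d29a1_Z86.st j) =
        τ + 2 * (t * k₀) + 2 * (w * (t * Pool.Agent.W_7d29a1_Z86.st j)) := by
      intro w; unfold za; ring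
    rw [e1] at h1 h2
    generalize t * Pool.Agent.W_7d29a1_Z86.st j = x at *
    generalize 2 * t * (2 ^ (j + 1) + 1) = Hh at *
    rcases h with h | h
    · right
      obtain ⟨d, rfl⟩ : ∃ d, u' = u + 20 + d := ⟨u' - (u + 20), by omega⟩
      have h4 : (u + 20 + d) * x = u * x + 20 * x + d * x := by ring
      rw [h4] at h2
      have := Nat.zero_le (d * x)
      omega
    · left
      obtain ⟨d, rfl⟩ : ∃ d, u = u' + 20 + d := ⟨u - (u' + 20), by omega⟩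
      have h4 : (u' + 20 + d) * x = u' * x + 20 * x + d * x := by ring
      rw [h4] at h1
      have := Nat.zero_le (d * x)
      omega
  refine Num72.countR (sp1 μ N y) (fun u => NTb μ N t τ k₀ n1 e0 E (2 * t * (2 ^ (j + 1) + 1))
    (2 * t * (2 ^ (j + 1) + 1)) M (k₀ + u * Pool.Agent.W_7d29a1_Z86.st j)) U N₀ 10 hN₀ (by norm_num)
    (fun u => Pool.Agent.W_7d29a1_Z49.Adm (WHd N t τ k₀ n1 e0 E (2 * t * (2 ^ (j + 1) + 1))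
      (k₀ + u * Pool.Agent.W_7d29a1_Z86.st j)))
    (fun u _ => Pool.Agent.W_7d29a1_Z49.adm_univ _) (fun u _ A B hA hB => Pool.Agent.W_7d29a1_Z49.adm_inter _ A B hA hB)
    (fun u _ u' _ h => ?_) (by positivity) (by positivity) hΛ
    (fun u _ A hA => ntb_tieA hr hp hT (hX _) _ _ hM hA)
  rw [NTb_eq]
  refine Pool.Agent.W_7d29a1_Z49.adm_NPl (fun q hq => ?_) (hsep u u' h)
  exact ⟨_, (Pool.Agent.W_7d29a1_Z86.mem_Wd.1 (Finset.mem_filter.1 hq).1).2.2.2.1⟩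

end Pool.Agent.W_7d29a1_Z.R72
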