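import Pool.Agent.W_7d29a1_Z10.AlgP

/-!
# STORM Z: from the analytic step to the step of exponents (lattice version)

`Good t z A δ` : at the scale `t` there is a deterministic pattern of `z` unit shears in the core
whose response is at most `A` off an event of probability `δ` (opaque here).
`AStep` : the analytic step (sampling of `n` blocks of length `t` in a block of length `R`).
`PP` : the pattern property with exponent `σ`.
`stepP_of` : `AStep`, `EWP` and the strict Newman - Piza relation give `StepP w (PP Good)`.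
(helper81)
-/

set_option autoImplicit false

namespace W_7d29a1_Z.Step81

open Filter Topology Real Pool.Agent.W_7d29a1_Z10

/-- the pattern property -/
def PP (Good : ℕ → ℕ → ℝ → ℝ → Prop) (σ : ℝ) : Prop :=
  ∀ ε : ℝ, 0 < ε → ∀ q : ℝ, ∀ᶠ t : ℕ in atTop, ∃ z : ℕ, 1 ≤ z ∧
    (t : ℝ) ^ (2 * σ - ε) ≤ z ∧ (z : ℝ) ≤ (t : ℝ) ^ (2 * σ) ∧
    Good t z ((t : ℝ) ^ (σ + ε)) ((t : ℝ) ^ (-q))

/-- the analytic step -/
def AStep (Good : ℕ → ℕ → ℝ → ℝ → Prop) (w E : ℕ → ℝ) : Prop :=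
  ∀ b ε q : ℝ, 0 < b → b < 1 → 0 < ε → ∃ q' : ℝ, 0 ≤ q' ∧ ∀ᶠ R : ℕ in atTop,
    ∀ t z n : ℕ, ∀ A : ℝ,
    (R : ℝ) ^ b ≤ t → (t : ℝ) ≤ 2 * (R : ℝ) ^ b → 1 ≤ z → 1 ≤ n → 1 ≤ A →
    (R : ℝ) ^ ε * (n * t) ≤ R →
    (R : ℝ) ^ ε * (n * z) ≤ w R →
    (R : ℝ) ^ ε * z ≤ A * ((w t / t) ^ (1 / 2 : ℝ) * w t) →
    Good t z A ((R : ℝ) ^ (-q')) →
    Good R (n * z) ((R : ℝ) ^ ε * (n * t / R * (E R + ((R / t : ℝ) ^ (1 / 2 : ℝ) * A +
      R / t * (w t / t) ^ (1 / 2 : ℝ) * A ^ 2)) + (n : ℝ) ^ (1 / 2 : ℝ) * A)) ((R : ℝ) ^ (-q))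

/-- a constant times a smaller power is eventually below -/
theorem ev_const {C a b : ℝ} (hab : a < b) : ∀ᶠ n : ℕ in atTop, C * (n : ℝ) ^ a ≤ (n : ℝ) ^ b := by
  have ht : Tendsto (fun R : ℕ => (R : ℝ) ^ (b - a)) atTop atTop :=
    (tendsto_rpow_atTop (by linarith)).comp tendsto_natCast_atTop_atTop
  filter_upwards [ht.eventually_ge_atTop C, eventually_ge_atTop 1] with n hn hn1
  have h0 : (0 : ℝ) < n := by exact_mod_cast hn1
  calc C * (n : ℝ) ^ a ≤ (n : ℝ) ^ (b - a) * (n : ℝ) ^ a :=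
        mul_le_mul_of_nonneg_right hn (rpow_nonneg h0.le _)
    _ = (n : ℝ) ^ b := by rw [← rpow_add h0]; congr 1; ring

/-- upper bound of the energy -/
theorem E_up {w E : ℕ → ℝ} {P : ℝ → Prop} (hEW : EWP w E P) (hw : ∀ n, 0 ≤ w n) {ν σ ε : ℝ}
    (hσ : 0 ≤ σ) (hσ4 : σ < 1 / 4) (h2 : 2 * σ ≤ ν) (hP : P σ) (hε : 0 < ε)
    (hν : ∀ᶠ n : ℕ in atTop, w n ≤ (n : ℝ) ^ ν) :
    ∀ᶠ n : ℕ in atTop, E n ≤ (n : ℝ) ^ (ν - σ + ε) := by
  filter_upwards [hEW σ hσ hσ4 hP (ε / 2) (by linarith), hν, eventually_ge_atTop 1,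
    ev_const (C := 2) (a := ν - σ + ε / 2) (b := ν - σ + ε) (by linarith)] with n h1 h3 h4 h5
  have hn1 : (1 : ℝ) ≤ n := by exact_mod_cast h4
  have hn0 : (0 : ℝ) < n := by linarith
  have e1 : w n ^ (1 / 2 : ℝ) ≤ (n : ℝ) ^ (ν - σ) := by
    calc w n ^ (1 / 2 : ℝ) ≤ ((n : ℝ) ^ ν) ^ (1 / 2 : ℝ) := rpow_le_rpow (hw n) h3 (by norm_num)
      _ = (n : ℝ) ^ (ν * (1 / 2)) := by rw [← rpow_mul hn0.le]
      _ ≤ _ := rpow_le_rpow_of_exponent_le hn1 (by linarith)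
  have e2 : w n * (n : ℝ) ^ (-σ) ≤ (n : ℝ) ^ (ν - σ) := by
    calc w n * (n : ℝ) ^ (-σ) ≤ (n : ℝ) ^ ν * (n : ℝ) ^ (-σ) :=
          mul_le_mul_of_nonneg_right h3 (rpow_nonneg hn0.le _)
      _ = _ := by rw [← rpow_add hn0]; congr 1
  calc E n ≤ (n : ℝ) ^ (ε / 2) * (w n ^ (1 / 2 : ℝ) + w n * (n : ℝ) ^ (-σ)) := h1
    _ ≤ (n : ℝ) ^ (ε / 2) * ((n : ℝ) ^ (ν - σ) + (n : ℝ) ^ (ν - σ)) :=
        mul_le_mul_of_nonneg_left (add_le_add e1 e2) (rpow_nonneg hn0.le _)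
    _ = 2 * (n : ℝ) ^ (ν - σ + ε / 2) := by
        rw [rpow_add hn0 (ν - σ)]; ring
    _ ≤ _ := h5

/-- either the square root branch or the linear branch -/
theorem E_branch {w E : ℕ → ℝ} {P : ℝ → Prop} (hEW : EWP w E P) (hw : ∀ n, 0 ≤ w n)
    (hE : ∀ n, 0 ≤ E n) {c σ ε : ℝ} (hσ : 0 ≤ σ) (hσ4 : σ < 1 / 4) (hP : P σ) (hε : 0 < ε)
    (hNP : ∀ᶠ n : ℕ in atTop, (n : ℝ) ^ (1 + c) ≤ w n * E n ^ 2) :
    ∀ᶠ n : ℕ in atTop, 0 < w n ∧ 0 < E n ∧
      ((n : ℝ) ^ (1 + c - ε) ≤ w n ^ 2 ∨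
        ((n : ℝ) ^ (σ - ε) * E n ≤ w n ∧ (n : ℝ) ^ (1 + c + 2 * σ - 2 * ε) ≤ w n ^ 3)) := by
  filter_upwards [hEW σ hσ hσ4 hP (ε / 4) (by linarith), hNP, eventually_ge_atTop 1,
    ev_const (C := 4) (a := -ε) (b := -(ε / 2)) (by linarith)] with n h1 h2 h3 h4
  have hn1 : (1 : ℝ) ≤ n := by exact_mod_cast h3
  have hn0 : (0 : ℝ) < n := by linarith
  have hpos : 0 < w n * E n ^ 2 := lt_of_lt_of_le (rpow_pos_of_pos hn0 _) h2
  have hw0 : 0 < w n := by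
    rcases (hw n).lt_or_eq with h | h
    · exact h
    · rw [← h] at hpos; simp at hpos
  have hE0 : 0 < E n := by
    rcases (hE n).lt_or_eq with h | h
    · exact h
    · rw [← h] at hpos; simp at hpos
  refine ⟨hw0, hE0, ?_⟩
  have hc4 : 4 * (n : ℝ) ^ (ε / 2) ≤ (n : ℝ) ^ ε := by
    have := mul_le_mul_of_nonneg_right h4 (rpow_nonneg hn0.le (ε + ε / 2))
    have e1 : 4 * (n : ℝ) ^ (-ε) * (n : ℝ) ^ (ε + ε / 2) = 4 * (n : ℝ) ^ (ε / 2) := by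
      rw [mul_assoc, ← rpow_add hn0]; congr 2; ring
    have e2 : (n : ℝ) ^ (-(ε / 2)) * (n : ℝ) ^ (ε + ε / 2) = (n : ℝ) ^ ε := by
      rw [← rpow_add hn0]; congr 1; ring
    rw [e1, e2] at this
    exact this
  have hc2 : 2 * (n : ℝ) ^ (ε / 4) ≤ (n : ℝ) ^ (ε / 2) := by
    have e1 : (2 * (n : ℝ) ^ (ε / 4)) ^ 2 = 4 * (n : ℝ) ^ (ε / 2) := by
      rw [mul_pow, ← rpow_natCast ((n : ℝ) ^ (ε / 4)) 2, ← rpow_mul hn0.le]
      push_cast
      norm_num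
      congr 1; ring
    have e2 : ((n : ℝ) ^ (ε / 2)) ^ 2 = (n : ℝ) ^ ε := by
      rw [← rpow_natCast ((n : ℝ) ^ (ε / 2)) 2, ← rpow_mul hn0.le]
      push_cast
      congr 1; ring
    exact le_of_sq_le_sq (by rw [e1, e2]; exact hc4) (rpow_nonneg hn0.le _)
  rcases le_total (w n * (n : ℝ) ^ (-σ)) (w n ^ (1 / 2 : ℝ)) with hb | hb
  · left
    have hE1 : E n ≤ (n : ℝ) ^ (ε / 2) * w n ^ (1 / 2 : ℝ) := by
      calc E n ≤ (n : ℝ) ^ (ε / 4) * (w n ^ (1 / 2 : ℝ) + w n * (n : ℝ) ^ (-σ)) := h1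
        _ ≤ (n : ℝ) ^ (ε / 4) * (w n ^ (1 / 2 : ℝ) + w n ^ (1 / 2 : ℝ)) :=
            mul_le_mul_of_nonneg_left (by linarith) (rpow_nonneg hn0.le _)
        _ = 2 * (n : ℝ) ^ (ε / 4) * w n ^ (1 / 2 : ℝ) := by ring
        _ ≤ _ := mul_le_mul_of_nonneg_right hc2 (rpow_nonneg (hw n) _)
    have hE2 : E n ^ 2 ≤ (n : ℝ) ^ ε * w n := by
      calc E n ^ 2 ≤ ((n : ℝ) ^ (ε / 2) * w n ^ (1 / 2 : ℝ)) ^ 2 := pow_le_pow_left₀ hE0.le hE1 2
        _ = ((n : ℝ) ^ (ε / 2)) ^ 2 * (w n ^ (1 / 2 : ℝ)) ^ 2 := by rw [mul_pow]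
        _ = _ := by
            rw [← rpow_natCast ((n : ℝ) ^ (ε / 2)) 2, ← rpow_mul hn0.le,
              ← rpow_natCast (w n ^ (1 / 2 : ℝ)) 2, ← rpow_mul (hw n)]
            push_cast
            norm_num
    have h5 : (n : ℝ) ^ (1 + c) ≤ (n : ℝ) ^ ε * w n ^ 2 := by
      calc (n : ℝ) ^ (1 + c) ≤ w n * E n ^ 2 := h2
        _ ≤ w n * ((n : ℝ) ^ ε * w n) := mul_le_mul_of_nonneg_left hE2 (hw n)
        _ = _ := by ring
    have e : (n : ℝ) ^ (1 + c) = (n : ℝ) ^ ε * (n : ℝ) ^ (1 + c - ε) := by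
      rw [← rpow_add hn0]; congr 1; ring
    rw [e] at h5
    exact le_of_mul_le_mul_left h5 (rpow_pos_of_pos hn0 _)
  · right
    have hE1 : E n ≤ (n : ℝ) ^ (ε / 2) * (w n * (n : ℝ) ^ (-σ)) := by
      calc E n ≤ (n : ℝ) ^ (ε / 4) * (w n ^ (1 / 2 : ℝ) + w n * (n : ℝ) ^ (-σ)) := h1
        _ ≤ (n : ℝ) ^ (ε / 4) * (w n * (n : ℝ) ^ (-σ) + w n * (n : ℝ) ^ (-σ)) :=
            mul_le_mul_of_nonneg_left (by linarith) (rpow_nonneg hn0.le _)
        _ = 2 * (n : ℝ) ^ (ε / 4) * (w n * (n : ℝ) ^ (-σ)) := by ring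
        _ ≤ _ := mul_le_mul_of_nonneg_right hc2 (mul_nonneg (hw n) (rpow_nonneg hn0.le _))
    have hE3 : (n : ℝ) ^ (σ - ε / 2) * E n ≤ w n := by
      calc (n : ℝ) ^ (σ - ε / 2) * E n
          ≤ (n : ℝ) ^ (σ - ε / 2) * ((n : ℝ) ^ (ε / 2) * (w n * (n : ℝ) ^ (-σ))) :=
            mul_le_mul_of_nonneg_left hE1 (rpow_nonneg hn0.le _)
        _ = w n * ((n : ℝ) ^ (σ - ε / 2) * (n : ℝ) ^ (ε / 2) * (n : ℝ) ^ (-σ)) := by ring
        _ = w n := by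
            rw [← rpow_add hn0, ← rpow_add hn0]
            have : σ - ε / 2 + ε / 2 + -σ = 0 := by ring
            rw [this, rpow_zero, mul_one]
    refine ⟨?_, ?_⟩
    · refine le_trans ?_ hE3
      exact mul_le_mul_of_nonneg_right (rpow_le_rpow_of_exponent_le hn1 (by linarith)) hE0.le
    · have h6 : ((n : ℝ) ^ (σ - ε / 2) * E n) ^ 2 ≤ w n ^ 2 :=
        pow_le_pow_left₀ (mul_nonneg (rpow_nonneg hn0.le _) hE0.le) hE3 2
      have h7 : (n : ℝ) ^ (1 + c) * ((n : ℝ) ^ (σ - ε / 2)) ^ 2 ≤ w n ^ 3 := by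
        calc (n : ℝ) ^ (1 + c) * ((n : ℝ) ^ (σ - ε / 2)) ^ 2
            ≤ w n * E n ^ 2 * ((n : ℝ) ^ (σ - ε / 2)) ^ 2 :=
              mul_le_mul_of_nonneg_right h2 (sq_nonneg _)
          _ = w n * ((n : ℝ) ^ (σ - ε / 2) * E n) ^ 2 := by ring
          _ ≤ w n * w n ^ 2 := mul_le_mul_of_nonneg_left h6 (hw n)
          _ = w n ^ 3 := by ring
      refine le_trans ?_ h7
      rw [← rpow_natCast ((n : ℝ) ^ (σ - ε / 2)) 2, ← rpow_mul hn0.le, ← rpow_add hn0]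
      push_cast
      exact rpow_le_rpow_of_exponent_le hn1 (by linarith)

/-- levels stay inside the cone -/
theorem L1 {w E : ℕ → ℝ} {P : ℝ → Prop} (hEW : EWP w E P) (hw : ∀ n, 0 ≤ w n)
    (hE : ∀ n, 0 ≤ E n) {c σ : ℝ} (hc : 0 < c) (hσ : 0 ≤ σ) (hσ4 : σ < 1 / 4) (hP : P σ)
    (hNP : ∀ᶠ n : ℕ in atTop, (n : ℝ) ^ (1 + c) ≤ w n * E n ^ 2) :
    ∀ᶠ n : ℕ in atTop, (n : ℝ) ^ (σ + c / 8) ≤ (w n / n) ^ (1 / 2 : ℝ) * w n := by
  filter_upwards [E_branch hEW hw hE hσ hσ4 hP (ε := c / 8) (by linarith) hNP,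
    eventually_ge_atTop 1] with n h1 h3
  obtain ⟨hw0, _, hbr⟩ := h1
  have hn1 : (1 : ℝ) ≤ n := by exact_mod_cast h3
  have hn0 : (0 : ℝ) < n := by linarith
  have hcube : (n : ℝ) ^ (1 + 2 * σ + c / 4) ≤ w n ^ 3 := by
    rcases hbr with h | ⟨_, h⟩
    · have h4 : ((n : ℝ) ^ (1 + c - c / 8)) ^ (3 / 2 : ℝ) ≤ (w n ^ 2) ^ (3 / 2 : ℝ) :=
        rpow_le_rpow (rpow_nonneg hn0.le _) h (by norm_num)
      have e1 : (w n ^ 2) ^ (3 / 2 : ℝ) = w n ^ 3 := by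
        rw [← rpow_natCast (w n) 2, ← rpow_mul hw0.le, ← rpow_natCast (w n) 3]
        congr 1; norm_num
      rw [e1, ← rpow_mul hn0.le] at h4
      exact (rpow_le_rpow_of_exponent_le hn1 (by linarith)).trans h4
    · exact (rpow_le_rpow_of_exponent_le hn1 (by linarith)).trans h
  have hsq : ((n : ℝ) ^ (σ + c / 8)) ^ 2 ≤ ((w n / n) ^ (1 / 2 : ℝ) * w n) ^ 2 := by
    have e1 : ((w n / n) ^ (1 / 2 : ℝ) * w n) ^ 2 = w n ^ 3 / n := by
      rw [mul_pow, ← rpow_natCast ((w n / n) ^ (1 / 2 : ℝ)) 2,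
        ← rpow_mul (div_nonneg hw0.le hn0.le)]
      norm_num
      ring
    have e2 : ((n : ℝ) ^ (σ + c / 8)) ^ 2 = (n : ℝ) ^ (1 + 2 * σ + c / 4) / n := by
      rw [← rpow_natCast ((n : ℝ) ^ (σ + c / 8)) 2, ← rpow_mul hn0.le]
      rw [eq_div_iff hn0.ne', ← rpow_add_one hn0.ne']
      push_cast
      congr 1; ring
    rw [e1, e2]
    exact div_le_div_of_nonneg_right hcube hn0.le
  exact le_of_sq_le_sq hsq (mul_nonneg (rpow_nonneg (div_nonneg hw0.le hn0.le) _) hw0.le)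

/-- lower bound of the width -/
theorem L2 {w E : ℕ → ℝ} {P : ℝ → Prop} (hEW : EWP w E P) (hw : ∀ n, 0 ≤ w n)
    (hE : ∀ n, 0 ≤ E n) {c σ ν θ : ℝ} (hc : 0 < c) (hσ : 0 ≤ σ) (hσ4 : σ < 1 / 4) (hP : P σ)
    (hNP : ∀ᶠ n : ℕ in atTop, (n : ℝ) ^ (1 + c) ≤ w n * E n ^ 2)
    (hν : ∀ᶠ n : ℕ in atTop, w n ≤ (n : ℝ) ^ ν)
    (h1 : θ ≤ 1 / 2 + c / 4) (h2 : θ ≤ σ + (1 - ν) / 2 + c / 4) :
    ∀ᶠ n : ℕ in atTop, (n : ℝ) ^ θ ≤ w n := by
  filter_upwards [E_branch hEW hw hE hσ hσ4 hP (ε := c / 8) (by linarith) hNP, hNP, hν,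
    eventually_ge_atTop 1] with n h3 h4 h5 h6
  obtain ⟨hw0, hE0, hbr⟩ := h3
  have hn1 : (1 : ℝ) ≤ n := by exact_mod_cast h6
  have hn0 : (0 : ℝ) < n := by linarith
  rcases hbr with h | ⟨h, _⟩
  · have h7 : ((n : ℝ) ^ θ) ^ 2 ≤ w n ^ 2 := by
      refine le_trans ?_ h
      rw [← rpow_natCast ((n : ℝ) ^ θ) 2, ← rpow_mul hn0.le]
      push_cast
      exact rpow_le_rpow_of_exponent_le hn1 (by linarith)
    exact le_of_sq_le_sq h7 hw0.le
  · have h8 : ((n : ℝ) ^ ((1 + c - ν) / 2)) ^ 2 ≤ E n ^ 2 := by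
      have e1 : ((n : ℝ) ^ ((1 + c - ν) / 2)) ^ 2 = (n : ℝ) ^ (1 + c) * (n : ℝ) ^ (-ν) := by
        rw [← rpow_natCast ((n : ℝ) ^ ((1 + c - ν) / 2)) 2, ← rpow_mul hn0.le, ← rpow_add hn0]
        push_cast
        congr 1; ring
      rw [e1]
      calc (n : ℝ) ^ (1 + c) * (n : ℝ) ^ (-ν) ≤ w n * E n ^ 2 * (n : ℝ) ^ (-ν) :=
            mul_le_mul_of_nonneg_right h4 (rpow_nonneg hn0.le _)
        _ ≤ (n : ℝ) ^ ν * E n ^ 2 * (n : ℝ) ^ (-ν) :=
            mul_le_mul_of_nonneg_right (mul_le_mul_of_nonneg_right h5 (sq_nonneg _))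
              (rpow_nonneg hn0.le _)
        _ = E n ^ 2 * ((n : ℝ) ^ ν * (n : ℝ) ^ (-ν)) := by ring
        _ = E n ^ 2 := by rw [← rpow_add hn0]; simp
    have h9 : (n : ℝ) ^ ((1 + c - ν) / 2) ≤ E n := le_of_sq_le_sq h8 hE0.le
    calc (n : ℝ) ^ θ ≤ (n : ℝ) ^ ((σ - c / 8) + (1 + c - ν) / 2) :=
          rpow_le_rpow_of_exponent_le hn1 (by linarith)
      _ = (n : ℝ) ^ (σ - c / 8) * (n : ℝ) ^ ((1 + c - ν) / 2) := rpow_add hn0 _ _
      _ ≤ (n : ℝ) ^ (σ - c / 8) * E n := mul_le_mul_of_nonneg_left h9 (rpow_nonneg hn0.le _)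
      _ ≤ w n := h

/-- **the step of exponents from the analytic step** -/
theorem stepP_of {Good : ℕ → ℕ → ℝ → ℝ → Prop} {w E : ℕ → ℝ} (hw : ∀ n, 0 ≤ w n)
    (hE : ∀ n, 0 ≤ E n)
    (hmono : ∀ (t z : ℕ) (A A' δ δ' : ℝ), A ≤ A' → δ ≤ δ' → Good t z A δ → Good t z A' δ')
    (hA : AStep Good w E) (hEW : EWP w E (PP Good)) {c : ℝ} (hc : 0 < c)
    (hNP : ∀ᶠ n : ℕ in atTop, (n : ℝ) ^ (1 + c) ≤ w n * E n ^ 2) : StepP w (PP Good) := by
  intro ν b σ σ' hb0 hb1 hσ hσσ h2σ hP hν c1 c2 c3 c4 c5 ε hε q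
  have hν1 : ν < 1 := by
    by_contra h
    push Not at h
    have : b * ((1 - ν) / 2) ≤ 0 := mul_nonpos_of_nonneg_of_nonpos hb0.le (by linarith)
    linarith
  have hσ4 : σ < 1 / 4 := by linarith
  obtain ⟨e, he0, h1, h2, h3, h4, h5, h6⟩ : ∃ e : ℝ, 0 < e ∧
      100 * e ≤ 1 - ν + σ - b * (1 - 2 * σ) - σ' ∧
      100 * e ≤ b * ((1 - ν) / 2) - σ' ∧ 100 * e ≤ (σ + (1 - ν) / 2) / 2 - σ' ∧
      100 * e ≤ b * σ + (1 - b) / 2 - σ' ∧ 100 * e ≤ ε ∧ 100 * e ≤ c * b := by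
    set m := min (min (1 - ν + σ - b * (1 - 2 * σ) - σ') (b * ((1 - ν) / 2) - σ'))
      (min (min ((σ + (1 - ν) / 2) / 2 - σ') (b * σ + (1 - b) / 2 - σ')) (min ε (c * b)))
      with hm
    have hm0 : 0 < m := by
      rw [hm]
      refine lt_min (lt_min (by linarith) (by linarith))
        (lt_min (lt_min (by linarith) (by linarith)) (lt_min hε (mul_pos hc hb0)))
    refine ⟨m / 100, by positivity, ?_, ?_, ?_, ?_, ?_, ?_⟩ <;> rw [mul_div_cancel₀ _ (by norm_num)]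
    · exact (min_le_left _ _).trans (min_le_left _ _)
    · exact (min_le_left _ _).trans (min_le_right _ _)
    · exact (min_le_right _ _).trans ((min_le_left _ _).trans (min_le_left _ _))
    · exact (min_le_right _ _).trans ((min_le_left _ _).trans (min_le_right _ _))
    · exact (min_le_right _ _).trans ((min_le_right _ _).trans (min_le_left _ _))
    · exact (min_le_right _ _).trans ((min_le_right _ _).trans (min_le_right _ _))
  have hec : 100 * e ≤ c := h6.trans (by nlinarith)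
  obtain ⟨q', hq', hAR⟩ := hA b e q hb0 hb1 he0
  have hPe := hP e he0 (q' / b)
  obtain ⟨T0, hT0⟩ := eventually_atTop.1 ((hPe.and (L1 hEW hw hE hc hσ hσ4 hP hNP)).and
    (hν.and (E_branch hEW hw hE hσ hσ4 hP hc hNP)))
  have htb : Tendsto (fun R : ℕ => (R : ℝ) ^ b) atTop atTop :=
    (tendsto_rpow_atTop hb0).comp tendsto_natCast_atTop_atTop
  have hlog : Tendsto (fun R : ℕ => Real.log (R : ℝ)) atTop atTop :=
    Real.tendsto_log_atTop.comp tendsto_natCast_atTop_atTop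
  filter_upwards [hAR, htb.eventually_ge_atTop (T0 : ℝ), eventually_ge_atTop 1,
    E_up hEW hw hσ hσ4 h2σ hP he0 hν,
    L2 hEW hw hE (θ := 2 * σ' + e) hc hσ hσ4 hP hNP hν (by linarith) (by linarith),
    hlog.eventually_ge_atTop (10 / e + 10 / (σ' - σ))] with R hAR' hTR hR1 hER hwR hρbig
  have hR1' : (1 : ℝ) ≤ R := by exact_mod_cast hR1
  have hR0 : (0 : ℝ) < R := by linarith
  set ρ : ℝ := Real.log (R : ℝ) with hρ
  have hσσ' : 0 < σ' - σ := by linarith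
  have hρe : 10 ≤ e * ρ := by
    have h7 : 10 / e ≤ ρ := le_trans (by
      have : 0 < 10 / (σ' - σ) := by positivity
      linarith) hρbig
    rw [div_le_iff₀ he0] at h7; linarith
  have hρs : 10 ≤ (σ' - σ) * ρ := by
    have h7 : 10 / (σ' - σ) ≤ ρ := le_trans (by
      have : 0 < 10 / e := by positivity
      linarith) hρbig
    rw [div_le_iff₀ hσσ'] at h7; linarith
  have hρ0 : 0 < ρ := by
    by_contra h
    push Not at h
    have := mul_nonpos_of_nonneg_of_nonpos he0.le h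
    linarith
  obtain ⟨t, ht1, htR, htb1, htb2⟩ := exists_t hb0.le hb1.le hR1
  have ht1' : (1 : ℝ) ≤ t := by exact_mod_cast ht1
  have ht0 : (0 : ℝ) < t := by linarith
  have hT0t : T0 ≤ t := by exact_mod_cast hTR.trans htb1
  obtain ⟨⟨⟨z, hz1, hz2, hz3, hgood⟩, hL1⟩, hwt, hwt0, _, _⟩ := hT0 t hT0t
  have hz1' : (1 : ℝ) ≤ z := by exact_mod_cast hz1
  have hz0 : (0 : ℝ) < z := by linarith
  -- logarithms
  set τ : ℝ := Real.log (t : ℝ) with hτ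
  set ζ : ℝ := Real.log (z : ℝ) with hζ
  have hl2 : Real.log 2 ≤ 1 := by
    have := Real.log_two_lt_d9
    linarith
  have hl20 : 0 ≤ Real.log 2 := Real.log_nonneg (by norm_num)
  have F1 : b * ρ ≤ τ := by
    have := Real.log_le_log (rpow_pos_of_pos hR0 _) htb1
    rwa [Real.log_rpow hR0] at this
  have F2 : τ ≤ b * ρ + Real.log 2 := by
    have := Real.log_le_log ht0 htb2
    rw [Real.log_mul (by norm_num) (rpow_pos_of_pos hR0 _).ne', Real.log_rpow hR0] at this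
    linarith
  have Z1 : (2 * σ - e) * τ ≤ ζ := by
    have := Real.log_le_log (rpow_pos_of_pos ht0 _) hz2
    rwa [Real.log_rpow ht0] at this
  have Z2 : ζ ≤ 2 * σ * τ := by
    have := Real.log_le_log hz0 hz3
    rwa [Real.log_rpow ht0] at this
  have W1 : Real.log (w t) ≤ ν * τ := by
    have := Real.log_le_log hwt0 hwt
    rwa [Real.log_rpow ht0] at this
  have hτ0 : 0 ≤ τ := Real.log_nonneg ht1'
  have hbρ : b * ρ ≤ ρ := by nlinarith
  -- products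
  have G1 : σ * (b * ρ) ≤ σ * τ := mul_le_mul_of_nonneg_left F1 hσ
  have G2 : σ * τ ≤ σ * (b * ρ) + 1 := by
    have := mul_le_mul_of_nonneg_left F2 hσ
    have h7 : σ * Real.log 2 ≤ 1 * 1 := mul_le_mul (by linarith) hl2 hl20 (by norm_num)
    linarith
  have G3 : 0 ≤ e * τ := mul_nonneg he0.le hτ0
  have he1 : e ≤ 1 := by nlinarith
  have G4 : e * τ ≤ e * ρ + 1 := by
    have h7 := mul_le_mul_of_nonneg_left F2 he0.le
    have h8 := mul_le_mul_of_nonneg_left hbρ he0.le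
    have h9 : e * Real.log 2 ≤ 1 * 1 := mul_le_mul he1 hl2 hl20 (by norm_num)
    linarith
  -- the number of blocks
  set x : ℝ := (R : ℝ) ^ (2 * σ') / z with hx
  have hx1 : 1 ≤ x := by
    rw [hx, one_le_div hz0]
    refine (Real.log_le_log_iff hz0 (rpow_pos_of_pos hR0 _)).1 ?_
    rw [Real.log_rpow hR0]
    have h7 : σ * (b * ρ) ≤ σ * ρ := mul_le_mul_of_nonneg_left hbρ hσ
    have : 2 * σ * τ = 2 * (σ * τ) := by ring
    have h8 : (σ' - σ) * ρ = σ' * ρ - σ * ρ := by ring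
    have h9 : 2 * σ' * ρ = 2 * (σ' * ρ) := by ring
    show ζ ≤ 2 * σ' * ρ
    linarith
  set n : ℕ := ⌊x⌋₊ with hn
  have hn1 : 1 ≤ n := Nat.one_le_floor_iff x |>.2 hx1
  have hnx : (n : ℝ) ≤ x := Nat.floor_le (by linarith)
  have hnx2 : x ≤ 2 * n := by
    have h7 : x < n + 1 := Nat.lt_floor_add_one x
    have h8 : (1 : ℝ) ≤ n := by exact_mod_cast hn1
    linarith
  have hn1' : (1 : ℝ) ≤ n := by exact_mod_cast hn1
  have hn0 : (0 : ℝ) < n := by linarith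
  have hnz : (n : ℝ) * z ≤ (R : ℝ) ^ (2 * σ') := by
    rw [hx, le_div_iff₀ hz0] at hnx; exact hnx
  have hnz2 : (R : ℝ) ^ (2 * σ') ≤ 2 * (n * z) := by
    rw [hx, div_le_iff₀ hz0] at hnx2; linarith
  set η : ℝ := Real.log (n : ℝ) with hη
  have N1 : η + ζ ≤ 2 * σ' * ρ := by
    have := Real.log_le_log (mul_pos hn0 hz0) hnz
    rwa [Real.log_mul hn0.ne' hz0.ne', Real.log_rpow hR0] at this
  have hη0 : 0 ≤ η := Real.log_nonneg hn1'
  have e1 : (2 * σ - e) * τ = 2 * (σ * τ) - e * τ := by ring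
  have e2 : 2 * σ' * ρ = 2 * (σ' * ρ) := by ring
  -- the size conditions
  have hc1 : (R : ℝ) ^ e * (n * t) ≤ R := by
    refine (Real.log_le_log_iff (by positivity) hR0).1 ?_
    rw [Real.log_mul (by positivity) (by positivity), Real.log_mul hn0.ne' ht0.ne',
      Real.log_rpow hR0]
    show e * ρ + (η + τ) ≤ ρ
    have h7 : (1 - 2 * σ) * τ ≤ (1 - 2 * σ) * (b * ρ + Real.log 2) :=
      mul_le_mul_of_nonneg_left F2 (by linarith)
    have h8 := mul_le_mul_of_nonneg_right h4 hρ0.le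
    have h9 : 0 ≤ σ * Real.log 2 := mul_nonneg hσ hl20
    linarith
  have hc2 : (R : ℝ) ^ e * (n * z) ≤ w R := by
    calc (R : ℝ) ^ e * (n * z) ≤ (R : ℝ) ^ e * (R : ℝ) ^ (2 * σ') :=
          mul_le_mul_of_nonneg_left hnz (rpow_nonneg hR0.le _)
      _ = (R : ℝ) ^ (2 * σ' + e) := by rw [← rpow_add hR0]; congr 1; ring
      _ ≤ w R := hwR
  have hA1 : (1 : ℝ) ≤ (t : ℝ) ^ (σ + e) := Real.one_le_rpow ht1' (by linarith)
  have hc3 : (R : ℝ) ^ e * z ≤ (t : ℝ) ^ (σ + e) * ((w t / t) ^ (1 / 2 : ℝ) * w t) := by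
    calc (R : ℝ) ^ e * z ≤ (t : ℝ) ^ (σ + e) * (t : ℝ) ^ (σ + c / 8) := by
          refine (Real.log_le_log_iff (by positivity) (by positivity)).1 ?_
          rw [Real.log_mul (by positivity) hz0.ne', Real.log_rpow hR0,
            Real.log_mul (by positivity) (by positivity), Real.log_rpow ht0, Real.log_rpow ht0]
          show e * ρ + ζ ≤ (σ + e) * τ + (σ + c / 8) * τ
          have h7 : c / 8 * (b * ρ) ≤ c / 8 * τ := mul_le_mul_of_nonneg_left F1 (by linarith)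
          have h8 := mul_le_mul_of_nonneg_right h6 hρ0.le
          linarith
      _ ≤ _ := mul_le_mul_of_nonneg_left hL1 (by positivity)
  have hq : (t : ℝ) ^ (-(q' / b)) ≤ (R : ℝ) ^ (-q') := by
    have h7 : (t : ℝ) ^ (-(q' / b)) ≤ ((R : ℝ) ^ b) ^ (-(q' / b)) :=
      rpow_le_rpow_of_nonpos (rpow_pos_of_pos hR0 _) htb1
        (by have : 0 ≤ q' / b := by positivity
            linarith)
    rw [← rpow_mul hR0.le] at h7
    have h8 : b * -(q' / b) = -q' := by field_simp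
    rwa [h8] at h7
  have hfin := hAR' t z n _ htb1 htb2 hz1 hn1 hA1 hc1 hc2 hc3
    (hmono _ _ _ _ _ _ le_rfl hq hgood)
  refine ⟨n * z, Nat.mul_pos hn1 hz1, ?_, ?_, hmono _ _ _ _ _ _ ?_ le_rfl hfin⟩
  · -- many shears
    push_cast
    have h7 : (R : ℝ) ^ (2 * σ' - ε) ≤ (R : ℝ) ^ (2 * σ') / 2 := by
      rw [le_div_iff₀ (by norm_num)]
      refine (Real.log_le_log_iff (by positivity) (by positivity)).1 ?_
      rw [Real.log_mul (by positivity) (by norm_num), Real.log_rpow hR0, Real.log_rpow hR0]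
      have h8 := mul_le_mul_of_nonneg_right h5 hρ0.le
      show (2 * σ' - ε) * ρ + Real.log 2 ≤ 2 * σ' * ρ
      linarith
    linarith
  · push_cast
    exact hnz
  · -- the response
    set α : ℝ := (σ + e) * τ with hα
    have hlA : Real.log ((t : ℝ) ^ (σ + e)) = α := Real.log_rpow ht0 _
    have hAp : (0 : ℝ) < (t : ℝ) ^ (σ + e) := by linarith
    have hwt1 : (0 : ℝ) < w t / t := div_pos hwt0 ht0
    have e3 : (σ + e) * τ = σ * τ + e * τ := by ring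
    have hb1e : 100 * (e * ρ) ≤ ε * ρ := by
      have := mul_le_mul_of_nonneg_right h5 hρ0.le
      linarith
    have T1 : (n : ℝ) * t / R * E R ≤ Real.exp ((σ' + 3 * e) * ρ + 3) := by
      calc (n : ℝ) * t / R * E R ≤ (n : ℝ) * t / R * (R : ℝ) ^ (ν - σ + e) :=
            mul_le_mul_of_nonneg_left hER (by positivity)
        _ ≤ _ := by
          rw [← Real.log_le_iff_le_exp (by positivity), Real.log_mul (by positivity)
            (by positivity), Real.log_div (by positivity) hR0.ne',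
            Real.log_mul hn0.ne' ht0.ne', Real.log_rpow hR0]
          show η + τ - ρ + (ν - σ + e) * ρ ≤ (σ' + 3 * e) * ρ + 3
          have h7 : (1 - 2 * σ) * τ ≤ (1 - 2 * σ) * (b * ρ + Real.log 2) :=
            mul_le_mul_of_nonneg_left F2 (by linarith)
          have h8 := mul_le_mul_of_nonneg_right h1 hρ0.le
          have h9 : 0 ≤ σ * Real.log 2 := mul_nonneg hσ hl20
          linarith
    have T4 : (n : ℝ) ^ (1 / 2 : ℝ) * (t : ℝ) ^ (σ + e) ≤ Real.exp ((σ' + 3 * e) * ρ + 3) := by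
      rw [← Real.log_le_iff_le_exp (by positivity), Real.log_mul (by positivity)
        (by positivity), Real.log_rpow hn0, hlA]
      show 1 / 2 * η + α ≤ _
      linarith
    have T2 : (n : ℝ) * t / R * ((R / t : ℝ) ^ (1 / 2 : ℝ) * (t : ℝ) ^ (σ + e))
        ≤ Real.exp ((σ' + 3 * e) * ρ + 3) := by
      have hRt : (0 : ℝ) < R / t := div_pos hR0 ht0
      rw [← Real.log_le_iff_le_exp (by positivity), Real.log_mul (by positivity)
        (by positivity), Real.log_div (by positivity) hR0.ne',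
        Real.log_mul hn0.ne' ht0.ne', Real.log_mul (by positivity) (by positivity),
        Real.log_rpow hRt, Real.log_div hR0.ne' ht0.ne', hlA]
      show η + τ - ρ + (1 / 2 * (ρ - τ) + α) ≤ _
      have h7 : η + τ ≤ ρ := by
        have := Real.log_le_log (by positivity) hc1
        rw [Real.log_mul (by positivity) (by positivity), Real.log_mul hn0.ne' ht0.ne',
          Real.log_rpow hR0] at this
        have h8 : e * ρ + (η + τ) ≤ ρ := this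
        linarith
      linarith
    have T3 : (n : ℝ) * t / R * (R / t * (w t / t) ^ (1 / 2 : ℝ) * ((t : ℝ) ^ (σ + e)) ^ 2)
        ≤ Real.exp ((σ' + 3 * e) * ρ + 3) := by
      have e5 : (n : ℝ) * t / R * (R / t * (w t / t) ^ (1 / 2 : ℝ) * ((t : ℝ) ^ (σ + e)) ^ 2)
          = n * (w t / t) ^ (1 / 2 : ℝ) * ((t : ℝ) ^ (σ + e)) ^ 2 := by
        field_simp
      rw [e5, ← Real.log_le_iff_le_exp (by positivity), Real.log_mul (by positivity)
        (by positivity), Real.log_mul hn0.ne' (by positivity), Real.log_rpow hwt1,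
        Real.log_div hwt0.ne' ht0.ne', Real.log_pow, hlA]
      show η + 1 / 2 * (Real.log (w t) - τ) + ((2 : ℕ) : ℝ) * α ≤ _
      push_cast
      have h7 : (1 - ν) / 2 * (b * ρ) ≤ (1 - ν) / 2 * τ :=
        mul_le_mul_of_nonneg_left F1 (by linarith)
      have h8 := mul_le_mul_of_nonneg_right h2 hρ0.le
      linarith
    have hsum : (n : ℝ) * t / R * (E R + ((R / t : ℝ) ^ (1 / 2 : ℝ) * (t : ℝ) ^ (σ + e) +
      R / t * (w t / t) ^ (1 / 2 : ℝ) * ((t : ℝ) ^ (σ + e)) ^ 2)) +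
        (n : ℝ) ^ (1 / 2 : ℝ) * (t : ℝ) ^ (σ + e) ≤ 4 * Real.exp ((σ' + 3 * e) * ρ + 3) := by
      have e6 : (n : ℝ) * t / R * (E R + ((R / t : ℝ) ^ (1 / 2 : ℝ) * (t : ℝ) ^ (σ + e) +
          R / t * (w t / t) ^ (1 / 2 : ℝ) * ((t : ℝ) ^ (σ + e)) ^ 2))
          = (n : ℝ) * t / R * E R + (n : ℝ) * t / R * ((R / t : ℝ) ^ (1 / 2 : ℝ) *
            (t : ℝ) ^ (σ + e)) + (n : ℝ) * t / R * (R / t * (w t / t) ^ (1 / 2 : ℝ) *
            ((t : ℝ) ^ (σ + e)) ^ 2) := by ring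
      rw [e6]
      have h7 := add_le_add (add_le_add (add_le_add T1 T2) T3) T4
      have h8 : Real.exp ((σ' + 3 * e) * ρ + 3) + Real.exp ((σ' + 3 * e) * ρ + 3) +
          Real.exp ((σ' + 3 * e) * ρ + 3) + Real.exp ((σ' + 3 * e) * ρ + 3)
          = 4 * Real.exp ((σ' + 3 * e) * ρ + 3) := by ring
      rw [← h8]
      exact h7
    have h4e : (4 : ℝ) ≤ Real.exp 3 := by
      have := Real.add_one_le_exp (3 : ℝ)
      linarith
    calc (R : ℝ) ^ e * ((n : ℝ) * t / R * (E R + ((R / t : ℝ) ^ (1 / 2 : ℝ) *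
          (t : ℝ) ^ (σ + e) + R / t * (w t / t) ^ (1 / 2 : ℝ) * ((t : ℝ) ^ (σ + e)) ^ 2)) +
        (n : ℝ) ^ (1 / 2 : ℝ) * (t : ℝ) ^ (σ + e))
        ≤ (R : ℝ) ^ e * (4 * Real.exp ((σ' + 3 * e) * ρ + 3)) :=
          mul_le_mul_of_nonneg_left hsum (rpow_nonneg hR0.le _)
      _ ≤ Real.exp (e * ρ) * (Real.exp 3 * Real.exp ((σ' + 3 * e) * ρ + 3)) := by
          rw [rpow_def_of_pos hR0, mul_comm (Real.log (R : ℝ)) e]
          gcongr
      _ = Real.exp (e * ρ + (3 + ((σ' + 3 * e) * ρ + 3))) := by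
          rw [← Real.exp_add, ← Real.exp_add]
      _ ≤ Real.exp ((σ' + ε) * ρ) := by
          refine Real.exp_le_exp.2 ?_
          linarith
      _ = (R : ℝ) ^ (σ' + ε) := by
          rw [rpow_def_of_pos hR0, mul_comm (Real.log (R : ℝ))]

end W_7d29a1_Z.Step81
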