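import Pool.Agent.W_7d29a1_Z.StpK
import Pool.Agent.W_7d29a1_Z.Eb
import Pool.Agent.W_7d29a1_Z10.NPLink

/-!
STORM Z, Stp: the step of the response exponent from the statement `OkayAll`. (helper81)
-/

set_option autoImplicit false

namespace Pool.Agent.W_7d29a1_Z.StpK

open MeasureTheory ProbabilityTheory Filter Topology Finset
open Pool.Agent.W_7d29a1_F Pool.Agent.W_7d29a1_X Pool.Agent.W_7d29a1_G
open Pool.Agent.W_7d29a1_SR (In wd)
open Pool.Agent.W_7d29a1_Z10 (StepP EWP)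

variable {μ : Measure ℝ} [IsProbabilityMeasure μ] {c C : ℝ} {n₀ : ℕ}

/-- **The step of the response exponent.** -/
theorem stepP_of (h : In μ c C n₀) (hF : HF2 μ) (hO : OkayAll μ) : StepP (wd μ) (PSg μ) := by
  obtain ⟨c', hc', hNP⟩ := Pool.Agent.W_7d29a1_Z10.strictNP h
  exact _root_.W_7d29a1_Z.Step81.stepP_PSg (Pool.Agent.W_7d29a1_Z10.wd_nn h) (fun n => Pool.Agent.W_7d29a1_Z10.EE_nn n)
    (fun _ => rfl) (aStep_of h hF hO) (ewp h) hc' hNP

end Pool.Agent.W_7d29a1_Z.StpK
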