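import Pool.Agent.W_7d29a1_Z.Act

/-!
STORM Z, Stp, part A: the pattern at the scale `R` which consists of the patterns `I` of the chosen zones `Z`, and the kernels of a
time interval `[u, u']` as kernels of the shifted environment. (helper81)
-/

namespace Pool.Agent.W_7d29a1_Z.StpA

open MeasureTheory ProbabilityTheory Filter Topology Finset
open Pool.Agent.W_7d29a1_F Pool.Agent.W_7d29a1_X Pool.Agent.W_7d29a1_G
open Pool.Agent.W_7d29a1_SR (In wd)

variable {μ : Measure ℝ}

/-- The union of the patterns of the chosen zones. -/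
def JR (t τ : ℕ) (I Z : Finset ℕ) : Finset ℕ := Z.biUnion fun b => I.image fun k => za t τ b + k

theorem mem_JR {t τ : ℕ} {I Z : Finset ℕ} {k : ℕ} : k ∈ JR t τ I Z ↔ ∃ b ∈ Z, ∃ i ∈ I, za t τ b + i = k := by
  simp [JR]

theorem lt_of_core {t i : ℕ} {I : Finset ℕ} (hI : I ⊆ Core t) (hi : i ∈ I) : t / 4 ≤ i ∧ i < 3 * t / 4 ∧ i < t := by
  have := mem_Ico.1 (hI hi)
  omega

theorem za_inj {t τ b b' i i' : ℕ} (hi : i < t) (hi' : i' < t) (h : za t τ b + i = za t τ b' + i') : b = b' ∧ i = i' := by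
  unfold za at h
  have ht : 0 < t := lt_of_le_of_lt (Nat.zero_le _) hi
  have hb : b = b' := by
    by_contra hne
    rcases Nat.lt_or_gt_of_ne hne with hlt | hlt
    · have h1 : 2 * t * (b + 1) ≤ 2 * t * b' := Nat.mul_le_mul_left _ hlt
      have h2 : 2 * t * (b + 1) = 2 * t * b + 2 * t := by ring
      omega
    · have h1 : 2 * t * (b' + 1) ≤ 2 * t * b := Nat.mul_le_mul_left _ hlt
      have h2 : 2 * t * (b' + 1) = 2 * t * b' + 2 * t := by ring
      omega
  subst hb
  exact ⟨rfl, by omega⟩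

theorem card_JR {t τ : ℕ} {I Z : Finset ℕ} (hI : I ⊆ Core t) : (JR t τ I Z).card = Z.card * I.card := by
  unfold JR
  rw [Finset.card_biUnion]
  · rw [Finset.sum_congr rfl fun b _ => Finset.card_image_of_injective I (add_right_injective (za t τ b)), Finset.sum_const,
      smul_eq_mul]
  · intro b _ b' _ hbb
    rw [Function.onFun, Finset.disjoint_left]
    intro k hk hk'
    obtain ⟨i, hi, rfl⟩ := Finset.mem_image.1 hk
    obtain ⟨i', hi', h⟩ := Finset.mem_image.1 hk'
    exact hbb (za_inj (lt_of_core hI hi).2.2 (lt_of_core hI hi').2.2 h.symm).1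

theorem JR_core {t τ R : ℕ} {I Z : Finset ℕ} (hI : I ⊆ Core t) (h1 : R / 4 ≤ τ) (h2 : ∀ b ∈ Z, zb t τ b ≤ 3 * R / 4) :
    JR t τ I Z ⊆ Core R := by
  intro k hk
  obtain ⟨b, hb, i, hi, rfl⟩ := mem_JR.1 hk
  have h3 := lt_of_core hI hi
  have h4 := h2 b hb
  unfold zb at h4
  refine mem_Ico.2 ⟨?_, ?_⟩
  · unfold za
    have := Nat.zero_le (2 * t * b)
    omega
  · unfold za
    omega

theorem pat_JR {t τ R : ℕ} {I Z : Finset ℕ} (hI : I ⊆ Core t) (a : ℤ) {k : ℕ} (hk : k < 2 * R) :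
    pat R 0 (JR t τ I Z) (fun _ => a) k = pat t τ I (fun b => if b ∈ Z then a else 0) k := by
  classical
  unfold pat
  rw [Nat.sub_zero, Nat.mod_eq_of_lt hk]
  by_cases h : τ ≤ k ∧ (k - τ) % (2 * t) ∈ I
  · rw [if_pos h]
    obtain ⟨h1, h2⟩ := h
    have e : za t τ ((k - τ) / (2 * t)) + (k - τ) % (2 * t) = k := by
      unfold za
      have := Nat.div_add_mod (k - τ) (2 * t)
      omega
    by_cases hz : (k - τ) / (2 * t) ∈ Z
    · simp only [if_pos hz]
      rw [if_pos ⟨Nat.zero_le _, mem_JR.2 ⟨_, hz, _, h2, e⟩⟩]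
    · simp only [if_neg hz]
      rw [if_neg]
      rintro ⟨_, hk'⟩
      obtain ⟨b, hb, i, hi, hbi⟩ := mem_JR.1 hk'
      have := za_inj (lt_of_core hI hi).2.2 (lt_of_core hI h2).2.2 (hbi.trans e.symm)
      exact hz (this.1 ▸ hb)
  · rw [if_neg h, if_neg]
    rintro ⟨_, hk'⟩
    obtain ⟨b, hb, i, hi, hbi⟩ := mem_JR.1 hk'
    refine h ⟨?_, ?_⟩
    · rw [← hbi]
      unfold za
      have := Nat.zero_le (2 * t * b)
      omega
    · have hit := (lt_of_core hI hi).2.2
      have e : k - τ = i + 2 * t * b := by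
        rw [← hbi]
        unfold za
        omega
      rw [e, Nat.add_mul_mod_self_left, Nat.mod_eq_of_lt (by omega)]
      exact hi

/-- The total jump of a pattern inside the interval. -/
theorem sv_pat_all {R u u' : ℕ} {J : Finset ℕ} (a : ℤ) (hJ : J ⊆ Ico u u') (hu : u' ≤ 2 * R) :
    sv (pat R 0 J fun _ => a) u u' = a * J.card := by
  classical
  unfold sv
  have h1 : ∀ k ∈ Ico u u', pat R 0 J (fun _ => a) k = if k ∈ J then a else 0 := by
    intro k hk
    have hk2 := (mem_Ico.1 hk).2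
    unfold pat
    rw [Nat.sub_zero, Nat.mod_eq_of_lt (by omega)]
    simp
  rw [Finset.sum_congr rfl h1, Finset.sum_ite_mem, Finset.inter_eq_right.2 hJ, Finset.sum_const, nsmul_eq_mul, mul_comm]

/-- The kernel of the interval `[u, u + N]` is the kernel of `[0, N]` in the shifted environment. -/
theorem fk_sys {t τ u N : ℕ} (hu : u ≤ τ) (I : Finset ℕ) (V : ℕ → ℤ) (η : Env) (x y : ℤ) :
    fk μ (pat t τ I V) η u (u + N) x y = fk μ (pat t (τ - u) I V) (sh ((u : ℤ), 0) η) 0 N x y := by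
  have h := fk_translate (μ := μ) (pat t (τ - u) I V) η u 0 N x y 0
  rw [add_zero, add_zero, add_zero] at h
  rw [← h]
  refine fk_congr η _ _ fun k h1 h2 => ?_
  unfold pat
  have e : k - u - (τ - u) = k - τ := by omega
  rw [e]
  by_cases hk : τ ≤ k
  · have : τ - u ≤ k - u := by omega
    simp [hk, this]
  · have : ¬ τ - u ≤ k - u := by omega
    simp [hk, this]

end Pool.Agent.W_7d29a1_Z.StpA
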