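import Pool.Agent.W_7d29a1_Z.Inn
import Pool.Agent.W_7d29a1_Z.Eb
import Pool.Agent.W_7d29a1_Z.StpL
import Pool.Agent.W_7d29a1_Z10.OkA

/-!
STORM Z, leaf STP: the step of the response exponent.
-/

namespace Pool.Agent.W_7d29a1_Z

open MeasureTheory ProbabilityTheory Filter Topology Finset
open Pool.Agent.W_7d29a1_F Pool.Agent.W_7d29a1_X Pool.Agent.W_7d29a1_G
open Pool.Agent.W_7d29a1_SR (In wd)
open Pool.Agent.W_7d29a1_Z10 (StepP EWP)
open scoped ENNReal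

variable {μ : Measure ℝ} [IsProbabilityMeasure μ] {c C : ℝ} {n₀ : ℕ}

/-- All the kernels of the next scale are okay, rate `q` of the ties. -/
theorem okayQ (h : In μ c C n₀) (hF : HF2 μ) {q : ℕ → ℝ} {K : ℝ} (hq : QOK q K) (hT : TIE μ q) : StpK.OkayQ μ q :=
  Pool.Agent.W_7d29a1_Z10.okayQ_of h hF (fun n hn => (hq.pos n hn).le) (fun ε hε => ns h hF ε hε) (inn h hF hq hT)

theorem stepP (h : In μ c C n₀) (hF : HF2 μ) : StepP (wd μ) (PSg μ) := by
  obtain ⟨K, _, hQ⟩ := QOK_qt h hF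
  exact StpK.stepP_of h hF (okayQ h hF hQ (TIE_qt h))

end Pool.Agent.W_7d29a1_Z
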