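import Mathlib

/-!
# The L2 calculus of commuting dislocations (algebra)

`R` is a commutative real algebra with an involution `c` and a positive functional `φ`.
Think of `R = ℝ[G]`, `G` a commutative group of measure preserving maps, `c` = inversion and
`φ f = ∑ f g ⟨U_g F, F⟩`.  A contraction symbol is an element `z` such that `1 - z * c z` is a sum
of squares: `U_g`, products and convex combinations.  With `x = 1 - (z + c z)/2`,
`y = (z - c z)/2`:  `V z = 2 φ x` is `E ‖U_τ F - F‖²`, `4 φ (x x')` is the second moment of the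
mixed difference and `T z w = φ (y * c y')` is the coupling of two windows.

`T_step` :  `|T z w| ≤ |T z² w²| / 4 + 2 √M (√V z + √V w)`.
`V_mul_le` : `V (z w) ≤ V z + V w + 2 T z w`.
-/

namespace Pool.Agent.W_7d29a1_Z

open Finset

/-- Commutative real algebra with involution and positive functional. -/
structure PosF (R : Type*) [CommRing R] [Algebra ℝ R] where
  c : R →ₐ[ℝ] R
  cc : ∀ f, c (c f) = f
  φ : R →ₗ[ℝ] ℝ
  φc : ∀ f, φ (c f) = φ f
  pos : ∀ f, 0 ≤ φ (f * c f)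

namespace PosF

variable {R : Type*} [CommRing R] [Algebra ℝ R] (A : PosF R)

/-- Sums of squares. -/
def S : AddSubmonoid R := AddSubmonoid.closure {x | ∃ f, x = f * A.c f}

lemma sq_mem (f : R) : f * A.c f ∈ A.S := AddSubmonoid.subset_closure ⟨f, rfl⟩

lemma S_mul {a b : R} (ha : a ∈ A.S) (hb : b ∈ A.S) : a * b ∈ A.S := by
  refine AddSubmonoid.closure_induction (motive := fun a _ => a * b ∈ A.S) ?_ ?_ ?_ ha
  · rintro _ ⟨f, rfl⟩
    refine AddSubmonoid.closure_induction (motive := fun b _ => f * A.c f * b ∈ A.S) ?_ ?_ ?_ hb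
    · rintro _ ⟨g, rfl⟩
      have : f * A.c f * (g * A.c g) = (f * g) * A.c (f * g) := by
        rw [map_mul]; ring
      rw [this]; exact A.sq_mem _
    · simp
    · intro x y _ _ hx hy; rw [mul_add]; exact A.S.add_mem hx hy
  · simp
  · intro x y _ _ hx hy; rw [add_mul]; exact A.S.add_mem hx hy

lemma S_smul {r : ℝ} (hr : 0 ≤ r) {a : R} (ha : a ∈ A.S) : r • a ∈ A.S := by
  refine AddSubmonoid.closure_induction (motive := fun a _ => r • a ∈ A.S) ?_ ?_ ?_ ha
  · rintro _ ⟨f, rfl⟩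
    have : r • (f * A.c f) = (Real.sqrt r • f) * A.c (Real.sqrt r • f) := by
      rw [map_smul, smul_mul_smul_comm, Real.mul_self_sqrt hr]
    rw [this]; exact A.sq_mem _
  · simp
  · intro x y _ _ hx hy; rw [smul_add]; exact A.S.add_mem hx hy

lemma φ_nonneg {a : R} (ha : a ∈ A.S) : 0 ≤ A.φ a := by
  refine AddSubmonoid.closure_induction (motive := fun a _ => 0 ≤ A.φ a) ?_ ?_ ?_ ha
  · rintro _ ⟨f, rfl⟩; exact A.pos f
  · simp
  · intro x y _ _ hx hy; rw [map_add]; exact add_nonneg hx hy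

lemma one_mem : (1 : R) ∈ A.S := by
  have := A.sq_mem 1
  simpa using this

lemma zero_mem' : (0 : R) ∈ A.S := A.S.zero_mem

/-- Order given by sums of squares. -/
def Le (a b : R) : Prop := b - a ∈ A.S

lemma Le.φ_le {a b : R} (h : A.Le a b) : A.φ a ≤ A.φ b := by
  have := A.φ_nonneg h
  rw [map_sub] at this; linarith

lemma Le.mul {a b : R} (h : A.Le a b) {d : R} (hd : d ∈ A.S) : A.Le (a * d) (b * d) := by
  unfold Le at *
  rw [← sub_mul]; exact A.S_mul h hd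

lemma Le.trans {a b d : R} (h : A.Le a b) (h' : A.Le b d) : A.Le a d := by
  unfold Le at *
  have := A.S.add_mem h' h
  convert this using 1; ring

/-- Symmetry of the form. -/
lemma φ_symm (f g : R) : A.φ (f * A.c g) = A.φ (g * A.c f) := by
  rw [← A.φc (f * A.c g), map_mul, A.cc, mul_comm]

/-- Cauchy - Schwarz. -/
lemma cs (f g : R) : |A.φ (f * A.c g)| ≤ Real.sqrt (A.φ (f * A.c f)) * Real.sqrt (A.φ (g * A.c g)) := by
  have key : ∀ t : ℝ, 0 ≤ A.φ (g * A.c g) * (t * t) + 2 * A.φ (f * A.c g) * t + A.φ (f * A.c f) := by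
    intro t
    have h := A.pos (f + t • g)
    have : (f + t • g) * A.c (f + t • g)
        = f * A.c f + t • (f * A.c g) + t • (g * A.c f) + (t * t) • (g * A.c g) := by
      rw [map_add, map_smul, add_mul, mul_add, mul_add, smul_mul_smul_comm, mul_smul_comm,
        smul_mul_assoc]
      abel
    rw [this, map_add, map_add, map_add, map_smul, map_smul, map_smul, ← A.φ_symm f g] at h
    simp only [smul_eq_mul] at h
    linarith
  have hd := discrim_le_zero key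
  unfold discrim at hd
  rw [← Real.sqrt_mul (A.pos f)]
  apply Real.abs_le_sqrt
  nlinarith

/-- Contraction symbols. -/
def Ctr (z : R) : Prop := 1 - z * A.c z ∈ A.S

variable {A}

lemma ctr_unit {u : R} (h : u * A.c u = 1) : A.Ctr u := by
  unfold Ctr; rw [h, sub_self]; exact A.S.zero_mem

lemma ctr_one : A.Ctr 1 := ctr_unit (by simp)

lemma Ctr.mul {z w : R} (hz : A.Ctr z) (hw : A.Ctr w) : A.Ctr (z * w) := by
  unfold Ctr at *
  have : 1 - z * w * A.c (z * w) = (1 - z * A.c z) + (z * A.c z) * (1 - w * A.c w) := by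
    rw [map_mul]; ring
  rw [this]
  exact A.S.add_mem hz (A.S_mul (A.sq_mem z) hw)

lemma Ctr.pow {z : R} (hz : A.Ctr z) (n : ℕ) : A.Ctr (z ^ n) := by
  induction n with
  | zero => simpa using ctr_one
  | succ n ih => rw [pow_succ]; exact ih.mul hz

lemma Ctr.prod {ι : Type*} (s : Finset ι) (z : ι → R) (hz : ∀ i ∈ s, A.Ctr (z i)) :
    A.Ctr (∏ i ∈ s, z i) := by
  classical
  induction s using Finset.induction_on with
  | empty => simpa using ctr_one
  | insert i s hi ih =>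
    rw [prod_insert hi]
    exact (hz i (mem_insert_self i s)).mul (ih fun j hj => hz j (mem_insert_of_mem hj))

lemma Ctr.conv {z w : R} (hz : A.Ctr z) (hw : A.Ctr w) {p : ℝ} (hp : 0 ≤ p) (hp1 : p ≤ 1) :
    A.Ctr ((1 - p) • z + p • w) := by
  unfold Ctr at *
  have : 1 - ((1 - p) • z + p • w) * A.c ((1 - p) • z + p • w)
      = (1 - p) • (1 - z * A.c z) + p • (1 - w * A.c w)
        + (p * (1 - p)) • ((z - w) * A.c (z - w)) := by
    simp only [map_add, map_sub, map_smul]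
    simp only [Algebra.smul_def, map_mul, map_one, map_sub]
    ring
  rw [this]
  exact A.S.add_mem (A.S.add_mem (A.S_smul (by linarith) hz) (A.S_smul hp hw))
    (A.S_smul (mul_nonneg hp (by linarith)) (A.sq_mem _))

variable (A)

/-- `1 - Re z`. -/
noncomputable def x (z : R) : R := 1 - (1 / 2 : ℝ) • (z + A.c z)
/-- `i Im z`. -/
noncomputable def y (z : R) : R := (1 / 2 : ℝ) • (z - A.c z)
/-- `E ‖U_τ F - F‖²`. -/
noncomputable def V (z : R) : ℝ := 2 * A.φ (A.x z)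
/-- Second moment of the mixed difference. -/
noncomputable def M (z w : R) : ℝ := 4 * A.φ (A.x z * A.x w)
/-- Coupling. -/
noncomputable def T (z w : R) : ℝ := A.φ (A.y z * A.c (A.y w))

variable {A}

lemma c_x (z : R) : A.c (A.x z) = A.x z := by
  unfold x
  simp only [map_sub, map_one, map_smul, map_add, A.cc, add_comm]

lemma c_y (z : R) : A.c (A.y z) = - A.y z := by
  unfold y
  rw [map_smul, map_sub, A.cc, ← smul_neg, neg_sub]

lemma half (a : R) : (1 / 2 : ℝ) • a + (1 / 2 : ℝ) • a = a := by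
  rw [← add_smul]; norm_num

lemma x_eq (z : R) : A.x z = (1 / 2 : ℝ) • ((1 - z) * A.c (1 - z)) + (1 / 2 : ℝ) • (1 - z * A.c z) := by
  have h1 : (1 : R) = (1 / 2 : ℝ) • (1 : R) + (1 / 2 : ℝ) • (1 : R) := (half 1).symm
  unfold x
  rw [map_sub, map_one, ← smul_add]
  have : (1 - z) * (1 - A.c z) + (1 - z * A.c z) = (1 + 1) - (z + A.c z) := by ring
  rw [this, smul_sub, smul_add (1 / 2 : ℝ) (1 : R) 1, half]

lemma two_x_eq (z : R) : 2 - A.x z
    = (1 / 2 : ℝ) • ((1 + z) * A.c (1 + z)) + (1 / 2 : ℝ) • (1 - z * A.c z) := by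
  unfold x
  rw [map_add, map_one, ← smul_add]
  have : (1 + z) * (1 + A.c z) + (1 - z * A.c z) = (1 + 1) + (z + A.c z) := by ring
  rw [this, smul_add (1 / 2 : ℝ) ((1 : R) + 1), smul_add (1 / 2 : ℝ) (1 : R) 1, half]
  ring

lemma Ctr.x_mem {z : R} (hz : A.Ctr z) : A.x z ∈ A.S := by
  rw [x_eq]
  exact A.S.add_mem (A.S_smul (by norm_num) (A.sq_mem _)) (A.S_smul (by norm_num) hz)

lemma Ctr.two_x_mem {z : R} (hz : A.Ctr z) : 2 - A.x z ∈ A.S := by
  rw [two_x_eq]
  exact A.S.add_mem (A.S_smul (by norm_num) (A.sq_mem _)) (A.S_smul (by norm_num) hz)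

lemma four_quarter (a b : R) : (1 / 2 : ℝ) • a * (1 / 2 : ℝ) • b = (1 / 4 : ℝ) • (a * b) := by
  rw [smul_mul_smul_comm]; norm_num

/-- `|y|² ≤ 2 x`. -/
lemma Ctr.y_le {z : R} (hz : A.Ctr z) : A.Le (A.y z * A.c (A.y z)) (2 * A.x z) := by
  unfold Le
  have : 2 * A.x z - A.y z * A.c (A.y z) = A.x z * A.c (A.x z) + (1 - z * A.c z) := by
    rw [c_x, c_y]
    unfold x y
    have e1 : (1 - (1 / 2 : ℝ) • (z + A.c z)) * (1 - (1 / 2 : ℝ) • (z + A.c z))
        = 1 - 2 * ((1 / 2 : ℝ) • (z + A.c z)) + (1 / 4 : ℝ) • ((z + A.c z) * (z + A.c z)) := by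
      rw [← four_quarter]; ring
    have e2 : (1 / 2 : ℝ) • (z - A.c z) * -((1 / 2 : ℝ) • (z - A.c z))
        = - ((1 / 4 : ℝ) • ((z - A.c z) * (z - A.c z))) := by
      rw [mul_neg, four_quarter]
    rw [e1, e2]
    have e3 : (1 / 4 : ℝ) • ((z + A.c z) * (z + A.c z))
        = (1 / 4 : ℝ) • ((z - A.c z) * (z - A.c z)) + z * A.c z := by
      have : (z + A.c z) * (z + A.c z) = (z - A.c z) * (z - A.c z) + (4 : ℝ) • (z * A.c z) := by
        rw [show (4 : ℝ) • (z * A.c z) = (4 : R) * (z * A.c z) by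
          rw [Algebra.smul_def]; congr 1; exact map_ofNat (algebraMap ℝ R) 4]
        ring
      rw [this, smul_add, smul_smul]; norm_num
    rw [e3]; ring
  rw [this]
  exact A.S.add_mem (A.sq_mem _) hz

/-- `x² ≤ 2 x`. -/
lemma Ctr.xx_le {z : R} (hz : A.Ctr z) : A.Le (A.x z * A.x z) (2 * A.x z) := by
  unfold Le
  have : 2 * A.x z - A.x z * A.x z = (2 - A.x z) * A.x z := by ring
  rw [this]; exact A.S_mul hz.two_x_mem hz.x_mem

/-- `(1 - x)² ≤ 1`. -/
lemma Ctr.one_sub_le {z : R} (hz : A.Ctr z) : A.Le ((1 - A.x z) * (1 - A.x z)) 1 := by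
  unfold Le
  have : 1 - (1 - A.x z) * (1 - A.x z) = (2 - A.x z) * A.x z := by ring
  rw [this]; exact A.S_mul hz.two_x_mem hz.x_mem

lemma y_sq (z : R) : A.y (z * z) = 2 * (1 - A.x z) * A.y z := by
  unfold x y
  rw [map_mul]
  have h : (2 : R) * (1 - (1 - (1 / 2 : ℝ) • (z + A.c z))) = z + A.c z := by
    have := half (z + A.c z)
    calc (2 : R) * (1 - (1 - (1 / 2 : ℝ) • (z + A.c z)))
        = (1 / 2 : ℝ) • (z + A.c z) + (1 / 2 : ℝ) • (z + A.c z) := by ring
      _ = _ := this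
  rw [h, mul_smul_comm]
  congr 1; ring

lemma y_split (z : R) : A.y z = (1 / 2 : ℝ) • A.y (z * z) + A.x z * A.y z := by
  rw [y_sq]
  have : (1 / 2 : ℝ) • (2 * (1 - A.x z) * A.y z) = (1 - A.x z) * A.y z := by
    have h2 := half ((1 - A.x z) * A.y z)
    have : 2 * (1 - A.x z) * A.y z = (1 - A.x z) * A.y z + (1 - A.x z) * A.y z := by ring
    rw [this, smul_add]; exact h2
  rw [this]; ring

lemma x_mul (z w : R) : A.x (z * w)
    = A.x z + A.x w - A.x z * A.x w + A.y z * A.c (A.y w) := by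
  rw [c_y]
  unfold x y
  rw [map_mul]
  have e1 : (1 - (1 / 2 : ℝ) • (z + A.c z)) * (1 - (1 / 2 : ℝ) • (w + A.c w))
      = 1 - (1 / 2 : ℝ) • (z + A.c z) - (1 / 2 : ℝ) • (w + A.c w)
        + (1 / 4 : ℝ) • ((z + A.c z) * (w + A.c w)) := by
    rw [← four_quarter]; ring
  rw [e1, mul_neg, four_quarter]
  have e2 : (1 / 2 : ℝ) • (z * w + A.c z * A.c w)
      = (1 / 4 : ℝ) • ((z + A.c z) * (w + A.c w)) + (1 / 4 : ℝ) • ((z - A.c z) * (w - A.c w)) := by
    rw [← smul_add]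
    have : (z + A.c z) * (w + A.c w) + (z - A.c z) * (w - A.c w)
        = (2 : ℝ) • (z * w + A.c z * A.c w) := by
      rw [show (2 : ℝ) • (z * w + A.c z * A.c w) = (2 : R) * (z * w + A.c z * A.c w) by
          rw [Algebra.smul_def]; congr 1; exact map_ofNat (algebraMap ℝ R) 2]
      ring
    rw [this, smul_smul]; norm_num
  rw [e2]; ring

lemma V_nonneg {z : R} (hz : A.Ctr z) : 0 ≤ A.V z := by
  unfold V; have := A.φ_nonneg hz.x_mem; linarith

lemma M_nonneg {z w : R} (hz : A.Ctr z) (hw : A.Ctr w) : 0 ≤ A.M z w := by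
  unfold M; have := A.φ_nonneg (A.S_mul hz.x_mem hw.x_mem); linarith

lemma φ_two (a : R) : A.φ (2 * a) = 2 * A.φ a := by
  rw [two_mul, map_add]; ring

lemma M_le_left {z w : R} (hz : A.Ctr z) (hw : A.Ctr w) : A.M z w ≤ 4 * A.V z := by
  unfold M V
  have h : A.Le (A.x z * A.x w) (2 * A.x z) := by
    unfold Le
    have : 2 * A.x z - A.x z * A.x w = A.x z * (2 - A.x w) := by ring
    rw [this]; exact A.S_mul hz.x_mem hw.two_x_mem
  have := Le.φ_le A h
  rw [φ_two] at this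
  linarith

lemma M_comm (z w : R) : A.M z w = A.M w z := by unfold M; rw [mul_comm (A.x z)]

lemma M_le_right {z w : R} (hz : A.Ctr z) (hw : A.Ctr w) : A.M z w ≤ 4 * A.V w := by
  rw [M_comm]; exact M_le_left hw hz

lemma yy_le {z : R} (hz : A.Ctr z) : A.φ (A.y z * A.c (A.y z)) ≤ A.V z := by
  have := Le.φ_le A hz.y_le
  rw [φ_two] at this; exact this

/-- Trivial bound of the coupling. -/
lemma T_le {z w : R} (hz : A.Ctr z) (hw : A.Ctr w) :
    |A.T z w| ≤ Real.sqrt (A.V z) * Real.sqrt (A.V w) := by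
  unfold T
  refine (A.cs _ _).trans ?_
  exact mul_le_mul (Real.sqrt_le_sqrt (yy_le hz)) (Real.sqrt_le_sqrt (yy_le hw))
    (Real.sqrt_nonneg _) (Real.sqrt_nonneg _)

/-- `V (z w) = V z + V w - M/2 + 2 T`. -/
lemma V_mul (z w : R) : A.V (z * w) = A.V z + A.V w - A.M z w / 2 + 2 * A.T z w := by
  unfold V M T
  rw [x_mul, map_add, map_sub, map_add]; ring

lemma V_mul_le {z w : R} (hz : A.Ctr z) (hw : A.Ctr w) :
    A.V (z * w) ≤ A.V z + A.V w + 2 * A.T z w := by
  rw [V_mul]; have := M_nonneg hz hw; linarith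

/-- `x_w² |y_{z}|² ≤ 4 x x'` in mean. -/
lemma mix1 {z w : R} (hz : A.Ctr z) (hw : A.Ctr w) :
    A.φ ((A.x w * A.y z) * A.c (A.x w * A.y z)) ≤ A.M z w := by
  have e : (A.x w * A.y z) * A.c (A.x w * A.y z)
      = (A.x w * A.x w) * (A.y z * A.c (A.y z)) := by
    rw [map_mul, c_x]; ring
  rw [e]
  have h1 : A.Le ((A.x w * A.x w) * (A.y z * A.c (A.y z))) ((2 * A.x w) * (A.y z * A.c (A.y z))) :=
    hw.xx_le.mul A (A.sq_mem _)
  have h2 : A.Le ((A.y z * A.c (A.y z)) * (2 * A.x w)) ((2 * A.x z) * (2 * A.x w)) := by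
    refine hz.y_le.mul A ?_
    rw [two_mul]; exact A.S.add_mem hw.x_mem hw.x_mem
  have h3 := Le.φ_le A h1
  have h4 := Le.φ_le A h2
  rw [mul_comm (A.y z * A.c (A.y z)) (2 * A.x w)] at h4
  have e5 : (2 * A.x z) * (2 * A.x w) = 2 * (2 * (A.x z * A.x w)) := by ring
  rw [e5, φ_two, φ_two] at h4
  unfold M; linarith

/-- the same with `y (z²)`. -/
lemma mix2 {z w : R} (hz : A.Ctr z) (hw : A.Ctr w) :
    A.φ ((A.x w * A.y (z * z)) * A.c (A.x w * A.y (z * z))) ≤ 4 * A.M z w := by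
  have e : (A.x w * A.y (z * z)) * A.c (A.x w * A.y (z * z))
      = 2 * (2 * (((1 - A.x z) * (1 - A.x z)) * ((A.x w * A.y z) * A.c (A.x w * A.y z)))) := by
    rw [y_sq, map_mul, map_mul, map_mul, map_mul, map_sub, map_one, c_x, c_x]
    have : A.c (2 : R) = 2 := map_ofNat A.c 2
    rw [this]
    ring
  have h1 : A.Le (((1 - A.x z) * (1 - A.x z)) * ((A.x w * A.y z) * A.c (A.x w * A.y z)))
      (1 * ((A.x w * A.y z) * A.c (A.x w * A.y z))) := hz.one_sub_le.mul A (A.sq_mem _)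
  have h3 := Le.φ_le A h1
  rw [e, φ_two, φ_two]
  rw [one_mul] at h3
  have := mix1 hz hw
  linarith

/-- ONE STEP of the doubling. -/
theorem T_step {z w : R} (hz : A.Ctr z) (hw : A.Ctr w) :
    |A.T z w| ≤ |A.T (z * z) (w * w)| / 4
      + 2 * (Real.sqrt (A.M z w) * (Real.sqrt (A.V z) + Real.sqrt (A.V w))) := by
  have hM := M_nonneg hz hw
  have e : A.T z w = (1 / 4 : ℝ) * A.T (z * z) (w * w)
      + (1 / 2 : ℝ) * A.φ ((A.x w * A.y (z * z)) * A.c (A.y w))
      + (1 / 2 : ℝ) * A.φ (A.y z * A.c (A.x z * A.y (w * w)))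
      + A.φ ((A.x w * A.y z) * A.c (A.x z * A.y w)) := by
    unfold T
    have : A.y z * A.c (A.y w) = (1 / 4 : ℝ) • (A.y (z * z) * A.c (A.y (w * w)))
        + (1 / 2 : ℝ) • ((A.x w * A.y (z * z)) * A.c (A.y w))
        + (1 / 2 : ℝ) • (A.y z * A.c (A.x z * A.y (w * w)))
        + (A.x w * A.y z) * A.c (A.x z * A.y w) := by
      conv_lhs => rw [y_split z, y_split w]
      simp only [map_add, map_mul, map_smul, c_x]
      rw [← four_quarter]
      simp only [Algebra.smul_def]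
      ring
    rw [this, map_add, map_add, map_add, map_smul, map_smul, map_smul]
    simp only [smul_eq_mul]
  have b1 : |A.φ ((A.x w * A.y (z * z)) * A.c (A.y w))| ≤ 2 * Real.sqrt (A.M z w) * Real.sqrt (A.V w) := by
    refine (A.cs _ _).trans ?_
    refine mul_le_mul ?_ (Real.sqrt_le_sqrt (yy_le hw)) (Real.sqrt_nonneg _) (by positivity)
    calc Real.sqrt (A.φ ((A.x w * A.y (z * z)) * A.c (A.x w * A.y (z * z))))
        ≤ Real.sqrt (4 * A.M z w) := Real.sqrt_le_sqrt (mix2 hz hw)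
      _ = 2 * Real.sqrt (A.M z w) := by
        rw [show (4 : ℝ) * A.M z w = (2 * 2) * A.M z w by ring, Real.sqrt_mul (by norm_num),
          Real.sqrt_mul_self (by norm_num)]
  have b2 : |A.φ (A.y z * A.c (A.x z * A.y (w * w)))| ≤ 2 * Real.sqrt (A.M z w) * Real.sqrt (A.V z) := by
    refine (A.cs _ _).trans ?_
    rw [mul_comm]
    refine mul_le_mul ?_ (Real.sqrt_le_sqrt (yy_le hz)) (Real.sqrt_nonneg _) (by positivity)
    calc Real.sqrt (A.φ ((A.x z * A.y (w * w)) * A.c (A.x z * A.y (w * w))))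
        ≤ Real.sqrt (4 * A.M w z) := Real.sqrt_le_sqrt (mix2 hw hz)
      _ = 2 * Real.sqrt (A.M z w) := by
        rw [M_comm, show (4 : ℝ) * A.M z w = (2 * 2) * A.M z w by ring, Real.sqrt_mul (by norm_num),
          Real.sqrt_mul_self (by norm_num)]
  have b3 : |A.φ ((A.x w * A.y z) * A.c (A.x z * A.y w))| ≤ A.M z w := by
    refine (A.cs _ _).trans ?_
    have h1 := Real.sqrt_le_sqrt (mix1 hz hw)
    have h2 := Real.sqrt_le_sqrt (mix1 hw hz)
    rw [M_comm] at h2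
    calc _ ≤ Real.sqrt (A.M z w) * Real.sqrt (A.M z w) :=
          mul_le_mul h1 h2 (Real.sqrt_nonneg _) (Real.sqrt_nonneg _)
      _ = A.M z w := Real.mul_self_sqrt hM
  have b4 : A.M z w ≤ Real.sqrt (A.M z w) * (Real.sqrt (A.V z) + Real.sqrt (A.V w)) := by
    have h1 : Real.sqrt (A.M z w) ≤ 2 * Real.sqrt (A.V z) := by
      calc Real.sqrt (A.M z w) ≤ Real.sqrt (4 * A.V z) := Real.sqrt_le_sqrt (M_le_left hz hw)
        _ = 2 * Real.sqrt (A.V z) := by
          rw [show (4 : ℝ) * A.V z = (2 * 2) * A.V z by ring, Real.sqrt_mul (by norm_num),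
            Real.sqrt_mul_self (by norm_num)]
    have h2 : Real.sqrt (A.M z w) ≤ 2 * Real.sqrt (A.V w) := by
      calc Real.sqrt (A.M z w) ≤ Real.sqrt (4 * A.V w) := Real.sqrt_le_sqrt (M_le_right hz hw)
        _ = 2 * Real.sqrt (A.V w) := by
          rw [show (4 : ℝ) * A.V w = (2 * 2) * A.V w by ring, Real.sqrt_mul (by norm_num),
            Real.sqrt_mul_self (by norm_num)]
    have h3 : Real.sqrt (A.M z w) ≤ Real.sqrt (A.V z) + Real.sqrt (A.V w) := by linarith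
    calc A.M z w = Real.sqrt (A.M z w) * Real.sqrt (A.M z w) := (Real.mul_self_sqrt hM).symm
      _ ≤ _ := mul_le_mul_of_nonneg_left h3 (Real.sqrt_nonneg _)
  rw [e]
  have t : ∀ a b c d : ℝ, |(1 / 4 : ℝ) * a + (1 / 2 : ℝ) * b + (1 / 2 : ℝ) * c + d|
      ≤ |a| / 4 + |b| / 2 + |c| / 2 + |d| := by
    intro a b c d
    rw [abs_le]
    constructor
    · have := neg_abs_le a; have := neg_abs_le b; have := neg_abs_le c; have := neg_abs_le d
      linarith
    · have := le_abs_self a; have := le_abs_self b; have := le_abs_self c; have := le_abs_self d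
      linarith
  refine (t _ _ _ _).trans ?_
  have : Real.sqrt (A.M z w) * (Real.sqrt (A.V z) + Real.sqrt (A.V w))
      = Real.sqrt (A.M z w) * Real.sqrt (A.V z) + Real.sqrt (A.M z w) * Real.sqrt (A.V w) := by ring
  nlinarith

/-- ITERATED: `J` doublings. -/
theorem T_iter {z w : R} (hz : A.Ctr z) (hw : A.Ctr w) (J : ℕ) :
    |A.T z w| ≤ Real.sqrt (A.V (z ^ 2 ^ J)) * Real.sqrt (A.V (w ^ 2 ^ J)) / 4 ^ J
      + 2 * ∑ i ∈ range J, Real.sqrt (A.M (z ^ 2 ^ i) (w ^ 2 ^ i))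
          * (Real.sqrt (A.V (z ^ 2 ^ i)) + Real.sqrt (A.V (w ^ 2 ^ i))) / 4 ^ i := by
  have key : ∀ J : ℕ, |A.T z w| ≤ |A.T (z ^ 2 ^ J) (w ^ 2 ^ J)| / 4 ^ J
      + 2 * ∑ i ∈ range J, Real.sqrt (A.M (z ^ 2 ^ i) (w ^ 2 ^ i))
          * (Real.sqrt (A.V (z ^ 2 ^ i)) + Real.sqrt (A.V (w ^ 2 ^ i))) / 4 ^ i := by
    intro J
    induction J with
    | zero => simp
    | succ J ih =>
      refine ih.trans ?_
      have h := T_step (hz.pow (2 ^ J)) (hw.pow (2 ^ J))
      have ez : z ^ 2 ^ J * z ^ 2 ^ J = z ^ 2 ^ (J + 1) := by rw [← pow_add]; congr 1; ring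
      have ew : w ^ 2 ^ J * w ^ 2 ^ J = w ^ 2 ^ (J + 1) := by rw [← pow_add]; congr 1; ring
      rw [ez, ew] at h
      have h4 : (0 : ℝ) < 4 ^ J := by positivity
      have h5 : |A.T (z ^ 2 ^ J) (w ^ 2 ^ J)| / 4 ^ J
          ≤ (|A.T (z ^ 2 ^ (J + 1)) (w ^ 2 ^ (J + 1))| / 4
            + 2 * (Real.sqrt (A.M (z ^ 2 ^ J) (w ^ 2 ^ J))
              * (Real.sqrt (A.V (z ^ 2 ^ J)) + Real.sqrt (A.V (w ^ 2 ^ J))))) / 4 ^ J :=
        div_le_div_of_nonneg_right h h4.le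
      rw [sum_range_succ]
      have e : (|A.T (z ^ 2 ^ (J + 1)) (w ^ 2 ^ (J + 1))| / 4
            + 2 * (Real.sqrt (A.M (z ^ 2 ^ J) (w ^ 2 ^ J))
              * (Real.sqrt (A.V (z ^ 2 ^ J)) + Real.sqrt (A.V (w ^ 2 ^ J))))) / 4 ^ J
          = |A.T (z ^ 2 ^ (J + 1)) (w ^ 2 ^ (J + 1))| / 4 ^ (J + 1)
            + 2 * (Real.sqrt (A.M (z ^ 2 ^ J) (w ^ 2 ^ J))
              * (Real.sqrt (A.V (z ^ 2 ^ J)) + Real.sqrt (A.V (w ^ 2 ^ J))) / 4 ^ J) := by
        rw [show (4 : ℝ) ^ (J + 1) = 4 ^ J * 4 from pow_succ _ _]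
        field_simp
      rw [e] at h5
      linarith
  refine (key J).trans ?_
  have := T_le (hz.pow (2 ^ J)) (hw.pow (2 ^ J))
  have h4 : (0 : ℝ) < 4 ^ J := by positivity
  have := div_le_div_of_nonneg_right this h4.le
  linarith

/-- THE STEP OVER A SCALE: `V` of the product of two windows. -/
theorem V_step {z w : R} (hz : A.Ctr z) (hw : A.Ctr w) (J : ℕ) :
    A.V (z * w) ≤ A.V z + A.V w
      + 2 * (Real.sqrt (A.V (z ^ 2 ^ J)) * Real.sqrt (A.V (w ^ 2 ^ J)) / 4 ^ J)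
      + 4 * ∑ i ∈ range J, Real.sqrt (A.M (z ^ 2 ^ i) (w ^ 2 ^ i))
          * (Real.sqrt (A.V (z ^ 2 ^ i)) + Real.sqrt (A.V (w ^ 2 ^ i))) / 4 ^ i := by
  have h1 := V_mul_le hz hw
  have h2 := T_iter hz hw J
  have h3 := le_abs_self (A.T z w)
  linarith

/-- `V (z²) ≤ 4 V z`. -/
lemma V_sq_le {z : R} (hz : A.Ctr z) : A.V (z * z) ≤ 4 * A.V z := by
  have h1 := V_mul_le hz hz
  have h2 := T_le hz hz
  have h3 := le_abs_self (A.T z z)
  rw [Real.mul_self_sqrt (V_nonneg hz)] at h2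
  linarith

end PosF

end Pool.Agent.W_7d29a1_Z
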