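import Mathlib
import Pool.Agent.W_7d29a1_Z.VAlg57

/-!
# The L2 calculus of commuting dislocations (realisation)

`G` is a commutative group, `ρ` a representation by isometries of a real inner product space, `F` a
vector: `posF ρ hρ F` is the positive functional on the group algebra. `avg p g = ∑ i, p i • g i`
(`p` a probability weight) is a random element of `G`: `V (avg p g) = ∑ i, p i ‖ρ (g i) F - F‖²`,
`M (avg p g) (avg q h) = ∑ i j, p i q j ‖ρ (g i * h j) F - ρ (g i) F - ρ (h j) F + F‖²`.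
For measure preserving maps these are integrals (`V_meas`, `M_meas`).
-/

namespace Pool.Agent.W_7d29a1_Z

open Finset MeasureTheory
open scoped RealInnerProductSpace

noncomputable section

section Rep

variable {H : Type*} [NormedAddCommGroup H] [InnerProductSpace ℝ H] {G : Type*} [CommGroup G]
  (ρ : G →* Module.End ℝ H)

/-- The extension to the group algebra. -/
def Phi : MonoidAlgebra ℝ G →ₐ[ℝ] Module.End ℝ H := MonoidAlgebra.lift ℝ (Module.End ℝ H) G ρ

/-- The involution of the group algebra. -/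
def cInv : MonoidAlgebra ℝ G →ₐ[ℝ] MonoidAlgebra ℝ G :=
  MonoidAlgebra.mapDomainAlgHom ℝ ℝ (invMonoidHom : G →* G)

/-- The unit of the group algebra given by `g`. -/
def un (g : G) : MonoidAlgebra ℝ G := MonoidAlgebra.single g 1

lemma single_eq (g : G) (r : ℝ) : MonoidAlgebra.single g r = r • un g := by
  unfold un; simp

lemma cInv_un (g : G) : cInv (un g) = un g⁻¹ := by
  unfold cInv un; simp

lemma un_mul (g h : G) : un (g * h) = un g * un h := by
  unfold un; simp

lemma un_one : un (1 : G) = 1 := rfl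

lemma ind {p : MonoidAlgebra ℝ G → Prop} (f : MonoidAlgebra ℝ G) (h0 : p 0)
    (ha : ∀ f g, p f → p g → p (f + g)) (hs : ∀ (r : ℝ) (g : G), p (r • un g)) : p f := by
  induction f using MonoidAlgebra.induction_linear with
  | zero => exact h0
  | add f g hf hg => exact ha f g hf hg
  | single g r => rw [single_eq]; exact hs r g

lemma cInv_cInv (f : MonoidAlgebra ℝ G) : cInv (cInv f) = f := by
  refine ind (p := fun f => cInv (cInv f) = f) f (by simp) ?_ ?_
  · intro f g hf hg; rw [map_add, map_add, hf, hg]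
  · intro r g; rw [map_smul, map_smul, cInv_un, cInv_un, inv_inv]

lemma Phi_un (g : G) : Phi ρ (un g) = ρ g := by
  unfold Phi un; simp

variable {ρ}

lemma adj (hρ : ∀ g u v, ⟪ρ g u, ρ g v⟫ = ⟪u, v⟫) (f : MonoidAlgebra ℝ G) (u v : H) :
    ⟪Phi ρ f u, v⟫ = ⟪u, Phi ρ (cInv f) v⟫ := by
  refine ind (p := fun f => ⟪Phi ρ f u, v⟫ = ⟪u, Phi ρ (cInv f) v⟫) f (by simp) ?_ ?_
  · intro f g hf hg
    rw [map_add, map_add, map_add, LinearMap.add_apply, LinearMap.add_apply, inner_add_left,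
      inner_add_right, hf, hg]
  · intro r g
    rw [map_smul, map_smul, map_smul, cInv_un, Phi_un, Phi_un, LinearMap.smul_apply,
      LinearMap.smul_apply, inner_smul_left, inner_smul_right]
    simp only [conj_trivial]
    congr 1
    have h := hρ g u (ρ g⁻¹ v)
    have h1 : ρ g (ρ g⁻¹ v) = v := by
      rw [← Module.End.mul_apply, ← map_mul, mul_inv_cancel, map_one, Module.End.one_apply]
    rw [h1] at h
    exact h

/-- The positive functional. -/
def posF (ρ : G →* Module.End ℝ H) (hρ : ∀ g u v, ⟪ρ g u, ρ g v⟫ = ⟪u, v⟫) (F : H) :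
    PosF (MonoidAlgebra ℝ G) where
  c := cInv
  cc := cInv_cInv
  φ := { toFun := fun f => ⟪Phi ρ f F, F⟫
         map_add' := fun f g => by rw [map_add, LinearMap.add_apply, inner_add_left]
         map_smul' := fun r f => by
           rw [map_smul, LinearMap.smul_apply, inner_smul_left]; simp }
  φc := fun f => by
    change ⟪Phi ρ (cInv f) F, F⟫ = ⟪Phi ρ f F, F⟫
    rw [adj hρ, cInv_cInv, real_inner_comm]
  pos := fun f => by
    change 0 ≤ ⟪Phi ρ (f * cInv f) F, F⟫
    rw [mul_comm, map_mul, Module.End.mul_apply, adj hρ, cInv_cInv]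
    exact real_inner_self_nonneg

variable (hρ : ∀ g u v, ⟪ρ g u, ρ g v⟫ = ⟪u, v⟫) (F : H)

lemma posF_φ (f : MonoidAlgebra ℝ G) : (posF ρ hρ F).φ f = ⟪Phi ρ f F, F⟫ := rfl

lemma posF_c (f : MonoidAlgebra ℝ G) : (posF ρ hρ F).c f = cInv f := rfl

lemma φ_sq (f : MonoidAlgebra ℝ G) : (posF ρ hρ F).φ (f * (posF ρ hρ F).c f) = ‖Phi ρ f F‖ ^ 2 := by
  rw [posF_φ, posF_c, mul_comm, map_mul, Module.End.mul_apply, adj hρ, cInv_cInv,
    real_inner_self_eq_norm_sq]

lemma ctr_un (g : G) : (posF ρ hρ F).Ctr (un g) := by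
  refine PosF.ctr_unit ?_
  rw [posF_c, cInv_un, ← un_mul, mul_inv_cancel, un_one]

lemma x_un (g : G) : (posF ρ hρ F).x (un g)
    = (1 / 2 : ℝ) • ((un g - 1) * (posF ρ hρ F).c (un g - 1)) := by
  rw [PosF.x_eq]
  have h1 : un g * (posF ρ hρ F).c (un g) = 1 := by
    rw [posF_c, cInv_un, ← un_mul, mul_inv_cancel, un_one]
  rw [h1, sub_self, smul_zero, add_zero]
  congr 1
  simp only [map_sub, map_one]; ring

/-- A random element of `G`. -/
def avg {ι : Type*} [Fintype ι] (p : ι → ℝ) (g : ι → G) : MonoidAlgebra ℝ G :=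
  ∑ i, p i • un (g i)

variable {ι κ : Type*} [Fintype ι] [Fintype κ]

lemma avg_mul (p : ι → ℝ) (g : ι → G) (q : κ → ℝ) (h : κ → G) :
    avg p g * avg q h = avg (fun a : ι × κ => p a.1 * q a.2) (fun a => g a.1 * h a.2) := by
  unfold avg
  rw [Fintype.sum_mul_sum, Fintype.sum_prod_type]
  refine sum_congr rfl fun i _ => sum_congr rfl fun j _ => ?_
  rw [smul_mul_smul_comm, un_mul]

lemma avg_prod {β : Type*} [Fintype β] [DecidableEq β] {ι : β → Type*} [∀ b, Fintype (ι b)]
    (p : ∀ b, ι b → ℝ) (g : ∀ b, ι b → G) :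
    ∏ b, avg (p b) (g b)
      = avg (fun a : (∀ b, ι b) => ∏ b, p b (a b)) (fun a => ∏ b, g b (a b)) := by
  unfold avg
  rw [Finset.prod_univ_sum, Fintype.piFinset_univ]
  refine sum_congr rfl fun a _ => ?_
  rw [Finset.prod_smul]
  congr 1
  have h : ∀ s : Finset β, un (∏ b ∈ s, g b (a b)) = ∏ b ∈ s, un (g b (a b)) := by
    intro s
    induction s using Finset.induction_on with
    | empty => simp [un_one]
    | insert b s hb ih => rw [prod_insert hb, prod_insert hb, un_mul, ih]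
  exact (h univ).symm

lemma avg_pow (p : ι → ℝ) (g : ι → G) (n : ℕ) :
    avg p g ^ n
      = avg (fun a : Fin n → ι => ∏ b, p (a b)) (fun a => ∏ b, g (a b)) := by
  rw [← avg_prod (fun (_ : Fin n) => p) (fun (_ : Fin n) => g)]
  simp

lemma ctr_avg (p : ι → ℝ) (g : ι → G) (hp : ∀ i, 0 ≤ p i) (hs : ∑ i, p i = 1) :
    (posF ρ hρ F).Ctr (avg p g) := by
  have key : 1 - avg p g * (posF ρ hρ F).c (avg p g)
      = ∑ i, ∑ j, (p i * p j / 2) • ((un (g i) - un (g j)) * (posF ρ hρ F).c (un (g i) - un (g j))) := by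
    have e1 : ∀ i j, (un (g i) - un (g j)) * (posF ρ hρ F).c (un (g i) - un (g j))
        = 2 - un (g i) * (posF ρ hρ F).c (un (g j)) - un (g j) * (posF ρ hρ F).c (un (g i)) := by
      intro i j
      have hi : un (g i) * (posF ρ hρ F).c (un (g i)) = 1 := by
        rw [posF_c, cInv_un, ← un_mul, mul_inv_cancel, un_one]
      have hj : un (g j) * (posF ρ hρ F).c (un (g j)) = 1 := by
        rw [posF_c, cInv_un, ← un_mul, mul_inv_cancel, un_one]
      rw [map_sub, sub_mul, mul_sub, mul_sub, hi, hj]; ring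
    have e2 : avg p g * (posF ρ hρ F).c (avg p g)
        = ∑ i, ∑ j, (p i * p j) • (un (g i) * (posF ρ hρ F).c (un (g j))) := by
      unfold avg
      rw [map_sum, Fintype.sum_mul_sum]
      refine sum_congr rfl fun i _ => sum_congr rfl fun j _ => ?_
      rw [map_smul, smul_mul_smul_comm]
    have e3 : (1 : MonoidAlgebra ℝ G) = ∑ i, ∑ j, (p i * p j) • (1 : MonoidAlgebra ℝ G) := by
      rw [← Finset.sum_congr rfl fun i _ => Finset.sum_smul, ← Finset.sum_smul]
      have : ∑ i, ∑ j, p i * p j = 1 := by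
        rw [← Fintype.sum_mul_sum, hs, one_mul]
      rw [this, one_smul]
    have e4 : ∑ i, ∑ j, (p i * p j / 2) • (un (g j) * (posF ρ hρ F).c (un (g i)))
        = ∑ i, ∑ j, (p i * p j / 2) • (un (g i) * (posF ρ hρ F).c (un (g j))) := by
      rw [Finset.sum_comm]
      refine sum_congr rfl fun i _ => sum_congr rfl fun j _ => ?_
      rw [mul_comm (p j) (p i)]
    have e5 : ∀ i j, (p i * p j / 2) • ((un (g i) - un (g j)) * (posF ρ hρ F).c (un (g i) - un (g j)))
        = (p i * p j) • (1 : MonoidAlgebra ℝ G)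
          - (p i * p j / 2) • (un (g i) * (posF ρ hρ F).c (un (g j)))
          - (p i * p j / 2) • (un (g j) * (posF ρ hρ F).c (un (g i))) := by
      intro i j
      rw [e1, smul_sub, smul_sub]
      congr 2
      rw [show (2 : MonoidAlgebra ℝ G) = 1 + 1 from one_add_one_eq_two.symm, smul_add, ← add_smul]
      congr 1; ring
    rw [sum_congr rfl fun i _ => sum_congr rfl fun j _ => e5 i j]
    simp only [Finset.sum_sub_distrib]
    rw [e4, ← e3, e2]
    have e6 : ∀ X : MonoidAlgebra ℝ G, ∀ Y : MonoidAlgebra ℝ G, Y + Y = X → 1 - X = 1 - Y - Y := by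
      intro X Y h; rw [← h]; abel
    apply e6
    rw [← Finset.sum_add_distrib]
    refine sum_congr rfl fun i _ => ?_
    rw [← Finset.sum_add_distrib]
    refine sum_congr rfl fun j _ => ?_
    rw [← add_smul]; congr 1; ring
  unfold PosF.Ctr
  rw [key]
  refine AddSubmonoid.sum_mem _ fun i _ => AddSubmonoid.sum_mem _ fun j _ => ?_
  exact (posF ρ hρ F).S_smul (by have := mul_nonneg (hp i) (hp j); linarith)
    ((posF ρ hρ F).sq_mem _)

lemma x_avg (p : ι → ℝ) (g : ι → G) (hs : ∑ i, p i = 1) :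
    (posF ρ hρ F).x (avg p g) = ∑ i, p i • (posF ρ hρ F).x (un (g i)) := by
  unfold PosF.x avg
  rw [map_sum]
  have e1 : (1 : MonoidAlgebra ℝ G) = ∑ i, p i • (1 : MonoidAlgebra ℝ G) := by
    rw [← Finset.sum_smul, hs, one_smul]
  have e2 : (1 / 2 : ℝ) • (∑ i, p i • un (g i) + ∑ i, (posF ρ hρ F).c (p i • un (g i)))
      = ∑ i, p i • ((1 / 2 : ℝ) • (un (g i) + (posF ρ hρ F).c (un (g i)))) := by
    rw [← Finset.sum_add_distrib, Finset.smul_sum]
    refine sum_congr rfl fun i _ => ?_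
    rw [map_smul, ← smul_add, smul_smul, smul_smul, mul_comm]
  rw [e2]
  conv_lhs => rw [e1]
  rw [← Finset.sum_sub_distrib]
  refine sum_congr rfl fun i _ => ?_
  rw [smul_sub]

/-- `V` of a random element. -/
theorem V_avg (p : ι → ℝ) (g : ι → G) (hs : ∑ i, p i = 1) :
    (posF ρ hρ F).V (avg p g) = ∑ i, p i * ‖ρ (g i) F - F‖ ^ 2 := by
  unfold PosF.V
  rw [x_avg hρ F p g hs, map_sum, Finset.mul_sum]
  refine sum_congr rfl fun i _ => ?_
  rw [map_smul, x_un, map_smul, φ_sq, map_sub, Phi_un, map_one, LinearMap.sub_apply,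
    Module.End.one_apply]
  simp only [smul_eq_mul]; ring

/-- `M` of two random elements. -/
theorem M_avg (p : ι → ℝ) (g : ι → G) (hs : ∑ i, p i = 1) (q : κ → ℝ) (h : κ → G)
    (hq : ∑ j, q j = 1) :
    (posF ρ hρ F).M (avg p g) (avg q h)
      = ∑ i, ∑ j, p i * q j * ‖ρ (g i * h j) F - ρ (g i) F - ρ (h j) F + F‖ ^ 2 := by
  unfold PosF.M
  rw [x_avg hρ F p g hs, x_avg hρ F q h hq, Fintype.sum_mul_sum, map_sum, Finset.mul_sum]
  refine sum_congr rfl fun i _ => ?_
  rw [map_sum, Finset.mul_sum]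
  refine sum_congr rfl fun j _ => ?_
  have e : (p i • (posF ρ hρ F).x (un (g i))) * (q j • (posF ρ hρ F).x (un (h j)))
      = (p i * q j * (1 / 4)) • (((un (g i) - 1) * (un (h j) - 1))
          * (posF ρ hρ F).c ((un (g i) - 1) * (un (h j) - 1))) := by
    rw [smul_mul_smul_comm, x_un, x_un, smul_mul_smul_comm, smul_smul, map_mul]
    congr 1
    · ring
    · ring
  rw [e, map_smul, φ_sq]
  have e2 : Phi ρ ((un (g i) - 1) * (un (h j) - 1)) F
      = ρ (g i * h j) F - ρ (g i) F - ρ (h j) F + F := by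
    have : (un (g i) - 1) * (un (h j) - 1) = un (g i * h j) - un (g i) - un (h j) + 1 := by
      rw [un_mul]; ring
    rw [this, map_add, map_sub, map_sub, Phi_un, Phi_un, Phi_un, map_one]
    simp only [LinearMap.add_apply, LinearMap.sub_apply, Module.End.one_apply]
  rw [e2]
  simp only [smul_eq_mul]; ring

end Rep

/-! ### Measure preserving maps -/

section Meas

variable {Ω : Type*} [MeasurableSpace Ω] (P : Measure Ω) {G : Type*} [CommGroup G]
  (T : G → Ω → Ω) (h1 : T 1 = id) (hm : ∀ g h, T (g * h) = T g ∘ T h)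
  (hT : ∀ g, MeasurePreserving (T g) P P)

/-- The Koopman representation. -/
def koop : G →* Module.End ℝ (Lp ℝ 2 P) where
  toFun g := (Lp.compMeasurePreservingₗ ℝ (T g) (hT g))
  map_one' := by
    ext1 F
    change Lp.compMeasurePreserving (T 1) (hT 1) F = F
    have : Lp.compMeasurePreserving (T 1) (hT 1) F = Lp.compMeasurePreserving id (.id P) F := by
      congr 1
      simp only [h1]
    rw [this, Lp.compMeasurePreserving_id_apply]
  map_mul' g h := by
    ext1 F
    change Lp.compMeasurePreserving (T (g * h)) (hT (g * h)) F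
      = Lp.compMeasurePreserving (T g) (hT g) (Lp.compMeasurePreserving (T h) (hT h) F)
    rw [← Lp.compMeasurePreserving_comp_apply F (hT h) (hT g)]
    have : T (g * h) = T h ∘ T g := by rw [mul_comm, hm]
    simp only [this]

variable {P T}

lemma koop_toLp {F : Ω → ℝ} (hF : MemLp F 2 P) (g : G) :
    koop P T h1 hm hT g (hF.toLp F) = (hF.comp_measurePreserving (hT g)).toLp (F ∘ T g) := rfl

lemma koop_inner (g : G) (u v : Lp ℝ 2 P) :
    ⟪koop P T h1 hm hT g u, koop P T h1 hm hT g v⟫ = ⟪u, v⟫ :=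
  (Lp.compMeasurePreservingₗᵢ ℝ (T g) (hT g)).inner_map_map u v

lemma norm_sq_toLp {F : Ω → ℝ} (hF : MemLp F 2 P) : ‖hF.toLp F‖ ^ 2 = ∫ ω, (F ω) ^ 2 ∂P := by
  rw [← real_inner_self_eq_norm_sq, L2.inner_def]
  refine integral_congr_ae ?_
  filter_upwards [hF.coeFn_toLp] with ω hω
  rw [hω]
  simp [sq]

variable {ι κ : Type*} [Fintype ι] [Fintype κ]

/-- The positive functional of a square integrable function. -/
def mF {F : Ω → ℝ} (hF : MemLp F 2 P) : PosF (MonoidAlgebra ℝ G) :=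
  posF (koop P T h1 hm hT) (koop_inner h1 hm hT) (hF.toLp F)

/-- `V` is the second moment of the response. -/
theorem V_meas {F : Ω → ℝ} (hF : MemLp F 2 P) (p : ι → ℝ) (g : ι → G) (hs : ∑ i, p i = 1) :
    (mF h1 hm hT hF).V (avg p g) = ∑ i, p i * ∫ ω, (F (T (g i) ω) - F ω) ^ 2 ∂P := by
  unfold mF
  rw [V_avg _ _ p g hs]
  refine sum_congr rfl fun i _ => ?_
  rw [koop_toLp, ← MemLp.toLp_sub, norm_sq_toLp]
  rfl

/-- `M` is the second moment of the mixed difference. -/
theorem M_meas {F : Ω → ℝ} (hF : MemLp F 2 P) (p : ι → ℝ) (g : ι → G) (hs : ∑ i, p i = 1)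
    (q : κ → ℝ) (h : κ → G) (hq : ∑ j, q j = 1) :
    (mF h1 hm hT hF).M (avg p g) (avg q h) = ∑ i, ∑ j, p i * q j *
      ∫ ω, (F (T (g i * h j) ω) - F (T (g i) ω) - F (T (h j) ω) + F ω) ^ 2 ∂P := by
  unfold mF
  rw [M_avg _ _ p g hs q h hq]
  refine sum_congr rfl fun i _ => sum_congr rfl fun j _ => ?_
  rw [koop_toLp, koop_toLp, koop_toLp, ← MemLp.toLp_sub, ← MemLp.toLp_sub, ← MemLp.toLp_add,
    norm_sq_toLp]
  rfl

/-- Random elements are contraction symbols. -/
theorem ctr_meas {F : Ω → ℝ} (hF : MemLp F 2 P) (p : ι → ℝ) (g : ι → G) (hp : ∀ i, 0 ≤ p i)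
    (hs : ∑ i, p i = 1) : (mF h1 hm hT hF).Ctr (avg p g) :=
  ctr_avg _ _ p g hp hs

end Meas

end

end Pool.Agent.W_7d29a1_Z
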