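import Mathlib

/-!
STORM Z, block (V): averages of commuting isometries of a real inner product space. (helper25)

`(p, U)` is a finite family of linear isometries `U i` with weights `p i ≥ 0`, `∑ p = 1`; `Z = ∑ p i U i`,
`Z* = ∑ p i (U i)⁻¹`, `X = 1 - (Z + Z*) / 2`, `A = (Z - Z*) / 2`, `V = ∑ p i ‖U i G - G‖²`.
-/

namespace Pool.Agent.W_7d29a1_Z

open scoped RealInnerProductSpace

noncomputable section

variable {H : Type*} [NormedAddCommGroup H] [InnerProductSpace ℝ H]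

/-- A finite family of isometries with weights. -/
structure Fam (H : Type*) [NormedAddCommGroup H] [InnerProductSpace ℝ H] where
  /-- the index type -/
  ι : Type
  /-- finite -/
  fin : Fintype ι
  /-- the weights -/
  p : ι → ℝ
  /-- the isometries -/
  U : ι → (H ≃ₗᵢ[ℝ] H)
  /-- nonnegative -/
  hp : ∀ i, 0 ≤ p i
  /-- total mass one -/
  hs : (letI := fin; ∑ i, p i) = 1

attribute [instance] Fam.fin

namespace Fam

variable (a b : Fam H) (F G : H)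

/-- `Z`. -/
def Z : H := ∑ i, a.p i • a.U i F

/-- `Z*`. -/
def Zs : H := ∑ i, a.p i • (a.U i).symm F

/-- `X = 1 - (Z + Z*) / 2`. -/
def X : H := F - (1 / 2 : ℝ) • (a.Z F + a.Zs F)

/-- `A = (Z - Z*) / 2`. -/
def A : H := (1 / 2 : ℝ) • (a.Z F - a.Zs F)

/-- `V = ∑ p i ‖U i G - G‖²`. -/
def V : ℝ := ∑ i, a.p i * ‖a.U i F - F‖ ^ 2

/-- `E M² = ∑ p i q j ‖(U i - 1) (W j - 1) G‖²`. -/
def EM2 : ℝ := ∑ i, ∑ j, a.p i * b.p j * ‖a.U i (b.U j F - F) - (b.U j F - F)‖ ^ 2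

/-- The composition of two independent families. -/
def mul : Fam H where
  ι := a.ι × b.ι
  fin := inferInstance
  p := fun x => a.p x.1 * b.p x.2
  U := fun x => (b.U x.2).trans (a.U x.1)
  hp := fun x => mul_nonneg (a.hp _) (b.hp _)
  hs := by
    rw [Fintype.sum_prod_type]
    simp only [← Finset.mul_sum, b.hs, mul_one, a.hs]

/-- All the isometries commute. -/
def Comm : Prop := ∀ i j F, a.U i (b.U j F) = b.U j (a.U i F)

variable {a b F G}

theorem Comm.symm (h : Comm a b) : Comm b a := fun i j F => (h j i F).symm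

theorem Comm.inv_left (h : Comm a b) (i : a.ι) (j : b.ι) (F : H) :
    (a.U i).symm (b.U j F) = b.U j ((a.U i).symm F) := by
  apply (a.U i).injective
  rw [(a.U i).apply_symm_apply, h i j, (a.U i).apply_symm_apply]

theorem Comm.inv_right (h : Comm a b) (i : a.ι) (j : b.ι) (F : H) :
    a.U i ((b.U j).symm F) = (b.U j).symm (a.U i F) := (h.symm.inv_left j i F).symm

theorem Comm.inv_inv (h : Comm a b) (i : a.ι) (j : b.ι) (F : H) :
    (a.U i).symm ((b.U j).symm F) = (b.U j).symm ((a.U i).symm F) := by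
  apply (a.U i).injective
  rw [(a.U i).apply_symm_apply, h.inv_right i j, (a.U i).apply_symm_apply]

/-! Linearity. -/

theorem Z_add : a.Z (F + G) = a.Z F + a.Z G := by
  simp only [Z, map_add, smul_add, Finset.sum_add_distrib]

theorem Z_smul (c : ℝ) : a.Z (c • F) = c • a.Z F := by
  simp only [Z, map_smul, Finset.smul_sum]
  exact Finset.sum_congr rfl fun i _ => smul_comm _ _ _

theorem Z_sub : a.Z (F - G) = a.Z F - a.Z G := by
  simp only [Z, map_sub, smul_sub, Finset.sum_sub_distrib]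

theorem Zs_add : a.Zs (F + G) = a.Zs F + a.Zs G := by
  simp only [Zs, map_add, smul_add, Finset.sum_add_distrib]

theorem Zs_smul (c : ℝ) : a.Zs (c • F) = c • a.Zs F := by
  simp only [Zs, map_smul, Finset.smul_sum]
  exact Finset.sum_congr rfl fun i _ => smul_comm _ _ _

theorem Zs_sub : a.Zs (F - G) = a.Zs F - a.Zs G := by
  simp only [Zs, map_sub, smul_sub, Finset.sum_sub_distrib]

theorem Z_sum {κ : Type*} (s : Finset κ) (f : κ → H) : a.Z (∑ j ∈ s, f j) = ∑ j ∈ s, a.Z (f j) := by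
  simp only [Z, map_sum, Finset.smul_sum]
  exact Finset.sum_comm

theorem Zs_sum {κ : Type*} (s : Finset κ) (f : κ → H) : a.Zs (∑ j ∈ s, f j) = ∑ j ∈ s, a.Zs (f j) := by
  simp only [Zs, map_sum, Finset.smul_sum]
  exact Finset.sum_comm

/-! Adjoints. -/

theorem inner_symm_iso (u : H ≃ₗᵢ[ℝ] H) (F G : H) : ⟪u F, G⟫ = ⟪F, u.symm G⟫ := by
  rw [← u.symm.inner_map_map (u F) G, u.symm_apply_apply]

theorem adj : ⟪a.Z F, G⟫ = ⟪F, a.Zs G⟫ := by
  simp only [Z, Zs, sum_inner, inner_sum, real_inner_smul_left, real_inner_smul_right]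
  exact Finset.sum_congr rfl fun i _ => by rw [inner_symm_iso]

theorem adj' : ⟪a.Zs F, G⟫ = ⟪F, a.Z G⟫ := by
  rw [real_inner_comm, ← adj, real_inner_comm]

/-! Commutation. -/

theorem Comm.U_Z (h : Comm a b) (i : a.ι) : a.U i (b.Z F) = b.Z (a.U i F) := by
  simp only [Z, map_sum, map_smul]
  exact Finset.sum_congr rfl fun j _ => by rw [h i j]

theorem Comm.U_Zs (h : Comm a b) (i : a.ι) : a.U i (b.Zs F) = b.Zs (a.U i F) := by
  simp only [Zs, map_sum, map_smul]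
  exact Finset.sum_congr rfl fun j _ => by rw [h.inv_right i j]

theorem Comm.Us_Z (h : Comm a b) (i : a.ι) : (a.U i).symm (b.Z F) = b.Z ((a.U i).symm F) := by
  simp only [Z, map_sum, map_smul]
  exact Finset.sum_congr rfl fun j _ => by rw [h.inv_left i j]

theorem Comm.Us_Zs (h : Comm a b) (i : a.ι) : (a.U i).symm (b.Zs F) = b.Zs ((a.U i).symm F) := by
  simp only [Zs, map_sum, map_smul]
  exact Finset.sum_congr rfl fun j _ => by rw [h.inv_inv i j]

theorem Comm.Z_Z (h : Comm a b) : a.Z (b.Z F) = b.Z (a.Z F) := by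
  conv_rhs => rw [Z.eq_def a, Z_sum]
  conv_lhs => rw [Z.eq_def a]
  exact Finset.sum_congr rfl fun i _ => by rw [h.U_Z i, Z_smul]

theorem Comm.Z_Zs (h : Comm a b) : a.Z (b.Zs F) = b.Zs (a.Z F) := by
  conv_rhs => rw [Z.eq_def a, Zs_sum]
  conv_lhs => rw [Z.eq_def a]
  exact Finset.sum_congr rfl fun i _ => by rw [h.U_Zs i, Zs_smul]

theorem Comm.Zs_Zs (h : Comm a b) : a.Zs (b.Zs F) = b.Zs (a.Zs F) := by
  conv_rhs => rw [Zs.eq_def a, Zs_sum]
  conv_lhs => rw [Zs.eq_def a]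
  exact Finset.sum_congr rfl fun i _ => by rw [h.Us_Zs i, Zs_smul]

theorem Comm.Zs_Z (h : Comm a b) : a.Zs (b.Z F) = b.Z (a.Zs F) := (h.symm.Z_Zs).symm

/-! The algebra of `X` and `A`. -/

theorem mul_Z : (a.mul b).Z F = a.Z (b.Z F) := by
  show ∑ x : a.ι × b.ι, (a.p x.1 * b.p x.2) • a.U x.1 (b.U x.2 F) = ∑ i, a.p i • a.U i (∑ j, b.p j • b.U j F)
  rw [Fintype.sum_prod_type]
  refine Finset.sum_congr rfl fun i _ => ?_
  rw [map_sum, Finset.smul_sum]
  exact Finset.sum_congr rfl fun j _ => by rw [map_smul, smul_smul]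

theorem mul_Zs : (a.mul b).Zs F = b.Zs (a.Zs F) := by
  show ∑ x : a.ι × b.ι, (a.p x.1 * b.p x.2) • (b.U x.2).symm ((a.U x.1).symm F) =
    ∑ j, b.p j • (b.U j).symm (∑ i, a.p i • (a.U i).symm F)
  rw [Fintype.sum_prod_type_right]
  refine Finset.sum_congr rfl fun j _ => ?_
  rw [map_sum, Finset.smul_sum]
  exact Finset.sum_congr rfl fun i _ => by rw [map_smul, smul_smul, mul_comm]

theorem X_sub : a.X (F - G) = a.X F - a.X G := by
  simp only [X, Z_sub, Zs_sub, smul_add, smul_sub]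
  abel

theorem A_sub : a.A (F - G) = a.A F - a.A G := by
  simp only [A, Z_sub, Zs_sub, smul_sub]
  abel

theorem X_self : ⟪a.X F, G⟫ = ⟪F, a.X G⟫ := by
  simp only [X, inner_sub_left, inner_sub_right, real_inner_smul_left, real_inner_smul_right, inner_add_left,
    inner_add_right, adj, adj']
  ring

theorem A_skew : ⟪a.A F, G⟫ = -⟪F, a.A G⟫ := by
  simp only [A, inner_sub_right, real_inner_smul_left, real_inner_smul_right, inner_sub_left, adj, adj']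
  ring

theorem Comm.U_X (h : Comm a b) (i : a.ι) : a.U i (b.X F) = b.X (a.U i F) := by
  simp only [X, map_sub, map_smul, map_add, h.U_Z i, h.U_Zs i]

theorem Comm.U_A (h : Comm a b) (i : a.ι) : a.U i (b.A F) = b.A (a.U i F) := by
  simp only [A, map_sub, map_smul, h.U_Z i, h.U_Zs i]

theorem Comm.X_X (h : Comm a b) : a.X (b.X F) = b.X (a.X F) := by
  simp only [X, Z_sub, Zs_sub, Z_smul, Zs_smul, Z_add, Zs_add, h.Z_Z, h.Z_Zs, h.Zs_Z, h.Zs_Zs]
  module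

theorem Comm.X_A (h : Comm a b) : a.X (b.A F) = b.A (a.X F) := by
  simp only [X, A, Z_sub, Zs_sub, Z_smul, Zs_smul, Z_add, Zs_add, h.Z_Z, h.Z_Zs, h.Zs_Z, h.Zs_Zs]
  module

/-- `A` of the doubled family. -/
theorem A_double (h : Comm a a) : (a.mul a).A F = (2 : ℝ) • (a.A F - a.X (a.A F)) := by
  have h1 : a.Z (a.Zs F) = a.Zs (a.Z F) := h.Z_Zs
  simp only [X, A, mul_Z, mul_Zs, Z_sub, Zs_sub, Z_smul, Zs_smul, h1]
  module

/-- `E⟪(U - 1) F, (U - 1) G⟫ = 2 ⟪X F, G⟫`. -/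
theorem sum_inner_X : ∑ i, a.p i * ⟪a.U i F - F, a.U i G - G⟫ = 2 * ⟪a.X F, G⟫ := by
  have h1 : ∀ i, a.p i * ⟪a.U i F - F, a.U i G - G⟫ =
      a.p i * (2 * ⟪F, G⟫) - a.p i * ⟪a.U i F, G⟫ - a.p i * ⟪(a.U i).symm F, G⟫ := by
    intro i
    rw [inner_sub_left, inner_sub_right, inner_sub_right, (a.U i).inner_map_map,
      show ⟪F, a.U i G⟫ = ⟪(a.U i).symm F, G⟫ by
        rw [real_inner_comm, inner_symm_iso, real_inner_comm]]
    ring
  simp only [h1, Finset.sum_sub_distrib, ← Finset.sum_mul, a.hs]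
  have h2 : ∑ i, a.p i * ⟪a.U i F, G⟫ = ⟪a.Z F, G⟫ := by
    simp only [Z, sum_inner, real_inner_smul_left]
  have h3 : ∑ i, a.p i * ⟪(a.U i).symm F, G⟫ = ⟪a.Zs F, G⟫ := by
    simp only [Zs, sum_inner, real_inner_smul_left]
  rw [h2, h3]
  simp only [X, inner_sub_left, real_inner_smul_left, inner_add_left]
  ring

theorem V_eq : a.V F = 2 * ⟪a.X F, F⟫ := by
  rw [← sum_inner_X]
  exact Finset.sum_congr rfl fun i _ => by rw [real_inner_self_eq_norm_sq]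

theorem V_nonneg : 0 ≤ a.V F := Finset.sum_nonneg fun i _ => mul_nonneg (a.hp i) (sq_nonneg _)

theorem EM2_nonneg : 0 ≤ a.EM2 b F := Finset.sum_nonneg fun i _ => Finset.sum_nonneg fun j _ =>
  mul_nonneg (mul_nonneg (a.hp i) (b.hp j)) (sq_nonneg _)

theorem Comm.EM2_eq (h : Comm a b) : a.EM2 b F = ∑ i, a.p i * b.V (a.U i F - F) := by
  refine Finset.sum_congr rfl fun i _ => ?_
  rw [V, Finset.mul_sum]
  refine Finset.sum_congr rfl fun j _ => ?_
  have h1 : a.U i (b.U j F - F) - (b.U j F - F) = b.U j (a.U i F - F) - (a.U i F - F) := by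
    rw [map_sub, map_sub, h i j]
    abel
  rw [h1, mul_assoc]

theorem EM2_eq' : a.EM2 b F = ∑ j, b.p j * a.V (b.U j F - F) := by
  rw [EM2, Finset.sum_comm]
  refine Finset.sum_congr rfl fun j _ => ?_
  rw [V, Finset.mul_sum]
  exact Finset.sum_congr rfl fun i _ => by ring

theorem Comm.EM2_comm (h : Comm a b) : a.EM2 b F = b.EM2 a F := by
  rw [h.EM2_eq, EM2_eq']

/-- `E M² = 4 ⟪X F, X' F⟫`. -/
theorem Comm.EM2_X (h : Comm a b) : a.EM2 b F = 4 * ⟪a.X F, b.X F⟫ := by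
  rw [h.EM2_eq]
  have h1 : ∀ i, a.p i * b.V (a.U i F - F) = 2 * (a.p i * ⟪a.U i (b.X F) - b.X F, a.U i F - F⟫) := by
    intro i
    rw [V_eq, X_sub, h.U_X i]
    ring
  simp only [h1, ← Finset.mul_sum]
  rw [sum_inner_X, X_self (a := a), real_inner_comm]
  ring

/-- **(a)** The variance of two independent families. -/
theorem Comm.V_mul (h : Comm a b) :
    (a.mul b).V F = a.V F + b.V F - a.EM2 b F / 2 + 2 * ⟪a.A F, b.A F⟫ := by
  have hZ : ∀ c : Fam H, c.Z F = F - c.X F + c.A F := by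
    intro c
    simp only [X, A]
    module
  have hV : ∀ c : Fam H, c.V F = 2 * (⟪F, F⟫ - ⟪c.Z F, F⟫) := by
    intro c
    rw [V_eq]
    have h1 : ⟪c.Zs F, F⟫ = ⟪c.Z F, F⟫ := by rw [adj', real_inner_comm]
    simp only [X, inner_sub_left, real_inner_smul_left, inner_add_left, h1]
    ring
  have hZ2 : b.Z F = F - b.X F + b.A F := hZ b
  have h1 : ⟪(a.mul b).Z F, F⟫ = ⟪b.Z F, a.Zs F⟫ := by rw [mul_Z, adj]
  have hZs : a.Zs F = F - a.X F - a.A F := by
    simp only [X, A]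
    module
  have h2 : ⟪b.A F, F⟫ = 0 := by
    have := A_skew (a := b) (F := F) (G := F)
    rw [real_inner_comm] at this
    linarith [real_inner_comm F (b.A F)]
  have h3 : ⟪F, a.A F⟫ = 0 := by
    have := A_skew (a := a) (F := F) (G := F)
    linarith [real_inner_comm F (a.A F)]
  have h4 : ⟪b.X F, a.A F⟫ = 0 := by
    have e1 : ⟪b.X F, a.A F⟫ = ⟪F, b.X (a.A F)⟫ := X_self
    have e2 : ⟪F, a.A (b.X F)⟫ = -⟪a.A F, b.X F⟫ := by rw [A_skew, neg_neg]
    rw [e1, h.symm.X_A, e2, real_inner_comm]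
    have e3 : ⟪b.X F, a.A F⟫ = -⟪b.X F, a.A F⟫ := by
      conv_lhs => rw [e1, h.symm.X_A, e2, real_inner_comm]
    linarith
  have h5 : ⟪b.A F, a.X F⟫ = 0 := by
    have e1 : ⟪b.A F, a.X F⟫ = ⟪a.X (b.A F), F⟫ := X_self.symm
    have e2 : ⟪b.A (a.X F), F⟫ = -⟪a.X F, b.A F⟫ := A_skew
    have e3 : ⟪b.A F, a.X F⟫ = -⟪b.A F, a.X F⟫ := by
      conv_lhs => rw [e1, h.X_A, e2, real_inner_comm]
    linarith
  rw [hV (a.mul b), h1, hZs, hZ2, h.EM2_X, V_eq, V_eq]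
  simp only [inner_sub_left, inner_sub_right, inner_add_left, h2, h3, h4, h5]
  have e1 : ⟪F, a.X F⟫ = ⟪a.X F, F⟫ := real_inner_comm _ _
  have e2 : ⟪b.X F, a.X F⟫ = ⟪a.X F, b.X F⟫ := real_inner_comm _ _
  have e3 : ⟪b.A F, a.A F⟫ = ⟪a.A F, b.A F⟫ := real_inner_comm _ _
  rw [e1, e2, e3]
  ring

/-- **(b)** The recursion of the cross term. -/
theorem Comm.cross (h : Comm a b) (ha : Comm a a) (hb : Comm b b) :
    ⟪a.A F, b.A F⟫ = (1 / 4) * ⟪(a.mul a).A F, (b.mul b).A F⟫ + ⟪a.A F, a.X (b.A F)⟫ + ⟪b.X (a.A F), b.A F⟫ -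
      ⟪b.X (a.A F), a.X (b.A F)⟫ := by
  have e0 := h
  rw [A_double ha, A_double hb]
  simp only [real_inner_smul_left, real_inner_smul_right, inner_sub_left, inner_sub_right]
  have e1 : ⟪a.X (a.A F), b.A F⟫ = ⟪a.A F, a.X (b.A F)⟫ := X_self
  have e2 : ⟪a.A F, b.X (b.A F)⟫ = ⟪b.X (a.A F), b.A F⟫ := X_self.symm
  have e3 : ⟪a.X (a.A F), b.X (b.A F)⟫ = ⟪b.X (a.A F), a.X (b.A F)⟫ := by
    rw [X_self (a := a), h.X_X, ← X_self (a := b)]
  rw [e1, e2, e3]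
  ring

/-! Norms. -/

theorem norm_symm_sub (u : H ≃ₗᵢ[ℝ] H) (F : H) : ‖u.symm F - F‖ = ‖u F - F‖ := by
  rw [← u.norm_map (u.symm F - F), map_sub, u.apply_symm_apply, norm_sub_rev]

theorem jensen_sq (x : a.ι → ℝ) : (∑ i, a.p i * x i) ^ 2 ≤ ∑ i, a.p i * x i ^ 2 := by
  set m := ∑ i, a.p i * x i with hm
  have h1 : 0 ≤ ∑ i, a.p i * (x i - m) ^ 2 :=
    Finset.sum_nonneg fun i _ => mul_nonneg (a.hp i) (sq_nonneg _)
  have h2 : ∑ i, a.p i * (x i - m) ^ 2 = ∑ i, a.p i * x i ^ 2 - 2 * m * ∑ i, a.p i * x i + m ^ 2 * ∑ i, a.p i := by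
    have e : ∀ i, a.p i * (x i - m) ^ 2 = a.p i * x i ^ 2 - 2 * m * (a.p i * x i) + m ^ 2 * a.p i := fun i => by ring
    simp only [e, Finset.sum_add_distrib, Finset.sum_sub_distrib, ← Finset.mul_sum]
  rw [h2, ← hm, a.hs] at h1
  nlinarith

theorem norm_X_le : ‖a.X F‖ ^ 2 ≤ a.V F := by
  have h1 : a.X F = ∑ i, a.p i • ((1 / 2 : ℝ) • ((F - a.U i F) + (F - (a.U i).symm F))) := by
    have e1 : F = ∑ i, a.p i • F := by rw [← Finset.sum_smul, a.hs, one_smul]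
    have e2 : a.X F = ∑ i, a.p i • F - (1 / 2 : ℝ) • (a.Z F + a.Zs F) := by rw [← e1]; rfl
    rw [e2, Z, Zs, ← Finset.sum_add_distrib, Finset.smul_sum, ← Finset.sum_sub_distrib]
    exact Finset.sum_congr rfl fun i _ => by module
  have h2 : ‖a.X F‖ ≤ ∑ i, a.p i * ‖a.U i F - F‖ := by
    rw [h1]
    refine (norm_sum_le _ _).trans (Finset.sum_le_sum fun i _ => ?_)
    rw [norm_smul, norm_smul, Real.norm_of_nonneg (a.hp i), Real.norm_of_nonneg (by norm_num)]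
    refine mul_le_mul_of_nonneg_left ?_ (a.hp i)
    have e1 := norm_add_le (F - a.U i F) (F - (a.U i).symm F)
    rw [norm_sub_rev F (a.U i F), norm_sub_rev F ((a.U i).symm F), norm_symm_sub] at e1
    linarith
  exact (pow_le_pow_left₀ (norm_nonneg _) h2 2).trans (jensen_sq _)

theorem norm_A_le : ‖a.A F‖ ^ 2 ≤ a.V F := by
  have h1 : a.A F = ∑ i, a.p i • ((1 / 2 : ℝ) • ((a.U i F - F) - ((a.U i).symm F - F))) := by
    rw [A, Z, Zs, ← Finset.sum_sub_distrib, Finset.smul_sum]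
    exact Finset.sum_congr rfl fun i _ => by module
  have h2 : ‖a.A F‖ ≤ ∑ i, a.p i * ‖a.U i F - F‖ := by
    rw [h1]
    refine (norm_sum_le _ _).trans (Finset.sum_le_sum fun i _ => ?_)
    rw [norm_smul, norm_smul, Real.norm_of_nonneg (a.hp i), Real.norm_of_nonneg (by norm_num)]
    refine mul_le_mul_of_nonneg_left ?_ (a.hp i)
    have e1 := norm_sub_le (a.U i F - F) ((a.U i).symm F - F)
    rw [norm_symm_sub] at e1
    linarith
  exact (pow_le_pow_left₀ (norm_nonneg _) h2 2).trans (jensen_sq _)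

theorem Comm.norm_XA_le (h : Comm a b) : ‖a.X (b.A F)‖ ^ 2 ≤ a.EM2 b F := by
  rw [h.EM2_eq]
  refine norm_X_le.trans (Finset.sum_le_sum fun i _ => mul_le_mul_of_nonneg_left ?_ (a.hp i))
  rw [h.U_A i, ← A_sub]
  exact norm_A_le

/-- **(c)** The cross term. -/
theorem Comm.cross_le (h : Comm a b) (ha : Comm a a) (hb : Comm b b) :
    |⟪a.A F, b.A F⟫| ≤ (1 / 4) * |⟪(a.mul a).A F, (b.mul b).A F⟫| +
      Real.sqrt (a.EM2 b F) * (Real.sqrt (a.V F) + Real.sqrt (b.V F)) + a.EM2 b F := by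
  have hM := Real.sqrt_nonneg (a.EM2 b F)
  have n1 : ‖a.X (b.A F)‖ ≤ Real.sqrt (a.EM2 b F) := Real.le_sqrt_of_sq_le h.norm_XA_le
  have n2 : ‖b.X (a.A F)‖ ≤ Real.sqrt (a.EM2 b F) := by
    refine Real.le_sqrt_of_sq_le ?_
    rw [h.EM2_comm]
    exact h.symm.norm_XA_le
  have n3 : ‖a.A F‖ ≤ Real.sqrt (a.V F) := Real.le_sqrt_of_sq_le norm_A_le
  have n4 : ‖b.A F‖ ≤ Real.sqrt (b.V F) := Real.le_sqrt_of_sq_le norm_A_le
  have c1 : |⟪a.A F, a.X (b.A F)⟫| ≤ Real.sqrt (a.V F) * Real.sqrt (a.EM2 b F) :=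
    (abs_real_inner_le_norm _ _).trans (mul_le_mul n3 n1 (norm_nonneg _) (Real.sqrt_nonneg _))
  have c2 : |⟪b.X (a.A F), b.A F⟫| ≤ Real.sqrt (a.EM2 b F) * Real.sqrt (b.V F) :=
    (abs_real_inner_le_norm _ _).trans (mul_le_mul n2 n4 (norm_nonneg _) hM)
  have c3 : |⟪b.X (a.A F), a.X (b.A F)⟫| ≤ a.EM2 b F := by
    refine (abs_real_inner_le_norm _ _).trans ((mul_le_mul n2 n1 (norm_nonneg _) hM).trans ?_)
    rw [Real.mul_self_sqrt EM2_nonneg]
  rw [h.cross ha hb]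
  have t1 := abs_le.1 c1
  have t2 := abs_le.1 c2
  have t3 := abs_le.1 c3
  have t4 := abs_le.1 (le_refl |⟪(a.mul a).A F, (b.mul b).A F⟫|)
  rw [abs_le]
  constructor <;> nlinarith [t1.1, t1.2, t2.1, t2.2, t3.1, t3.2, t4.1, t4.2]

/-- The cross term is at most the variance. -/
theorem cross_triv : |⟪a.A F, b.A F⟫| ≤ (a.V F + b.V F) / 2 := by
  have n3 : ‖a.A F‖ ^ 2 ≤ a.V F := norm_A_le
  have n4 : ‖b.A F‖ ^ 2 ≤ b.V F := norm_A_le
  refine (abs_real_inner_le_norm _ _).trans ?_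
  nlinarith [sq_nonneg (‖a.A F‖ - ‖b.A F‖)]

end Fam

end

end Pool.Agent.W_7d29a1_Z
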